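import Pool.Agent.MSC.Laur

/-!
# Böttcher coordinates at infinity
-/

namespace Pool.Agent.MSC

open Polynomial

variable {F : Type*} [Field F]

/-- The coefficients below `p` vanish and the coefficient at `p` is `a`. -/
private def BL (x : Om F) (p : ℤ) (a : F) : Prop := (∀ j < p, x.coeff j = 0) ∧ x.coeff p = a

private theorem BL_zero (p : ℤ) : BL (0 : Om F) p 0 := ⟨fun j _ => coeff_zero j, coeff_zero p⟩

private theorem BL_add {x y : Om F} {p : ℤ} {a b : F} (hx : BL x p a) (hy : BL y p b) :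
    BL (x + y) p (a + b) := by
  refine ⟨fun j hj => ?_, ?_⟩
  · rw [coeff_add, hx.1 j hj, hy.1 j hj, add_zero]
  · rw [coeff_add, hx.2, hy.2]

private theorem BL_sub {x y : Om F} {p : ℤ} {a b : F} (hx : BL x p a) (hy : BL y p b) :
    BL (x - y) p (a - b) := by
  refine ⟨fun j hj => ?_, ?_⟩
  · rw [coeff_sub, hx.1 j hj, hy.1 j hj, sub_zero]
  · rw [coeff_sub, hx.2, hy.2]

private theorem BL_sum {ι : Type*} (s : Finset ι) {f : ι → Om F} {p : ℤ} {a : ι → F}
    (h : ∀ i ∈ s, BL (f i) p (a i)) : BL (∑ i ∈ s, f i) p (∑ i ∈ s, a i) := by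
  classical
  induction s using Finset.induction_on with
  | empty =>
    rw [Finset.sum_empty, Finset.sum_empty]
    exact BL_zero p
  | insert i s hi ih =>
    rw [Finset.sum_insert hi, Finset.sum_insert hi]
    exact BL_add (h i (Finset.mem_insert_self _ _))
      (ih fun j hj => h j (Finset.mem_insert_of_mem hj))

private theorem BL_lift {x : Om F} {p q : ℤ} {a : F} (hx : BL x p a) (hq : q < p) : BL x q 0 :=
  ⟨fun j hj => hx.1 j (hj.trans hq), hx.1 q hq⟩

private theorem BL_C (c : F) : BL (algebraMap F (Om F) c) 0 c := by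
  refine ⟨fun j hj => ?_, ?_⟩
  · rw [coeff_C, if_neg hj.ne]
  · rw [coeff_C, if_pos rfl]

private theorem BL_mul {x y : Om F} {p q : ℤ} {a b : F} (hx : BL x p a) (hy : BL y q b) :
    BL (x * y) (p + q) (a * b) := by
  by_cases hx0 : x = 0
  · have ha : a = 0 := by rw [← hx.2, hx0, coeff_zero]
    rw [hx0, ha, zero_mul, zero_mul]
    exact BL_zero _
  by_cases hy0 : y = 0
  · have hb : b = 0 := by rw [← hy.2, hy0, coeff_zero]
    rw [hy0, hb, mul_zero, mul_zero]
    exact BL_zero _
  have h1 := le_ord hx0 hx.1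
  have h2 := le_ord hy0 hy.1
  have h3 := ord_mul hx0 hy0
  refine ⟨fun j hj => coeff_of_lt (by omega), ?_⟩
  rcases h1.lt_or_eq with h4 | h4
  · rw [coeff_of_lt (by omega), ← hx.2, coeff_of_lt h4, zero_mul]
  rcases h2.lt_or_eq with h5 | h5
  · rw [coeff_of_lt (by omega), ← hy.2, coeff_of_lt h5, mul_zero]
  rw [← hx.2, ← hy.2, h4, h5]
  have h6 := HahnSeries.coeff_mul_order_add_order (x : HahnSeries ℤ F) (y : HahnSeries ℤ F)
  rw [HahnSeries.leadingCoeff_eq, HahnSeries.leadingCoeff_eq] at h6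
  exact h6

private theorem BL_pow {x : Om F} {p : ℤ} {a : F} (hx : BL x p a) (n : ℕ) :
    BL (x ^ n) (n * p) (a ^ n) := by
  induction n with
  | zero =>
    have := BL_C (F := F) 1
    rw [map_one] at this
    simpa using this
  | succ n ih =>
    have h := BL_mul ih hx
    rw [pow_succ, pow_succ]
    have e : ((n + 1 : ℕ) : ℤ) * p = n * p + p := by push_cast; ring
    rw [e]
    exact h

private theorem BL_aeval {x : Om F} {m : ℤ} (hm : 0 < m) {c : F} (h : BL x (-m) c) {g : F[X]}
    {D : ℕ} (hg : g.natDegree = D) : BL (aeval x g) (-(m * D)) (g.leadingCoeff * c ^ D) := by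
  rw [aeval_eq_sum_range, hg, Finset.sum_range_succ]
  have h1 : ∀ i ∈ Finset.range D, BL (g.coeff i • x ^ i) (-(m * D)) ((fun _ => (0 : F)) i) := by
    intro i hi
    have hi' : (i : ℤ) + 1 ≤ D := by exact_mod_cast Finset.mem_range.1 hi
    have h2 := BL_mul (BL_C (g.coeff i)) (BL_pow h i)
    rw [Algebra.smul_def]
    exact BL_lift h2 (by nlinarith)
  have h2 := BL_sum _ h1
  have h3 : BL (g.coeff D • x ^ D) (-(m * D)) (g.leadingCoeff * c ^ D) := by
    have h4 := BL_mul (BL_C (g.coeff D)) (BL_pow h D)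
    rw [Algebra.smul_def, leadingCoeff, hg]
    have e : (0 : ℤ) + D * -m = -(m * D) := by ring
    rw [e] at h4
    exact h4
  have h4 := BL_add h2 h3
  rw [Finset.sum_const_zero, zero_add] at h4
  exact h4

private theorem BL_pow_sub {x y : Om F} {m k : ℤ} {c r : F} (hx : BL x (-m) c)
    (hy : BL y (-m) c) (hR : BL (x - y) k r) (i : ℕ) :
    BL (x ^ (i + 1) - y ^ (i + 1)) (k - m * i) (r * ((i + 1) * c ^ i)) := by
  rw [← (Commute.all x y).mul_geom_sum₂]
  have h1 : ∀ j ∈ Finset.range (i + 1), BL (x ^ j * y ^ (i + 1 - 1 - j)) (-(m * i))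
      ((fun _ => c ^ i) j) := by
    intro j hj
    have hj' : j ≤ i := Nat.lt_succ_iff.1 (Finset.mem_range.1 hj)
    have h2 := BL_mul (BL_pow hx j) (BL_pow hy (i - j))
    rw [← pow_add, Nat.add_sub_cancel' hj'] at h2
    have e : (j : ℤ) * -m + ((i - j : ℕ) : ℤ) * -m = -(m * i) := by
      rw [Nat.cast_sub hj']
      ring
    rw [e] at h2
    rw [Nat.add_sub_cancel]
    exact h2
  have h2 := BL_mul hR (BL_sum _ h1)
  rw [Finset.sum_const, Finset.card_range, nsmul_eq_mul] at h2
  push_cast at h2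
  exact h2

private theorem BL_diff {x y : Om F} {m k : ℤ} (hm : 0 < m) {c r : F} (hx : BL x (-m) c)
    (hy : BL y (-m) c) (hR : BL (x - y) k r) {g : F[X]} {D : ℕ} (hg : g.natDegree = D)
    (hD : 1 ≤ D) :
    BL (aeval x g - aeval y g) (k - m * (D - 1)) (D * r * (g.leadingCoeff * c ^ (D - 1))) := by
  obtain ⟨d, rfl⟩ : ∃ d, D = d + 1 := ⟨D - 1, by omega⟩
  rw [aeval_eq_sum_range, aeval_eq_sum_range, hg, ← Finset.sum_sub_distrib,
    Finset.sum_range_succ]
  simp only [← smul_sub]
  have e0 : k - m * (((d + 1 : ℕ) : ℤ) - 1) = k - m * d := by push_cast; ring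
  rw [e0]
  have h1 : ∀ i ∈ Finset.range (d + 1), BL (g.coeff i • (x ^ i - y ^ i)) (k - m * d)
      ((fun _ => (0 : F)) i) := by
    intro i hi
    rcases i with _ | i
    · rw [pow_zero, pow_zero, sub_self, smul_zero]
      exact BL_zero _
    · have hi' : (i : ℤ) + 1 ≤ d := by
        have := Finset.mem_range.1 hi
        exact_mod_cast (by omega : i + 1 ≤ d)
      have h2 := BL_mul (BL_C (g.coeff (i + 1))) (BL_pow_sub hx hy hR i)
      rw [Algebra.smul_def]
      exact BL_lift h2 (by nlinarith)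
  have h2 := BL_sum _ h1
  have h3 : BL (g.coeff (d + 1) • (x ^ (d + 1) - y ^ (d + 1))) (k - m * d)
      (((d + 1 : ℕ) : F) * r * (g.leadingCoeff * c ^ (d + 1 - 1))) := by
    have h4 := BL_mul (BL_C (g.coeff (d + 1))) (BL_pow_sub hx hy hR d)
    rw [Algebra.smul_def, leadingCoeff, hg, Nat.add_sub_cancel]
    have e : g.coeff (d + 1) * (r * ((d + 1) * c ^ d)) =
        ((d + 1 : ℕ) : F) * r * (g.coeff (d + 1) * c ^ d) := by
      push_cast
      ring
    rw [← e]
    rw [zero_add] at h4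
    exact h4
  have h4 := BL_add h2 h3
  rw [Finset.sum_const_zero, zero_add] at h4
  exact h4

private theorem BL_exm {D : ℕ} (hD : 0 < D) {x : Om F} {p : ℤ} {a : F} (hx : BL x p a) :
    BL (exm D hD x) (D * p) a := by
  have hD0 : (0 : ℤ) < D := by exact_mod_cast hD
  refine ⟨fun j hj => ?_, ?_⟩
  · rw [exm_coeff]
    split_ifs with h
    · obtain ⟨i, rfl⟩ := h
      rw [Int.mul_ediv_cancel_left _ hD0.ne']
      exact hx.1 i (lt_of_mul_lt_mul_left hj hD0.le)
    · rfl
  · rw [exm_coeff, if_pos ⟨_, rfl⟩, Int.mul_ediv_cancel_left _ hD0.ne', hx.2]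

/-- `r s^k` -/
private noncomputable def mono (k : ℤ) (r : F) : Om F := (HahnSeries.single k r : HahnSeries ℤ F)

private theorem mono_coeff (k : ℤ) (r : F) (j : ℤ) :
    (mono k r).coeff j = if j = k then r else 0 := by
  show (HahnSeries.single k r : HahnSeries ℤ F).coeff j = _
  split_ifs with h
  · rw [h, HahnSeries.coeff_single_same]
  · rw [HahnSeries.coeff_single_of_ne h]

private theorem BL_mono (k : ℤ) (r : F) : BL (mono k r) k r := by
  refine ⟨fun j hj => ?_, ?_⟩
  · rw [mono_coeff, if_neg hj.ne]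
  · rw [mono_coeff, if_pos rfl]

private theorem coeff_split (x y : Om F) (j : ℤ) : x.coeff j = y.coeff j + (x - y).coeff j := by
  rw [coeff_sub, add_sub_cancel]

private theorem lead_eq {h : F[X]} {D : ℕ} (hD : 2 ≤ D) (hh : h.natDegree = D) (hD0 : 0 < D)
    {U : Om F} {c : F} (hc : c ≠ 0) (hU : BL U (-1) c) (hU2 : aeval U h = exm D hD0 U) :
    h.leadingCoeff * c ^ (D - 1) = 1 := by
  have h1 := BL_aeval one_pos hU hh
  have h2 := BL_exm hD0 hU
  have e : (D : ℤ) * (-1) = -(1 * D) := by ring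
  rw [e, ← hU2] at h2
  have h3 := h1.2.symm.trans h2.2
  obtain ⟨d, rfl⟩ : ∃ d, D = d + 1 := ⟨D - 1, by omega⟩
  rw [Nat.add_sub_cancel]
  rw [pow_succ, ← mul_assoc] at h3
  exact mul_right_cancel₀ hc (h3.trans (one_mul c).symm)

/-- **PROOF.** Look for `U = Σ_{k ≥ -1} c_k s^k`. Let `a` be the leading coefficient of `h`,
`D = natDegree h`. The coefficient of `s^(-D)` requires `a c_(-1)^D = c_(-1)`; choose `c_(-1)` with
`a c_(-1)^(D - 1) = 1`. For `k ≥ 0` the coefficient of `s^(k - D + 1)` in `h(U)` is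
`D a c_(-1)^(D - 1) c_k = D c_k` plus a polynomial in the `c_i`, `i < k` (this can be expressed by:
if `U`, `U'` agree up to the exponent `k - 1`, then the coefficient of `s^(k - D + 1)` in `h(U) - h(U')` is
`D (c_k - c'_k)`, and all smaller ones are equal), and the coefficient in `exm D U` is `0` or `c_i` with
`i = (k - D + 1) / D < k`. So the `c_k` can be determined recursively (construct finite
approximations, or use a fixed point argument). -/
theorem exists_bottcher [IsAlgClosed F] [CharZero F] {h : F[X]} {D : ℕ} (hD : 2 ≤ D)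
    (hh : h.natDegree = D) (hD0 : 0 < D) :
    ∃ U : Om F, U.ord = -1 ∧ aeval U h = exm D hD0 U := by
  classical
  have hDz : (2 : ℤ) ≤ D := by exact_mod_cast hD
  have hD1 : 0 < D - 1 := by omega
  have hDF : (D : F) ≠ 0 := by exact_mod_cast hD0.ne'
  have hh0 : h ≠ 0 := by
    rintro rfl
    rw [natDegree_zero] at hh
    omega
  have ha : h.leadingCoeff ≠ 0 := leadingCoeff_ne_zero.2 hh0
  obtain ⟨c, hc⟩ := IsAlgClosed.exists_pow_nat_eq (h.leadingCoeff⁻¹) hD1
  have hc1 : h.leadingCoeff * c ^ (D - 1) = 1 := by rw [hc, mul_inv_cancel₀ ha]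
  have hc0 : c ≠ 0 := by
    rintro rfl
    rw [zero_pow hD1.ne', mul_zero] at hc1
    exact zero_ne_one hc1
  set E : Om F → Om F := fun x => aeval x h - exm D hD0 x with hE
  let f : ℕ → Om F := fun k => Nat.rec (mono (-1) c)
    (fun k x => x + mono k (-(E x).coeff (k - (D - 1)) / D)) k
  have f0 : f 0 = mono (-1) c := rfl
  have fs : ∀ k : ℕ, f (k + 1) = f k + mono k (-(E (f k)).coeff (k - (D - 1)) / D) :=
    fun k => rfl
  -- stability of the coefficients
  have hst1 : ∀ (k : ℕ) (j : ℤ), j < k → (f (k + 1)).coeff j = (f k).coeff j := by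
    intro k j hj
    rw [fs, coeff_add, mono_coeff, if_neg hj.ne, add_zero]
  have hst : ∀ (l k : ℕ) (j : ℤ), k ≤ l → j < k → (f l).coeff j = (f k).coeff j := by
    intro l k j hkl hj
    induction l, hkl using Nat.le_induction with
    | base => rfl
    | succ l hl ih =>
      rw [hst1 l j (hj.trans_le (by exact_mod_cast hl)), ih]
  have hlead : ∀ k : ℕ, BL (f k) (-1) c := by
    intro k
    have h1 : BL (f 0) (-1) c := by rw [f0]; exact BL_mono _ _
    refine ⟨fun j hj => ?_, ?_⟩
    · rw [hst k 0 j (Nat.zero_le _) (by omega)]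
      exact h1.1 j hj
    · rw [hst k 0 (-1) (Nat.zero_le _) (by omega)]
      exact h1.2
  -- comparison of the defects
  have hcmp : ∀ (x y : Om F) (k : ℕ) (r : F), BL x (-1) c → BL y (-1) c →
      BL (x - y) k r → BL (E x - E y) (k - (D - 1)) (D * r) := by
    intro x y k r hx hy hxy
    have h1 := BL_diff one_pos hx hy hxy hh (by omega)
    rw [hc1, mul_one, one_mul] at h1
    have h2 := BL_exm hD0 hxy
    have h3 : (k : ℤ) - (D - 1) < D * k := by
      have : (0 : ℤ) ≤ k := Nat.cast_nonneg k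
      nlinarith
    have h4 := BL_sub h1 (BL_lift h2 h3)
    rw [sub_zero] at h4
    have e : E x - E y = aeval x h - aeval y h - exm D hD0 (x - y) := by
      simp only [hE, map_sub]
      ring
    rw [e]
    exact h4
  have hdef : ∀ (k : ℕ) (j : ℤ), j < k - (D - 1) → (E (f k)).coeff j = 0 := by
    intro k
    induction k with
    | zero =>
      intro j hj
      have h1 := BL_aeval one_pos (hlead 0) hh
      have h2 := BL_exm hD0 (hlead 0)
      have e : (D : ℤ) * (-1) = -(1 * D) := by ring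
      rw [e] at h2
      have h3 := BL_sub h1 h2
      have e2 : h.leadingCoeff * c ^ D - c = 0 := by
        have e3 : c ^ D = c ^ (D - 1) * c := by
          rw [← pow_succ]
          congr 1
          omega
        rw [e3, ← mul_assoc, hc1, one_mul, sub_self]
      rw [e2] at h3
      rcases lt_or_eq_of_le (show j ≤ -(1 * (D : ℤ)) by push_cast at hj; omega) with h4 | h4
      · exact h3.1 j h4
      · rw [h4]
        exact h3.2
    | succ k ih =>
      intro j hj
      have h1 : BL (f (k + 1) - f k) k (-(E (f k)).coeff (k - (D - 1)) / D) := by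
        rw [fs, add_sub_cancel_left]
        exact BL_mono _ _
      have h2 := hcmp _ _ k _ (hlead (k + 1)) (hlead k) h1
      rw [coeff_split (E (f (k + 1))) (E (f k))]
      rcases lt_or_eq_of_le (show j ≤ (k : ℤ) - (D - 1) by push_cast at hj; omega) with h4 | h4
      · rw [ih j h4, h2.1 j h4, add_zero]
      · rw [h4, h2.2]
        field_simp
        ring
  obtain ⟨U, hU⟩ := exists_coeff (fun j => (f (j + 1).toNat).coeff j) (-1) (by
    intro j hj
    exact (hlead _).1 j hj)
  have hUf : ∀ (k : ℕ) (j : ℤ), j < k → (U - f k).coeff j = 0 := by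
    intro k j hj
    rw [coeff_sub, hU, hst k (j + 1).toNat j (by omega) (by omega), sub_self]
  have hUl : BL U (-1) c := by
    refine ⟨fun j hj => ?_, ?_⟩
    · rw [hU]
      exact (hlead _).1 j hj
    · rw [hU]
      exact (hlead ((-1 : ℤ) + 1).toNat).2
  refine ⟨U, (ord_eq (n := -1) ?_ hUl.1).2, ?_⟩
  · rw [hUl.2]
    exact hc0
  · refine Om.ext fun j => ?_
    have h1 : (E U).coeff j = 0 := by
      set k : ℕ := (j + D).toNat with hk
      have hk1 : j < (k : ℤ) - (D - 1) := by omega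
      have h2 := hcmp U (f k) k ((U - f k).coeff k) hUl (hlead k) ⟨hUf k, rfl⟩
      rw [coeff_split (E U) (E (f k)), hdef k j hk1, h2.1 j hk1, add_zero]
    have h2 : (aeval U h).coeff j - (exm D hD0 U).coeff j = 0 := by
      rw [← coeff_sub]
      exact h1
    exact sub_eq_zero.1 h2

/-- **PROOF.** The coefficients `c`, `c'` of `s^(-1)` in `U`, `V` satisfy `a c^(D - 1) = 1 = a c'^(D - 1)`.
Let `κ = c / c'`, then `κ^(D - 1) = 1`, `scal κ U` has the coefficient `c'`, and it is another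
solution (`scal_exm`, `κ^D = κ`). If `R = scal κ U - V ≠ 0` has order `k ≥ 0`: with
`V' = scal κ U`, `h(V') - h(V) = R * S`, where `S` has order `- (D - 1)` (leading coefficient
`D a c'^(D - 1)`), and it is equal to `exm D R`: `k - (D - 1) = D k`, contradiction. -/
theorem bottcher_unique [CharZero F] {h : F[X]} {D : ℕ} (hD : 2 ≤ D)
    (hh : h.natDegree = D) (hD0 : 0 < D) {U V : Om F} (hU : U.ord = -1) (hV : V.ord = -1)
    (hU2 : aeval U h = exm D hD0 U) (hV2 : aeval V h = exm D hD0 V) :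
    ∃ κ : Fˣ, κ ^ (D - 1) = 1 ∧ V = scal κ U := by
  classical
  have hDz : (2 : ℤ) ≤ D := by exact_mod_cast hD
  have hDF : (D : F) ≠ 0 := by exact_mod_cast hD0.ne'
  have hne : ∀ W : Om F, W.ord = -1 → W ≠ 0 := by
    rintro W hW rfl
    rw [ord_zero] at hW
    omega
  have hBL : ∀ W : Om F, W.ord = -1 → W.coeff (-1) ≠ 0 ∧ BL W (-1) (W.coeff (-1)) := by
    intro W hW
    refine ⟨?_, fun j hj => coeff_of_lt (by rw [hW]; exact hj), rfl⟩
    rw [← hW]
    exact coeff_ord (hne W hW)
  obtain ⟨hc, hUl⟩ := hBL U hU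
  obtain ⟨hc', hVl⟩ := hBL V hV
  have hl1 := lead_eq hD hh hD0 hc hUl hU2
  have hl2 := lead_eq hD hh hD0 hc' hVl hV2
  have ha : h.leadingCoeff ≠ 0 := by
    intro h0
    rw [h0, zero_mul] at hl1
    exact zero_ne_one hl1
  set c := U.coeff (-1) with hcdef
  set c' := V.coeff (-1) with hcdef'
  let κ : Fˣ := Units.mk0 (c / c') (div_ne_zero hc hc')
  have hκ : κ ^ (D - 1) = 1 := by
    refine Units.ext ?_
    show (c / c') ^ (D - 1) = 1
    rw [div_pow, div_eq_one_iff_eq (pow_ne_zero _ hc')]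
    exact mul_left_cancel₀ ha (hl1.trans hl2.symm)
  have hκD : κ ^ D = κ := by
    have e : D = (D - 1) + 1 := by omega
    rw [e, pow_succ, hκ, one_mul]
  refine ⟨κ, hκ, ?_⟩
  have hW : aeval (scal κ U) h = exm D hD0 (scal κ U) := by
    rw [aeval_algHom_apply, hU2, scal_exm, hκD]
  have hWl : BL (scal κ U) (-1) c' := by
    refine ⟨fun j hj => ?_, ?_⟩
    · rw [scal_coeff, hUl.1 j hj, mul_zero]
    · rw [scal_coeff, ← hcdef, zpow_neg_one, Units.val_inv_eq_inv_val]
      show (c / c')⁻¹ * c = c'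
      field_simp
  by_contra hVne
  have hR : scal κ U - V ≠ 0 := by
    intro h0
    exact hVne (sub_eq_zero.1 h0).symm
  set R := scal κ U - V with hRdef
  have hk : (0 : ℤ) ≤ R.ord := by
    refine le_ord hR fun j hj => ?_
    rcases lt_or_eq_of_le (show j ≤ -1 by omega) with h1 | h1
    · rw [hRdef, coeff_sub, hWl.1 j h1, hVl.1 j h1, sub_zero]
    · rw [hRdef, coeff_sub, h1, hWl.2, hVl.2, sub_self]
  have hRl : BL R R.ord (R.coeff R.ord) := ⟨fun j hj => coeff_of_lt hj, rfl⟩
  have h1 := BL_diff one_pos hWl hVl hRl hh (by omega)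
  rw [hl2, mul_one, one_mul, hW, hV2, ← map_sub] at h1
  have h2 := (BL_exm hD0 hRl).1 (R.ord - (D - 1)) (by nlinarith)
  have h3 := h1.2
  rw [h2] at h3
  exact mul_ne_zero hDF (coeff_ord hR) h3.symm

/-- **PROOF.** First all exponents of `Z` are divisible by `b`: otherwise let `k > - b` be the
smallest exponent (with nonzero coefficient) not divisible by `b`, and `Z = Z_0 + R`, where `Z_0` collects
the exponents divisible by `b`, `R` has order `k`. `G(Z) = G(Z_0) + R S`, `S` of order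
`- b (D - 1)`; `G(Z_0)` has only exponents divisible by `b`, so the coefficient of `s^(k - b (D - 1))` in
`G(Z) = exm D Z` is not zero, hence `k - b (D - 1) = D k'` with an exponent `k'` of `Z`,
`b ∤ k'`, `k' ≥ k`: `k - b (D - 1) ≥ D k`, `k ≤ - b`, contradiction. So `Z = exm b ξ` by
`exists_exm`, and the equation for `ξ` follows, because `exm b` is injective and commutes with `exm D`. -/
theorem exists_root_of_semiconj [CharZero F] {G : F[X]} {D : ℕ} (hD : 2 ≤ D)
    (hG : G.natDegree = D) (hD0 : 0 < D) {Z : Om F} {b : ℕ} (hb : 0 < b) (hZ : Z.ord = -(b : ℤ))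
    (hZ2 : aeval Z G = exm D hD0 Z) :
    ∃ ξ : Om F, exm b hb ξ = Z ∧ ξ.ord = -1 ∧ aeval ξ G = exm D hD0 ξ := by
  classical
  have hDz : (2 : ℤ) ≤ D := by exact_mod_cast hD
  have hbz : (0 : ℤ) < b := by exact_mod_cast hb
  have hDF : (D : F) ≠ 0 := by exact_mod_cast hD0.ne'
  have hG0 : G ≠ 0 := by
    rintro rfl
    rw [natDegree_zero] at hG
    omega
  have ha : G.leadingCoeff ≠ 0 := leadingCoeff_ne_zero.2 hG0
  have hZ0 : Z ≠ 0 := by
    rintro rfl
    rw [ord_zero] at hZ
    omega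
  set c := Z.coeff (-b) with hcdef
  have hc : c ≠ 0 := by
    rw [hcdef, ← hZ]
    exact coeff_ord hZ0
  have hZl : BL Z (-b) c := ⟨fun j hj => coeff_of_lt (by rw [hZ]; exact hj), rfl⟩
  have hdiv : ∀ k : ℤ, ¬ (b : ℤ) ∣ k → Z.coeff k = 0 := by
    by_contra hcon
    push Not at hcon
    have hex : ∃ n : ℕ, ¬ (b : ℤ) ∣ (-b + n : ℤ) ∧ Z.coeff (-b + n) ≠ 0 := by
      obtain ⟨k, hk1, hk2⟩ := hcon
      have h1 : -(b : ℤ) ≤ k := by
        by_contra h2
        exact hk2 (hZl.1 k (not_le.1 h2))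
      refine ⟨(k + b).toNat, ?_⟩
      have e : (-b + (k + b).toNat : ℤ) = k := by omega
      rw [e]
      exact ⟨hk1, hk2⟩
    set n := Nat.find hex with hn
    obtain ⟨hn1, hn2⟩ := Nat.find_spec hex
    rw [← hn] at hn1 hn2
    have hmin : ∀ j : ℤ, ¬ (b : ℤ) ∣ j → Z.coeff j ≠ 0 → (-b + n : ℤ) ≤ j := by
      intro j hj1 hj2
      have h1 : -(b : ℤ) ≤ j := by
        by_contra h2
        exact hj2 (hZl.1 j (not_le.1 h2))
      have e : (-b + (j + b).toNat : ℤ) = j := by omega
      have h2 : n ≤ (j + b).toNat := Nat.find_min' hex (by rw [e]; exact ⟨hj1, hj2⟩)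
      omega
    set k : ℤ := -b + n with hk
    have hkb : -(b : ℤ) < k := by
      have h1 : n ≠ 0 := by
        intro h0
        apply hn1
        rw [hk, h0]
        simp
      omega
    obtain ⟨Z₀, hZ₀⟩ := exists_coeff (fun j => if (b : ℤ) ∣ j then Z.coeff j else 0) (-b) (by
      intro j hj
      show (if (b : ℤ) ∣ j then Z.coeff j else 0) = 0
      rw [hZl.1 j hj]
      simp)
    have hZ₀l : BL Z₀ (-b) c := by
      refine ⟨fun j hj => ?_, ?_⟩
      · rw [hZ₀, hZl.1 j hj]
        simp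
      · rw [hZ₀, if_pos ((dvd_neg).2 (dvd_refl _))]
    have hR : BL (Z - Z₀) k (Z.coeff k) := by
      refine ⟨fun j hj => ?_, ?_⟩
      · rw [coeff_sub, hZ₀]
        split_ifs with h1
        · rw [sub_self]
        · rw [sub_zero]
          by_contra h2
          exact absurd (hmin j h1 h2) (not_le.2 hj)
      · rw [coeff_sub, hZ₀, if_neg hn1, sub_zero]
    have h1 := (BL_diff hbz hZl hZ₀l hR hG (by omega)).2
    obtain ⟨y, hy⟩ := exists_exm hb (x := Z₀) (by
      intro j hj
      rw [hZ₀, if_neg hj])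
    have h2 : (aeval Z₀ G).coeff (k - b * (D - 1)) = 0 := by
      rw [← hy, aeval_algHom_apply, exm_coeff, if_neg]
      intro h3
      exact hn1 ((dvd_sub_left (dvd_mul_right _ _)).1 h3)
    rw [coeff_sub, h2, sub_zero, hZ2, exm_coeff] at h1
    have h3 : (D : F) * Z.coeff k * (G.leadingCoeff * c ^ (D - 1)) ≠ 0 :=
      mul_ne_zero (mul_ne_zero hDF hn2) (mul_ne_zero ha (pow_ne_zero _ hc))
    rw [← h1] at h3
    split_ifs at h3 with h4
    · obtain ⟨k', hk'⟩ := h4
      rw [hk', Int.mul_ediv_cancel_left _ (by omega)] at h3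
      have h5 : ¬ (b : ℤ) ∣ k' := by
        intro h6
        apply hn1
        apply (dvd_sub_left (dvd_mul_right (b : ℤ) ((D : ℤ) - 1))).1
        rw [hk']
        exact h6.mul_left _
      have h6 := hmin k' h5 h3
      nlinarith
    · exact h3 rfl
  obtain ⟨ξ, hξ⟩ := exists_exm hb hdiv
  refine ⟨ξ, hξ, ?_, ?_⟩
  · have h1 := exm_ord b hb ξ
    rw [hξ, hZ] at h1
    have h2 : (b : ℤ) * (ξ.ord + 1) = 0 := by rw [mul_add, ← h1]; ring
    rcases mul_eq_zero.1 h2 with h3 | h3
    · omega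
    · omega
  · have hinj : Function.Injective (exm b hb : Om F →ₐ[F] Om F) :=
      (exm b hb : Om F →ₐ[F] Om F).toRingHom.injective
    apply hinj
    rw [← aeval_algHom_apply, hξ, hZ2, ← hξ, exm_exm, exm_exm]
    refine Om.ext fun j => ?_
    rw [exm_coeff, exm_coeff, mul_comm D b]

end Pool.Agent.MSC
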