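import Pool.Agent.MSC.Sub

/-!
# Factors of the specialisations of an irreducible polynomial
-/

set_option linter.all false

namespace Pool.Agent.MSC

open Pool.Agent.PrepH

variable {F : Type*} [Field F] [IsAlgClosed F] [CharZero F] {n : ℕ}

/-- Some of the variables become coefficients. -/
private noncomputable def Cs_phi {A : Type*} [CommRing A] [Algebra F A] (S : Fin n → Option A) :
    MvPolynomial (Fin n) F →ₐ[F] MvPolynomial (Fin n) A :=
  MvPolynomial.aeval (fun i => (S i).elim (MvPolynomial.X i) (fun a => MvPolynomial.C a))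

private theorem Cs_phi_C {A : Type*} [CommRing A] [Algebra F A] (S : Fin n → Option A) (r : F) :
    Cs_phi S (MvPolynomial.C r) = MvPolynomial.C (algebraMap F A r) := by
  have h : (MvPolynomial.C r : MvPolynomial (Fin n) F) = algebraMap F _ r := rfl
  rw [h, AlgHom.commutes]
  rfl

private theorem Cs_phi_X {A : Type*} [CommRing A] [Algebra F A] (S : Fin n → Option A)
    (i : Fin n) :
    Cs_phi S (MvPolynomial.X i : MvPolynomial (Fin n) F) =
      (S i).elim (MvPolynomial.X i) (fun a => MvPolynomial.C a) :=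
  MvPolynomial.aeval_X _ _

private theorem Cs_back {A : Type*} [CommRing A] [Algebra F A] (S : Fin n → Option A)
    (ψ : A →ₐ[F] MvPolynomial (Fin n) F)
    (hψ : ∀ i a, S i = some a → ψ a = MvPolynomial.X i) (H : MvPolynomial (Fin n) F) :
    MvPolynomial.eval₂Hom (ψ : A →+* MvPolynomial (Fin n) F) MvPolynomial.X (Cs_phi S H) = H := by
  have h : (MvPolynomial.eval₂Hom (ψ : A →+* MvPolynomial (Fin n) F) MvPolynomial.X).comp
      ((Cs_phi S : MvPolynomial (Fin n) F →ₐ[F] MvPolynomial (Fin n) A) :
        MvPolynomial (Fin n) F →+* MvPolynomial (Fin n) A) = RingHom.id _ := by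
    apply MvPolynomial.ringHom_ext
    · intro r
      show MvPolynomial.eval₂Hom _ _ (Cs_phi S (MvPolynomial.C r)) = MvPolynomial.C r
      rw [Cs_phi_C, MvPolynomial.eval₂Hom_C]
      exact ψ.commutes r
    · intro i
      show MvPolynomial.eval₂Hom _ _ (Cs_phi S (MvPolynomial.X i)) = MvPolynomial.X i
      rw [Cs_phi_X]
      rcases hS : S i with _ | a
      · exact MvPolynomial.eval₂Hom_X' _ _ _
      · rw [Option.elim_some, MvPolynomial.eval₂Hom_C]
        exact hψ i a hS
  exact RingHom.congr_fun h H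

private theorem Cs_map {A : Type*} [CommRing A] [Algebra F A] (S : Fin n → Option A)
    (e : A →ₐ[F] F) (H : MvPolynomial (Fin n) F) :
    MvPolynomial.map (e : A →+* F) (Cs_phi S H) = MvPolynomial.aeval
      (fun i => (S i).elim (MvPolynomial.X i) (fun a => MvPolynomial.C (e a))) H := by
  have h : (MvPolynomial.map (σ := Fin n) (e : A →+* F)).comp
      ((Cs_phi S : MvPolynomial (Fin n) F →ₐ[F] MvPolynomial (Fin n) A) :
        MvPolynomial (Fin n) F →+* MvPolynomial (Fin n) A) =
      ((MvPolynomial.aeval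
      (fun i => (S i).elim (MvPolynomial.X i) (fun a => MvPolynomial.C (e a))) :
        MvPolynomial (Fin n) F →ₐ[F] MvPolynomial (Fin n) F) :
        MvPolynomial (Fin n) F →+* MvPolynomial (Fin n) F) := by
    apply MvPolynomial.ringHom_ext
    · intro r
      show MvPolynomial.map _ (Cs_phi S (MvPolynomial.C r)) =
        MvPolynomial.aeval _ (MvPolynomial.C r)
      rw [Cs_phi_C, MvPolynomial.map_C, MvPolynomial.aeval_C]
      show MvPolynomial.C (e (algebraMap F A r)) = _
      rw [e.commutes]
      rfl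
    · intro i
      show MvPolynomial.map _ (Cs_phi S (MvPolynomial.X i)) =
        MvPolynomial.aeval _ (MvPolynomial.X i)
      rw [Cs_phi_X, MvPolynomial.aeval_X]
      rcases hS : S i with _ | a
      · exact MvPolynomial.map_X _ _
      · rw [Option.elim_some, Option.elim_some, MvPolynomial.map_C]
        rfl
  exact RingHom.congr_fun h H

/-- One variable as coefficient. -/
private noncomputable def Cs_S (i₀ : Fin n) : Fin n → Option (Polynomial F) :=
  fun i => if i = i₀ then some Polynomial.X else none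

private theorem Cs_ev0 (i₀ : Fin n) (c : F) (H : MvPolynomial (Fin n) F) :
    ev0 i₀ c H = MvPolynomial.map ((Polynomial.aeval c : Polynomial F →ₐ[F] F) :
      Polynomial F →+* F) (Cs_phi (Cs_S (F := F) i₀) H) := by
  rw [Cs_map, ev0]
  congr 2
  funext i
  unfold Cs_S
  split_ifs with h
  · rw [Option.elim_some, Polynomial.aeval_X]
  · rfl

private theorem Cs_back1 (i₀ : Fin n) (H : MvPolynomial (Fin n) F) :
    MvPolynomial.eval₂Hom ((Polynomial.aeval (MvPolynomial.X i₀) :
      Polynomial F →ₐ[F] MvPolynomial (Fin n) F) : Polynomial F →+* MvPolynomial (Fin n) F)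
      MvPolynomial.X (Cs_phi (Cs_S (F := F) i₀) H) = H := by
  apply Cs_back
  intro i a h
  unfold Cs_S at h
  split_ifs at h with h1
  · rw [Option.some.injEq] at h
    rw [← h, Polynomial.aeval_X, h1]

private theorem Cs_coeff_ev0 (i₀ : Fin n) (c : F) (H : MvPolynomial (Fin n) F) (μ : Fin n →₀ ℕ) :
    (ev0 i₀ c H).coeff μ = ((Cs_phi (Cs_S (F := F) i₀) H).coeff μ).eval c := by
  rw [Cs_ev0, MvPolynomial.coeff_map]
  rfl

private theorem Cs_zero {H : MvPolynomial (Fin n) F} {i₀ : Fin n}
    (h : {c : F | ev0 i₀ c H = 0}.Infinite) : H = 0 := by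
  have h1 : Cs_phi (Cs_S (F := F) i₀) H = 0 := by
    ext1 μ
    rw [MvPolynomial.coeff_zero]
    by_contra hne
    apply h
    refine (Polynomial.finite_setOf_isRoot hne).subset ?_
    intro c hc
    show ((Cs_phi (Cs_S (F := F) i₀) H).coeff μ).eval c = 0
    rw [← Cs_coeff_ev0, show ev0 i₀ c H = 0 from hc, MvPolynomial.coeff_zero]
  rw [← Cs_back1 i₀ H, h1, map_zero]

/-- **PROOF.** Write `H` as a polynomial in the variables other than `i₀` with coefficients in
`F[x_(i₀)]`; a nonconstant monomial occurs with a nonzero coefficient `h(x_(i₀))`, which vanishes only for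
finitely many `c`. -/
theorem ev0_nonunit {H : MvPolynomial (Fin n) F} {i₀ l : Fin n} (hl : l ≠ i₀) (hlv : l ∈ H.vars) :
    {c : F | IsUnit (ev0 i₀ c H) ∨ ev0 i₀ c H = 0}.Finite := by
  have h1 : ∃ μ : Fin n →₀ ℕ, μ ≠ 0 ∧ (Cs_phi (Cs_S (F := F) i₀) H).coeff μ ≠ 0 := by
    by_contra hcon
    push Not at hcon
    have h2 : Cs_phi (Cs_S (F := F) i₀) H = MvPolynomial.C ((Cs_phi (Cs_S (F := F) i₀) H).coeff 0) := by
      ext1 μ
      rw [MvPolynomial.coeff_C]
      split_ifs with h
      · rw [h]
      · exact hcon μ (Ne.symm h)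
    have h3 := Cs_back1 i₀ H
    rw [h2, MvPolynomial.eval₂Hom_C] at h3
    have h4 : H ∈ MvPolynomial.supported F ({i₀} : Set (Fin n)) := by
      rw [← h3, MvPolynomial.supported, Set.image_singleton]
      exact Polynomial.aeval_mem_adjoin_singleton F _
    rw [MvPolynomial.mem_supported] at h4
    exact hl (h4 (Finset.mem_coe.2 hlv))
  obtain ⟨μ, hμ, hne⟩ := h1
  refine (Polynomial.finite_setOf_isRoot hne).subset ?_
  intro c hc
  show ((Cs_phi (Cs_S (F := F) i₀) H).coeff μ).eval c = 0
  rw [← Cs_coeff_ev0]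
  rcases hc with hc | hc
  · obtain ⟨r, -, hr⟩ := MvPolynomial.isUnit_iff_eq_C_of_isReduced.1 hc
    rw [hr, MvPolynomial.coeff_C, if_neg (Ne.symm hμ)]
  · rw [hc, MvPolynomial.coeff_zero]

/-- **PROOF.** Substituting `x_j = g(x_i)` in `H` gives a polynomial in the variables other than `j`,
which vanishes after `x_(i₀) = c` for infinitely many `c`, so it is zero, and `X j - g(X i)` (monic
of degree one in `X j`) divides `H`. -/
theorem caseA {H : MvPolynomial (Fin n) F} {i₀ i j : Fin n} (hij : i ≠ j) (hi : i ≠ i₀)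
    (hj : j ≠ i₀) (g : Polynomial F)
    (h : {c : F | (MvPolynomial.X j - Polynomial.aeval (MvPolynomial.X i) g) ∣
      ev0 i₀ c H}.Infinite) :
    (MvPolynomial.X j - Polynomial.aeval (MvPolynomial.X i) g) ∣ H := by
  classical
  set σ : MvPolynomial (Fin n) F →ₐ[F] MvPolynomial (Fin n) F := MvPolynomial.aeval
    (fun k => if k = j then Polynomial.aeval (MvPolynomial.X i) g else MvPolynomial.X k) with hσ
  have hσX : ∀ k, σ (MvPolynomial.X k) =
      if k = j then Polynomial.aeval (MvPolynomial.X i) g else MvPolynomial.X k :=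
    fun k => MvPolynomial.aeval_X _ _
  have hdiff : ∀ p : MvPolynomial (Fin n) F,
      (MvPolynomial.X j - Polynomial.aeval (MvPolynomial.X i) g) ∣ p - σ p := by
    intro p
    induction p using MvPolynomial.induction_on with
    | C a =>
      have : σ (MvPolynomial.C a) = MvPolynomial.C a := σ.commutes a
      rw [this, sub_self]
      exact dvd_zero _
    | add p q hp hq =>
      rw [map_add, add_sub_add_comm]
      exact dvd_add hp hq
    | mul_X p k hp =>
      rw [map_mul, hσX]
      split_ifs with hk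
      · subst hk
        have : p * MvPolynomial.X k - σ p * Polynomial.aeval (MvPolynomial.X i) g =
            (p - σ p) * MvPolynomial.X k +
              σ p * (MvPolynomial.X k - Polynomial.aeval (MvPolynomial.X i) g) := by ring
        rw [this]
        exact dvd_add (Dvd.dvd.mul_right hp _) (Dvd.intro_left _ rfl)
      · rw [← _root_.sub_mul]
        exact Dvd.dvd.mul_right hp _
  have hσ0 : σ (MvPolynomial.X j - Polynomial.aeval (MvPolynomial.X i) g) = 0 := by
    rw [map_sub, hσX, if_pos rfl, ← Polynomial.aeval_algHom_apply, hσX, if_neg hij, sub_self]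
  have hcomm : ∀ c : F, σ (ev0 i₀ c H) = ev0 i₀ c (σ H) := by
    intro c
    have h1 : (σ.comp (MvPolynomial.aeval
        (fun k => if k = i₀ then MvPolynomial.C c else MvPolynomial.X k) :
          MvPolynomial (Fin n) F →ₐ[F] MvPolynomial (Fin n) F)) =
        ((MvPolynomial.aeval
        (fun k => if k = i₀ then MvPolynomial.C c else MvPolynomial.X k) :
          MvPolynomial (Fin n) F →ₐ[F] MvPolynomial (Fin n) F).comp σ) := by
      apply MvPolynomial.algHom_ext
      intro k
      rw [AlgHom.comp_apply, AlgHom.comp_apply, MvPolynomial.aeval_X, hσX]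
      by_cases h1 : k = i₀
      · subst h1
        rw [if_pos rfl, if_neg (Ne.symm hj), MvPolynomial.aeval_X, if_pos rfl]
        exact σ.commutes c
      · rw [if_neg h1, hσX]
        by_cases h2 : k = j
        · rw [if_pos h2, ← Polynomial.aeval_algHom_apply, MvPolynomial.aeval_X, if_neg hi]
        · rw [if_neg h2, MvPolynomial.aeval_X, if_neg h1]
    exact AlgHom.congr_fun h1 H
  have hσH : σ H = 0 := by
    apply Cs_zero (i₀ := i₀)
    refine h.mono ?_
    intro c hc
    obtain ⟨q, hq⟩ := hc
    show ev0 i₀ c (σ H) = 0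
    rw [← hcomm, hq, map_mul, hσ0, zero_mul]
  have := hdiff H
  rwa [hσH, sub_zero] at this


open Polynomial in
/-- two variables: the first is a coefficient. -/
private noncomputable def Cs_to : MvPolynomial (Fin 2) F →+* F[X][X] :=
  MvPolynomial.eval₂Hom ((C : F[X] →+* F[X][X]).comp (C : F →+* F[X])) ![C X, X]

open Polynomial in
private noncomputable def Cs_fr : F[X][X] →+* MvPolynomial (Fin 2) F :=
  Polynomial.eval₂RingHom ((Polynomial.aeval (MvPolynomial.X 0) :
    F[X] →ₐ[F] MvPolynomial (Fin 2) F) : F[X] →+* MvPolynomial (Fin 2) F) (MvPolynomial.X 1)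

open Polynomial in
private theorem Cs_fr_to (p : MvPolynomial (Fin 2) F) : Cs_fr (Cs_to p) = p := by
  have h : (Cs_fr (F := F)).comp Cs_to = RingHom.id _ := by
    apply MvPolynomial.ringHom_ext
    · intro r
      show Cs_fr (Cs_to (MvPolynomial.C r)) = MvPolynomial.C r
      rw [Cs_to, MvPolynomial.eval₂Hom_C]
      show Cs_fr (C (C r)) = _
      rw [Cs_fr, Polynomial.coe_eval₂RingHom, Polynomial.eval₂_C]
      exact Polynomial.aeval_C _ _
    · intro i
      show Cs_fr (Cs_to (MvPolynomial.X i)) = MvPolynomial.X i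
      rw [Cs_to, MvPolynomial.eval₂Hom_X']
      fin_cases i
      · show Cs_fr (C X) = MvPolynomial.X 0
        rw [Cs_fr, Polynomial.coe_eval₂RingHom, Polynomial.eval₂_C]
        exact Polynomial.aeval_X _
      · show Cs_fr X = MvPolynomial.X 1
        rw [Cs_fr, Polynomial.coe_eval₂RingHom, Polynomial.eval₂_X]
  exact RingHom.congr_fun h p

open Polynomial in
private theorem Cs_to_fr (p : F[X][X]) : Cs_to (Cs_fr p) = p := by
  have h : (Cs_to (F := F)).comp Cs_fr = RingHom.id _ := by
    apply Polynomial.ringHom_ext'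
    · apply Polynomial.ringHom_ext'
      · ext1 r
        show Cs_to (Cs_fr (C (C r))) = C (C r)
        rw [Cs_fr, Polynomial.coe_eval₂RingHom, Polynomial.eval₂_C]
        show Cs_to (Polynomial.aeval (MvPolynomial.X 0) (C r)) = _
        rw [Polynomial.aeval_C]
        show Cs_to (MvPolynomial.C r) = _
        rw [Cs_to, MvPolynomial.eval₂Hom_C]
        rfl
      · show Cs_to (Cs_fr (C X)) = C X
        rw [Cs_fr, Polynomial.coe_eval₂RingHom, Polynomial.eval₂_C]
        show Cs_to (Polynomial.aeval (MvPolynomial.X 0) X) = _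
        rw [Polynomial.aeval_X, Cs_to, MvPolynomial.eval₂Hom_X']
        rfl
    · show Cs_to (Cs_fr X) = X
      rw [Cs_fr, Polynomial.coe_eval₂RingHom, Polynomial.eval₂_X, Cs_to, MvPolynomial.eval₂Hom_X']
      rfl
  exact RingHom.congr_fun h p

open Polynomial in
private noncomputable def Cs_eq : MvPolynomial (Fin 2) F ≃+* F[X][X] :=
  { Cs_to (F := F) with
    invFun := Cs_fr
    left_inv := Cs_fr_to
    right_inv := Cs_to_fr }

open Polynomial in
private theorem Cs_eval (c ζ : F) (p : MvPolynomial (Fin 2) F) :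
    MvPolynomial.eval ![c, ζ] p = ((Cs_to p).eval (C ζ)).eval c := by
  have h : (MvPolynomial.eval ![c, ζ] : MvPolynomial (Fin 2) F →+* F) =
      ((Polynomial.evalRingHom c).comp (Polynomial.evalRingHom (C ζ))).comp Cs_to := by
    apply MvPolynomial.ringHom_ext
    · intro r
      show MvPolynomial.eval _ (MvPolynomial.C r) = ((Cs_to (MvPolynomial.C r)).eval (C ζ)).eval c
      rw [MvPolynomial.eval_C, Cs_to, MvPolynomial.eval₂Hom_C]
      show r = ((C (C r) : F[X][X]).eval (C ζ)).eval c
      rw [Polynomial.eval_C, Polynomial.eval_C]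
    · intro i
      show MvPolynomial.eval _ (MvPolynomial.X i) = ((Cs_to (MvPolynomial.X i)).eval (C ζ)).eval c
      rw [MvPolynomial.eval_X, Cs_to, MvPolynomial.eval₂Hom_X']
      fin_cases i
      · show c = ((C X : F[X][X]).eval (C ζ)).eval c
        rw [Polynomial.eval_C, Polynomial.eval_X]
      · show ζ = ((X : F[X][X]).eval (C ζ)).eval c
        rw [Polynomial.eval_X, Polynomial.eval_C]
  exact RingHom.congr_fun h p

open Polynomial in
/-- Two polynomials in two variables without common factor have common zeros for finitely many values of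
the first variable only.

**PROOF.** Consider them as polynomials in the second variable over `F[x]`: they are coprime over
`F(x)` (Gauss's lemma), so `u p + v q = ρ(x) ≠ 0`; the values of the first variable are roots of `ρ`. -/
theorem finite_common {p q : MvPolynomial (Fin 2) F} (hp : Irreducible p) (hq : ¬ p ∣ q) :
    {c : F | ∃ ζ : F, MvPolynomial.eval ![c, ζ] p = 0 ∧ MvPolynomial.eval ![c, ζ] q = 0}.Finite ∨
      ∃ c : F, Associated p (MvPolynomial.X 0 - MvPolynomial.C c) := by
  classical
  set P : F[X][X] := Cs_to p with hP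
  set Q : F[X][X] := Cs_to q with hQ
  have hPirr : Irreducible P := (MulEquiv.irreducible_iff (Cs_eq (F := F))).2 hp
  have hPQ : ¬ P ∣ Q := by
    intro h
    apply hq
    obtain ⟨R, hR⟩ := h
    refine ⟨Cs_fr R, ?_⟩
    rw [← Cs_fr_to q, ← hQ, hR, map_mul, hP, Cs_fr_to]
  by_cases hdeg : P.natDegree = 0
  · right
    obtain ⟨r, hr⟩ : ∃ r : F[X], P = C r := ⟨P.coeff 0, Polynomial.eq_C_of_natDegree_eq_zero hdeg⟩
    have hrirr : Irreducible r := by
      rw [hr] at hPirr
      refine ⟨fun hu => hPirr.not_isUnit (hu.map C), ?_⟩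
      intro a b hab
      rcases hPirr.isUnit_or_isUnit (a := C a) (b := C b) (by rw [hab, C_mul]) with h | h
      · left; exact Polynomial.isUnit_C.1 h
      · right; exact Polynomial.isUnit_C.1 h
    have hdr : r.degree = 1 := IsAlgClosed.degree_eq_one_of_irreducible F hrirr
    obtain ⟨c, hc⟩ := Polynomial.exists_root_of_degree_eq_one hdr
    refine ⟨c, ?_⟩
    have h1 : Associated (X - C c) r :=
      ((Polynomial.irreducible_X_sub_C c).associated_of_dvd hrirr (Polynomial.dvd_iff_isRoot.2 hc))
    have h2 : Associated (C (X - C c) : F[X][X]) P := by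
      rw [hr]
      exact h1.map (C : F[X] →+* F[X][X])
    have h3 : Associated (Cs_fr (C (X - C c) : F[X][X])) (Cs_fr P) := h2.map (Cs_fr (F := F))
    rw [hP, Cs_fr_to] at h3
    have h4 : Cs_fr (C (X - C c) : F[X][X]) = MvPolynomial.X 0 - MvPolynomial.C c := by
      rw [Cs_fr, Polynomial.coe_eval₂RingHom, Polynomial.eval₂_C]
      show Polynomial.aeval (MvPolynomial.X 0) (X - C c) = _
      rw [map_sub, Polynomial.aeval_X, Polynomial.aeval_C]
      rfl
    rw [h4] at h3
    exact h3.symm
  · left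
    have hprim : P.IsPrimitive := hPirr.isPrimitive hdeg
    let K := FractionRing F[X]
    have hirrK : Irreducible (P.map (algebraMap F[X] K)) :=
      (hprim.irreducible_iff_irreducible_map_fraction_map (K := K)).1 hPirr
    have hndvd : ¬ P.map (algebraMap F[X] K) ∣ Q.map (algebraMap F[X] K) := fun h =>
      hPQ (hprim.dvd_of_fraction_map_dvd_fraction_map h)
    have hcop : IsCoprime (P.map (algebraMap F[X] K)) (Q.map (algebraMap F[X] K)) :=
      (hirrK.coprime_iff_not_dvd).2 hndvd
    obtain ⟨u, v, huv⟩ := hcop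
    obtain ⟨b1, hb1, h1⟩ := IsLocalization.integerNormalization_spec (nonZeroDivisors F[X]) u
    obtain ⟨b2, hb2, h2⟩ := IsLocalization.integerNormalization_spec (nonZeroDivisors F[X]) v
    set u' := IsLocalization.integerNormalization (nonZeroDivisors F[X]) u
    set v' := IsLocalization.integerNormalization (nonZeroDivisors F[X]) v
    have hne : b1 * b2 ≠ 0 := mul_ne_zero (nonZeroDivisors.ne_zero hb1) (nonZeroDivisors.ne_zero hb2)
    have key : C b2 * u' * P + C b1 * v' * Q = C (b1 * b2) := by
      apply Polynomial.map_injective (algebraMap F[X] K) (IsFractionRing.injective F[X] K)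
      rw [Polynomial.map_add, Polynomial.map_mul, Polynomial.map_mul, Polynomial.map_mul,
        Polynomial.map_mul, h1, h2, Polynomial.map_C, Polynomial.map_C, Polynomial.map_C,
        Algebra.smul_def, Algebra.smul_def, map_mul, C_mul]
      have e1 : algebraMap F[X] K[X] b1 = C (algebraMap F[X] K b1) := rfl
      have e2 : algebraMap F[X] K[X] b2 = C (algebraMap F[X] K b2) := rfl
      rw [e1, e2]
      linear_combination (C (algebraMap F[X] K b1) * C (algebraMap F[X] K b2)) * huv
    refine (Polynomial.finite_setOf_isRoot hne).subset ?_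
    rintro c ⟨ζ, hc1, hc2⟩
    show (b1 * b2).eval c = 0
    rw [Cs_eval, ← hP] at hc1
    rw [Cs_eval, ← hQ] at hc2
    have h3 := congrArg (fun w : F[X][X] => (w.eval (C ζ)).eval c) key
    simp only [Polynomial.eval_add, Polynomial.eval_mul, Polynomial.eval_C, hc1, hc2, mul_zero,
      add_zero] at h3
    rw [Polynomial.eval_mul]
    exact h3.symm

/-- Two variables as coefficients. -/
private noncomputable def Cs_S2 (i₀ i : Fin n) : Fin n → Option (MvPolynomial (Fin 2) F) :=
  fun k => if k = i₀ then some (MvPolynomial.X 0) else if k = i then some (MvPolynomial.X 1)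
    else none

private theorem Cs_back2 (i₀ i : Fin n) (H : MvPolynomial (Fin n) F) :
    MvPolynomial.eval₂Hom ((MvPolynomial.rename ![i₀, i] :
      MvPolynomial (Fin 2) F →ₐ[F] MvPolynomial (Fin n) F) :
        MvPolynomial (Fin 2) F →+* MvPolynomial (Fin n) F)
      MvPolynomial.X (Cs_phi (Cs_S2 (F := F) i₀ i) H) = H := by
  apply Cs_back
  intro k a h
  unfold Cs_S2 at h
  split_ifs at h with h1 h2
  · rw [Option.some.injEq] at h
    rw [← h, MvPolynomial.rename_X, h1]
    rfl
  · rw [Option.some.injEq] at h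
    rw [← h, MvPolynomial.rename_X, h2]
    rfl

private theorem Cs_ev2 {i₀ i : Fin n} (hi : i ≠ i₀) (c ζ : F) (H : MvPolynomial (Fin n) F) :
    ev0 i ζ (ev0 i₀ c H) = MvPolynomial.map ((MvPolynomial.aeval ![c, ζ] :
      MvPolynomial (Fin 2) F →ₐ[F] F) : MvPolynomial (Fin 2) F →+* F)
        (Cs_phi (Cs_S2 (F := F) i₀ i) H) := by
  rw [Cs_map, ev0, ev0, ← AlgHom.comp_apply]
  have h1 : ((MvPolynomial.aeval
        (fun k => if k = i then MvPolynomial.C ζ else MvPolynomial.X k) :
          MvPolynomial (Fin n) F →ₐ[F] MvPolynomial (Fin n) F).comp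
      (MvPolynomial.aeval
        (fun k => if k = i₀ then MvPolynomial.C c else MvPolynomial.X k) :
          MvPolynomial (Fin n) F →ₐ[F] MvPolynomial (Fin n) F)) =
      MvPolynomial.aeval (fun k => (Cs_S2 (F := F) i₀ i k).elim (MvPolynomial.X k)
        (fun a => MvPolynomial.C (MvPolynomial.aeval ![c, ζ] a))) := by
    apply MvPolynomial.algHom_ext
    intro k
    rw [AlgHom.comp_apply, MvPolynomial.aeval_X, MvPolynomial.aeval_X]
    unfold Cs_S2
    by_cases h1 : k = i₀
    · rw [if_pos h1, if_pos h1, Option.elim_some, MvPolynomial.aeval_X]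
      exact AlgHom.commutes _ _
    · rw [if_neg h1, if_neg h1, MvPolynomial.aeval_X]
      by_cases h2 : k = i
      · rw [if_pos h2, if_pos h2, Option.elim_some, MvPolynomial.aeval_X]
        rfl
      · rw [if_neg h2, if_neg h2]
        rfl
  exact AlgHom.congr_fun h1 H

private theorem Cs_coeff2 {i₀ i : Fin n} (hi : i ≠ i₀) (c ζ : F) (H : MvPolynomial (Fin n) F)
    (h : (MvPolynomial.X i - MvPolynomial.C ζ) ∣ ev0 i₀ c H) (μ : Fin n →₀ ℕ) :
    MvPolynomial.eval ![c, ζ] ((Cs_phi (Cs_S2 (F := F) i₀ i) H).coeff μ) = 0 := by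
  have h1 : ev0 i ζ (ev0 i₀ c H) = 0 := by
    obtain ⟨q, hq⟩ := h
    rw [hq, ev0_mul]
    have : ev0 i ζ (MvPolynomial.X i - MvPolynomial.C ζ) = 0 := by
      rw [ev0, map_sub, MvPolynomial.aeval_X, if_pos rfl, sub_eq_zero]
      exact (AlgHom.commutes _ _).symm
    rw [this, zero_mul]
  rw [Cs_ev2 hi] at h1
  have h2 := congrArg (MvPolynomial.coeff μ) h1
  rw [MvPolynomial.coeff_map, MvPolynomial.coeff_zero] at h2
  exact h2

/-- **PROOF.** Suppose the set is infinite. Write `H = Σ_μ h_μ(x_(i₀), x_i) x^μ`, `μ` running over the monomials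
in the other variables. `X i - ζ` divides `ev0 i₀ c H` iff `h_μ(c, ζ) = 0` for all `μ`. Take a
`μ` with `h_μ ≠ 0`, and its irreducible factors in `F[x_(i₀), x_i]`: for one of them, `p`, there are
infinitely many `c` such that some `(c, ζ)` is a zero of `p` and of all `h_μ`; `p` is not
associated to `x_(i₀) - c₀` (only one value of `c`). By `finite_common`, `p` divides all `h_μ`, so `p` divides
`H`, so `H` is associated to `p` and `l` is not a variable of `H`, contradiction. -/
theorem caseB {H : MvPolynomial (Fin n) F} (hH : Irreducible H) {i₀ i l : Fin n} (hi : i ≠ i₀)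
    (hl : l ≠ i₀) (hli : l ≠ i) (hlv : l ∈ H.vars) :
    ¬ {c : F | ∃ ζ : F, (MvPolynomial.X i - MvPolynomial.C ζ) ∣ ev0 i₀ c H}.Infinite := by
  classical
  intro hinf
  set Φ := Cs_phi (Cs_S2 (F := F) i₀ i) H with hΦ
  have hback := Cs_back2 i₀ i H
  rw [← hΦ] at hback
  have hΦ0 : Φ ≠ 0 := by
    intro h0
    rw [h0, map_zero] at hback
    exact hH.ne_zero hback.symm
  obtain ⟨μ₀, hμ₀⟩ : ∃ μ, Φ.coeff μ ≠ 0 := by
    by_contra hcon
    push Not at hcon
    exact hΦ0 (by ext1 μ; rw [hcon, MvPolynomial.coeff_zero])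
  set fs := UniqueFactorizationMonoid.factors (Φ.coeff μ₀) with hfs
  -- pigeonhole
  obtain ⟨p, hpf, hpinf⟩ : ∃ p ∈ fs, {c : F | ∃ ζ : F,
      (∀ μ, MvPolynomial.eval ![c, ζ] (Φ.coeff μ) = 0) ∧ MvPolynomial.eval ![c, ζ] p = 0}.Infinite := by
    by_contra hcon
    push Not at hcon
    apply hinf
    have hfin : (⋃ p ∈ fs.toFinset, {c : F | ∃ ζ : F,
        (∀ μ, MvPolynomial.eval ![c, ζ] (Φ.coeff μ) = 0) ∧
          MvPolynomial.eval ![c, ζ] p = 0}).Finite := by
      apply Set.Finite.biUnion (Finset.finite_toSet _)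
      intro p hp
      exact hcon p (Multiset.mem_toFinset.1 hp)
    refine hfin.subset ?_
    rintro c ⟨ζ, hζ⟩
    have h1 : ∀ μ, MvPolynomial.eval ![c, ζ] (Φ.coeff μ) = 0 := Cs_coeff2 hi c ζ H hζ
    have h2 : MvPolynomial.eval ![c, ζ] fs.prod = 0 := by
      have h3 := UniqueFactorizationMonoid.factors_prod hμ₀
      rw [← hfs] at h3
      obtain ⟨w, hw⟩ := h3.symm
      rw [← hw, map_mul, h1 μ₀, zero_mul]
    rw [map_multiset_prod] at h2
    obtain ⟨p, hp, hp0⟩ := Multiset.mem_map.1 (Multiset.prod_eq_zero_iff.1 h2)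
    simp only [Set.mem_iUnion, Multiset.mem_toFinset]
    exact ⟨p, hp, ζ, h1, hp0⟩
  have hpirr : Irreducible p := UniqueFactorizationMonoid.irreducible_of_factor p hpf
  have hpd : ∀ μ, p ∣ Φ.coeff μ := by
    intro μ
    by_contra hnd
    rcases finite_common hpirr hnd with h | ⟨c₀, hc₀⟩
    · apply hpinf
      refine h.subset ?_
      rintro c ⟨ζ, h1, h2⟩
      exact ⟨ζ, h2, h1 μ⟩
    · apply hpinf
      refine (Set.finite_singleton c₀).subset ?_
      rintro c ⟨ζ, -, h2⟩
      obtain ⟨w, hw⟩ := hc₀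
      have h3 := congrArg (MvPolynomial.eval ![c, ζ]) hw
      rw [map_mul, h2, zero_mul, map_sub, MvPolynomial.eval_X, MvPolynomial.eval_C] at h3
      exact (sub_eq_zero.1 h3.symm)
  have hCd : MvPolynomial.C p ∣ Φ := (MvPolynomial.C_dvd_iff_dvd_coeff p Φ).2 hpd
  have hrd : MvPolynomial.rename ![i₀, i] p ∣ H := by
    obtain ⟨w, hw⟩ := hCd
    refine ⟨MvPolynomial.eval₂Hom ((MvPolynomial.rename ![i₀, i] :
      MvPolynomial (Fin 2) F →ₐ[F] MvPolynomial (Fin n) F) :
        MvPolynomial (Fin 2) F →+* MvPolynomial (Fin n) F) MvPolynomial.X w, ?_⟩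
    rw [hw, map_mul, MvPolynomial.eval₂Hom_C] at hback
    exact hback.symm
  have hinj : Function.Injective ![i₀, i] := by
    intro a b hab
    fin_cases a <;> fin_cases b
    · rfl
    · exact absurd hab.symm hi
    · exact absurd hab hi
    · rfl
  obtain ⟨w, hw⟩ := hrd
  rcases hH.isUnit_or_isUnit hw with h | h
  · apply hpirr.not_isUnit
    have h1 := h.map (MvPolynomial.killCompl hinj)
    rwa [MvPolynomial.killCompl_rename_app] at h1
  · obtain ⟨r, -, hr⟩ := MvPolynomial.isUnit_iff_eq_C_of_isReduced.1 h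
    rw [hw, hr] at hlv
    have h1 := MvPolynomial.vars_mul _ _ hlv
    rw [MvPolynomial.vars_C, Finset.union_empty] at h1
    have h2 := MvPolynomial.vars_rename _ _ h1
    rw [Finset.mem_image] at h2
    obtain ⟨a, -, ha⟩ := h2
    fin_cases a
    · exact hl ha.symm
    · exact hli ha.symm

end Pool.Agent.MSC
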