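import Pool.Agent.MSC.Spec

/-!
# A Laurent polynomial semiconjugacy from a power map
-/

namespace Pool.Agent.MSC

open Polynomial Pool.Agent.PrepH

namespace Cheb1

variable {F : Type*} [Field F]

theorem pow_exp {x : F} {m c : ℕ} {N₁ : F[X]} (hN₁ : N₁.degree ≤ (c : WithBot ℕ)) (hc : c < m)
    (d : ℕ) : ∃ R : F[X], (C x * X ^ m + N₁) ^ (d + 1) =
      C (x ^ (d + 1)) * X ^ (m * (d + 1)) + C (((d + 1 : ℕ) : F) * x ^ d) * X ^ (m * d) * N₁ + R ∧
      R.degree < ((m * d + c : ℕ) : WithBot ℕ) := by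
  induction d with
  | zero =>
    refine ⟨0, ?_, ?_⟩
    · simp
    · rw [degree_zero]
      exact WithBot.bot_lt_coe _
  | succ d ih =>
    obtain ⟨R, hR, hd⟩ := ih
    refine ⟨C (((d + 1 : ℕ) : F) * x ^ d) * X ^ (m * d) * N₁ * N₁ + R * (C x * X ^ m + N₁), ?_, ?_⟩
    · rw [pow_succ, hR]
      simp only [C_mul, C_pow, C_add, C_1, Nat.cast_add, Nat.cast_one, Nat.mul_add, mul_one]
      ring
    · have hN : (C x * X ^ m + N₁).degree ≤ ((m : ℕ) : WithBot ℕ) := by
        refine (degree_add_le _ _).trans (max_le ?_ ?_)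
        · exact degree_C_mul_X_pow_le _ _
        · exact hN₁.trans (by exact_mod_cast hc.le)
      refine lt_of_le_of_lt (degree_add_le _ _) (max_lt ?_ ?_)
      · refine lt_of_le_of_lt (degree_mul_le _ _) ?_
        have h1 : (C (((d + 1 : ℕ) : F) * x ^ d) * X ^ (m * d) * N₁).degree ≤
            ((m * d + c : ℕ) : WithBot ℕ) := by
          refine (degree_mul_le _ _).trans ?_
          rw [Nat.cast_add]
          exact add_le_add (degree_C_mul_X_pow_le _ _) hN₁
        refine lt_of_le_of_lt (add_le_add h1 hN₁) ?_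
        have h2 : m * d + c + c < m * (d + 1) + c := by
          rw [Nat.mul_add]
          omega
        exact_mod_cast h2
      · have h2 : ((m * (d + 1) + c : ℕ) : WithBot ℕ) = ((m * d + c : ℕ) : WithBot ℕ) + (m : ℕ) := by
          have h3 : m * (d + 1) + c = m * d + c + m := by ring
          rw [h3]
          push_cast
          rfl
        rw [h2, degree_mul]
        rcases eq_or_ne (C x * X ^ m + N₁) 0 with h0 | h0
        · rw [h0, degree_zero, WithBot.add_bot]
          exact WithBot.bot_lt_coe _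
        · exact WithBot.add_lt_add_of_lt_of_le (by rwa [Ne, degree_eq_bot]) hd hN

/-- The two highest exponents of `G(L(v)) = L(κ v^D)`. -/
theorem top [CharZero F] {G N : F[X]} {k D m c : ℕ} {κ : F} (hD2 : 2 ≤ D)
    (hGD : G.coeff D ≠ 0) (h1 : G.coeff (D - 1) = 0) (hm : m = N.natDegree) (hk : k < m)
    (hN1 : N.eraseLead ≠ 0) (hc : c = N.eraseLead.natDegree) (hκ : κ ≠ 0)
    (h : C (κ ^ k) * ∑ i ∈ Finset.range (D + 1), C (G.coeff i) * N ^ i * X ^ (k * (D - i)) =
      N.comp (C κ * X ^ D)) :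
    ∃ j, 2 ≤ j ∧ j ≤ D ∧ G.coeff (D - j) ≠ 0 ∧ (∀ i, 1 ≤ i → i < j → G.coeff (D - i) = 0) ∧
      (m - k) * j + c = m := by
  have hN0 : N ≠ 0 := by
    rintro rfl
    exact hN1 (by simp)
  set x := N.leadingCoeff with hx
  have hx0 : x ≠ 0 := leadingCoeff_ne_zero.2 hN0
  set N₁ := N.eraseLead with hN₁
  set y := N₁.leadingCoeff with hy
  have hy0 : y ≠ 0 := leadingCoeff_ne_zero.2 hN1
  have hsplit : N = C x * X ^ m + N₁ := by
    rw [hm, add_comm]
    exact (eraseLead_add_C_mul_X_pow N).symm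
  have hcm : c < m := by
    have h2 := degree_eraseLead_lt hN0
    rw [hc, hm]
    exact natDegree_lt_natDegree hN1 h2
  have hN₁d : N₁.degree ≤ (c : WithBot ℕ) := by
    rw [hc]
    exact degree_le_natDegree
  obtain ⟨b, rfl⟩ : ∃ b, m = k + b := ⟨m - k, by omega⟩
  have hb : 1 ≤ b := by omega
  rw [Nat.add_sub_cancel_left]
  obtain ⟨d, rfl⟩ : ∃ d, D = d + 1 := ⟨D - 1, by omega⟩
  have hd1 : 1 ≤ d := by omega
  -- coefficients of `N ^ D`
  obtain ⟨R, hR, hRd⟩ := pow_exp (x := x) hN₁d hcm d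
  rw [← hsplit] at hR
  have hcoefR : ∀ e, (k + b) * d + c ≤ e → R.coeff e = 0 := fun e he =>
    coeff_eq_zero_of_degree_lt (lt_of_lt_of_le hRd (by exact_mod_cast he))
  have hcoefN₁ : ∀ e, c < e → N₁.coeff e = 0 := fun e he =>
    coeff_eq_zero_of_degree_lt (lt_of_le_of_lt hN₁d (by exact_mod_cast he))
  have hDcoef : ∀ e, (k + b) * d + c < e → e < (k + b) * (d + 1) → (N ^ (d + 1)).coeff e = 0 := by
    intro e he1 he2
    rw [hR, coeff_add, coeff_add, coeff_C_mul_X_pow, if_neg (by omega), hcoefR e he1.le, mul_assoc,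
      coeff_C_mul, coeff_X_pow_mul', if_pos (by omega), hcoefN₁ _ (by omega)]
    ring
  have hDcoef1 : (N ^ (d + 1)).coeff ((k + b) * d + c) = ((d + 1 : ℕ) : F) * x ^ d * y := by
    rw [hR, coeff_add, coeff_add, coeff_C_mul_X_pow, if_neg (by rw [Nat.mul_add]; omega),
      hcoefR _ le_rfl, mul_assoc, coeff_C_mul, coeff_X_pow_mul', if_pos (by omega),
      Nat.add_sub_cancel_left, hy, leadingCoeff, ← hc]
    ring
  -- the right side
  have hrhs : ∀ e, c * (d + 1) < e → e < (k + b) * (d + 1) →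
      (N.comp (C κ * X ^ (d + 1))).coeff e = 0 := by
    intro e he1 he2
    have h2 : N.comp (C κ * X ^ (d + 1)) = C (x * κ ^ (k + b)) * X ^ ((k + b) * (d + 1)) +
        N₁.comp (C κ * X ^ (d + 1)) := by
      conv_lhs => rw [hsplit]
      rw [add_comp, mul_comp, C_comp, X_pow_comp, mul_pow, ← pow_mul, C_mul, C_pow,
        Nat.mul_comm (d + 1)]
      ring
    rw [h2, coeff_add, coeff_C_mul_X_pow, if_neg (by omega), zero_add]
    apply coeff_eq_zero_of_natDegree_lt
    rw [natDegree_comp, natDegree_C_mul_X_pow _ _ hκ, ← hc]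
    exact he1
  -- the coefficients of the left side
  have hlhs : ∀ e, (C (κ ^ k) * ∑ i ∈ Finset.range (d + 1 + 1),
      C (G.coeff i) * N ^ i * X ^ (k * (d + 1 - i))).coeff e =
      κ ^ k * (∑ i ∈ Finset.range (d + 1),
        (C (G.coeff i) * N ^ i * X ^ (k * (d + 1 - i))).coeff e +
        G.coeff (d + 1) * (N ^ (d + 1)).coeff e) := by
    intro e
    rw [coeff_C_mul, finsetSum_coeff, Finset.sum_range_succ, Nat.sub_self, Nat.mul_zero, pow_zero,
      mul_one, coeff_C_mul]
  have hterm : ∀ e i, i ≤ d + 1 → (k + b) * (d + 1) < e + b * (d + 1 - i) →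
      (C (G.coeff i) * N ^ i * X ^ (k * (d + 1 - i))).coeff e = 0 := by
    intro e i hi he
    apply coeff_eq_zero_of_natDegree_lt
    have h2 : (C (G.coeff i) * N ^ i * X ^ (k * (d + 1 - i))).natDegree ≤
        i * (k + b) + k * (d + 1 - i) := by
      refine natDegree_mul_le.trans (Nat.add_le_add ?_ (natDegree_X_pow_le _))
      refine (natDegree_C_mul_le _ _).trans ?_
      rw [hm]
      exact natDegree_pow_le
    refine lt_of_le_of_lt h2 ?_
    obtain ⟨r, hr⟩ : ∃ r, d + 1 = i + r := ⟨d + 1 - i, by omega⟩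
    rw [hr, Nat.add_sub_cancel_left] at he ⊢
    nlinarith
  have he1a : c * (d + 1) < (k + b) * d + c := by
    have := Nat.mul_lt_mul_of_pos_right hcm hd1
    rw [Nat.mul_add]
    omega
  have he1b : (k + b) * d + c < (k + b) * (d + 1) := by
    rw [Nat.mul_add (k + b)]
    omega
  have hκk : κ ^ k ≠ 0 := pow_ne_zero _ hκ
  have hne1 : G.coeff (d + 1) * (N ^ (d + 1)).coeff ((k + b) * d + c) ≠ 0 := by
    rw [hDcoef1]
    refine mul_ne_zero hGD (mul_ne_zero (mul_ne_zero ?_ (pow_ne_zero _ hx0)) hy0)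
    exact_mod_cast Nat.succ_ne_zero d
  by_cases hex : ∃ j, 1 ≤ j ∧ j ≤ d + 1 ∧ G.coeff (d + 1 - j) ≠ 0
  swap
  · exfalso
    push Not at hex
    have h2 := congrArg (fun p => p.coeff ((k + b) * d + c)) h
    rw [hlhs, hrhs _ he1a he1b, Finset.sum_eq_zero, zero_add] at h2
    · exact mul_ne_zero hκk hne1 h2
    · intro i hi
      have hi' := Finset.mem_range.1 hi
      have h3 := hex (d + 1 - i) (by omega) (by omega)
      rw [show d + 1 - (d + 1 - i) = i by omega] at h3
      rw [h3]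
      simp
  · classical
    set j := Nat.find hex with hj
    obtain ⟨hj1, hj2, hj3⟩ := Nat.find_spec hex
    rw [← hj] at hj1 hj2 hj3
    have hjmin : ∀ i, 1 ≤ i → i < j → G.coeff (d + 1 - i) = 0 := by
      intro i hi1 hi2
      by_contra hne
      exact Nat.find_min hex hi2 ⟨hi1, by omega, hne⟩
    have hj2' : 2 ≤ j := by
      by_contra hlt
      have : j = 1 := by omega
      rw [this] at hj3
      exact hj3 h1
    refine ⟨j, hj2', hj2, hj3, hjmin, ?_⟩
    -- vanishing of the lower terms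
    have hlow : ∀ e i, i ∈ Finset.range (d + 1) → i ≠ d + 1 - j →
        (k + b) * (d + 1) ≤ e + b * j →
        (C (G.coeff i) * N ^ i * X ^ (k * (d + 1 - i))).coeff e = 0 := by
      intro e i hi hij he
      have hi' := Finset.mem_range.1 hi
      rcases lt_or_ge (d + 1 - i) j with h3 | h3
      · have h4 := hjmin (d + 1 - i) (by omega) h3
        rw [show d + 1 - (d + 1 - i) = i by omega] at h4
        rw [h4]
        simp
      · apply hterm e i (by omega)
        have h5 : j + 1 ≤ d + 1 - i := by omega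
        have h6 := Nat.mul_le_mul_left b h5
        rw [Nat.mul_add, mul_one] at h6
        omega
    rcases lt_trichotomy (b * j + c) (k + b) with hlt | heq | hgt
    · -- the coefficient at `m D - b j`
      exfalso
      obtain ⟨r, hr⟩ : ∃ r, d + 1 = j + r := ⟨d + 1 - j, by omega⟩
      have hrd : d + 1 - j = r := by omega
      have he : ∃ e, e + b * j = (k + b) * (d + 1) := ⟨(k + b) * (d + 1) - b * j, by
        have h2 : b * j ≤ (k + b) * (d + 1) := Nat.mul_le_mul (by omega) hj2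
        omega⟩
      obtain ⟨e, he⟩ := he
      have he2 : e < (k + b) * (d + 1) := by
        have : 1 ≤ b * j := Nat.mul_pos hb (by omega)
        omega
      have he3 : (k + b) * d + c < e := by
        rw [Nat.mul_add (k + b) d 1, mul_one] at he
        omega
      have h2 := congrArg (fun p => p.coeff e) h
      rw [hlhs, hrhs _ (he1a.trans he3) he2, hDcoef _ he3 he2, mul_zero, add_zero,
        Finset.sum_eq_single (d + 1 - j)] at h2
      · rw [hrd, hr, Nat.add_sub_cancel] at h2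
        have h3 : e = r * N.natDegree + k * j := by
          rw [← hm]
          rw [hr] at he
          nlinarith
        rw [h3, mul_assoc, coeff_C_mul, coeff_mul_X_pow, coeff_pow_mul_natDegree] at h2
        rw [hrd] at hj3
        exact mul_ne_zero hκk (mul_ne_zero hj3 (pow_ne_zero _ hx0)) h2
      · intro i hi hij
        exact hlow e i hi hij he.ge
      · intro hni
        exact absurd (Finset.mem_range.2 (by omega)) hni
    · exact heq
    · exfalso
      have h2 := congrArg (fun p => p.coeff ((k + b) * d + c)) h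
      have h7 : (k + b) * (d + 1) < (k + b) * d + c + b * j := by
        rw [Nat.mul_add (k + b) d 1, mul_one]
        omega
      rw [hlhs, hrhs _ he1a he1b, Finset.sum_eq_zero, zero_add] at h2
      · exact mul_ne_zero hκk hne1 h2
      · intro i hi
        by_cases hij : i = d + 1 - j
        · apply hterm _ i (by omega)
          rw [hij, show d + 1 - (d + 1 - j) = j by omega]
          exact h7
        · exact hlow _ i hi hij h7.le

theorem eval_rev {N : F[X]} {v : F} (hv : v ≠ 0) :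
    N.reverse.eval v = v ^ N.natDegree * N.eval v⁻¹ := by
  have hv' : v⁻¹ ≠ 0 := inv_ne_zero hv
  let _ := invertibleOfNonzero hv'
  have h := eval₂_reverse_mul_pow (RingHom.id F) v⁻¹ N
  have h2 : (⅟(v⁻¹) : F) = v := by
    rw [invOf_eq_inv, inv_inv]
  rw [h2] at h
  rw [← eval₂_id (p := N), ← h, eval₂_id]
  rw [mul_comm, mul_assoc, ← mul_pow, inv_mul_cancel₀ hv, one_pow, mul_one]

theorem rev_eq [Infinite F] {G N : F[X]} {k D b : ℕ} {κ : F} (hm : N.natDegree = k + b)
    (hκ : κ ≠ 0)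
    (h : C (κ ^ k) * ∑ i ∈ Finset.range (D + 1), C (G.coeff i) * N ^ i * X ^ (k * (D - i)) =
      N.comp (C κ * X ^ D)) :
    C (κ⁻¹ ^ b) * ∑ i ∈ Finset.range (D + 1), C (G.coeff i) * N.reverse ^ i * X ^ (b * (D - i)) =
      N.reverse.comp (C κ⁻¹ * X ^ D) := by
  apply eq_of_infinite_eval_eq
  apply Set.Infinite.mono (s := ({0}ᶜ : Set F)) _ (Set.Finite.infinite_compl (Set.finite_singleton 0))
  intro v hv
  have hv0 : v ≠ 0 := hv
  show eval v _ = eval v _
  have h2 := congrArg (eval v⁻¹) h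
  rw [eval_mul, eval_C, eval_finsetSum, eval_comp, eval_mul, eval_C, eval_pow, eval_X] at h2 ⊢
  have hne : κ⁻¹ * v ^ D ≠ 0 := mul_ne_zero (inv_ne_zero hκ) (pow_ne_zero _ hv0)
  rw [eval_rev hne, hm, mul_inv, inv_inv, ← inv_pow, ← h2, Finset.mul_sum, Finset.mul_sum,
    Finset.mul_sum]
  refine Finset.sum_congr rfl fun i hi => ?_
  have hi' := Finset.mem_range.1 hi
  obtain ⟨r, rfl⟩ : ∃ r, D = i + r := ⟨D - i, by omega⟩
  simp only [eval_mul, eval_C, eval_pow, eval_X, eval_rev hv0, hm, Nat.add_sub_cancel_left]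
  have hvi : v⁻¹ * v = 1 := inv_mul_cancel₀ hv0
  have hki : κ⁻¹ * κ = 1 := inv_mul_cancel₀ hκ
  have e1 : (κ⁻¹ * v ^ (i + r)) ^ (k + b) * (κ ^ k * (G.coeff i * eval v⁻¹ N ^ i *
      v⁻¹ ^ (k * r))) = κ⁻¹ ^ b * (κ⁻¹ * κ) ^ k * (v⁻¹ * v) ^ (k * r) *
      (G.coeff i * eval v⁻¹ N ^ i * v ^ ((k + b) * i) * v ^ (b * r)) := by
    rw [mul_pow, ← pow_mul, mul_pow κ⁻¹ κ, mul_pow v⁻¹ v, pow_add κ⁻¹,
      show (i + r) * (k + b) = (k + b) * i + b * r + k * r by ring, pow_add v, pow_add v]
    ring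
  rw [e1, hvi, hki, one_pow, one_pow, mul_one, mul_one, mul_pow, ← pow_mul]
  ring

/-- If the coefficient of `T^(D - 1)` vanishes, `N` has only two terms. -/
theorem shape [CharZero F] {G N : F[X]} {k : ℕ} {κ : F} (hG : 2 ≤ G.natDegree)
    (h1 : G.coeff (G.natDegree - 1) = 0) (hk : 1 ≤ k) (hN0 : N.coeff 0 ≠ 0)
    (hN : k < N.natDegree) (hκ : κ ≠ 0)
    (h : C (κ ^ k) * ∑ i ∈ Finset.range (G.natDegree + 1),
      C (G.coeff i) * N ^ i * X ^ (k * (G.natDegree - i)) = N.comp (C κ * X ^ G.natDegree)) :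
    N = C N.leadingCoeff * X ^ (2 * k) + C (N.coeff 0) := by
  have hGD : G.coeff G.natDegree ≠ 0 := by
    have : G ≠ 0 := by
      rintro rfl
      simp at hG
    exact leadingCoeff_ne_zero.2 this
  have hlead : ∀ P : F[X], P.coeff 0 ≠ 0 → 1 ≤ P.natDegree → P.eraseLead ≠ 0 := by
    intro P h0 hd he
    have h2 := eraseLead_coeff_of_ne (f := P) 0 (by omega)
    rw [he, coeff_zero] at h2
    exact h0 h2.symm
  obtain ⟨b, hb⟩ : ∃ b, N.natDegree = k + b := ⟨N.natDegree - k, by omega⟩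
  have hrd : N.reverse.natDegree = k + b := by
    rw [reverse_natDegree, natTrailingDegree_eq_zero.2 (Or.inr hN0), Nat.sub_zero, hb]
  have hN00 : N ≠ 0 := by
    rintro rfl
    simp at hN0
  obtain ⟨j, hj1, hj2, hj3, hj4, hj5⟩ := top hG hGD h1 rfl hN (hlead N hN0 (by omega)) rfl hκ h
  obtain ⟨j', hj1', hj2', hj3', hj4', hj5'⟩ := top (N := N.reverse) (k := b) (κ := κ⁻¹) hG hGD h1 rfl
    (by rw [hrd]; omega) (hlead _ (by rw [coeff_zero_reverse]; exact leadingCoeff_ne_zero.2 hN00)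
      (by rw [hrd]; omega)) rfl (inv_ne_zero hκ) (rev_eq hb hκ h)
  have hjj : j = j' := by
    rcases lt_trichotomy j j' with hlt | heq | hgt
    · exact absurd (hj4' j (by omega) hlt) hj3
    · exact heq
    · exact absurd (hj4 j' (by omega) hgt) hj3'
  subst hjj
  rw [hb, Nat.add_sub_cancel_left] at hj5
  rw [hrd, Nat.add_sub_cancel] at hj5'
  obtain ⟨i, rfl⟩ : ∃ i, j = i + 2 := ⟨j - 2, by omega⟩
  have hbk : b = k := by
    have h2 : b * (i + 2) ≤ k + b := by omega
    have h3 : k * (i + 2) ≤ k + b := by omega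
    have h4 : 0 ≤ b * i := Nat.zero_le _
    have h5 : 0 ≤ k * i := Nat.zero_le _
    rw [Nat.mul_add] at h2 h3
    omega
  subst hbk
  have hc : N.eraseLead.natDegree = 0 := by
    rw [Nat.mul_add] at hj5
    omega
  have h2 := eraseLead_add_C_mul_X_pow N
  rw [eq_C_of_natDegree_eq_zero hc] at h2
  have h3 : N.eraseLead.coeff 0 = N.coeff 0 := eraseLead_coeff_of_ne 0 (by omega)
  rw [h3, hb] at h2
  conv_lhs => rw [← h2]
  rw [add_comm, two_mul]

/-- The identity, pointwise. -/
theorem ptwise [Infinite F] {G N : F[X]} {k D : ℕ} {κ : F} (hD : G.natDegree = D) :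
    (C (κ ^ k) * ∑ i ∈ Finset.range (D + 1), C (G.coeff i) * N ^ i * X ^ (k * (D - i)) =
      N.comp (C κ * X ^ D)) ↔
    ∀ v : F, v ≠ 0 → κ ^ k * (v ^ (k * D) * G.eval (N.eval v / v ^ k)) = N.eval (κ * v ^ D) := by
  have key : ∀ v : F, v ≠ 0 → (C (κ ^ k) * ∑ i ∈ Finset.range (D + 1),
      C (G.coeff i) * N ^ i * X ^ (k * (D - i))).eval v =
      κ ^ k * (v ^ (k * D) * G.eval (N.eval v / v ^ k)) := by
    intro v hv
    rw [eval_mul, eval_C, eval_finsetSum, eval_eq_sum_range' (n := D + 1) (by omega)]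
    congr 1
    rw [Finset.mul_sum]
    refine Finset.sum_congr rfl fun i hi => ?_
    have hi' := Finset.mem_range.1 hi
    obtain ⟨r, rfl⟩ : ∃ r, D = i + r := ⟨D - i, by omega⟩
    simp only [eval_mul, eval_C, eval_pow, eval_X, Nat.add_sub_cancel_left, div_pow, ← pow_mul,
      Nat.mul_add, pow_add]
    have : v ^ (k * i) ≠ 0 := pow_ne_zero _ hv
    field_simp
  constructor
  · intro h v hv
    rw [← key v hv, h, eval_comp]
    simp
  · intro h
    apply eq_of_infinite_eval_eq
    apply Set.Infinite.mono (s := ({0}ᶜ : Set F)) _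
      (Set.Finite.infinite_compl (Set.finite_singleton 0))
    intro v hv
    show eval v _ = eval v _
    rw [key v hv, h v hv, eval_comp]
    simp

/-- The normalised case. -/
theorem norm_case [IsAlgClosed F] [CharZero F] {G N : F[X]} {k : ℕ} {κ : F} (hG : 2 ≤ G.natDegree)
    (h1 : G.coeff (G.natDegree - 1) = 0) (hk : 1 ≤ k) (hN0 : N.coeff 0 ≠ 0)
    (hN : k < N.natDegree) (hκ : κ ≠ 0)
    (h : C (κ ^ k) * ∑ i ∈ Finset.range (G.natDegree + 1),
      C (G.coeff i) * N ^ i * X ^ (k * (G.natDegree - i)) = N.comp (C κ * X ^ G.natDegree)) :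
    ∃ μ ε : F, μ ≠ 0 ∧ (ε = 1 ∨ ε = -1) ∧
      ∀ s : F, G.eval (μ * s) = μ * (ε * (Chebyshev.C F G.natDegree).eval s) := by
  have hsh := shape hG h1 hk hN0 hN hκ h
  rw [ptwise rfl] at h
  set D := G.natDegree with hD
  have hN00 : N ≠ 0 := by
    rintro rfl
    simp at hN0
  set x := N.leadingCoeff with hx
  set y := N.coeff 0 with hy
  have hx0 : x ≠ 0 := leadingCoeff_ne_zero.2 hN00
  have hNe : ∀ v : F, N.eval v = x * v ^ (2 * k) + y := by
    intro v
    conv_lhs => rw [hsh]
    simp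
  obtain ⟨lam, hlam⟩ := IsAlgClosed.exists_pow_nat_eq (y / x) (n := 2) (by norm_num)
  have hlam0 : lam ≠ 0 := by
    rintro rfl
    rw [zero_pow (by norm_num)] at hlam
    exact (div_ne_zero hN0 hx0) hlam.symm
  have hy2 : y = x * lam ^ 2 := by
    rw [hlam]
    field_simp
  obtain ⟨d, hd⟩ : ∃ d, D = d + 1 := ⟨D - 1, by omega⟩
  set ε := κ ^ k * lam ^ d with hε
  have hε0 : ε ≠ 0 := mul_ne_zero (pow_ne_zero _ hκ) (pow_ne_zero _ hlam0)
  have hmain : ∀ w : F, w ≠ 0 →
      G.eval (x * lam * (w + w⁻¹)) = x * lam * (ε * w ^ D + ε⁻¹ * w⁻¹ ^ D) := by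
    intro w hw
    obtain ⟨v, hv⟩ := IsAlgClosed.exists_pow_nat_eq (lam * w) (n := k) (by omega)
    have hv0 : v ≠ 0 := by
      rintro rfl
      rw [zero_pow (by omega)] at hv
      exact mul_ne_zero hlam0 hw hv.symm
    have h2 := h v hv0
    rw [hNe, hNe, mul_comm 2 k, pow_mul, pow_mul, pow_mul, mul_pow, hv, ← pow_mul v, mul_comm D k,
      pow_mul v, hv, hy2] at h2
    have h3 : (x * (lam * w) ^ 2 + x * lam ^ 2) / (lam * w) = x * lam * (w + w⁻¹) := by
      field_simp
    rw [h3] at h2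
    have hκk : κ ^ k ≠ 0 := pow_ne_zero _ hκ
    have hlwD : (lam * w) ^ D ≠ 0 := pow_ne_zero _ (mul_ne_zero hlam0 hw)
    have h4 : G.eval (x * lam * (w + w⁻¹)) =
        (x * (κ ^ k * (lam * w) ^ D) ^ 2 + x * lam ^ 2) / (κ ^ k * (lam * w) ^ D) := by
      rw [eq_div_iff (mul_ne_zero hκk hlwD), ← h2]
      ring
    rw [h4, hε, hd, mul_inv, inv_pow, mul_pow lam w, pow_succ lam]
    field_simp
  have hεε : ε = 1 ∨ ε = -1 := by
    have h2 := hmain 2 two_ne_zero
    have h3 := hmain 2⁻¹ (inv_ne_zero two_ne_zero)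
    rw [inv_inv, add_comm (2 : F)⁻¹ 2, h2] at h3
    have h4 := mul_left_cancel₀ (mul_ne_zero hx0 hlam0) h3
    have h5 : (ε - ε⁻¹) * ((2 : F) ^ D - (2 : F)⁻¹ ^ D) = 0 := by
      linear_combination h4
    have h6 : (2 : F) ^ D - (2 : F)⁻¹ ^ D ≠ 0 := by
      intro h7
      have h8 : ((2 : F) ^ D) * (2 : F) ^ D = 1 := by
        rw [sub_eq_zero] at h7
        nth_rw 1 [h7]
        rw [← mul_pow, inv_mul_cancel₀ (two_ne_zero), one_pow]
      have h9 : ((2 ^ D * 2 ^ D : ℕ) : F) = ((1 : ℕ) : F) := by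
        push_cast
        exact h8
      have h10 := Nat.cast_injective h9
      have h11 : 1 < 2 ^ D := Nat.one_lt_two_pow (by omega)
      have h12 := Nat.mul_lt_mul'' h11 h11
      omega
    rcases mul_eq_zero.1 h5 with h7 | h7
    · have h8 : ε * ε = 1 * 1 := by
        rw [sub_eq_zero] at h7
        nth_rw 2 [h7]
        rw [mul_inv_cancel₀ hε0, one_mul]
      exact mul_self_eq_mul_self_iff.1 h8
    · exact absurd h7 h6
  refine ⟨x * lam, ε, mul_ne_zero hx0 hlam0, hεε, ?_⟩
  intro s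
  obtain ⟨z, hz⟩ := IsAlgClosed.exists_pow_nat_eq (s ^ 2 / 4 - 1) (n := 2) (by norm_num)
  have hprod : (s / 2 + z) * (s / 2 - z) = 1 := by
    have h4 : (4 : F) ≠ 0 := by norm_num
    field_simp at hz ⊢
    linear_combination (-1 : F) * hz
  have hw0 : s / 2 + z ≠ 0 := left_ne_zero_of_mul_eq_one hprod
  have hwi : (s / 2 + z)⁻¹ = s / 2 - z := by
    rw [inv_eq_of_mul_eq_one_right hprod]
  have hs : s = (s / 2 + z) + (s / 2 + z)⁻¹ := by
    rw [hwi]
    ring
  have hεinv : ε⁻¹ = ε := by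
    rcases hεε with h2 | h2 <;> rw [h2] <;> norm_num
  have hcheb := dickson_one_one_eval_add_inv (s / 2 + z) (s / 2 + z)⁻¹ (mul_inv_cancel₀ hw0) D
  rw [dickson_one_one_eq_chebyshev_C] at hcheb
  conv_lhs => rw [hs]
  rw [hmain _ hw0, hεinv]
  conv_rhs => rw [hs]
  rw [hcheb]
  ring

end Cheb1

variable {F : Type*} [Field F] [IsAlgClosed F] [CharZero F]

open Cheb1 in
/-- Let `L = N(v) / v^k`, a Laurent polynomial with a pole at `0` and at infinity. If
`G(L(v)) = L(κ v^D)`, then `G` is conjugate to `± C_D`.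

**PROOF.** Let `b = natDegree N - k > 0`, the top exponent of `L`; the bottom exponent is `- k < 0`.
Replacing `L` by `L - t` and `G` by `G(T + t) - t` with a suitable `t ∈ F` we may suppose that the coefficient
of `T^(D - 1)` in `G` is `0` (the exponents `b` and `- k` do not change, since they are not `0`). Let
`j ≥ 2` be minimal with `G_(D - j) ≠ 0` (if there is no such `j` put `j = ∞`).
Let `c < b` be the second highest exponent in `L = x_b v^b + x_c v^c + …` (it exists, `c ≥ - k`).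
In `G(L) = G_D L^D + G_(D - j) L^(D - j) + …`, `L^D = x_b^D v^(b D) + D x_b^(D - 1) x_c v^(b (D - 1) + c) + …`,
while the second highest exponent of `L(κ v^D)` is `c D < b (D - 1) + c`. If
`b (D - 1) + c > b (D - j)` (or `j = ∞`) the coefficient of `v^(b (D - 1) + c)` in `G(L)` is not `0`,
contradiction. If `b (D - 1) + c < b (D - j)`, the second highest exponent of `G(L)` is
`b (D - j) ≥ 0`, so `c D = b (D - j) ≥ 0`, but `c < - b (j - 1) < 0`, contradiction. So
`c = - b (j - 1) ≤ - b < 0`. The same argument for `L(1/v)` (top exponent `k`, `κ⁻¹` for `κ`): the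
second lowest exponent of `L` is `k (j - 1) > 0`. So `L` has only the two exponents `b` and `- k`,
`- k = - b (j - 1)` and `b = k (j - 1)`, hence `j = 2`, `k = b`, `L = α v^b + γ v^(-b)`. With
`w = v^b`, `λ^2 = γ / α`, `w = λ w'`, `μ = α λ`: `L = μ (w' + 1/w')` and
`G(μ (w' + 1/w')) = μ (ε w'^D + ε⁻¹ w'^(-D))`, `ε = κ^b λ^(D - 1)`. The left side is symmetric in
`w'`, `1/w'`, so `ε = ± 1` and `μ⁻¹ G(μ T) = ± C_D(T)`. (One can work with polynomials after
multiplying by a power of `v`, or with `LaurentPolynomial F`.) -/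
theorem cheb_of_laurent {G N : F[X]} {k : ℕ} {κ : F} (hG : 2 ≤ G.natDegree) (hk : 1 ≤ k)
    (hN0 : N.coeff 0 ≠ 0) (hN : k < N.natDegree) (hκ : κ ≠ 0)
    (h : C (κ ^ k) * ∑ i ∈ Finset.range (G.natDegree + 1),
      C (G.coeff i) * N ^ i * X ^ (k * (G.natDegree - i)) = N.comp (C κ * X ^ G.natDegree)) :
    Special G := by
  set D := G.natDegree with hD
  have hG0 : G ≠ 0 := by
    rintro rfl
    simp at hD
    omega
  have hGD : G.coeff D ≠ 0 := leadingCoeff_ne_zero.2 hG0
  have hDF : (D : F) ≠ 0 := by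
    have : D ≠ 0 := by omega
    exact_mod_cast this
  set t : F := -G.coeff (D - 1) / (D * G.coeff D) with ht
  set G' : F[X] := taylor t G - C t with hG'
  set N' : F[X] := N - C t * X ^ k with hN'
  have hnd' : G'.natDegree = D := by
    rw [hG', natDegree_sub_C, natDegree_taylor]
  have hc' : G'.coeff (D - 1) = 0 := by
    have h2 : (C t : F[X]).coeff (D - 1) = 0 := by
      rw [coeff_C, if_neg (by omega)]
    have h3 : (hasseDeriv (D - 1) G).natDegree ≤ 1 := by
      refine (natDegree_hasseDeriv_le _ _).trans ?_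
      omega
    rw [hG', coeff_sub, h2, sub_zero, taylor_coeff,
      eq_X_add_C_of_natDegree_le_one h3, eval_add, eval_mul, eval_C, eval_X, eval_C,
      hasseDeriv_coeff, hasseDeriv_coeff, show 1 + (D - 1) = D by omega, zero_add,
      Nat.choose_self, Nat.choose_symm_of_eq_add (n := D) (a := D - 1) (b := 1) (by omega),
      Nat.choose_one_right, ht]
    field_simp
    push_cast
    ring
  have hNc : N'.coeff 0 = N.coeff 0 := by
    rw [hN', coeff_sub, coeff_C_mul_X_pow, if_neg (by omega), sub_zero]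
  have hNd : N'.natDegree = N.natDegree := by
    rw [hN']
    apply natDegree_sub_eq_left_of_natDegree_lt
    exact lt_of_le_of_lt (natDegree_C_mul_X_pow_le _ _) hN
  have h' : C (κ ^ k) * ∑ i ∈ Finset.range (G'.natDegree + 1),
      C (G'.coeff i) * N' ^ i * X ^ (k * (G'.natDegree - i)) = N'.comp (C κ * X ^ G'.natDegree) := by
    rw [ptwise rfl]
    rw [ptwise rfl] at h
    intro v hv
    have h2 := h v hv
    have hvk : v ^ k ≠ 0 := pow_ne_zero _ hv
    have h3 : N'.eval v / v ^ k + t = N.eval v / v ^ k := by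
      rw [hN']
      simp only [eval_sub, eval_mul, eval_C, eval_pow, eval_X]
      field_simp
      ring
    rw [hnd', hG', eval_sub, eval_C, taylor_eval, h3, hN']
    simp only [eval_sub, eval_mul, eval_C, eval_pow, eval_X]
    rw [← h2, mul_pow, ← pow_mul, mul_comm D k]
    ring
  obtain ⟨μ, ε, hμ, hε, hall⟩ := norm_case (G := G') (N := N') (by omega) (by rw [hnd']; exact hc')
    hk (by rw [hNc]; exact hN0) (by rw [hNd]; exact hN) hκ h'
  rw [hnd'] at hall
  have hG'e : ∀ s : F, G.eval s = μ * (ε * (Chebyshev.C F D).eval ((s - t) / μ)) + t := by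
    intro s
    have h2 := hall ((s - t) / μ)
    rw [mul_div_cancel₀ _ hμ, hG', eval_sub, eval_C, taylor_eval, sub_add_cancel] at h2
    linear_combination h2
  have hconj : ∀ P : F[X], (∀ s, P.eval s = ε * (Chebyshev.C F D).eval s) → LinConj G P := by
    intro P hP
    refine ⟨μ⁻¹, -t * μ⁻¹, inv_ne_zero hμ, ?_⟩
    apply Polynomial.funext
    intro s
    simp only [eval_comp, eval_add, eval_mul, eval_C, eval_X]
    rw [hG'e, hP, show μ⁻¹ * s + -t * μ⁻¹ = (s - t) / μ by field_simp; ring]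
    field_simp
    ring
  rcases hε with h2 | h2
  · right; left
    exact hconj _ fun s => by rw [h2, one_mul]
  · right; right
    exact hconj _ fun s => by rw [h2, eval_neg, neg_one_mul]

end Pool.Agent.MSC
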