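import Pool.Agent.MSC.Pl2

/-!
# An endomorphism `Φ` of `E` with `Φ X = G(X)` and the places with a pole at `X`
-/

namespace Pool.Agent.MSC

open Polynomial IntermediateField

variable {F : Type*} [Field F] [IsAlgClosed F] [CharZero F]

variable {E : Type*} [Field E] [Algebra F E]

omit [IsAlgClosed F] [CharZero F] in
private theorem Ph_transc {X : E} (hX : Transcendental F X) {G : F[X]} :
    relfinrank F⟮aeval X G⟯ F⟮X⟯ = G.natDegree := by
  let ψ : RatFunc F →ₐ[F] E := (IntermediateField.val F⟮X⟯).comp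
    (RatFunc.algEquivOfTranscendental X hX).toAlgHom
  have hψX : ψ RatFunc.X = X := by
    show ((RatFunc.algEquivOfTranscendental X hX RatFunc.X : F⟮X⟯) : E) = X
    rw [RatFunc.algEquivOfTranscendental_X]
  have hψG : ψ (algebraMap F[X] (RatFunc F) G) = aeval X G := by
    show ((RatFunc.algEquivOfTranscendental X hX (algebraMap F[X] (RatFunc F) G) : F⟮X⟯) : E) = _
    rw [RatFunc.algEquivOfTranscendental_algebraMap]
    have h := aeval_algebraMap_apply E (AdjoinSimple.gen F X) G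
    rw [← IntermediateField.AdjoinSimple.algebraMap_gen F X, h]
    rfl
  have h1 : F⟮aeval X G⟯ = (F⟮algebraMap F[X] (RatFunc F) G⟯).map ψ := by
    rw [IntermediateField.adjoin_map, Set.image_singleton, hψG]
  have h2 : F⟮X⟯ = (F⟮(RatFunc.X : RatFunc F)⟯).map ψ := by
    rw [IntermediateField.adjoin_map, Set.image_singleton, hψX]
  rw [h1, h2, relfinrank_map_map, RatFunc.adjoin_X, relfinrank_top_right,
    RatFunc.finrank_eq_max_natDegree, RatFunc.num_algebraMap, RatFunc.denom_algebraMap]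
  simp

/-- **PROOF.** `[E : F(G(X))] = [E : F(X)] [F(X) : F(G(X))] = [E : F(X)] D`,
`[E : F(G(X))] = [E : Φ(E)] [Φ(E) : Φ(F(X))] = [E : Φ(E)] [E : F(X)]`. For `[F(X) : F(G(X))] = D`: `X` is a
root of `G(T) - G(X)`, irreducible over `F(G(X))` (Gauss: `G(T) - z` is linear in `z`), or search Mathlib
(Lüroth, `RatFunc`). -/
theorem finrank_fieldRange {X : E} (hX : Transcendental F X) [FiniteDimensional F⟮X⟯ E]
    {G : F[X]} (hG : 1 ≤ G.natDegree) {Φ : E →ₐ[F] E} (hΦ : Φ X = aeval X G) :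
    FiniteDimensional Φ.fieldRange E ∧ Module.finrank Φ.fieldRange E = G.natDegree := by
  have h1 : (F⟮X⟯).map Φ = F⟮aeval X G⟯ := by
    rw [IntermediateField.adjoin_map, Set.image_singleton, hΦ]
  have h2 : F⟮aeval X G⟯ ≤ F⟮X⟯ := by
    rw [IntermediateField.adjoin_simple_le_iff]
    exact IntermediateField.algebra_adjoin_le_adjoin F {X} (aeval_mem_adjoin_singleton F X)
  have h3 : F⟮aeval X G⟯ ≤ Φ.fieldRange := by
    rw [← h1, AlgHom.fieldRange_eq_map]
    exact IntermediateField.map_mono Φ le_top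
  have e1 := relfinrank_mul_finrank_top h2
  have e2 := relfinrank_mul_finrank_top h3
  rw [Ph_transc hX] at e1
  have e3 : relfinrank F⟮aeval X G⟯ Φ.fieldRange = Module.finrank F⟮X⟯ E := by
    rw [← h1, AlgHom.fieldRange_eq_map, relfinrank_map_map, relfinrank_top_right]
  rw [e3, ← e1, mul_comm] at e2
  have hpos : 0 < Module.finrank F⟮X⟯ E := Module.finrank_pos
  have e4 : Module.finrank Φ.fieldRange E = G.natDegree := Nat.eq_of_mul_eq_mul_right hpos e2
  refine ⟨?_, e4⟩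
  exact FiniteDimensional.of_finrank_pos (by omega)

/-- **PROOF.** If `v = val X τ`, then `τ.comp Φ` is an embedding with
`(τ (Φ X)).ord = (G (τ X)).ord = D * (τ X).ord < 0`. -/
theorem places_comp {X : E} {G : F[X]} (hG : 1 ≤ G.natDegree) {Φ : E →ₐ[F] E}
    (hΦ : Φ X = aeval X G) {v : E → ℚ} (hv : v ∈ places F X) :
    (fun e => v (Φ e) / G.natDegree) ∈ places F X := by
  obtain ⟨τ, hτ, rfl⟩ := hv
  have hG0 : G ≠ 0 := by rintro rfl; simp at hG
  have h1 : ((τ.comp Φ) X).ord = G.natDegree * (τ X).ord := by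
    show (τ (Φ X)).ord = _
    rw [hΦ, ← aeval_algHom_apply]
    exact (aeval_ord hτ hG0).2
  refine ⟨τ.comp Φ, ?_, ?_⟩
  · rw [h1]
    exact mul_neg_of_pos_of_neg (by exact_mod_cast hG) hτ
  · funext e
    unfold val
    rw [h1]
    show ((τ (Φ e)).ord : ℚ) / (-((τ X).ord : ℚ)) / (G.natDegree : ℚ) = ((τ (Φ e)).ord : ℚ) / _
    rw [div_div]
    congr 1
    push_cast
    ring

/-- **PROOF.** Let `v = val X σ` and apply `exists_embeddings` to `L = Φ.fieldRange` and
`ρ = σ ∘ Φ⁻¹ : L → Om F`: there is `τ : E → Om F` with `τ (Φ e) = exm m (σ e)` for `e ∈ E`. So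
`(G(τ X)).ord = (τ (Φ X)).ord = m (σ X).ord < 0`, which gives `(τ X).ord < 0`
(`aeval_ord_nonneg`) and `D (τ X).ord = m (σ X).ord` (`aeval_ord`). So for `v' = val X τ`,
`v' (Φ e) / D = m (σ e).ord / (- D (τ X).ord) = v e`. -/
theorem places_surj {X : E} (hX : Transcendental F X) [FiniteDimensional F⟮X⟯ E]
    {G : F[X]} (hG : 1 ≤ G.natDegree) {Φ : E →ₐ[F] E} (hΦ : Φ X = aeval X G) {v : E → ℚ}
    (hv : v ∈ places F X) : ∃ v' ∈ places F X, v = fun e => v' (Φ e) / G.natDegree := by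
  obtain ⟨σ, hσ, rfl⟩ := hv
  have hG0 : G ≠ 0 := by rintro rfl; simp at hG
  obtain ⟨hfin, hdeg⟩ := finrank_fieldRange hX hG hΦ
  let ε : E ≃ₐ[F] Φ.fieldRange := AlgEquiv.ofInjectiveField Φ
  have hε : ∀ e : E, ((ε e : Φ.fieldRange) : E) = Φ e := fun e => rfl
  obtain ⟨m, hm, τ, -, hτ, -⟩ := exists_embeddings Φ.fieldRange (σ.comp ε.symm.toAlgHom)
  let i : Fin (Module.finrank Φ.fieldRange E) := ⟨0, by omega⟩
  have h1 : ∀ e : E, τ i (Φ e) = exm m hm (σ e) := by
    intro e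
    have h := hτ i (ε e)
    rw [hε] at h
    rw [h]
    show exm m hm (σ (ε.symm (ε e))) = _
    rw [AlgEquiv.symm_apply_apply]
  have h2 : ∀ e : E, (τ i (Φ e)).ord = m * (σ e).ord := by
    intro e
    rw [h1, exm_ord]
  have h3 : (τ i (Φ X)).ord = (aeval (τ i X) G).ord := by
    rw [hΦ, ← aeval_algHom_apply]
  have h4 : (τ i X).ord < 0 := by
    by_contra hcon
    have h5 := aeval_ord_nonneg (not_lt.1 hcon) G
    rw [← h3, h2] at h5
    have : (m : ℤ) * (σ X).ord < 0 := mul_neg_of_pos_of_neg (by exact_mod_cast hm) hσ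
    omega
  have h5 : (G.natDegree : ℤ) * (τ i X).ord = m * (σ X).ord := by
    rw [← (aeval_ord h4 hG0).2, ← h3, h2]
  refine ⟨val X (τ i), ⟨τ i, h4, rfl⟩, ?_⟩
  funext e
  unfold val
  rw [h2 e]
  have h6 : (G.natDegree : ℚ) * ((τ i X).ord : ℚ) = m * ((σ X).ord : ℚ) := by exact_mod_cast h5
  have hm0 : (m : ℚ) ≠ 0 := by exact_mod_cast hm.ne'
  have hσ0 : ((σ X).ord : ℚ) ≠ 0 := by exact_mod_cast hσ.ne
  have h7 : -((τ i X).ord : ℚ) * (G.natDegree : ℚ) = - (m * ((σ X).ord : ℚ)) := by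
    rw [← h6]; ring
  rw [div_div, h7]
  push_cast
  field_simp

/-- `Φ` fixes all places with a pole at `X`. -/
def Fixed (X : E) (G : F[X]) (Φ : E →ₐ[F] E) : Prop :=
  ∀ v ∈ places F X, ∀ e : E, v (Φ e) = G.natDegree * v e

/-- **PROOF.** By `places_comp` and `places_surj`, `v ↦ (fun e => v (Φ e) / D)` is a surjective map of
the finite set `places F X` (`places_finite`) to itself, so a permutation; let `r` be a multiple of its order,
for example `r = (card)!`. -/
theorem exists_fixed {X : E} (hX : Transcendental F X) [FiniteDimensional F⟮X⟯ E]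
    {G : F[X]} (hG : 1 ≤ G.natDegree) {Φ : E →ₐ[F] E} (hΦ : Φ X = aeval X G) :
    ∃ N : ℕ, 1 ≤ N ∧ ∀ r : ℕ, N ∣ r → ∀ v ∈ places F X, ∀ e : E,
      v ((Φ ^ r) e) = (G.natDegree : ℚ) ^ r * v e := by
  have hfin : Finite (places F X) := (places_finite hX).to_subtype
  let t : places F X → places F X := fun v => ⟨fun e => v.1 (Φ e) / G.natDegree,
    places_comp hG hΦ v.2⟩
  have ht : Function.Surjective t := by
    intro v
    obtain ⟨v', hv', h⟩ := places_surj hX hG hΦ v.2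
    exact ⟨⟨v', hv'⟩, Subtype.ext h.symm⟩
  let π : Equiv.Perm (places F X) := Equiv.ofBijective t (Finite.injective_iff_surjective.2 ht |>.bijective_of_finite)
  have hπ : ∀ (v : places F X) (e : E), (π v).1 e = v.1 (Φ e) / G.natDegree := fun v e => rfl
  have hD : (G.natDegree : ℚ) ≠ 0 := by
    have : G.natDegree ≠ 0 := by omega
    exact_mod_cast this
  have key : ∀ (r : ℕ) (v : places F X) (e : E),
      ((π ^ r) v).1 e = v.1 ((Φ ^ r) e) / (G.natDegree : ℚ) ^ r := by
    intro r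
    induction r with
    | zero => intro v e; simp
    | succ r ih =>
      intro v e
      rw [pow_succ, Equiv.Perm.mul_apply, ih, hπ, pow_succ' Φ, AlgHom.mul_apply, div_div, pow_succ]
      congr 1
      ring
  refine ⟨orderOf π, orderOf_pos π, fun r hr v hv e => ?_⟩
  have h1 := key r ⟨v, hv⟩ e
  rw [orderOf_dvd_iff_pow_eq_one.1 hr] at h1
  have h2 : v e = v ((Φ ^ r) e) / (G.natDegree : ℚ) ^ r := h1
  rw [h2]
  field_simp

end Pool.Agent.MSC
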