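import Pool.Agent.MSC.Pl

/-!
# Integrality and the places with a pole at `X`
-/

namespace Pool.Agent.MSC

open Polynomial IntermediateField

variable {F : Type*} [Field F] [IsAlgClosed F] [CharZero F]

variable {E : Type*} [Field E] [Algebra F E]

/-- The valuation ring of the field of Laurent series. -/
private noncomputable def Pl3O (F : Type*) [Field F] : Subring (Om F) where
  carrier := {x | 0 ≤ x.ord}
  mul_mem' := by
    intro x y hx hy
    rcases eq_or_ne x 0 with rfl | hx0
    · simpa using hx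
    rcases eq_or_ne y 0 with rfl | hy0
    · simpa using hy
    show 0 ≤ (x * y).ord
    rw [ord_mul hx0 hy0]
    exact add_nonneg hx hy
  one_mem' := by
    show 0 ≤ (1 : Om F).ord
    rw [← map_one (algebraMap F (Om F)), ord_C]
  add_mem' := by
    intro x y hx hy
    show 0 ≤ (x + y).ord
    rcases eq_or_ne (x + y) 0 with h | h
    · rw [h, ord_zero]
    · exact le_trans (le_min hx hy) (ord_add h)
  zero_mem' := by
    show 0 ≤ (0 : Om F).ord
    rw [ord_zero]
  neg_mem' := by
    intro x hx
    rcases eq_or_ne x 0 with rfl | hx0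
    · simpa using hx
    show 0 ≤ (-x).ord
    have h1 : -x = algebraMap F (Om F) (-1) * x := by simp
    rw [h1, ord_mul (by simp) hx0, ord_C]
    simpa using hx

private theorem Pl3O_mem {x : Om F} : x ∈ Pl3O F ↔ 0 ≤ x.ord := Iff.rfl

/-- A monic split polynomial with roots of order `≥ 0` has coefficients of order `≥ 0`. -/
private theorem Pl3_coeff {p : (Om F)[X]} (hp : p.Monic) (hs : p.Splits)
    (hr : ∀ z, p.eval z = 0 → 0 ≤ z.ord) (k : ℕ) : 0 ≤ (p.coeff k).ord := by
  have h1 : p = (p.roots.map fun a => X - C a).prod := by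
    have := hs.eq_prod_roots
    rwa [hp.leadingCoeff, C_1, one_mul] at this
  have h2 : ∀ s : Multiset (Om F), (∀ a ∈ s, 0 ≤ a.ord) →
      (s.map fun a => X - C a).prod ∈ Polynomial.lifts (Pl3O F).subtype := by
    intro s
    induction s using Multiset.induction_on with
    | empty =>
      intro _
      rw [Multiset.map_zero, Multiset.prod_zero]
      exact one_mem _
    | cons a s ih =>
      intro h
      rw [Multiset.map_cons, Multiset.prod_cons]
      refine mul_mem ?_ (ih fun b hb => h b (Multiset.mem_cons_of_mem hb))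
      rw [Polynomial.mem_lifts]
      refine ⟨X - C ⟨a, h a (Multiset.mem_cons_self a s)⟩, ?_⟩
      simp
  have h3 := h2 p.roots fun a ha => hr a (by simpa using (Polynomial.mem_roots'.1 ha).2)
  rw [← h1, Polynomial.lifts_iff_coeff_lifts] at h3
  obtain ⟨y, hy⟩ := h3 k
  rw [← hy]
  exact y.2

/-- The same for roots of positive order. -/
private theorem Pl3_coeff_pos {p : (Om F)[X]} (hp : p.Monic) (hs : p.Splits)
    (hr : ∀ z, p.eval z = 0 → z = 0 ∨ 0 < z.ord) {k : ℕ} (hk : k < p.natDegree) :
    p.coeff k = 0 ∨ 0 < (p.coeff k).ord := by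
  have h1 : p = (p.roots.map fun a => X - C a).prod := by
    have := hs.eq_prod_roots
    rwa [hp.leadingCoeff, C_1, one_mul] at this
  have h2 : ∀ s : Multiset (Om F), (∀ a ∈ s, a = 0 ∨ 0 < a.ord) → ∀ k < Multiset.card s,
      ((s.map fun a => X - C a).prod.coeff k = 0 ∨ 0 < ((s.map fun a => X - C a).prod.coeff k).ord)
        := by
    intro s
    induction s using Multiset.induction_on with
    | empty =>
      intro _ k hk
      simp at hk
    | cons a s ih =>
      intro h k hk
      have ih' := ih fun b hb => h b (Multiset.mem_cons_of_mem hb)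
      have ha := h a (Multiset.mem_cons_self a s)
      have hall : ∀ j, 0 ≤ ((s.map fun a => X - C a).prod.coeff j).ord := by
        intro j
        rcases lt_trichotomy j (Multiset.card s) with hj | hj | hj
        · rcases ih' j hj with h0 | h0
          · rw [h0, ord_zero]
          · exact h0.le
        · have hm : (s.map fun a => X - C a).prod.Monic :=
            monic_multiset_prod_of_monic _ _ fun a _ => monic_X_sub_C a
          have hd : (s.map fun a => X - C a).prod.natDegree = Multiset.card s :=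
            natDegree_multiset_prod_X_sub_C_eq_card s
          have hc : (s.map fun a => X - C a).prod.coeff j = 1 := by
            rw [hj, ← hd]
            exact hm
          rw [hc, ← map_one (algebraMap F (Om F)), ord_C]
        · have hd : (s.map fun a => X - C a).prod.natDegree = Multiset.card s :=
            natDegree_multiset_prod_X_sub_C_eq_card s
          rw [coeff_eq_zero_of_natDegree_lt (by rw [hd]; exact hj), ord_zero]
      rw [Multiset.map_cons, Multiset.prod_cons, sub_mul]
      set q := (s.map fun a => X - C a).prod with hq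
      have hA : a * q.coeff k = 0 ∨ 0 < (a * q.coeff k).ord := by
        rcases ha with ha | ha
        · left
          rw [ha, zero_mul]
        · rcases eq_or_ne (q.coeff k) 0 with h0 | h0
          · left
            rw [h0, mul_zero]
          · right
            have ha0 : a ≠ 0 := by
              rintro rfl
              rw [ord_zero] at ha
              exact lt_irrefl _ ha
            rw [ord_mul ha0 h0]
            have := hall k
            linarith
      have hB : (X * q).coeff k = 0 ∨ 0 < ((X * q).coeff k).ord := by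
        cases k with
        | zero => left; simp
        | succ k =>
          rw [coeff_X_mul]
          rw [Multiset.card_cons] at hk
          exact ih' k (by omega)
      have hsub : (X * q - C a * q).coeff k = (X * q).coeff k - a * q.coeff k := by
        rw [Polynomial.coeff_sub, Polynomial.coeff_C_mul]
      rw [hsub]
      rcases eq_or_ne ((X * q).coeff k - a * q.coeff k) 0 with h0 | h0
      · exact Or.inl h0
      right
      rcases hB with hB | hB
      · rw [hB, zero_sub]
        rcases hA with hA | hA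
        · rw [hB, hA, sub_zero] at h0
          exact absurd rfl h0
        · have hne : a * q.coeff k ≠ 0 := by
            intro h
            rw [h, ord_zero] at hA
            exact lt_irrefl _ hA
          have h5 : -(a * q.coeff k) = algebraMap F (Om F) (-1) * (a * q.coeff k) := by simp
          rw [h5, ord_mul (by simp) hne, ord_C]
          linarith
      · rcases hA with hA | hA
        · rw [hA, sub_zero]
          exact hB
        · have hne : a * q.coeff k ≠ 0 := by
            intro h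
            rw [h, ord_zero] at hA
            exact lt_irrefl _ hA
          have h5 : -(a * q.coeff k) = algebraMap F (Om F) (-1) * (a * q.coeff k) := by simp
          have h6 : 0 < (-(a * q.coeff k)).ord := by
            rw [h5, ord_mul (by simp) hne, ord_C]
            linarith
          rw [sub_eq_add_neg] at h0 ⊢
          exact lt_of_lt_of_le (lt_min hB h6) (ord_add h0)
  have h3 := h2 p.roots (fun a ha => hr a (by simpa using (Polynomial.mem_roots'.1 ha).2)) k
  rw [← h1] at h3
  refine h3 ?_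
  rwa [← hs.natDegree_eq_card_roots]

/-- The embedding of `F(X)` with `X ↦ s⁻¹`. -/
private theorem Pl3_rho {X : E} (hX : Transcendental F X) :
    ∃ ρ : F⟮X⟯ →ₐ[F] Om F, (ρ (AdjoinSimple.gen F X)).ord = -1 := by
  obtain ⟨y, hy⟩ := exists_coeff (F := F) (fun k : ℤ => if k = -1 then 1 else 0) (-1) (by
    intro k hk
    rw [if_neg hk.ne])
  have hyord : y.ord = -1 := by
    refine (ord_eq ?_ ?_).2
    · rw [hy, if_pos rfl]
      exact one_ne_zero
    · intro k hk
      rw [hy, if_neg hk.ne]
  have hytr : Transcendental F y := by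
    rw [transcendental_iff]
    intro p hp
    by_contra hp0
    exact (aeval_ord (by rw [hyord]; norm_num) hp0).1 hp
  let ρ : F⟮X⟯ →ₐ[F] Om F := (F⟮y⟯.val.comp
    (RatFunc.algEquivOfTranscendental y hytr : RatFunc F →ₐ[F] F⟮y⟯)).comp
    ((RatFunc.algEquivOfTranscendental X hX).symm : F⟮X⟯ →ₐ[F] RatFunc F)
  have hρ : ρ (AdjoinSimple.gen F X) = y := by
    show ((RatFunc.algEquivOfTranscendental y hytr
      ((RatFunc.algEquivOfTranscendental X hX).symm (AdjoinSimple.gen F X)) : F⟮y⟯) : Om F) = y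
    rw [RatFunc.algEquivOfTranscendental_symm_gen, RatFunc.algEquivOfTranscendental_X]
  exact ⟨ρ, by rw [hρ, hyord]⟩

open scoped algebraAdjoinAdjoin in
/-- **PROOF.** Let `L = F(X) = F⟮X⟯` and `ρ : L → Om F`, `X ↦ s⁻¹` (`X` is transcendental; for instance via
`IntermediateField.adjoin` and `RatFunc`, or the fraction field of `F[X]`). By
`exists_embeddings` the minimal polynomial of `e` over `L` splits after `s ↦ s ^ m`, its
roots are the `τ_i e`, which have order `≥ 0` by hypothesis (`val X τ_i` is a place). So its coefficients,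
which lie in `F[X]` because `e` is integral over `F[X]`, have order `≥ 0` as well; an element of
`F[X]` with this property is constant. So `e` is algebraic over `F`. -/
theorem integral_const {X : E} (hX : Transcendental F X) [FiniteDimensional F⟮X⟯ E] {e : E}
    (he : IsIntegral (Algebra.adjoin F {X}) e) (h : ∀ v ∈ places F X, 0 ≤ v e) :
    ∃ c : F, e = algebraMap F E c := by
  obtain ⟨ρ, hρ⟩ := Pl3_rho hX
  obtain ⟨m, hm, τ, -, hτ, -, hsp, hroot, -⟩ := exists_embeddings F⟮X⟯ ρ
  have hm' : (0 : ℤ) < m := by exact_mod_cast hm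
  have hτX : ∀ i, (τ i X).ord = -m := by
    intro i
    have h1 := hτ i (AdjoinSimple.gen F X)
    rw [AdjoinSimple.coe_gen] at h1
    rw [h1, exm_ord, hρ]
    ring
  have hτe : ∀ i, 0 ≤ (τ i e).ord := by
    intro i
    have h1 := h (val X (τ i)) ⟨τ i, by rw [hτX]; linarith, rfl⟩
    unfold val at h1
    rw [hτX] at h1
    have h2 : (0 : ℚ) < -((-(m : ℤ) : ℤ) : ℚ) := by
      push_cast
      simpa using hm
    rw [le_div_iff₀ h2, zero_mul] at h1
    exact_mod_cast h1
  set σ : F⟮X⟯ →ₐ[F] Om F := (exm m hm).comp ρ with hσ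
  have : IsIntegrallyClosed (Algebra.adjoin F {X}) :=
    IsIntegrallyClosed.of_equiv (Polynomial.algEquivOfTranscendental F X hX).toRingEquiv
  have hmin : minpoly F⟮X⟯ e = (minpoly (Algebra.adjoin F {X}) e).map
      (algebraMap (Algebra.adjoin F {X}) F⟮X⟯) := minpoly.isIntegrallyClosed_eq_field_fractions' _ he
  have hmonic : (minpoly F⟮X⟯ e).Monic := minpoly.monic (Algebra.IsIntegral.isIntegral e)
  have hc : ∀ k, ∃ c : F, (minpoly F⟮X⟯ e).coeff k = algebraMap F F⟮X⟯ c := by
    intro k
    have h1 : 0 ≤ (σ ((minpoly F⟮X⟯ e).coeff k)).ord := by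
      have := Pl3_coeff (hmonic.map (σ : F⟮X⟯ →+* Om F)) (hsp e) (by
        intro z hz
        obtain ⟨i, hi⟩ := hroot e z hz
        rw [← hi]
        exact hτe i) k
      rwa [coeff_map] at this
    have h2 : ∃ g : F[X], (minpoly F⟮X⟯ e).coeff k = aeval (AdjoinSimple.gen F X) g := by
      rw [hmin, coeff_map]
      obtain ⟨x, hx⟩ := (minpoly (Algebra.adjoin F {X}) e).coeff k
      have hx' := hx
      rw [Algebra.adjoin_singleton_eq_range_aeval] at hx'
      obtain ⟨g, hg⟩ := hx'
      refine ⟨g, ?_⟩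
      apply Subtype.ext
      rw [algebraAdjoinAdjoin.coe_algebraMap]
      show x = ((aeval (AdjoinSimple.gen F X) g : F⟮X⟯) : E)
      rw [← hg]
      show aeval X g = F⟮X⟯.val (aeval (AdjoinSimple.gen F X) g)
      rw [← aeval_algHom_apply]
      rfl
    obtain ⟨g, hg⟩ := h2
    rcases eq_or_ne g 0 with rfl | hg0
    · refine ⟨0, ?_⟩
      rw [hg]
      simp
    rw [hg, ← aeval_algHom_apply] at h1
    have hσX : (σ (AdjoinSimple.gen F X)).ord = -m := by
      show (exm m hm (ρ (AdjoinSimple.gen F X))).ord = -m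
      rw [exm_ord, hρ]
      ring
    have h3 := (aeval_ord (x := σ (AdjoinSimple.gen F X)) (by rw [hσX]; linarith) hg0).2
    rw [h3, hσX] at h1
    have h4 : g.natDegree = 0 := by
      by_contra h5
      have h6 : (1 : ℤ) ≤ g.natDegree := by exact_mod_cast Nat.one_le_iff_ne_zero.2 h5
      nlinarith
    obtain ⟨c, rfl⟩ := natDegree_eq_zero.1 h4
    exact ⟨c, by rw [hg, aeval_C]⟩
  choose c hc using hc
  set P : F[X] := ∑ k ∈ Finset.range ((minpoly F⟮X⟯ e).natDegree + 1), C (c k) * Polynomial.X ^ k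
    with hP
  have hPm : P.map (algebraMap F F⟮X⟯) = minpoly F⟮X⟯ e := by
    have h1 := (minpoly F⟮X⟯ e).as_sum_range_C_mul_X_pow
    conv_rhs => rw [h1]
    rw [hP, Polynomial.map_sum]
    refine Finset.sum_congr rfl fun k _ => ?_
    rw [Polynomial.map_mul, map_C, Polynomial.map_pow, map_X, hc]
  have hP0 : P ≠ 0 := by
    intro h0
    rw [h0, Polynomial.map_zero] at hPm
    exact hmonic.ne_zero hPm.symm
  have halg : IsAlgebraic F e := by
    refine ⟨P, hP0, ?_⟩
    have := minpoly.aeval F⟮X⟯ e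
    rw [← hPm, aeval_map_algebraMap] at this
    exact this
  have hsplit : ((minpoly F e).map (algebraMap F F)).Splits := IsAlgClosed.splits _
  have hdeg : (minpoly F e).degree = 1 :=
    IsAlgClosed.degree_eq_one_of_irreducible F (minpoly.irreducible halg.isIntegral)
  obtain ⟨c, hc⟩ := minpoly.mem_range_of_degree_eq_one F e hdeg
  exact ⟨c, hc.symm⟩

open scoped algebraAdjoinAdjoin in
/-- Every element of `F[Y]`, seen in `F(Y)`, is a polynomial in the generator. -/
private theorem Pl3_poly {Y : E} (x : Algebra.adjoin F {Y}) :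
    ∃ g : F[X], algebraMap (Algebra.adjoin F {Y}) F⟮Y⟯ x = aeval (AdjoinSimple.gen F Y) g := by
  obtain ⟨x, hx⟩ := x
  have hx' := hx
  rw [Algebra.adjoin_singleton_eq_range_aeval] at hx'
  obtain ⟨g, hg⟩ := hx'
  refine ⟨g, ?_⟩
  apply Subtype.ext
  rw [algebraAdjoinAdjoin.coe_algebraMap]
  show x = ((aeval (AdjoinSimple.gen F Y) g : F⟮Y⟯) : E)
  rw [← hg]
  show aeval Y g = F⟮Y⟯.val (aeval (AdjoinSimple.gen F Y) g)
  rw [← aeval_algHom_apply]
  rfl

open scoped algebraAdjoinAdjoin in
/-- Common denominators in `F(Y)`. -/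
private theorem Pl3_denom {Y : E} (n : ℕ) (r : ℕ → F⟮Y⟯) :
    ∃ d : F[X], d.Monic ∧ aeval (AdjoinSimple.gen F Y) d ≠ 0 ∧ ∀ k < n, ∃ g : F[X],
      aeval (AdjoinSimple.gen F Y) d * r k = aeval (AdjoinSimple.gen F Y) g := by
  obtain ⟨b, hb⟩ := IsLocalization.exist_integer_multiples
    (nonZeroDivisors (Algebra.adjoin F {Y})) (Finset.range n) r
  obtain ⟨d, hd⟩ := Pl3_poly (b : Algebra.adjoin F {Y})
  have hb0 : aeval (AdjoinSimple.gen F Y) d ≠ 0 := by
    rw [← hd]
    intro h0
    have h1 : (b : Algebra.adjoin F {Y}) = 0 :=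
      FaithfulSMul.algebraMap_injective (Algebra.adjoin F {Y}) F⟮Y⟯ (by rw [h0, map_zero])
    exact nonZeroDivisors.ne_zero b.2 h1
  have hd0 : d ≠ 0 := by
    rintro rfl
    rw [map_zero] at hb0
    exact hb0 rfl
  have hlc : d.leadingCoeff⁻¹ ≠ 0 := inv_ne_zero (leadingCoeff_ne_zero.2 hd0)
  refine ⟨C d.leadingCoeff⁻¹ * d, ?_, ?_, ?_⟩
  · rw [Monic, leadingCoeff_mul, leadingCoeff_C, inv_mul_cancel₀ (leadingCoeff_ne_zero.2 hd0)]
  · rw [map_mul, aeval_C]
    refine mul_ne_zero ?_ hb0
    rw [Ne, FaithfulSMul.algebraMap_eq_zero_iff]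
    exact hlc
  · intro k hk
    obtain ⟨x, hx⟩ := hb k (Finset.mem_range.2 hk)
    obtain ⟨g, hg⟩ := Pl3_poly x
    refine ⟨C d.leadingCoeff⁻¹ * g, ?_⟩
    rw [map_mul, map_mul, ← hg, hx, ← hd, Algebra.smul_def, mul_assoc]

/-- **PROOF.** Let `ξ = X⁻¹`. As in `integral_const` (now for `L = F(Y)`, `Y ↦ s⁻¹`) all roots of the
minimal polynomial `T^p + Σ_{k ≥ 1} r_k T^(p - k)` of `ξ` over `F(Y)` have positive order after
`s ↦ s ^ m`, so `deg r_k < 0` for the rational functions `r_k(Y)`, `k ≥ 1`. With a common denominator: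
`d_0(Y) ξ^p + Σ_{k ≥ 1} d_k(Y) ξ^(p - k) = 0`, `d_k ∈ F[Y]`, `deg d_k < deg d_0` for `k ≥ 1`. Multiplying by
`X^p`: `d_0(Y) = - Σ_{k ≥ 1} d_k(Y) X^k`, which is, up to a constant factor, a monic equation for `Y`
with coefficients in `F[X]`. -/
theorem integral_of_places {X Y : E} (hX : Transcendental F X) (hY : Transcendental F Y)
    [FiniteDimensional F⟮Y⟯ E] (h : ∀ v ∈ places F Y, v X < 0) :
    IsIntegral (Algebra.adjoin F {X}) Y := by
  obtain ⟨ρ, hρ⟩ := Pl3_rho hY
  obtain ⟨m, hm, τ, -, hτ, -, hsp, hroot, -⟩ := exists_embeddings F⟮Y⟯ ρ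
  have hm' : (0 : ℤ) < m := by exact_mod_cast hm
  have hX0 : X ≠ 0 := by
    rintro rfl
    exact hX isAlgebraic_zero
  have hτY : ∀ i, (τ i Y).ord = -m := by
    intro i
    have h1 := hτ i (AdjoinSimple.gen F Y)
    rw [AdjoinSimple.coe_gen] at h1
    rw [h1, exm_ord, hρ]
    ring
  have hτX : ∀ i, 0 < (τ i X⁻¹).ord := by
    intro i
    have h1 := h (val Y (τ i)) ⟨τ i, by rw [hτY]; linarith, rfl⟩
    unfold val at h1
    rw [hτY] at h1
    have h2 : (0 : ℚ) < -((-(m : ℤ) : ℤ) : ℚ) := by
      push_cast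
      simpa using hm
    rw [div_lt_iff₀ h2, zero_mul] at h1
    have h3 : (τ i X).ord < 0 := by exact_mod_cast h1
    rw [map_inv₀, ord_inv]
    linarith
  set σ : F⟮Y⟯ →ₐ[F] Om F := (exm m hm).comp ρ with hσ
  have hmonic : (minpoly F⟮Y⟯ X⁻¹).Monic := minpoly.monic (Algebra.IsIntegral.isIntegral X⁻¹)
  set n := (minpoly F⟮Y⟯ X⁻¹).natDegree with hn
  have hσY : (σ (AdjoinSimple.gen F Y)).ord = -m := by
    show (exm m hm (ρ (AdjoinSimple.gen F Y))).ord = -m
    rw [exm_ord, hρ]
    ring
  have hσp : ∀ g : F[X], g ≠ 0 → σ (aeval (AdjoinSimple.gen F Y) g) ≠ 0 ∧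
      (σ (aeval (AdjoinSimple.gen F Y) g)).ord = g.natDegree * (-m) := by
    intro g hg
    rw [← aeval_algHom_apply]
    have := aeval_ord (x := σ (AdjoinSimple.gen F Y)) (by rw [hσY]; linarith) hg
    rwa [hσY] at this
  have hpos : ∀ k < n, σ ((minpoly F⟮Y⟯ X⁻¹).coeff k) = 0 ∨
      0 < (σ ((minpoly F⟮Y⟯ X⁻¹).coeff k)).ord := by
    intro k hk
    have h1 := Pl3_coeff_pos (hmonic.map (σ : F⟮Y⟯ →+* Om F)) (hsp X⁻¹) (by
      intro z hz
      obtain ⟨i, hi⟩ := hroot X⁻¹ z hz
      rw [← hi]
      exact Or.inr (hτX i)) (k := k) (by rw [hmonic.natDegree_map]; exact hk)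
    rw [coeff_map] at h1
    exact h1
  obtain ⟨d, hdm, hd0, hg⟩ := Pl3_denom (F := F) n fun k => (minpoly F⟮Y⟯ X⁻¹).coeff k
  have hg' : ∀ k, ∃ g : F[X], k < n → aeval (AdjoinSimple.gen F Y) d *
      (minpoly F⟮Y⟯ X⁻¹).coeff k = aeval (AdjoinSimple.gen F Y) g := by
    intro k
    by_cases hk : k < n
    · obtain ⟨g, hg⟩ := hg k hk
      exact ⟨g, fun _ => hg⟩
    · exact ⟨0, fun h => absurd h hk⟩
  choose g hg' using hg'
  have hdeg : ∀ k < n, g k ∈ degreeLT F d.natDegree := by
    intro k hk
    rw [mem_degreeLT]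
    rcases eq_or_ne (g k) 0 with h0 | h0
    · rw [h0, degree_zero]
      exact WithBot.bot_lt_coe _
    rw [degree_eq_natDegree h0]
    have h1 := hg' k hk
    have h2 := (hσp (g k) h0)
    have h3 := (hσp d hdm.ne_zero)
    rw [← h1, map_mul] at h2
    have hr0 : σ ((minpoly F⟮Y⟯ X⁻¹).coeff k) ≠ 0 := right_ne_zero_of_mul h2.1
    have hrp := (hpos k hk).resolve_left hr0
    rw [ord_mul h3.1 hr0, h3.2] at h2
    have h4 := h2.2
    have h5 : ((g k).natDegree : ℤ) < d.natDegree := by
      by_contra h6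
      push Not at h6
      nlinarith
    exact_mod_cast h5
  let x : Algebra.adjoin F {X} := ⟨X, Algebra.self_mem_adjoin_singleton F X⟩
  have hx : algebraMap (Algebra.adjoin F {X}) E x = X := rfl
  refine ⟨d.map (algebraMap F (Algebra.adjoin F {X})) + ∑ k ∈ Finset.range n,
    x ^ (n - k) • (g k).map (algebraMap F (Algebra.adjoin F {X})), ?_, ?_⟩
  · refine (hdm.map _).add_of_left ?_
    rw [hdm.degree_map, degree_eq_natDegree hdm.ne_zero, ← mem_degreeLT]
    refine Submodule.sum_mem _ fun k hk => Submodule.smul_mem _ _ ?_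
    rw [mem_degreeLT]
    exact lt_of_le_of_lt degree_map_le (mem_degreeLT.1 (hdeg k (Finset.mem_range.1 hk)))
  · rw [← aeval_def, map_add, map_sum, aeval_map_algebraMap]
    have h1 := minpoly.aeval F⟮Y⟯ X⁻¹
    rw [aeval_eq_sum_range, ← hn, Finset.sum_range_succ] at h1
    have hcn : (minpoly F⟮Y⟯ X⁻¹).coeff n = 1 := hmonic.coeff_natDegree
    rw [hcn, one_smul] at h1
    have hval : ∀ q : F[X], ((aeval (AdjoinSimple.gen F Y) q : F⟮Y⟯) : E) = aeval Y q := by
      intro q
      show F⟮Y⟯.val (aeval (AdjoinSimple.gen F Y) q) = aeval Y q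
      rw [← aeval_algHom_apply]
      rfl
    have h2 : aeval Y d * X ^ n * (∑ k ∈ Finset.range n,
        (minpoly F⟮Y⟯ X⁻¹).coeff k • X⁻¹ ^ k + X⁻¹ ^ n) = 0 := by rw [h1, mul_zero]
    rw [mul_add, Finset.mul_sum] at h2
    have h3 : aeval Y d * X ^ n * X⁻¹ ^ n = aeval Y d := by
      rw [mul_assoc, ← mul_pow, mul_inv_cancel₀ hX0, one_pow, mul_one]
    rw [h3, add_comm] at h2
    rw [← h2]
    congr 1
    refine Finset.sum_congr rfl fun k hk => ?_
    have hk' := Finset.mem_range.1 hk
    rw [map_smul, aeval_map_algebraMap, Algebra.smul_def, map_pow, hx]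
    have h4 := congrArg (fun z : F⟮Y⟯ => (z : E)) (hg' k hk')
    simp only [MulMemClass.coe_mul, hval] at h4
    rw [← h4]
    rw [Algebra.smul_def]
    show X ^ (n - k) * (aeval Y d * ((minpoly F⟮Y⟯ X⁻¹).coeff k : E)) =
      aeval Y d * X ^ n * (((minpoly F⟮Y⟯ X⁻¹).coeff k : E) * X⁻¹ ^ k)
    have h5 : X ^ n * X⁻¹ ^ k = X ^ (n - k) := by
      rw [← Nat.sub_add_cancel hk'.le, pow_add, mul_assoc, ← mul_pow, mul_inv_cancel₀ hX0, one_pow,
        mul_one, Nat.sub_add_cancel hk'.le]
    rw [← h5]
    ring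

end Pool.Agent.MSC
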