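import Pool.Agent.MSC.Pl2
import Pool.Agent.MSC.Pl3

/-!
# `E = F(u)`
-/

namespace Pool.Agent.MSC

open Polynomial IntermediateField

variable {F : Type*} [Field F] [IsAlgClosed F] [CharZero F]

variable {E : Type*} [Field E] [Algebra F E]

omit [IsAlgClosed F] [CharZero F] in
private theorem Rat2_v_const {X : E} {v₁ : E → ℚ} (h₁ : v₁ ∈ places F X) {u : E}
    (hu1 : v₁ u < 0) (c : F) : u - algebraMap F E c ≠ 0 := by
  intro h
  rw [sub_eq_zero.1 h, place_C h₁] at hu1
  exact lt_irrefl _ hu1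

omit [IsAlgClosed F] [CharZero F] in
private theorem Rat2_ne_zero {X : E} {v₁ : E → ℚ} (h₁ : v₁ ∈ places F X) {u : E}
    (hu1 : v₁ u < 0) : u ≠ 0 := by
  intro h
  rw [h, place_zero h₁] at hu1
  exact lt_irrefl _ hu1

private theorem Rat2_step {X : E} (hX : Transcendental F X) [FiniteDimensional F⟮X⟯ E]
    {v₁ : E → ℚ} (h₁ : v₁ ∈ places F X) {u : E} (hu : IsIntegral (Algebra.adjoin F {X}) u)
    (hu1 : v₁ u < 0) (hg : ∀ x : E, ∃ k : ℤ, v₁ x = k * v₁ u)
    (hu2 : ∀ v ∈ places F X, v ≠ v₁ → 0 ≤ v u) (n : ℕ) :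
    ∀ α : E, IsIntegral (Algebra.adjoin F {X}) α → (∀ v ∈ places F X, v ≠ v₁ → 0 ≤ v α) →
      (n : ℚ) * v₁ u < v₁ α → ∃ p : F[X], α = aeval u p := by
  have hconst : ∀ α : E, IsIntegral (Algebra.adjoin F {X}) α →
      (∀ v ∈ places F X, v ≠ v₁ → 0 ≤ v α) → 0 ≤ v₁ α → ∃ p : F[X], α = aeval u p := by
    intro α hα hα2 h
    obtain ⟨c, hc⟩ := integral_const hX hα (fun v hv => by
      by_cases hv1 : v = v₁
      · rw [hv1]
        exact h
      · exact hα2 v hv hv1)
    refine ⟨C c, ?_⟩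
    rw [aeval_C]
    exact hc
  induction n with
  | zero =>
      intro α hα hα2 h
      refine hconst α hα hα2 ?_
      have h2 : ((0 : ℕ) : ℚ) * v₁ u = 0 := by simp
      rw [h2] at h
      exact h.le
  | succ n ih =>
      intro α hα hα2 h
      by_cases hlt : (n : ℚ) * v₁ u < v₁ α
      · exact ih α hα hα2 hlt
      obtain ⟨k, hk⟩ := hg α
      have hkn : k = n := by
        have h1 : k < (n : ℤ) + 1 := by
          by_contra hcon
          push Not at hcon
          have h2 : ((n : ℚ) + 1) ≤ k := by exact_mod_cast hcon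
          have h3 : (k : ℚ) * v₁ u ≤ ((n : ℚ) + 1) * v₁ u :=
            mul_le_mul_of_nonpos_right h2 hu1.le
          push_cast at h
          rw [hk] at h
          exact absurd h (not_lt.2 h3)
        have h2 : (n : ℤ) ≤ k := by
          by_contra hcon
          push Not at hcon
          apply hlt
          rw [hk]
          have h3 : (k : ℚ) < n := by exact_mod_cast hcon
          exact mul_lt_mul_of_neg_right h3 hu1
        omega
      have hkq : v₁ α = n * v₁ u := by
        rw [hk, hkn]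
        simp
      rcases Nat.eq_zero_or_pos n with hn | hn
      · refine hconst α hα hα2 ?_
        rw [hkq, hn]
        simp
      have hnq : (0 : ℚ) < n := by exact_mod_cast hn
      have hneg : v₁ α < 0 := by
        rw [hkq]
        exact mul_neg_of_pos_of_neg hnq hu1
      have hα0 : α ≠ 0 := Rat2_ne_zero h₁ hneg
      have hu0 : u ≠ 0 := Rat2_ne_zero h₁ hu1
      have hun0 : u ^ n ≠ 0 := pow_ne_zero n hu0
      obtain ⟨c, hc0, hc⟩ := place_lead h₁ hα0 hun0 (by rw [hkq, place_pow h₁])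
      have hcE : algebraMap F E c ≠ 0 := by
        intro h5
        exact hc0 ((map_eq_zero (algebraMap F E)).1 h5)
      rcases hc with hc | hc
      · refine ⟨C c * Polynomial.X ^ n, ?_⟩
        rw [map_mul, aeval_C, map_pow, aeval_X]
        exact sub_eq_zero.1 hc
      · by_cases hz : α - algebraMap F E c * u ^ n = 0
        · refine ⟨C c * Polynomial.X ^ n, ?_⟩
          rw [map_mul, aeval_C, map_pow, aeval_X]
          exact sub_eq_zero.1 hz
        have hint : IsIntegral (Algebra.adjoin F {X}) (α - algebraMap F E c * u ^ n) := by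
          refine hα.sub (IsIntegral.mul ?_ (hu.pow n))
          have h6 : algebraMap F E c = algebraMap (Algebra.adjoin F {X}) E
              (algebraMap F (Algebra.adjoin F {X}) c) :=
            IsScalarTower.algebraMap_apply F (Algebra.adjoin F {X}) E c
          rw [h6]
          exact isIntegral_algebraMap
        obtain ⟨p, hp⟩ := ih (α - algebraMap F E c * u ^ n) hint (fun v hv hv1 => by
          have h6 := place_sub hv hz
          have h7 : 0 ≤ v (algebraMap F E c * u ^ n) := by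
            rw [place_mul hv hcE hun0, place_C hv, place_pow hv, zero_add]
            exact mul_nonneg (Nat.cast_nonneg n) (hu2 v hv hv1)
          exact (le_min (hα2 v hv hv1) h7).trans h6) (by rw [← hkq]; exact hc)
        refine ⟨p + C c * Polynomial.X ^ n, ?_⟩
        rw [map_add, map_mul, aeval_C, map_pow, aeval_X, ← hp]
        ring

/-- **PROOF.** Write `v₁ α = k v₁ u`. If `k ≤ 0`, all places are `≥ 0` at `α`, which is a constant by
`integral_const`. If `k > 0`, then by `place_lead` there is `c ∈ F` with `α - c u^k = 0` or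
`v₁ (α - c u^k) > v₁ α`; this element satisfies the hypotheses; induction on `k`. -/
theorem mem_poly {X : E} (hX : Transcendental F X) [FiniteDimensional F⟮X⟯ E] {v₁ : E → ℚ}
    (h₁ : v₁ ∈ places F X) {u : E} (hu : IsIntegral (Algebra.adjoin F {X}) u) (hu1 : v₁ u < 0)
    (hg : ∀ x : E, ∃ k : ℤ, v₁ x = k * v₁ u) (hu2 : ∀ v ∈ places F X, v ≠ v₁ → 0 ≤ v u)
    {α : E} (hα : IsIntegral (Algebra.adjoin F {X}) α)
    (hα2 : ∀ v ∈ places F X, v ≠ v₁ → 0 ≤ v α) : ∃ p : F[X], α = aeval u p := by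
  obtain ⟨k, hk⟩ := hg α
  refine Rat2_step hX h₁ hu hu1 hg hu2 (k.toNat + 1) α hα hα2 ?_
  rw [hk]
  have h1 : k < (k.toNat : ℤ) + 1 := by omega
  have h2 : (k : ℚ) < ((k.toNat + 1 : ℕ) : ℚ) := by exact_mod_cast h1
  exact mul_lt_mul_of_neg_right h2 hu1

private theorem Rat2_large {X : E} (hX : Transcendental F X) [FiniteDimensional F⟮X⟯ E]
    {v₁ : E → ℚ} {δ : E} (hδ0 : δ ≠ 0) (hδ : ∀ v ∈ places F X, v ≠ v₁ → 0 < v δ) {x : E}
    (hx : x ≠ 0) : ∀ᶠ k : ℕ in Filter.atTop, ∀ v ∈ places F X, v ≠ v₁ → 0 ≤ v (δ ^ k * x) := by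
  have h1 : ∀ᶠ k : ℕ in Filter.atTop, ∀ v ∈ (places_finite hX).toFinset, v ≠ v₁ →
      0 ≤ v (δ ^ k * x) := by
    rw [Filter.eventually_all_finset]
    intro v hv
    have hv' : v ∈ places F X := (Set.Finite.mem_toFinset _).1 hv
    by_cases hv1 : v = v₁
    · exact Filter.Eventually.of_forall fun k h => absurd hv1 h
    · have hpos := hδ v hv' hv1
      obtain ⟨N, hN⟩ := exists_nat_ge (-(v x) / v δ)
      rw [div_le_iff₀ hpos] at hN
      refine Filter.eventually_atTop.2 ⟨N, fun k hk _ => ?_⟩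
      rw [place_mul hv' (pow_ne_zero k hδ0) hx, place_pow hv']
      have hk' : (N : ℚ) ≤ k := by exact_mod_cast hk
      have h2 : (N : ℚ) * v δ ≤ k * v δ := mul_le_mul_of_nonneg_right hk' hpos.le
      linarith
  filter_upwards [h1] with k hk v hv hv1
  exact hk v ((Set.Finite.mem_toFinset _).2 hv) hv1

/-- **PROOF.** For every place `v ≠ v₁` let `c_v` be the residue of `u` (`place_residue`), and
`δ = Π (u - c_v)` over the places `v ≠ v₁` with `u ≠ c_v`; if `u = c_v` for some `v` then `u` is constant, contradicting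
`v₁ u < 0`; so `v δ > 0` for all `v ≠ v₁`. Let `e ∈ E`; by `exists_integral_mul` there is `b ≠ 0` with
`b(X) e` integral, and `X` is integral. For large `k`, `δ^k b(X) e` and
`δ^k b(X)` satisfy the hypotheses of `mem_poly`, so both are polynomials in `u`, and `e ∈ F(u)`. -/
theorem adjoin_eq_top {X : E} (hX : Transcendental F X) [FiniteDimensional F⟮X⟯ E] {v₁ : E → ℚ}
    (h₁ : v₁ ∈ places F X) {u : E} (hu : IsIntegral (Algebra.adjoin F {X}) u) (hu1 : v₁ u < 0)
    (hg : ∀ x : E, ∃ k : ℤ, v₁ x = k * v₁ u) (hu2 : ∀ v ∈ places F X, v ≠ v₁ → 0 ≤ v u) :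
    F⟮u⟯ = ⊤ := by
  classical
  have hres : ∀ v : E → ℚ, ∃ c : F, v ∈ places F X → v ≠ v₁ → 0 < v (u - algebraMap F E c) := by
    intro v
    by_cases hv : v ∈ places F X
    · by_cases hv1 : v = v₁
      · exact ⟨0, fun _ h => absurd hv1 h⟩
      · obtain ⟨c, hc⟩ := place_residue hv (hu2 v hv hv1)
        refine ⟨c, fun _ _ => ?_⟩
        rcases hc with hc | hc
        · exact absurd hc (Rat2_v_const h₁ hu1 c)
        · exact hc
    · exact ⟨0, fun h => absurd h hv⟩
  choose c hc using hres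
  set S : Finset (E → ℚ) := (places_finite hX).toFinset.erase v₁ with hS
  set δ : E := ∏ w ∈ S, (u - algebraMap F E (c w)) with hδdef
  have hfac0 : ∀ w, u - algebraMap F E (c w) ≠ 0 := fun w => Rat2_v_const h₁ hu1 (c w)
  have hδ0 : δ ≠ 0 := Finset.prod_ne_zero_iff.2 fun w _ => hfac0 w
  have hCint : ∀ a : F, IsIntegral (Algebra.adjoin F {X}) (algebraMap F E a) := by
    intro a
    rw [IsScalarTower.algebraMap_apply F (Algebra.adjoin F {X}) E a]
    exact isIntegral_algebraMap
  have hδint : IsIntegral (Algebra.adjoin F {X}) δ :=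
    IsIntegral.prod _ fun w _ => hu.sub (hCint (c w))
  have hvprod : ∀ v ∈ places F X, ∀ T : Finset (E → ℚ),
      v (∏ w ∈ T, (u - algebraMap F E (c w))) = ∑ w ∈ T, v (u - algebraMap F E (c w)) := by
    intro v hv T
    induction T using Finset.induction_on with
    | empty =>
        rw [Finset.prod_empty, Finset.sum_empty]
        have h := place_C hv (1 : F)
        rwa [map_one] at h
    | insert a T ha ih =>
        rw [Finset.prod_insert ha, Finset.sum_insert ha,
          place_mul hv (hfac0 a) (Finset.prod_ne_zero_iff.2 fun w _ => hfac0 w), ih]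
  have hδpos : ∀ v ∈ places F X, v ≠ v₁ → 0 < v δ := by
    intro v hv hv1
    rw [hδdef, hvprod v hv S]
    have hmem : v ∈ S := Finset.mem_erase.2 ⟨hv1, (Set.Finite.mem_toFinset _).2 hv⟩
    refine lt_of_lt_of_le (hc v hv hv1)
      (Finset.single_le_sum (f := fun w => v (u - algebraMap F E (c w))) (fun w _ => ?_) hmem)
    have h2 := place_sub hv (hfac0 w)
    have h3 : v (algebraMap F E (c w)) = 0 := place_C hv _
    exact (le_min (hu2 v hv hv1) h3.ge).trans h2
  rw [eq_top_iff]
  intro e _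
  by_cases he : e = 0
  · rw [he]
    exact zero_mem _
  obtain ⟨b, hb0, hbint⟩ := exists_integral_mul hX e
  have hbX0 : aeval X b ≠ 0 := by
    intro h
    exact hb0 ((transcendental_iff.1 hX) b h)
  have hbXint : IsIntegral (Algebra.adjoin F {X}) (aeval X b) := by
    have h2 : aeval X b ∈ Algebra.adjoin F {X} := aeval_mem_adjoin_singleton F X
    exact isIntegral_algebraMap (R := Algebra.adjoin F {X}) (x := ⟨aeval X b, h2⟩)
  obtain ⟨k, hk1, hk2⟩ := ((Rat2_large hX (v₁ := v₁) hδ0 hδpos (mul_ne_zero hbX0 he)).and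
    (Rat2_large hX (v₁ := v₁) hδ0 hδpos hbX0)).exists
  obtain ⟨p, hp⟩ := mem_poly hX h₁ hu hu1 hg hu2 ((hδint.pow k).mul hbint) hk1
  obtain ⟨q, hq⟩ := mem_poly hX h₁ hu hu1 hg hu2 ((hδint.pow k).mul hbXint) hk2
  have hmem : ∀ r : F[X], aeval u r ∈ F⟮u⟯ := fun r =>
    (IntermediateField.algebra_adjoin_le_adjoin F {u}) (aeval_mem_adjoin_singleton F u)
  have hden : δ ^ k * aeval X b ≠ 0 := mul_ne_zero (pow_ne_zero k hδ0) hbX0
  have heq : e = aeval u p / aeval u q := by
    rw [← hp, ← hq, eq_div_iff hden]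
    ring
  rw [heq]
  exact div_mem (hmem p) (hmem q)

end Pool.Agent.MSC
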