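import Pool.Agent.MSC.Cheb1
import Pool.Agent.MSC.Ph
import Pool.Agent.MSC.Rat2

/-!
# There is only one place with a pole at `X`
-/

namespace Pool.Agent.MSC

open Polynomial IntermediateField Pool.Agent.PrepH

variable {F : Type*} [Field F] [IsAlgClosed F] [CharZero F]

variable {E : Type*} [Field E] [Algebra F E]

omit [IsAlgClosed F] [CharZero F] in
/-- a polynomial with only one root. -/
private theorem Cheb2_pow {g : F[X]} (hg : g ≠ 0) {c : F} (h : g.rootMultiplicity c = g.natDegree) :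
    g = C g.leadingCoeff * (Polynomial.X - C c) ^ g.natDegree := by
  obtain ⟨q, hq⟩ := pow_rootMultiplicity_dvd g c
  rw [h] at hq
  have hq0 : q ≠ 0 := by
    intro h0
    rw [h0, mul_zero] at hq
    exact hg hq
  have hp : (Polynomial.X - C c) ^ g.natDegree ≠ (0 : F[X]) := pow_ne_zero _ (X_sub_C_ne_zero c)
  have hd : q.natDegree = 0 := by
    have h1 := congrArg natDegree hq
    rw [natDegree_mul hp hq0, natDegree_pow, natDegree_X_sub_C] at h1
    omega
  have hl : g.leadingCoeff = q.coeff 0 := by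
    have h1 := congrArg leadingCoeff hq
    rw [leadingCoeff_mul, leadingCoeff_pow, leadingCoeff_X_sub_C, one_pow, one_mul] at h1
    rw [h1, leadingCoeff, hd]
  rw [hl, ← eq_C_of_natDegree_eq_zero hd, mul_comm]
  exact hq

omit [IsAlgClosed F] [CharZero F] in
/-- the key computation with the multiplicity of the residue. -/
private theorem Cheb2_key {X : E} {v : E → ℚ} (hv : v ∈ places F X) {D : ℕ} (hD : 2 ≤ D)
    {Φ : E →ₐ[F] E} (hfix : ∀ e : E, v (Φ e) = D * v e) {x : E} {g : F[X]} (hg : g.natDegree = D)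
    (hx : Φ x = aeval x g) {c : F} (hc : 0 < v (x - algebraMap F E c)) :
    g = C c + C g.leadingCoeff * (Polynomial.X - C c) ^ D := by
  have hdeg : (g - C c).natDegree = D := by rw [natDegree_sub_C, hg]
  have hne : g - C c ≠ 0 := by
    intro h0
    rw [h0, natDegree_zero] at hdeg
    omega
  obtain ⟨_, h2⟩ := place_poly_root hv hc hne
  have h3 : aeval x (g - C c) = Φ (x - algebraMap F E c) := by
    rw [map_sub, map_sub, aeval_C, hx, AlgHom.commutes]
  rw [h3, hfix] at h2
  have h4 : ((g - C c).rootMultiplicity c : ℚ) = D := by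
    have := mul_right_cancel₀ hc.ne' h2
    exact this.symm
  have h5 : (g - C c).rootMultiplicity c = (g - C c).natDegree := by
    rw [hdeg]
    exact_mod_cast h4
  have h6 := Cheb2_pow hne h5
  have h7 : (g - C c).leadingCoeff = g.leadingCoeff := by
    rw [leadingCoeff, leadingCoeff, hdeg, hg, Polynomial.coeff_sub, Polynomial.coeff_C,
      if_neg (by omega), sub_zero]
  rw [h7, hdeg] at h6
  rw [← h6]
  ring

theorem place_other_neg {X Y : E} (hY : Transcendental F Y) {G : F[X]} (hG : 2 ≤ G.natDegree)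
    {Φ : E →ₐ[F] E} (hΦY : Φ Y = aeval Y G) (hfix : Fixed X G Φ)
    (hsp : ¬ LinConj G (Polynomial.X ^ G.natDegree)) : ∀ v ∈ places F X, v Y < 0 := by
  intro v hv
  by_contra hcon
  push Not at hcon
  obtain ⟨y, hy⟩ := place_residue hv hcon
  have hpos : 0 < v (Y - algebraMap F E y) := by
    rcases hy with hy | hy
    · exfalso
      apply hY
      rw [sub_eq_zero.1 hy]
      exact isAlgebraic_algebraMap y
    · exact hy
  have h := Cheb2_key hv hG (hfix v hv) rfl hΦY hpos
  exact hsp (linConj_pow hG h)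

theorem special_of_two_places {X : E} (hX : Transcendental F X) [FiniteDimensional F⟮X⟯ E]
    {G : F[X]} (hG : 2 ≤ G.natDegree) {Φ : E →ₐ[F] E} (hΦ : Φ X = aeval X G)
    (hfix : Fixed X G Φ) {v₁ : E → ℚ}
    (h₁ : v₁ ∈ places F X) {u : E} (hu : IsIntegral (Algebra.adjoin F {X}) u) (hu1 : v₁ u < 0)
    (hg : ∀ x : E, ∃ k : ℤ, v₁ x = k * v₁ u) (hu2 : ∀ v ∈ places F X, v ≠ v₁ → 0 ≤ v u)
    {v₂ : E → ℚ} (h₂ : v₂ ∈ places F X) (h₁₂ : v₂ ≠ v₁) : Special G := by
  classical
  obtain ⟨D, hD⟩ : ∃ D, D = G.natDegree := ⟨_, rfl⟩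
  have hD2 : 2 ≤ D := by rw [hD]; exact hG
  have hDq : (0 : ℚ) < D := by
    have : 0 < D := by omega
    exact_mod_cast this
  have hfixD : ∀ v ∈ places F X, ∀ e : E, v (Φ e) = D * v e := by
    intro v hv e
    rw [hD]
    exact hfix v hv e
  have hu0 : u ≠ 0 := by
    intro h
    rw [h, place_zero h₁] at hu1
    exact lt_irrefl _ hu1
  have hX0 : X ≠ 0 := by
    intro h
    have h1 := place_X h₁
    rw [h, place_zero h₁] at h1
    norm_num at h1
  have hconst : ∀ c : F, u - algebraMap F E c ≠ 0 := by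
    intro c h
    rw [sub_eq_zero.1 h, place_C h₁] at hu1
    exact lt_irrefl _ hu1
  -- step 1: `Φ u` is integral
  have hmapA : ∀ x : Algebra.adjoin F {X}, Φ (x : E) ∈ Algebra.adjoin F {X} := by
    intro x
    have hx : (x : E) ∈ (aeval X : F[X] →ₐ[F] E).range := by
      rw [← Algebra.adjoin_singleton_eq_range_aeval]
      exact x.2
    obtain ⟨p, hp⟩ := hx
    have hp' : aeval X p = (x : E) := hp
    rw [← hp', ← aeval_algHom_apply, hΦ, ← aeval_comp]
    exact aeval_mem_adjoin_singleton F X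
  have hΦu : IsIntegral (Algebra.adjoin F {X}) (Φ u) := by
    let φ : Algebra.adjoin F {X} →ₐ[F] Algebra.adjoin F {X} :=
      (Φ.comp (Algebra.adjoin F {X}).val).codRestrict (Algebra.adjoin F {X}) hmapA
    exact IsIntegral.map_of_comp_eq (φ : Algebra.adjoin F {X} →+* Algebra.adjoin F {X})
      (Φ : E →+* E) (RingHom.ext fun x => rfl) hu
  obtain ⟨h, hh⟩ := mem_poly hX h₁ hu hu1 hg hu2 hΦu (fun v hv hv1 => by
    rw [hfixD v hv]
    exact mul_nonneg hDq.le (hu2 v hv hv1))
  have hΦu0 : Φ u ≠ 0 := (map_ne_zero Φ).2 hu0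
  have hh0 : h ≠ 0 := by
    intro h0
    rw [h0, map_zero] at hh
    exact hΦu0 hh
  have hhD : h.natDegree = D := by
    have h1 := (place_poly_neg h₁ hu1 hh0).2
    rw [← hh, hfixD v₁ h₁] at h1
    have h2 := mul_right_cancel₀ hu1.ne h1
    exact_mod_cast h2.symm
  -- step 2: the residue is the same at all other places
  obtain ⟨κ, hκe⟩ : ∃ κ, κ = h.leadingCoeff := ⟨_, rfl⟩
  have hκ : κ ≠ 0 := by
    rw [hκe]
    exact leadingCoeff_ne_zero.2 hh0
  have hres : ∀ v ∈ places F X, v ≠ v₁ → ∃ c : F, 0 < v (u - algebraMap F E c) ∧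
      h = C c + C κ * (Polynomial.X - C c) ^ D := by
    intro v hv hv1
    obtain ⟨c, hc⟩ := place_residue hv (hu2 v hv hv1)
    have hc' : 0 < v (u - algebraMap F E c) := by
      rcases hc with hc | hc
      · exact absurd hc (hconst c)
      · exact hc
    refine ⟨c, hc', ?_⟩
    rw [hκe]
    exact Cheb2_key hv hD2 (hfixD v hv) hhD hh hc'
  obtain ⟨c, hc, hhc⟩ := hres v₂ h₂ h₁₂
  have hsame : ∀ v ∈ places F X, v ≠ v₁ → 0 < v (u - algebraMap F E c) := by
    intro v hv hv1
    obtain ⟨c', hc', hhc'⟩ := hres v hv hv1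
    have e1 : C c + C κ * (Polynomial.X - C c) ^ D = C c' + C κ * (Polynomial.X - C c') ^ D := by
      rw [← hhc, ← hhc']
    have e2 := congrArg (fun p => eval c (derivative p)) e1
    simp only [derivative_add, derivative_C, zero_add, derivative_C_mul, derivative_X_sub_C_pow,
      eval_mul, eval_C, eval_pow, eval_sub, eval_X, sub_self, eval_natCast] at e2
    rw [zero_pow (by omega), mul_zero, mul_zero] at e2
    have e3 : (c - c') ^ (D - 1) = 0 := by
      rcases mul_eq_zero.1 e2.symm with e4 | e4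
      · exact absurd e4 hκ
      · rcases mul_eq_zero.1 e4 with e5 | e5
        · exfalso
          have : D = 0 := by exact_mod_cast e5
          omega
        · exact e5
    have e4 : c = c' := sub_eq_zero.1 (pow_eq_zero_iff (by omega) |>.1 e3)
    rw [e4]
    exact hc'
  -- step 3: the element `w`
  obtain ⟨w, hw⟩ : ∃ w, w = u - algebraMap F E c := ⟨_, rfl⟩
  have hw0 : w ≠ 0 := by rw [hw]; exact hconst c
  have hΦw : Φ w = algebraMap F E κ * w ^ D := by
    rw [hw, map_sub, AlgHom.commutes, hh]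
    conv_lhs => rw [hhc]
    rw [map_add, map_mul, aeval_C, aeval_C, map_pow, map_sub, aeval_X, aeval_C]
    ring
  have hv1w : v₁ w = v₁ u := by
    rw [hw]
    by_cases hc0 : algebraMap F E c = 0
    · rw [hc0, sub_zero]
    · have h1 : v₁ u < v₁ (-(algebraMap F E c)) := by
        have : -(algebraMap F E c) = algebraMap F E (-c) := by rw [map_neg]
        rw [this, place_C h₁]
        exact hu1
      have h2 := (place_add_of_lt h₁ hu0 (Or.inl h1)).2
      rw [← sub_eq_add_neg] at h2
      exact h2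
  have hv1w' : v₁ w < 0 := by rw [hv1w]; exact hu1
  have hAeq : ∀ p : F[X], ∃ N : F[X], aeval u p = aeval w N := by
    intro p
    refine ⟨p.comp (Polynomial.X + C c), ?_⟩
    rw [aeval_comp, map_add, aeval_X, aeval_C, hw, sub_add_cancel]
  -- step 4: for large `k`, `X w^k` is a polynomial in `w`
  have hwint : IsIntegral (Algebra.adjoin F {X}) w := by
    rw [hw]
    refine hu.sub ?_
    rw [IsScalarTower.algebraMap_apply F (Algebra.adjoin F {X}) E c]
    exact isIntegral_algebraMap
  have hXint : IsIntegral (Algebra.adjoin F {X}) X := by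
    have h2 : X ∈ Algebra.adjoin F {X} := Algebra.subset_adjoin (Set.mem_singleton X)
    exact isIntegral_algebraMap (R := Algebra.adjoin F {X}) (x := ⟨X, h2⟩)
  have hlarge : ∃ k : ℕ, ∀ v ∈ places F X, v ≠ v₁ → 0 ≤ v (X * w ^ k) := by
    have h1 : ∀ᶠ k : ℕ in Filter.atTop, ∀ v ∈ (places_finite hX).toFinset, v ≠ v₁ →
        0 ≤ v (X * w ^ k) := by
      rw [Filter.eventually_all_finset]
      intro v hv
      have hv' : v ∈ places F X := (Set.Finite.mem_toFinset _).1 hv
      by_cases hv1 : v = v₁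
      · exact Filter.Eventually.of_forall fun k h => absurd hv1 h
      · have hpos : 0 < v w := by rw [hw]; exact hsame v hv' hv1
        obtain ⟨N, hN⟩ := exists_nat_ge (-(v X) / v w)
        rw [div_le_iff₀ hpos] at hN
        refine Filter.eventually_atTop.2 ⟨N, fun k hk _ => ?_⟩
        rw [place_mul hv' hX0 (pow_ne_zero k hw0), place_pow hv']
        have hk' : (N : ℚ) ≤ k := by exact_mod_cast hk
        have h2 : (N : ℚ) * v w ≤ k * v w := mul_le_mul_of_nonneg_right hk' hpos.le
        linarith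
    obtain ⟨k, hk⟩ := h1.exists
    exact ⟨k, fun v hv hv1 => hk v ((Set.Finite.mem_toFinset _).2 hv) hv1⟩
  have hex : ∃ k : ℕ, ∃ N : F[X], X * w ^ k = aeval w N := by
    obtain ⟨k, hk⟩ := hlarge
    obtain ⟨p, hp⟩ := mem_poly hX h₁ hu hu1 hg hu2 (hXint.mul (hwint.pow k)) hk
    obtain ⟨N, hN⟩ := hAeq p
    exact ⟨k, N, by rw [hp, hN]⟩
  obtain ⟨k, hkdef⟩ : ∃ k, k = Nat.find hex := ⟨_, rfl⟩
  obtain ⟨N, hN⟩ : ∃ N : F[X], X * w ^ k = aeval w N := by
    rw [hkdef]
    exact Nat.find_spec hex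
  have hkmin : ∀ j < k, ¬ ∃ N : F[X], X * w ^ j = aeval w N := by
    intro j hj
    rw [hkdef] at hj
    exact Nat.find_min hex hj
  have hk1 : 1 ≤ k := by
    by_contra hk0
    have hk0' : k = 0 := by omega
    rw [hk0', pow_zero, mul_one] at hN
    have h3 : 0 ≤ v₂ w := by rw [hw]; exact hc.le
    have h4 := place_poly_nonneg h₂ h3 N
    rw [← hN, place_X h₂] at h4
    norm_num at h4
  have hNne : N ≠ 0 := by
    intro h0
    rw [h0, map_zero] at hN
    exact mul_ne_zero hX0 (pow_ne_zero k hw0) hN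
  have hN0 : N.coeff 0 ≠ 0 := by
    intro h0
    obtain ⟨N', hN'⟩ := X_dvd_iff.2 h0
    apply hkmin (k - 1) (by omega)
    refine ⟨N', ?_⟩
    apply mul_left_cancel₀ hw0
    have h5 : w * (X * w ^ (k - 1)) = X * w ^ k := by
      have : k = (k - 1) + 1 := by omega
      conv_rhs => rw [this, pow_succ]
      ring
    rw [h5, hN, hN', map_mul, aeval_X]
  have hNk : k < N.natDegree := by
    have h5 := (place_poly_neg h₁ hv1w' hNne).2
    rw [← hN, place_mul h₁ hX0 (pow_ne_zero k hw0), place_pow h₁, place_X h₁] at h5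
    by_contra hcon
    push Not at hcon
    have h6 : (N.natDegree : ℚ) ≤ k := by exact_mod_cast hcon
    have h7 : (k : ℚ) * v₁ w ≤ N.natDegree * v₁ w := mul_le_mul_of_nonpos_right h6 hv1w'.le
    linarith
  -- step 5: the identity
  have htr : ∀ p q : F[X], aeval w p = aeval w q → p = q := by
    intro p q hpq
    by_contra hne
    have h5 := (place_poly_neg h₁ hv1w' (sub_ne_zero.2 hne)).1
    apply h5
    rw [map_sub, hpq, sub_self]
  refine cheb_of_laurent hG hk1 hN0 hNk hκ (htr _ _ ?_)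
  rw [← hD]
  have e1 : aeval w (N.comp (C κ * Polynomial.X ^ D)) = Φ (X * w ^ k) := by
    rw [hN, aeval_comp, map_mul, aeval_C, map_pow, aeval_X, ← hΦw, aeval_algHom_apply]
  have e3 : Φ (X * w ^ k) = algebraMap F E κ ^ k *
      ∑ i ∈ Finset.range (D + 1), (G.coeff i • X ^ i) * (w ^ D) ^ k := by
    rw [map_mul, map_pow, hΦw, hΦ, aeval_eq_sum_range, ← hD, mul_pow, ← Finset.sum_mul]
    ring
  rw [e1, e3, map_mul, aeval_C, map_sum, map_pow]
  congr 1
  apply Finset.sum_congr rfl
  intro i hi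
  have hi' : i ≤ D := by
    have := Finset.mem_range.1 hi
    omega
  rw [map_mul, map_mul, aeval_C, map_pow, map_pow, aeval_X, ← hN, Algebra.smul_def]
  have e2 : (w ^ D) ^ k = (w ^ k) ^ i * w ^ (k * (D - i)) := by
    rw [← pow_mul, ← pow_mul, ← pow_add]
    congr 1
    rw [← Nat.mul_add, mul_comm]
    congr 1
    omega
  rw [e2, mul_pow]
  ring

end Pool.Agent.MSC
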