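import Mathlib

/-!
# Local degrees and defects of polynomials
-/

namespace Pool.Agent.MSC

open Polynomial

variable {F : Type*} [Field F] [IsAlgClosed F] [CharZero F]

/-- The local degree of the map given by `p` at `x`. -/
noncomputable def ldeg (p : F[X]) (x : F) : ℕ := (p - C (p.eval x)).rootMultiplicity x

/-- The fibre over `v`. -/
noncomputable def fib (p : F[X]) (v : F) : Finset F :=
  haveI := Classical.decEq F
  (p - C v).roots.toFinset

/-- The points of local degree `1` in the fibre over `v`. -/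
noncomputable def sfib (p : F[X]) (v : F) : Finset F :=
  haveI := Classical.dec
  (fib p v).filter fun x => ldeg p x = 1

/-- The defect of the fibre over `v`. -/
noncomputable def dfc (p : F[X]) (v : F) : ℕ := p.natDegree - (fib p v).card

private theorem Cnt1_ne {p : F[X]} (hp : 1 ≤ p.natDegree) (v : F) : p - C v ≠ 0 := by
  intro h
  have h1 : (p - C v).natDegree = p.natDegree := natDegree_sub_C
  rw [h, natDegree_zero] at h1
  omega

theorem mem_fib {p : F[X]} (hp : 1 ≤ p.natDegree) {v x : F} : x ∈ fib p v ↔ p.eval x = v := by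
  unfold fib
  simp only [Multiset.mem_toFinset]
  rw [mem_roots (Cnt1_ne hp v), IsRoot.def, eval_sub, eval_C, sub_eq_zero]

theorem mem_sfib {p : F[X]} (hp : 1 ≤ p.natDegree) {v x : F} :
    x ∈ sfib p v ↔ p.eval x = v ∧ ldeg p x = 1 := by
  simp only [sfib, Finset.mem_filter, mem_fib hp]

theorem ldeg_pos {p : F[X]} (hp : 1 ≤ p.natDegree) (x : F) : 1 ≤ ldeg p x := by
  unfold ldeg
  have h := (rootMultiplicity_pos (x := x) (Cnt1_ne hp (p.eval x))).2
    (by rw [IsRoot.def, eval_sub, eval_C, sub_self])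
  exact h

private theorem Cnt1_rm_pow {p : F[X]} (hp : p ≠ 0) (x : F) (n : ℕ) :
    (p ^ n).rootMultiplicity x = n * p.rootMultiplicity x := by
  induction n with
  | zero => simp
  | succ n ih =>
    rw [pow_succ, rootMultiplicity_mul (mul_ne_zero (pow_ne_zero n hp) hp), ih]
    ring

/-- **PROOF.** `p = p(q x) + (X - q x)^a u`, `q = q x + (X - x)^b w`, `u (q x) ≠ 0`, `w x ≠ 0`. -/
theorem ldeg_comp {p q : F[X]} (hp : 1 ≤ p.natDegree) (hq : 1 ≤ q.natDegree) (x : F) :
    ldeg (p.comp q) x = ldeg p (q.eval x) * ldeg q x := by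
  unfold ldeg
  obtain ⟨u, hu, hu0⟩ := exists_eq_pow_rootMultiplicity_mul_and_not_dvd
    (p - C (p.eval (q.eval x))) (Cnt1_ne hp _) (q.eval x)
  set a := (p - C (p.eval (q.eval x))).rootMultiplicity (q.eval x) with ha
  have h1 : p.comp q - C ((p.comp q).eval x) = (q - C (q.eval x)) ^ a * u.comp q := by
    have h2 := congrArg (fun r => r.comp q) hu
    simp only [sub_comp, C_comp, mul_comp, pow_comp, X_comp] at h2
    rw [eval_comp]
    exact h2
  have hu1 : (u.comp q).eval x ≠ 0 := by
    rw [eval_comp]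
    intro h3
    exact hu0 (dvd_iff_isRoot.2 h3)
  have hu2 : u.comp q ≠ 0 := by
    intro h3
    rw [h3, eval_zero] at hu1
    exact hu1 rfl
  have hq0 := Cnt1_ne hq (q.eval x)
  rw [h1, rootMultiplicity_mul (mul_ne_zero (pow_ne_zero _ hq0) hu2), Cnt1_rm_pow hq0,
    rootMultiplicity_eq_zero hu1, add_zero]

theorem sum_ldeg {p : F[X]} (hp : 1 ≤ p.natDegree) (v : F) :
    ∑ x ∈ fib p v, ldeg p x = p.natDegree := by
  classical
  have h1 : ∀ x ∈ fib p v, ldeg p x = (p - C v).roots.count x := by
    intro x hx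
    rw [count_roots]
    unfold ldeg
    rw [(mem_fib hp).1 hx]
  rw [Finset.sum_congr rfl h1]
  have h2 : fib p v = (p - C v).roots.toFinset := by
    ext x
    rw [mem_fib hp, Multiset.mem_toFinset, mem_roots (Cnt1_ne hp v), IsRoot.def, eval_sub,
      eval_C, sub_eq_zero]
  rw [h2, Multiset.toFinset_sum_count_eq, ← (IsAlgClosed.splits (p - C v)).natDegree_eq_card_roots,
    natDegree_sub_C]

theorem card_fib_le {p : F[X]} (hp : 1 ≤ p.natDegree) (v : F) :
    1 ≤ (fib p v).card ∧ (fib p v).card ≤ p.natDegree := by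
  have h := sum_ldeg hp v
  constructor
  · by_contra hc
    have h0 : fib p v = ∅ := Finset.card_eq_zero.1 (by omega)
    rw [h0, Finset.sum_empty] at h
    omega
  · rw [← h, Finset.card_eq_sum_ones]
    exact Finset.sum_le_sum fun x _ => ldeg_pos hp x

private theorem Cnt1_ldeg_deriv {p : F[X]} (x : F) :
    ldeg p x - 1 = p.derivative.rootMultiplicity x := by
  unfold ldeg
  have h := derivative_rootMultiplicity_of_root (p := p - C (p.eval x)) (t := x)
    (by rw [IsRoot.def, eval_sub, eval_C, sub_self])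
  rw [derivative_sub, derivative_C, sub_zero] at h
  exact h.symm

private theorem Cnt1_dfc {p : F[X]} (hp : 1 ≤ p.natDegree) (v : F) :
    dfc p v = ∑ x ∈ fib p v, (ldeg p x - 1) := by
  have h := sum_ldeg hp v
  have h1 : ∑ x ∈ fib p v, ldeg p x = (∑ x ∈ fib p v, (ldeg p x - 1)) + (fib p v).card := by
    rw [Finset.card_eq_sum_ones, ← Finset.sum_add_distrib]
    refine Finset.sum_congr rfl fun x _ => ?_
    have := ldeg_pos hp x
    omega
  unfold dfc
  omega

private theorem Cnt1_sum_rm_le {p : F[X]} (T : Finset F) :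
    ∑ x ∈ T, p.rootMultiplicity x ≤ p.natDegree := by
  classical
  have h1 : ∑ x ∈ T, p.rootMultiplicity x ≤ ∑ x ∈ p.roots.toFinset, p.rootMultiplicity x := by
    rw [← Finset.sum_filter_add_sum_filter_not T (fun x => x ∈ p.roots.toFinset)]
    have h2 : ∑ x ∈ T.filter (fun x => x ∉ p.roots.toFinset), p.rootMultiplicity x = 0 := by
      refine Finset.sum_eq_zero fun x hx => ?_
      have h3 := (Finset.mem_filter.1 hx).2
      rw [Multiset.mem_toFinset] at h3
      rw [← count_roots]
      exact Multiset.count_eq_zero.2 h3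
    rw [h2, add_zero]
    exact Finset.sum_le_sum_of_subset fun x hx => (Finset.mem_filter.1 hx).2
  refine h1.trans ?_
  have h4 : ∑ x ∈ p.roots.toFinset, p.rootMultiplicity x = p.roots.card := by
    rw [← Multiset.toFinset_sum_count_eq]
    exact Finset.sum_congr rfl fun x _ => (count_roots p).symm
  rw [h4]
  exact card_roots' p

private theorem Cnt1_sum_rm_eq {p : F[X]} (T : Finset F)
    (hT : ∀ x, p.rootMultiplicity x ≠ 0 → x ∈ T) :
    ∑ x ∈ T, p.rootMultiplicity x = p.natDegree := by
  classical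
  rw [(IsAlgClosed.splits p).natDegree_eq_card_roots, ← Multiset.toFinset_sum_count_eq]
  symm
  refine (Finset.sum_congr rfl fun x _ => count_roots p).trans ?_
  refine Finset.sum_subset (fun x hx => hT x ?_) fun x _ hx => ?_
  · rw [Multiset.mem_toFinset, ← Multiset.count_pos, count_roots] at hx
    omega
  · rw [Multiset.mem_toFinset] at hx
    rw [← count_roots]
    exact Multiset.count_eq_zero.2 hx

private theorem Cnt1_deriv_deg {p : F[X]} (hp : 1 ≤ p.natDegree) :
    p.derivative.natDegree = p.natDegree - 1 := by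
  have h := degree_derivative (p := p) (by omega)
  exact natDegree_eq_of_degree_eq_some h

private theorem Cnt1_sum_dfc {p : F[X]} (hp : 1 ≤ p.natDegree) (T : Finset F) :
    ∃ U : Finset F, (∀ x, x ∈ U ↔ p.eval x ∈ T) ∧
      ∑ v ∈ T, dfc p v = ∑ x ∈ U, p.derivative.rootMultiplicity x ∧
      ∑ v ∈ T, (fib p v).card = U.card := by
  classical
  have hd : Set.PairwiseDisjoint (T : Set F) (fib p) := by
    intro v _ w _ hvw
    rw [Function.onFun, Finset.disjoint_left]
    intro x hx hx'
    exact hvw (((mem_fib hp).1 hx).symm.trans ((mem_fib hp).1 hx'))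
  refine ⟨T.biUnion (fib p), fun x => ?_, ?_, ?_⟩
  · rw [Finset.mem_biUnion]
    constructor
    · rintro ⟨v, hv, hx⟩
      rw [(mem_fib hp).1 hx]
      exact hv
    · intro h
      exact ⟨_, h, (mem_fib hp).2 rfl⟩
  · rw [Finset.sum_biUnion hd]
    refine Finset.sum_congr rfl fun v _ => ?_
    rw [Cnt1_dfc hp]
    exact Finset.sum_congr rfl fun x _ => Cnt1_ldeg_deriv x
  · rw [Finset.card_biUnion hd]

/-- **PROOF.** `ldeg p x - 1` is the multiplicity of the root `x` of the derivative of `p`, which has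
degree `natDegree p - 1` (characteristic `0`). `S` is the set of the critical values. -/
theorem exists_critical {p : F[X]} (hp : 1 ≤ p.natDegree) :
    ∃ S : Finset F, ∀ T : Finset F, (S ⊆ T → ∑ v ∈ T, dfc p v = p.natDegree - 1) ∧
      ∑ v ∈ T, dfc p v ≤ p.natDegree - 1 ∧ ∀ v ∉ S, dfc p v = 0 := by
  classical
  have hr : ∀ x, p.derivative.rootMultiplicity x ≠ 0 → x ∈ p.derivative.roots.toFinset := by
    intro x hx
    rw [Multiset.mem_toFinset, ← Multiset.count_pos, count_roots]
    omega
  refine ⟨p.derivative.roots.toFinset.image fun x => p.eval x, fun T => ?_⟩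
  obtain ⟨U, hU, hU1, _⟩ := Cnt1_sum_dfc hp T
  refine ⟨fun hST => ?_, ?_, fun v hv => ?_⟩
  · rw [hU1, Cnt1_sum_rm_eq U, Cnt1_deriv_deg hp]
    intro x hx
    exact (hU x).2 (hST (Finset.mem_image_of_mem _ (hr x hx)))
  · rw [hU1, ← Cnt1_deriv_deg hp]
    exact Cnt1_sum_rm_le U
  · rw [Cnt1_dfc hp]
    refine Finset.sum_eq_zero fun x hx => ?_
    rw [Cnt1_ldeg_deriv]
    by_contra h
    refine hv ?_
    rw [← (mem_fib hp).1 hx]
    exact Finset.mem_image_of_mem _ (hr x h)

/-- **PROOF.** The multiplicities of the roots of the derivative add up to `natDegree p - 1`. -/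
theorem sum_ldeg_sub {p : F[X]} (hp : 1 ≤ p.natDegree) (T : Finset F) :
    ∑ x ∈ T, (ldeg p x - 1) ≤ p.natDegree - 1 := by
  rw [← Cnt1_deriv_deg hp, Finset.sum_congr rfl fun x _ => Cnt1_ldeg_deriv x]
  exact Cnt1_sum_rm_le T

/-- **PROOF.** From `sum_ldeg`: `natDegree p ≥ 2 card (fib) - card (sfib)`. -/
theorem sfib_ge {p : F[X]} (hp : 1 ≤ p.natDegree) (v : F) :
    p.natDegree ≤ (sfib p v).card + 2 * dfc p v := by
  classical
  have h1 := sum_ldeg hp v
  have h2 := (card_fib_le hp v).2
  have h3 : sfib p v = (fib p v).filter fun x => ldeg p x = 1 := by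
    ext x
    rw [mem_sfib hp, Finset.mem_filter, mem_fib hp]
  have h4 := Finset.sum_filter_add_sum_filter_not (fib p v) (fun x => ldeg p x = 1) (ldeg p)
  have h5 := Finset.card_filter_add_card_filter_not (s := fib p v) (fun x => ldeg p x = 1)
  have h6 : ((fib p v).filter fun x => ldeg p x = 1).card ≤
      ∑ x ∈ (fib p v).filter (fun x => ldeg p x = 1), ldeg p x := by
    rw [Finset.card_eq_sum_ones]
    exact Finset.sum_le_sum fun x _ => ldeg_pos hp x
  have h7 : 2 * ((fib p v).filter fun x => ¬ ldeg p x = 1).card ≤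
      ∑ x ∈ (fib p v).filter (fun x => ¬ ldeg p x = 1), ldeg p x := by
    rw [Finset.card_eq_sum_ones, Finset.mul_sum]
    refine Finset.sum_le_sum fun x hx => ?_
    have h8 := (Finset.mem_filter.1 hx).2
    have h9 := ldeg_pos hp x
    omega
  unfold dfc
  rw [h3]
  omega

/-- **PROOF.** The number of the preimages of the points of `S` is `D |S|` minus the sum of their defects. -/
theorem card_preimage {p : F[X]} (hp : 1 ≤ p.natDegree) (S T : Finset F)
    (h : ∀ x : F, p.eval x ∈ S → x ∈ T) : p.natDegree * S.card ≤ T.card + (p.natDegree - 1) := by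
  obtain ⟨U, hU, hU1, hU2⟩ := Cnt1_sum_dfc hp S
  have h1 : U.card ≤ T.card := Finset.card_le_card fun x hx => h x ((hU x).1 hx)
  have h2 : ∑ v ∈ S, dfc p v ≤ p.natDegree - 1 := by
    rw [hU1, ← Cnt1_deriv_deg hp]
    exact Cnt1_sum_rm_le U
  have h3 : p.natDegree * S.card = ∑ v ∈ S, ((fib p v).card + dfc p v) := by
    rw [mul_comm, ← smul_eq_mul, ← Finset.sum_const]
    refine Finset.sum_congr rfl fun v _ => ?_
    have := (card_fib_le hp v).2
    unfold dfc
    omega
  rw [h3, Finset.sum_add_distrib, hU2]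
  omega

end Pool.Agent.MSC
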