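import Pool.Agent.MSC.Cnt1

/-!
# Fibres in a commutative square of coprime degrees
-/

set_option linter.unusedSectionVars false

namespace Pool.Agent.MSC

open Polynomial

variable {F : Type*} [Field F] [IsAlgClosed F] [CharZero F]

/-- The substitution `x ↦ P(u)`, `T ↦ Q(u)`. -/
private noncomputable def Cnt2_phi (P Q : F[X]) : F[X][X] →+* F[X] :=
  eval₂RingHom (compRingHom P) Q

/-- The specialisation `x ↦ x₀`. -/
private noncomputable def Cnt2_psi (x₀ : F) : F[X][X] →+* F[X] := mapRingHom (evalRingHom x₀)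

private noncomputable def Cnt2_f (P : F[X]) : F[X][X][X] :=
  P.map ((C : F[X] →+* F[X][X]).comp (C : F →+* F[X])) - C (C X)

private noncomputable def Cnt2_g (Q : F[X]) : F[X][X][X] :=
  C X - Q.map ((C : F[X] →+* F[X][X]).comp (C : F →+* F[X]))

private noncomputable def Cnt2_N (P Q : F[X]) : F[X][X] :=
  resultant (Cnt2_f P) (Cnt2_g Q) P.natDegree Q.natDegree

private theorem Cnt2_fdeg (P : F[X]) : (Cnt2_f P).natDegree ≤ P.natDegree := by
  unfold Cnt2_f
  rw [natDegree_sub_C]
  exact natDegree_map_le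

private theorem Cnt2_gdeg (Q : F[X]) : (Cnt2_g Q).natDegree ≤ Q.natDegree := by
  unfold Cnt2_g
  refine (natDegree_sub_le _ _).trans ?_
  rw [natDegree_C]
  exact max_le (Nat.zero_le _) natDegree_map_le

private theorem Cnt2_phi_N {P Q : F[X]} (hP : 1 ≤ P.natDegree) :
    Cnt2_phi P Q (Cnt2_N P Q) = 0 := by
  obtain ⟨p, q, -, -, h⟩ := exists_mul_add_mul_eq_C_resultant (Cnt2_f P) (Cnt2_g Q)
    (Cnt2_fdeg P) (Cnt2_gdeg Q) (Or.inl (by omega))
  have h1 := congrArg (fun r => eval₂ (Cnt2_phi P Q) X r) h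
  simp only [eval₂_add, eval₂_mul, eval₂_C] at h1
  have hcomp : (Cnt2_phi P Q).comp ((C : F[X] →+* F[X][X]).comp (C : F →+* F[X])) = C := by
    ext a
    simp [Cnt2_phi]
  have h2 : eval₂ (Cnt2_phi P Q) X (Cnt2_f P) = 0 := by
    unfold Cnt2_f
    rw [eval₂_sub, eval₂_C, eval₂_map, hcomp, eval₂_C_X]
    simp [Cnt2_phi]
  have h3 : eval₂ (Cnt2_phi P Q) X (Cnt2_g Q) = 0 := by
    unfold Cnt2_g
    rw [eval₂_sub, eval₂_C, eval₂_map, hcomp, eval₂_C_X]
    simp [Cnt2_phi]
  rw [h2, h3, zero_mul, zero_mul, add_zero] at h1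
  exact h1.symm

private theorem Cnt2_psi_N {P Q : F[X]} (hP : 1 ≤ P.natDegree) (x₀ : F) :
    Cnt2_psi x₀ (Cnt2_N P Q) = C (P.leadingCoeff ^ Q.natDegree) *
      (((P - C x₀).roots.map (fun u => Q.eval u)).map (fun a => X - C a)).prod := by
  have hf : (Cnt2_f P).map (Cnt2_psi x₀) = (P - C x₀).map C := by
    unfold Cnt2_f
    rw [Polynomial.map_sub, map_C, Polynomial.map_map, Polynomial.map_sub, map_C]
    have hcomp : (Cnt2_psi x₀).comp ((C : F[X] →+* F[X][X]).comp (C : F →+* F[X])) = C := by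
      ext a
      simp [Cnt2_psi]
    rw [hcomp]
    simp [Cnt2_psi]
  have hg : (Cnt2_g Q).map (Cnt2_psi x₀) = C X - Q.map C := by
    unfold Cnt2_g
    rw [Polynomial.map_sub, map_C, Polynomial.map_map]
    have hcomp : (Cnt2_psi x₀).comp ((C : F[X] →+* F[X][X]).comp (C : F →+* F[X])) = C := by
      ext a
      simp [Cnt2_psi]
    rw [hcomp]
    simp [Cnt2_psi]
  have hs : (P - C x₀).Splits := IsAlgClosed.splits _
  have hinj : Function.Injective (C : F →+* F[X]) := C_injective
  have hdeg : ((P - C x₀).map C : F[X][X]).natDegree = P.natDegree := by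
    rw [natDegree_map_eq_of_injective hinj, natDegree_sub_C]
  have hgd : (C X - Q.map C : F[X][X]).natDegree ≤ Q.natDegree := by
    rw [← hg]
    exact natDegree_map_le.trans (Cnt2_gdeg Q)
  unfold Cnt2_N
  rw [← resultant_map_map, hf, hg]
  have h1 := resultant_eq_prod_eval ((P - C x₀).map C : F[X][X]) (C X - Q.map C) Q.natDegree hgd
    (hs.map C)
  rw [hdeg] at h1
  rw [h1, hs.roots_map_of_injective hinj, leadingCoeff_map_of_injective hinj]
  have hlc : (P - C x₀).leadingCoeff = P.leadingCoeff := by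
    unfold leadingCoeff
    rw [natDegree_sub_C, coeff_sub, coeff_C, if_neg (by omega), sub_zero]
  rw [hlc, map_pow, Multiset.map_map, Multiset.map_map]
  congr 2
  refine Multiset.map_congr rfl fun u _ => ?_
  simp only [Function.comp_apply, eval_sub, eval_C]
  rw [eval_map_apply]

private theorem Cnt2_psi_coeff (x₀ : F) (D : F[X][X]) (k : ℕ) :
    (Cnt2_psi x₀ D).coeff k = (D.coeff k).eval x₀ := by
  simp [Cnt2_psi, coeff_map]

/-- Powers of `Q` of exponent `< natDegree P` are independent over `F[P]`. -/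
private theorem Cnt2_indep {P Q : F[X]} (hP : 1 ≤ P.natDegree)
    (hcop : Nat.Coprime Q.natDegree P.natDegree) (hQ : 1 ≤ Q.natDegree) {D : F[X][X]}
    (hD : ∀ k, P.natDegree ≤ k → D.coeff k = 0) (h : Cnt2_phi P Q D = 0) : D = 0 := by
  classical
  have hQ0 : Q ≠ 0 := by
    rintro rfl
    simp at hQ
  have hdeg : ∀ j, D.coeff j ≠ 0 → ((D.coeff j).comp P * Q ^ j) ≠ 0 ∧
      ((D.coeff j).comp P * Q ^ j).natDegree =
        (D.coeff j).natDegree * P.natDegree + j * Q.natDegree := by
    intro j hj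
    have h1 : (D.coeff j).comp P ≠ 0 := by
      intro h2
      rcases comp_eq_zero_iff.1 h2 with h3 | ⟨-, h3⟩
      · exact hj h3
      · rw [h3, natDegree_C] at hP
        omega
    refine ⟨mul_ne_zero h1 (pow_ne_zero _ hQ0), ?_⟩
    rw [natDegree_mul h1 (pow_ne_zero _ hQ0), natDegree_comp, natDegree_pow]
  have hlt : D.natDegree < P.natDegree ∨ D = 0 := by
    by_contra hcon
    push Not at hcon
    have h1 := hD _ hcon.1
    exact hcon.2 (leadingCoeff_eq_zero.1 h1)
  rcases hlt with hlt | hlt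
  swap
  · exact hlt
  have hsum : ∑ j ∈ Finset.range P.natDegree, (D.coeff j).comp P * Q ^ j = 0 := by
    have h1 : Cnt2_phi P Q D = eval₂ (compRingHom P) Q D := rfl
    rw [h1, eval₂_eq_sum_range' _ hlt] at h
    exact h
  have hdis : Set.Pairwise {i | i ∈ Finset.range P.natDegree ∧ (D.coeff i).comp P * Q ^ i ≠ 0}
      (Function.onFun Ne (degree ∘ fun j => (D.coeff j).comp P * Q ^ j)) := by
    rintro i ⟨hi, hi0⟩ j ⟨hj, hj0⟩ hij
    rw [Finset.mem_range] at hi hj
    simp only [Function.onFun, Function.comp_apply]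
    intro he
    have hi1 : D.coeff i ≠ 0 := by
      intro h0
      rw [h0, zero_comp, zero_mul] at hi0
      exact hi0 rfl
    have hj1 : D.coeff j ≠ 0 := by
      intro h0
      rw [h0, zero_comp, zero_mul] at hj0
      exact hj0 rfl
    have h1 := natDegree_eq_of_degree_eq he
    rw [(hdeg i hi1).2, (hdeg j hj1).2] at h1
    have h2 : i * Q.natDegree ≡ j * Q.natDegree [MOD P.natDegree] := by
      have h3 : ((D.coeff i).natDegree * P.natDegree + i * Q.natDegree) % P.natDegree =
          ((D.coeff j).natDegree * P.natDegree + j * Q.natDegree) % P.natDegree := by rw [h1]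
      rw [Nat.mul_add_mod', Nat.mul_add_mod'] at h3
      exact h3
    have h4 : i ≡ j [MOD P.natDegree] :=
      Nat.ModEq.cancel_right_of_coprime (by rwa [Nat.gcd_comm] at *) h2
    have h5 : i % P.natDegree = j % P.natDegree := h4
    rw [Nat.mod_eq_of_lt hi, Nat.mod_eq_of_lt hj] at h5
    exact hij h5
  have hds := degree_sum_eq_of_disjoint (fun j => (D.coeff j).comp P * Q ^ j)
    (Finset.range P.natDegree) hdis
  rw [hsum, degree_zero] at hds
  ext1 k
  rw [coeff_zero]
  by_contra hk
  have hk1 : k < P.natDegree := by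
    by_contra hcon
    exact hk (hD k (by omega))
  have h6 : degree ((D.coeff k).comp P * Q ^ k) ≤ ⊥ := by
    rw [hds]
    exact Finset.le_sup (f := fun j => degree ((D.coeff j).comp P * Q ^ j))
      (Finset.mem_range.2 hk1)
  exact (hdeg k hk).1 (degree_eq_bot.1 (le_bot_iff.1 h6))

/-- The norm identity. -/
private theorem Cnt2_norm {α γ P Q : F[X]} (hA : 1 ≤ α.natDegree) (hB : 1 ≤ γ.natDegree)
    (hQ : Q.natDegree = α.natDegree) (hP : P.natDegree = γ.natDegree)
    (hcop : Nat.Coprime α.natDegree γ.natDegree) (hc : α.comp P = γ.comp Q) (x₀ : F) :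
    C γ.leadingCoeff * (((P - C x₀).roots.map (fun u => Q.eval u)).map (fun a => X - C a)).prod =
      γ - C (α.eval x₀) := by
  have hP1 : 1 ≤ P.natDegree := by omega
  have hP0 : P.leadingCoeff ≠ 0 := by
    rw [leadingCoeff_ne_zero]
    rintro rfl
    simp at hP1
  have hγ0 : γ.leadingCoeff ≠ 0 := by
    rw [leadingCoeff_ne_zero]
    rintro rfl
    simp at hB
  set c : F := P.leadingCoeff ^ Q.natDegree / γ.leadingCoeff with hcdef
  set D : F[X][X] := Cnt2_N P Q - C (C c) * (γ.map C - C α) with hDdef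
  have hψ : ∀ x, Cnt2_psi x D = C (P.leadingCoeff ^ Q.natDegree) *
      (((P - C x).roots.map (fun u => Q.eval u)).map (fun a => X - C a)).prod -
      C c * (γ - C (α.eval x)) := by
    intro x
    rw [hDdef, map_sub, Cnt2_psi_N hP1, map_mul, map_sub]
    have h1 : Cnt2_psi x (γ.map C) = γ := by
      unfold Cnt2_psi
      rw [coe_mapRingHom, Polynomial.map_map]
      have : (evalRingHom x).comp (C : F →+* F[X]) = RingHom.id F := by
        ext a
        simp
      rw [this, Polynomial.map_id]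
    have h2 : Cnt2_psi x (C α) = C (α.eval x) := by simp [Cnt2_psi]
    have h3 : Cnt2_psi x (C (C c)) = C c := by simp [Cnt2_psi]
    rw [h1, h2, h3]
  have hcard : ∀ x, Multiset.card ((P - C x).roots.map (fun u => Q.eval u)) = P.natDegree := by
    intro x
    rw [Multiset.card_map, ← (IsAlgClosed.splits (P - C x)).natDegree_eq_card_roots,
      natDegree_sub_C]
  have hD : ∀ k, P.natDegree ≤ k → D.coeff k = 0 := by
    intro k hk
    refine Polynomial.funext fun x => ?_
    rw [← Cnt2_psi_coeff, hψ, eval_zero, coeff_sub, coeff_C_mul, coeff_C_mul, coeff_sub, coeff_C,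
      if_neg (by omega), sub_zero]
    have hm := monic_multisetProd_X_sub_C ((P - C x).roots.map (fun u => Q.eval u))
    have hn := natDegree_multiset_prod_X_sub_C_eq_card
      ((P - C x).roots.map (fun u => Q.eval u))
    rw [hcard] at hn
    rcases Nat.eq_or_lt_of_le hk with h | h
    · rw [← h]
      have h1 : (((P - C x).roots.map (fun u => Q.eval u)).map (fun a => X - C a)).prod.coeff
          P.natDegree = 1 := by
        rw [← hn]
        exact hm
      rw [h1, mul_one, hP]
      show _ - c * γ.leadingCoeff = 0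
      rw [hcdef]
      field_simp
      ring
    · rw [coeff_eq_zero_of_natDegree_lt (by rw [hn]; exact h),
        coeff_eq_zero_of_natDegree_lt (by omega), mul_zero, mul_zero, sub_zero]
  have hφ : Cnt2_phi P Q D = 0 := by
    rw [hDdef, map_sub, Cnt2_phi_N hP1, map_mul, map_sub]
    have h1 : Cnt2_phi P Q (γ.map C) = γ.comp Q := by
      unfold Cnt2_phi
      rw [coe_eval₂RingHom, eval₂_map]
      have : (compRingHom P).comp (C : F →+* F[X]) = C := by
        ext a
        simp
      rw [this]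
      rfl
    have h2 : Cnt2_phi P Q (C α) = α.comp P := by simp [Cnt2_phi]
    rw [h1, h2, hc, sub_self, mul_zero, sub_zero]
  have hD0 : D = 0 := Cnt2_indep hP1 (by rw [hQ, hP]; exact hcop) (by omega) hD hφ
  have h1 := hψ x₀
  rw [hD0, map_zero] at h1
  have h2 := (sub_eq_zero.1 h1.symm)
  have hc0 : c ≠ 0 := div_ne_zero (pow_ne_zero _ hP0) hγ0
  have h3 : P.leadingCoeff ^ Q.natDegree = c * γ.leadingCoeff := by
    rw [hcdef]
    field_simp
  rw [h3, C_mul, mul_assoc] at h2
  exact mul_left_cancel₀ (C_ne_zero.2 hc0) h2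

/-- **PROOF.** Let `B = natDegree P = natDegree γ`, `A = natDegree Q = natDegree α`, coprime. In the
field `F(u)` of rational functions, `[F(u) : F(P(u))] = B`, `[F(u) : F(Q(u))] = A`, so
`F(u) = F(P(u), Q(u))` and `Q(u)` has degree `B` over `F(P(u))`; its minimal polynomial is
`(γ(T) - α(x)) / lc(γ)` at `x = P(u)`, equal to the characteristic polynomial `R(x, T)` of
multiplication by `Q(u)` on the free `F[x]`-module `F[u]`, `x = P(u)` (basis `1, u, …, u^(B - 1)`).
Specialising to `x = x₀` (`F[u]/(P(u) - x₀)`):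
`(γ(T) - α(x₀)) / lc(γ) = Π (T - Q(u_i))`, the product over the roots `u_i` of `P - x₀` with multiplicity.
So for `y` in the fibre of `γ` over `α(x₀)`: `ldeg γ y = Σ ldeg P u`, the sum over the `u` in the fibre of
`P` over `x₀` with `Q(u) = y`. -/
theorem ldeg_fibre {α γ P Q : F[X]} (hA : 1 ≤ α.natDegree) (hB : 1 ≤ γ.natDegree)
    (hQ : Q.natDegree = α.natDegree) (hP : P.natDegree = γ.natDegree)
    (hcop : Nat.Coprime α.natDegree γ.natDegree) (hc : α.comp P = γ.comp Q) {x₀ y : F}
    (hy : γ.eval y = α.eval x₀) :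
    haveI := Classical.decEq F
    ∑ u ∈ (fib P x₀).filter (fun u => Q.eval u = y), ldeg P u = ldeg γ y := by
  classical
  have hB1 : γ - C (α.eval x₀) ≠ 0 := by
    intro h
    have h1 : (γ - C (α.eval x₀)).natDegree = γ.natDegree := natDegree_sub_C
    rw [h, natDegree_zero] at h1
    omega
  have hγ0 : γ.leadingCoeff ≠ 0 := by
    rw [leadingCoeff_ne_zero]
    rintro rfl
    simp at hB
  have hn := Cnt2_norm hA hB hQ hP hcop hc x₀
  have h1 : ldeg γ y = Multiset.count y ((P - C x₀).roots.map (fun u => Q.eval u)) := by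
    unfold ldeg
    rw [hy, ← count_roots, ← hn, roots_C_mul _ hγ0, roots_multiset_prod_X_sub_C]
  rw [h1, Multiset.count_map]
  have h2 : ∀ u ∈ (fib P x₀).filter (fun u => Q.eval u = y), ldeg P u =
      Multiset.count u ((P - C x₀).roots.filter (fun u => y = Q.eval u)) := by
    intro u hu
    rw [Finset.mem_filter, mem_fib (by omega)] at hu
    have h3 := Multiset.count_filter_of_pos (p := fun u => y = Q.eval u)
      (s := (P - C x₀).roots) hu.2.symm
    rw [h3, count_roots]
    unfold ldeg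
    rw [hu.1]
  rw [Finset.sum_congr rfl h2]
  have h4 : (fib P x₀).filter (fun u => Q.eval u = y) =
      ((P - C x₀).roots.filter (fun u => y = Q.eval u)).toFinset := by
    ext u
    rw [Finset.mem_filter, Multiset.mem_toFinset, Multiset.mem_filter]
    unfold fib
    rw [Multiset.mem_toFinset]
    exact and_congr_right fun _ => eq_comm
  rw [h4]
  exact Multiset.toFinset_sum_count_eq _

/-- **PROOF.** Let `ldeg α x₀ = 1`. For `u` in the fibre of `P` over `x₀`:
`ldeg P u = ldeg α x₀ * ldeg P u = ldeg γ (Q u) * ldeg Q u ≥ ldeg γ (Q u)`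
(`ldeg_comp`). By `ldeg_fibre` there is only one `u` over every `y`, so `u ↦ Q(u)` is injective from
`fib P x₀` to `fib γ (α x₀)`. -/
theorem fib_card_le {α γ P Q : F[X]} (hA : 1 ≤ α.natDegree) (hB : 1 ≤ γ.natDegree)
    (hQ : Q.natDegree = α.natDegree) (hP : P.natDegree = γ.natDegree)
    (hcop : Nat.Coprime α.natDegree γ.natDegree) (hc : α.comp P = γ.comp Q) {x₀ : F}
    (hx : ldeg α x₀ = 1) : (fib P x₀).card ≤ (fib γ (α.eval x₀)).card := by
  classical
  have hP1 : 1 ≤ P.natDegree := by omega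
  have hQ1 : 1 ≤ Q.natDegree := by omega
  refine Finset.card_le_card_of_injOn (fun u => Q.eval u) ?_ ?_
  · intro u hu
    rw [Finset.mem_coe, mem_fib hP1] at hu
    rw [Finset.mem_coe, mem_fib hB]
    have h1 := congrArg (fun r => r.eval u) hc
    simp only [eval_comp] at h1
    rw [← h1, hu]
  · intro u hu u' hu' huu
    rw [Finset.mem_coe] at hu hu'
    simp only at huu
    by_contra hne
    have hu1 := (mem_fib hP1).1 hu
    have hy : γ.eval (Q.eval u) = α.eval x₀ := by
      have h1 := congrArg (fun r => r.eval u) hc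
      simp only [eval_comp] at h1
      rw [← h1, hu1]
    have h2 := ldeg_fibre hA hB hQ hP hcop hc hy
    have h3 : ldeg P u + ldeg P u' ≤ ldeg γ (Q.eval u) := by
      rw [← h2, ← Finset.sum_pair hne]
      refine Finset.sum_le_sum_of_subset ?_
      intro w hw
      rw [Finset.mem_insert, Finset.mem_singleton] at hw
      rw [Finset.mem_filter]
      rcases hw with rfl | rfl
      · exact ⟨hu, rfl⟩
      · exact ⟨hu', huu.symm⟩
    have h4 : ldeg P u = ldeg γ (Q.eval u) * ldeg Q u := by
      rw [← ldeg_comp hB hQ1, ← hc, ldeg_comp hA hP1, hu1, hx, one_mul]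
    have h5 := ldeg_pos hQ1 u
    have h6 := ldeg_pos hP1 u'
    have h7 : ldeg γ (Q.eval u) ≤ ldeg P u := by
      rw [h4]
      exact Nat.le_mul_of_pos_right _ h5
    omega

/-- **PROOF.** By `fib_card_le`, `dfc P x ≥ dfc γ v` for `x ∈ sfib α v`; the fibres are disjoint, and
`Σ dfc P x ≤ natDegree P - 1` (`exists_critical`). -/
theorem sum_sfib_dfc {α γ P Q : F[X]} (hA : 1 ≤ α.natDegree) (hB : 1 ≤ γ.natDegree)
    (hQ : Q.natDegree = α.natDegree) (hP : P.natDegree = γ.natDegree)
    (hcop : Nat.Coprime α.natDegree γ.natDegree) (hc : α.comp P = γ.comp Q) (T : Finset F) :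
    ∑ v ∈ T, (sfib α v).card * dfc γ v ≤ γ.natDegree - 1 := by
  classical
  have hP1 : 1 ≤ P.natDegree := by omega
  obtain ⟨S, hS⟩ := exists_critical hP1
  have hd : Set.PairwiseDisjoint (T : Set F) (sfib α) := by
    intro v _ w _ hvw
    rw [Function.onFun, Finset.disjoint_left]
    intro x hx hx'
    exact hvw (((mem_sfib hA).1 hx).1.symm.trans ((mem_sfib hA).1 hx').1)
  calc ∑ v ∈ T, (sfib α v).card * dfc γ v
      ≤ ∑ v ∈ T, ∑ x ∈ sfib α v, dfc P x := by
        refine Finset.sum_le_sum fun v _ => ?_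
        rw [← smul_eq_mul, ← Finset.sum_const]
        refine Finset.sum_le_sum fun x hx => ?_
        obtain ⟨h1, h2⟩ := (mem_sfib hA).1 hx
        have h3 := fib_card_le hA hB hQ hP hcop hc h2
        rw [h1] at h3
        unfold dfc
        omega
    _ = ∑ x ∈ T.biUnion (sfib α), dfc P x := (Finset.sum_biUnion hd).symm
    _ ≤ P.natDegree - 1 := (hS _).2.1
    _ = γ.natDegree - 1 := by rw [hP]

end Pool.Agent.MSC
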