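import Pool.Agent.PrepH.Gap

/-!
# Polynomials conjugate to powers or to Chebyshev polynomials
-/

namespace Pool.Agent.MSC

open Polynomial Pool.Agent.PrepH

variable {F : Type*} [Field F]

/-- `f` is conjugate by a linear polynomial to `X ^ d` or to `± C_d`, `d = natDegree f`, where `C_d` is
the Chebyshev polynomial with `C_d (x + 1/x) = x^d + 1/x^d`. -/
def Special (f : F[X]) : Prop :=
  LinConj f (X ^ f.natDegree) ∨ LinConj f (Chebyshev.C F f.natDegree) ∨
    LinConj f (-Chebyshev.C F f.natDegree)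

/-- A polynomial `y + c (X - y)^d` is conjugate to `X ^ d`. -/
theorem linConj_pow [IsAlgClosed F] {G : F[X]} (hG : 2 ≤ G.natDegree) {y c : F}
    (h : G = C y + C c * (X - C y) ^ G.natDegree) : LinConj G (X ^ G.natDegree) := by
  obtain ⟨d, hd⟩ : ∃ d, d = G.natDegree := ⟨_, rfl⟩
  rw [← hd] at hG h ⊢
  have hc : c ≠ 0 := by
    rintro rfl
    rw [C_0, zero_mul, add_zero] at h
    rw [h, natDegree_C] at hd
    omega
  obtain ⟨a, ha⟩ := IsAlgClosed.exists_pow_nat_eq c (show 0 < d - 1 by omega)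
  have ha0 : a ≠ 0 := by
    rintro rfl
    rw [zero_pow (by omega)] at ha
    exact hc ha.symm
  refine ⟨a, -(a * y), ha0, ?_⟩
  have e1 : (C a * X + C (-(a * y)) : F[X]) = C a * (X - C y) := by
    rw [C_neg, C_mul]
    ring
  have e2 : a * c = a ^ d := by
    rw [← ha, ← pow_succ']
    congr 1
    omega
  rw [e1, X_pow_comp, mul_comp, C_comp, sub_comp, X_comp, C_comp, h, add_sub_cancel_left, mul_pow,
    ← mul_assoc, ← C_mul, e2, C_pow]

private theorem Spec_succ (f : F[X]) (r : ℕ) : itp f (r + 1) = f.comp (itp f r) := by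
  unfold itp
  rw [Function.iterate_succ_apply']

private theorem Spec_comm (f : F[X]) (r : ℕ) : f.comp (itp f r) = (itp f r).comp f := by
  induction r with
  | zero => simp [itp]
  | succ r ih => rw [Spec_succ, comp_assoc, ← ih]

private theorem Spec_conj {L Li : F[X]} (h1 : L.comp Li = X) (h2 : Li.comp L = X) (f : F[X])
    (r : ℕ) : itp (L.comp (f.comp Li)) r = L.comp ((itp f r).comp Li) := by
  induction r with
  | zero =>
    show X = L.comp (X.comp Li)
    rw [X_comp, h1]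
  | succ r ih =>
    rw [Spec_succ, Spec_succ, ih]
    simp only [comp_assoc]
    rw [← comp_assoc Li L, h2, X_comp]

private theorem Spec_refl (f : F[X]) : LinConj f f :=
  ⟨1, 0, one_ne_zero, by simp⟩

/-- Reduction by conjugation. -/
private theorem Spec_red {f g : F[X]} {r : ℕ} (h : LinConj (itp f r) g) :
    ∃ f' : F[X], f'.natDegree = f.natDegree ∧ itp f' r = g ∧
      ∀ k : F[X], LinConj f' k → LinConj f k := by
  obtain ⟨a, b, ha, e⟩ := h
  obtain ⟨L, hL⟩ : ∃ L : F[X], L = C a * X + C b := ⟨_, rfl⟩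
  obtain ⟨Li, hLi⟩ : ∃ Li : F[X], Li = C a⁻¹ * X + C (-(a⁻¹ * b)) := ⟨_, rfl⟩
  have h1 : L.comp Li = X := by
    rw [hL, hLi]
    simp only [add_comp, mul_comp, C_comp, X_comp]
    rw [mul_add, ← mul_assoc, ← C_mul, ← C_mul, mul_inv_cancel₀ ha, C_1, one_mul, add_assoc,
      ← C_add]
    have : a * -(a⁻¹ * b) + b = 0 := by
      field_simp
      ring
    rw [this, C_0, add_zero]
  have h2 : Li.comp L = X := by
    rw [hL, hLi]
    simp only [add_comp, mul_comp, C_comp, X_comp]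
    rw [mul_add, ← mul_assoc, ← C_mul, ← C_mul, inv_mul_cancel₀ ha, C_1, one_mul, add_assoc,
      ← C_add]
    have : a⁻¹ * b + -(a⁻¹ * b) = 0 := by ring
    rw [this, C_0, add_zero]
  rw [← hL] at e
  refine ⟨L.comp (f.comp Li), ?_, ?_, ?_⟩
  · rw [natDegree_comp, natDegree_comp, hL, hLi, natDegree_linear ha,
      natDegree_linear (inv_ne_zero ha)]
    ring
  · rw [Spec_conj h1 h2, ← comp_assoc, e, comp_assoc, h1, comp_X]
  · rintro k ⟨a', b', ha', e'⟩
    refine ⟨a' * a, a' * b + b', mul_ne_zero ha' ha, ?_⟩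
    have e3 : (C (a' * a) * X + C (a' * b + b') : F[X]) = (C a' * X + C b').comp L := by
      rw [hL]
      simp only [add_comp, mul_comp, C_comp, X_comp, C_mul, C_add]
      ring
    rw [e3, comp_assoc]
    have e4 := congrArg (fun q : F[X] => q.comp L) e'
    simp only [comp_assoc, h2, comp_X] at e4
    exact e4

private theorem Spec_dvd [CharZero F] {p : F[X]} {n : ℕ} (h : derivative p ∣ X ^ n) :
    ∃ (a b : F) (i : ℕ), a ≠ 0 ∧ p = C a * X ^ (i + 1) + C b := by
  obtain ⟨i, _, hi⟩ := (dvd_prime_pow prime_X n).1 h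
  obtain ⟨u, hu⟩ := hi.symm
  obtain ⟨k, hk, hk2⟩ := Polynomial.isUnit_iff.1 u.isUnit
  have hk0 : k ≠ 0 := hk.ne_zero
  rw [← hk2] at hu
  have hi0 : ((i : F) + 1) ≠ 0 := by exact_mod_cast Nat.succ_ne_zero i
  have h1 : derivative (p - C (k / ((i : F) + 1)) * X ^ (i + 1)) = 0 := by
    rw [derivative_sub, ← hu, derivative_C_mul, derivative_X_pow, Nat.add_sub_cancel,
      ← mul_assoc, ← C_mul]
    push_cast
    rw [div_mul_cancel₀ _ hi0]
    ring
  have h2 := derivative_eq_zero.1 h1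
  obtain ⟨b, hb⟩ := natDegree_eq_zero.1 h2
  refine ⟨k / ((i : F) + 1), b, i, div_ne_zero hk0 hi0, ?_⟩
  rw [hb]
  ring

private theorem Spec_natDegree {a b : F} {i : ℕ} (ha : a ≠ 0) :
    (C a * X ^ (i + 1) + C b : F[X]).natDegree = i + 1 := by
  rw [natDegree_add_C, natDegree_C_mul_X_pow _ _ ha]

/-- The first case. -/
private theorem Spec_pow [IsAlgClosed F] [CharZero F] {f : F[X]} (hf : 2 ≤ f.natDegree) {r : ℕ}
    (hr : 1 ≤ r) (h : itp f r = X ^ (f.natDegree ^ r)) : LinConj f (X ^ f.natDegree) := by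
  obtain ⟨r', rfl⟩ : ∃ r', r = r' + 1 := ⟨r - 1, by omega⟩
  obtain ⟨D, hD⟩ : ∃ D, D = f.natDegree ^ (r' + 1) := ⟨_, rfl⟩
  have hD1 : 1 ≤ D := by
    rw [hD]
    exact Nat.one_le_pow _ _ (by omega)
  rw [← hD] at h
  obtain ⟨g, hg⟩ : ∃ g, g = itp f r' := ⟨_, rfl⟩
  have c1 : f.comp g = X ^ D := by rw [hg, ← Spec_succ, h]
  have c2 : g.comp f = X ^ D := by rw [hg, ← Spec_comm, ← Spec_succ, h]
  have hDF : (D : F) ≠ 0 := by exact_mod_cast (by omega : D ≠ 0)
  have hunit : IsUnit (C (D : F)) := isUnit_C.2 (isUnit_iff_ne_zero.2 hDF)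
  have d1 : derivative g * (derivative f).comp g = C (D : F) * X ^ (D - 1) := by
    rw [← derivative_comp, c1, derivative_X_pow]
  have d2 : derivative f * (derivative g).comp f = C (D : F) * X ^ (D - 1) := by
    rw [← derivative_comp, c2, derivative_X_pow]
  have hf1 : derivative f ∣ X ^ (D - 1) := by
    have : derivative f ∣ C (D : F) * X ^ (D - 1) := ⟨_, d2.symm⟩
    exact (hunit.dvd_mul_left).1 this
  have hg1 : derivative g ∣ X ^ (D - 1) := by
    have : derivative g ∣ C (D : F) * X ^ (D - 1) := ⟨_, d1.symm⟩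
    exact (hunit.dvd_mul_left).1 this
  obtain ⟨a, b, i, ha, hfe⟩ := Spec_dvd hf1
  obtain ⟨a', b', j, ha', hge⟩ := Spec_dvd hg1
  have hdi : f.natDegree = i + 1 := by
    rw [hfe]
    exact Spec_natDegree ha
  have hb' : b' = 0 := by
    by_contra hb'
    have hdeg : g.degree ≠ 0 := by
      have h3 : g.natDegree = j + 1 := by
        rw [hge]
        exact Spec_natDegree ha'
      intro h4
      have := natDegree_eq_zero_iff_degree_le_zero.2 h4.le
      omega
    obtain ⟨x, hx⟩ := IsAlgClosed.exists_root g hdeg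
    have hx0 : x ≠ 0 := by
      rintro rfl
      rw [IsRoot.def, hge] at hx
      simp at hx
      exact hb' hx
    have h3 := congrArg (eval x) d1
    rw [eval_mul, eval_comp, hx.eq_zero, eval_mul, eval_C, eval_pow, eval_X] at h3
    have h4 : (derivative f).eval 0 = 0 := by
      rw [hfe, derivative_add, derivative_C_mul, derivative_C, derivative_X_pow]
      have : i ≠ 0 := by omega
      simp [this]
    rw [h4, mul_zero] at h3
    exact (mul_ne_zero hDF (pow_ne_zero _ hx0)) h3.symm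
  have hb : b = 0 := by
    have h3 := congrArg (eval 0) c1
    rw [eval_comp, hge, hb', hfe] at h3
    simpa [show D ≠ 0 by omega] using h3
  have hG : f = C 0 + C a * (X - C 0) ^ f.natDegree := by
    rw [C_0, sub_zero, zero_add, hdi]
    conv_lhs => rw [hfe, hb, C_0, add_zero]
  exact linConj_pow hf hG

/-! ### Chebyshev polynomials -/

private theorem Spec_cheb (F : Type*) [Field F] (m : ℕ) :
    (Chebyshev.C F ((m + 1 : ℕ) : ℤ) - X ^ (m + 1)).natDegree ≤ m ∧
    (Chebyshev.C F ((m + 2 : ℕ) : ℤ) - X ^ (m + 2)).natDegree ≤ m ∧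
    (Chebyshev.C F ((m + 2 : ℕ) : ℤ) - X ^ (m + 2)).coeff m = -((m : F) + 2) := by
  induction m with
  | zero =>
    have e2 : Chebyshev.C F ((0 + 2 : ℕ) : ℤ) - X ^ (0 + 2) = C (-2 : F) := by
      have : ((0 + 2 : ℕ) : ℤ) = 2 := by norm_num
      rw [this, Chebyshev.C_two, C_neg]
      have : (C (2 : F)) = 2 := rfl
      rw [this]
      ring
    have e1 : Chebyshev.C F ((0 + 1 : ℕ) : ℤ) - X ^ (0 + 1) = 0 := by
      have : ((0 + 1 : ℕ) : ℤ) = 1 := by norm_num
      rw [this, Chebyshev.C_one]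
      ring
    refine ⟨?_, ?_, ?_⟩
    · rw [e1]
      simp
    · rw [e2]
      simp
    · rw [e2]
      simp
  | succ m ih =>
    obtain ⟨h1, h2, h3⟩ := ih
    have e : Chebyshev.C F ((m + 1 + 2 : ℕ) : ℤ) - X ^ (m + 1 + 2) =
        X * (Chebyshev.C F ((m + 2 : ℕ) : ℤ) - X ^ (m + 2)) -
          (Chebyshev.C F ((m + 1 : ℕ) : ℤ) - X ^ (m + 1)) - X ^ (m + 1) := by
      have h4 := Chebyshev.C_add_two F ((m + 1 : ℕ) : ℤ)
      have e1 : (((m + 1 : ℕ) : ℤ) + 2) = ((m + 1 + 2 : ℕ) : ℤ) := by push_cast; ring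
      have e2 : (((m + 1 : ℕ) : ℤ) + 1) = ((m + 2 : ℕ) : ℤ) := by push_cast; ring
      rw [e1, e2] at h4
      rw [h4]
      ring
    refine ⟨?_, ?_, ?_⟩
    · exact h2.trans (by omega)
    · rw [e]
      refine (natDegree_sub_le _ _).trans (max_le ((natDegree_sub_le _ _).trans (max_le ?_ ?_)) ?_)
      · refine natDegree_mul_le.trans ?_
        rw [natDegree_X]
        omega
      · omega
      · rw [natDegree_X_pow]
    · rw [e, coeff_sub, coeff_sub, coeff_X_mul, h3, coeff_X_pow, if_pos rfl,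
        coeff_eq_zero_of_natDegree_lt (lt_of_le_of_lt h1 (Nat.lt_succ_self m))]
      push_cast
      ring

private theorem Spec_gap (F : Type*) [Field F] [CharZero F] {n : ℕ} (hn : 2 ≤ n) :
    (Chebyshev.C F (n : ℤ)).natDegree = n ∧ (Chebyshev.C F (n : ℤ)).leadingCoeff = 1 ∧
    (Chebyshev.C F (n : ℤ) - X ^ n) ≠ 0 ∧ (Chebyshev.C F (n : ℤ) - X ^ n).natDegree + 2 = n := by
  obtain ⟨m, rfl⟩ : ∃ m, n = m + 2 := ⟨n - 2, by omega⟩
  obtain ⟨_, h2, h3⟩ := Spec_cheb F m
  have h4 : -((m : F) + 2) ≠ 0 := by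
    rw [neg_ne_zero]
    exact_mod_cast (by omega : m + 2 ≠ 0)
  have h5 : (Chebyshev.C F ((m + 2 : ℕ) : ℤ) - X ^ (m + 2)).natDegree = m :=
    natDegree_eq_of_le_of_coeff_ne_zero h2 (by rw [h3]; exact h4)
  have h6 : Chebyshev.C F ((m + 2 : ℕ) : ℤ) =
      X ^ (m + 2) + (Chebyshev.C F ((m + 2 : ℕ) : ℤ) - X ^ (m + 2)) := by ring
  have h7 : (Chebyshev.C F ((m + 2 : ℕ) : ℤ) - X ^ (m + 2)).natDegree <
      (X ^ (m + 2) : F[X]).natDegree := by
    rw [natDegree_X_pow, h5]
    omega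
  refine ⟨?_, ?_, ?_, by rw [h5]⟩
  · rw [h6, natDegree_add_eq_left_of_natDegree_lt h7, natDegree_X_pow]
  · rw [h6, leadingCoeff_add_of_degree_lt' (degree_lt_degree h7), leadingCoeff_X_pow]
  · intro h0
    rw [h0, coeff_zero] at h3
    exact h4 h3.symm

private theorem Spec_par (F : Type*) [Field F] (n : ℕ) :
    (Chebyshev.C F (n : ℤ)).comp (-X) = (-1) ^ n * Chebyshev.C F (n : ℤ) ∧
    (Chebyshev.C F ((n + 1 : ℕ) : ℤ)).comp (-X) = (-1) ^ (n + 1) * Chebyshev.C F ((n + 1 : ℕ) : ℤ) := by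
  induction n with
  | zero => simp
  | succ n ih =>
    obtain ⟨h1, h2⟩ := ih
    refine ⟨h2, ?_⟩
    have h4 := Chebyshev.C_add_two F (n : ℤ)
    have e1 : ((n : ℤ) + 2) = ((n + 1 + 1 : ℕ) : ℤ) := by push_cast; ring
    have e2 : ((n : ℤ) + 1) = ((n + 1 : ℕ) : ℤ) := by push_cast; ring
    rw [e1, e2] at h4
    rw [h4, sub_comp, mul_comp, X_comp, h1, h2]
    ring

private theorem Spec_hasGap {G : F[X]} [CharZero F] {D : ℕ} (hD : 2 ≤ D)
    (hG : G = Chebyshev.C F (D : ℤ) ∨ G = -Chebyshev.C F (D : ℤ)) : HasGap 2 G := by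
  obtain ⟨h1, h2, h3, h4⟩ := Spec_gap F hD
  rcases hG with rfl | rfl
  · refine ⟨Chebyshev.C F (D : ℤ) - X ^ D, h3, ?_, ?_⟩
    · rw [h1, h2, C_1]
      ring
    · rw [h1, h4]
  · refine ⟨-(Chebyshev.C F (D : ℤ) - X ^ D), neg_ne_zero.2 h3, ?_, ?_⟩
    · rw [natDegree_neg, leadingCoeff_neg, h1, h2, C_neg, C_1]
      ring
    · rw [natDegree_neg, natDegree_neg, h1, h4]

/-- The second case. -/
private theorem Spec_two [CharZero F] {f : F[X]} (hf : 2 ≤ f.natDegree) {r : ℕ}
    (hr : 1 ≤ r) (hε : itp f r = Chebyshev.C F ((f.natDegree ^ r : ℕ) : ℤ) ∨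
      (itp f r = -Chebyshev.C F ((f.natDegree ^ r : ℕ) : ℤ) ∧ Odd (f.natDegree ^ r))) :
    f = Chebyshev.C F (f.natDegree : ℤ) ∨ f = -Chebyshev.C F (f.natDegree : ℤ) := by
  have hD2 : 2 ≤ f.natDegree ^ r := by
    calc 2 ≤ f.natDegree := hf
      _ = f.natDegree ^ 1 := (pow_one _).symm
      _ ≤ f.natDegree ^ r := Nat.pow_le_pow_right (by omega) hr
  have hgap : HasGap 2 (itp f r) := by
    apply Spec_hasGap hD2
    rcases hε with h | h
    · exact Or.inl h
    · exact Or.inr h.1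
  obtain ⟨g1, _, _, _⟩ := Spec_gap F hf
  have hCC : (Chebyshev.C F ((f.natDegree ^ r : ℕ) : ℤ)).comp (Chebyshev.C F (f.natDegree : ℤ)) =
      (Chebyshev.C F (f.natDegree : ℤ)).comp (Chebyshev.C F ((f.natDegree ^ r : ℕ) : ℤ)) := by
    rw [← Chebyshev.C_mul, ← Chebyshev.C_mul, mul_comm]
  have c2 : (itp f r).comp (Chebyshev.C F (f.natDegree : ℤ)) =
      (Chebyshev.C F (f.natDegree : ℤ)).comp (itp f r) := by
    rcases hε with h | ⟨h, hodd⟩
    · rw [h, hCC]
    · have hd : Odd f.natDegree := by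
        by_contra hne
        rw [Nat.not_odd_iff_even] at hne
        have : Even (f.natDegree ^ r) := hne.pow_of_ne_zero (by omega)
        exact (Nat.not_odd_iff_even.2 this) hodd
      have h5 := (Spec_par F f.natDegree).1
      rw [hd.neg_one_pow] at h5
      have h6 : -Chebyshev.C F ((f.natDegree ^ r : ℕ) : ℤ) =
          (-X : F[X]).comp (Chebyshev.C F ((f.natDegree ^ r : ℕ) : ℤ)) := by
        rw [neg_comp, X_comp]
      rw [h, neg_comp, hCC, h6, ← comp_assoc, h5]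
      simp
  obtain ⟨ω, hω, hfω⟩ := comm_eq (le_refl 2) hgap (by omega) g1.symm (Spec_comm f r).symm c2
  have h7 : (ω - 1) * (ω + 1) = 0 := by linear_combination hω
  rcases mul_eq_zero.1 h7 with h8 | h8
  · left
    have : ω = 1 := by linear_combination h8
    conv_lhs => rw [hfω, this, C_1, one_mul]
  · right
    have : ω = -1 := by linear_combination h8
    conv_lhs => rw [hfω, this, C_neg, C_1, neg_one_mul]

private theorem Spec_even {g : F[X]} {D : ℕ} (hD : Even D)
    (h : LinConj g (-Chebyshev.C F (D : ℤ))) : LinConj g (Chebyshev.C F (D : ℤ)) := by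
  obtain ⟨a, b, ha, e⟩ := h
  refine ⟨-a, -b, neg_ne_zero.2 ha, ?_⟩
  have e1 : (C (-a) * X + C (-b) : F[X]) = -(C a * X + C b) := by
    rw [C_neg, C_neg]
    ring
  have h5 := (Spec_par F D).1
  rw [hD.neg_one_pow, one_mul] at h5
  have e2 : -(C a * X + C b : F[X]) = (-X : F[X]).comp (C a * X + C b) := by
    rw [neg_comp, X_comp]
  rw [e1, neg_comp, e, neg_comp, neg_neg, e2, ← comp_assoc, h5]

/-- **PROOF.** `d = natDegree f`, `D = d ^ r`. Conjugating (`natDegree_itp`; conjugation commutes with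
`itp`) we may suppose `itp f r = X^D` or `itp f r = ± C_D`.

Case `X^D`: the derivative of `itp f r` is the product of the `f'(f^i(x))`, `i < r`, and vanishes only
at `0`. So `f'` vanishes only at `0`, `f = f(0) + a X^d`; if `f(0) ≠ 0`, `r ≥ 2` and `x_0` is a root
of `f`, then `x_0 ≠ 0` and `f'(f(x_0)) = 0`, contradiction (`r = 1` is trivial). So
`f = a X^d` (use `linConj_pow`).

Case `ε C_D`, `ε = ± 1`: if `D` is even and `ε = -1`, conjugation by `- X` changes `- C_D` to `C_D`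
(`C_D` is even). So `ε = 1` or `d` is odd, and `C_d` commutes with `ε C_D`
(`Chebyshev.C_mul`, `C_d` is odd for odd `d`). `f` commutes with its iterate `ε C_D`. As
`C_D = X^D - D X^(D - 2) + …`, `HasGap 2 (ε C_D)`, and `comm_eq` gives `f = ω C_d`, `ω^2 = 1`. -/
theorem special_of_itp [IsAlgClosed F] [CharZero F] {f : F[X]} (hf : 2 ≤ f.natDegree) {r : ℕ}
    (hr : 1 ≤ r) (h : Special (itp f r)) : Special f := by
  unfold Special at h
  rw [natDegree_itp] at h
  have h' : LinConj (itp f r) (X ^ (f.natDegree ^ r)) ∨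
      LinConj (itp f r) (Chebyshev.C F ((f.natDegree ^ r : ℕ) : ℤ)) ∨
      (LinConj (itp f r) (-Chebyshev.C F ((f.natDegree ^ r : ℕ) : ℤ)) ∧
        Odd (f.natDegree ^ r)) := by
    rcases h with h | h | h
    · exact Or.inl h
    · exact Or.inr (Or.inl h)
    · rcases Nat.even_or_odd (f.natDegree ^ r) with h2 | h2
      · exact Or.inr (Or.inl (Spec_even h2 h))
      · exact Or.inr (Or.inr ⟨h, h2⟩)
  rcases h' with h | h | ⟨h, hodd⟩
  · obtain ⟨f', h1, h2, h3⟩ := Spec_red h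
    left
    apply h3
    rw [← h1] at h2 ⊢
    exact Spec_pow (by omega) hr h2
  · obtain ⟨f', h1, h2, h3⟩ := Spec_red h
    rw [← h1] at h2
    rcases Spec_two (by omega) hr (Or.inl h2) with h4 | h4
    · refine Or.inr (Or.inl (h3 _ ?_))
      rw [← h1, ← h4]
      exact Spec_refl f'
    · refine Or.inr (Or.inr (h3 _ ?_))
      rw [← h1, ← h4]
      exact Spec_refl f'
  · obtain ⟨f', h1, h2, h3⟩ := Spec_red h
    rw [← h1] at h2 hodd
    rcases Spec_two (by omega) hr (Or.inr ⟨h2, hodd⟩) with h4 | h4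
    · refine Or.inr (Or.inl (h3 _ ?_))
      rw [← h1, ← h4]
      exact Spec_refl f'
    · refine Or.inr (Or.inr (h3 _ ?_))
      rw [← h1, ← h4]
      exact Spec_refl f'

end Pool.Agent.MSC
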