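import Pool.Agent.MSC.Cnt1
import Pool.Agent.MSC.Spec

/-!
# No fibre of a semiconjugacy is very small
-/

namespace Pool.Agent.MSC

open Polynomial Pool.Agent.PrepH

variable {F : Type*} [Field F] [IsAlgClosed F] [CharZero F]

private theorem Cnt3_two {α : F[X]} (hα : 1 ≤ α.natDegree) {u v : F} (h : u ≠ v) :
    α.natDegree + 1 ≤ (fib α u).card + (fib α v).card := by
  classical
  obtain ⟨S, hS⟩ := exists_critical hα
  have h1 := (hS {u, v}).2.1
  rw [Finset.sum_pair h] at h1
  unfold dfc at h1
  have h2 := (card_fib_le hα u).2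
  have h3 := (card_fib_le hα v).2
  omega

private theorem Cnt3_pow {G : F[X]} (hG : 2 ≤ G.natDegree) {y : F}
    (h : ∀ x, G.eval x = y → x = y) :
    G = C y + C G.leadingCoeff * (X - C y) ^ G.natDegree := by
  have hdeg : (G - C y).natDegree = G.natDegree := natDegree_sub_C
  have hlc : (G - C y).leadingCoeff = G.leadingCoeff := by
    unfold leadingCoeff
    rw [hdeg, coeff_sub, coeff_C, if_neg (by omega), sub_zero]
  have hsp := IsAlgClosed.splits (G - C y)
  have h1 := hsp.eq_prod_roots
  have h2 := hsp.natDegree_eq_card_roots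
  have h0 : G - C y ≠ 0 := by
    intro h0
    rw [h0, natDegree_zero] at hdeg
    omega
  have h3 : (G - C y).roots = Multiset.replicate G.natDegree y := by
    rw [Multiset.eq_replicate]
    refine ⟨by rw [← h2, hdeg], fun b hb => ?_⟩
    rw [mem_roots h0, IsRoot.def, eval_sub, eval_C, sub_eq_zero] at hb
    exact h b hb
  rw [h3, Multiset.map_replicate, Multiset.prod_replicate, hlc] at h1
  rw [← h1]
  ring

/-- **PROOF.** Let `A = natDegree α`, `D = natDegree G = natDegree W`, and suppose
`2 D |fib α v| ≤ A`, `v = v₁`. For `v' ∈ fib W v₁`, the points of `fib α v'` are mapped by `G` to `fib α v₁`; these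
sets are disjoint, so `Σ_{v' ∈ fib W v₁} |fib α v'| ≤ D |fib α v₁| ≤ A / 2`. The sum of the defects
`A - |fib α v'|` of two different points is at most `A - 1` (`exists_critical`), so
`fib W v₁ = {v'}` has one element, with defect `≥ A / 2`; the defect of `v₁` is
`≥ A - A / (2 D) ≥ 3 A / 4`, so `v' = v₁`. Then `S = fib α v₁` satisfies
`G(x) ∈ S ↔ W(α(x)) = v₁ ↔ α(x) = v₁ ↔ x ∈ S`; by `card_preimage` `D |S| ≤ |S| + D - 1`, so
`S = {x₁}`, and `x₁` is the only root of `G - x₁`: `G = x₁ + c (X - x₁)^D`, against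
`linConj_pow`. -/
theorem fib_large {G W α : F[X]} (hG : 2 ≤ G.natDegree) (hα : 1 ≤ α.natDegree)
    (hW : W.comp α = α.comp G) (hsp : ¬ LinConj G (X ^ G.natDegree)) (v : F) :
    α.natDegree < 2 * G.natDegree * (fib α v).card := by
  classical
  by_contra hcon
  rw [not_lt] at hcon
  have hev : ∀ x, W.eval (α.eval x) = α.eval (G.eval x) := by
    intro x
    rw [← eval_comp, ← eval_comp, hW]
  have hWdeg : W.natDegree = G.natDegree := by
    have h1 := congrArg natDegree hW
    rw [natDegree_comp, natDegree_comp, mul_comm α.natDegree] at h1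
    exact Nat.eq_of_mul_eq_mul_right (by omega) h1
  have hG1 : 1 ≤ G.natDegree := by omega
  have hW1 : 1 ≤ W.natDegree := by omega
  have hQ : ((fib α v).biUnion (fun y => fib G y)).card ≤ G.natDegree * (fib α v).card := by
    refine Finset.card_biUnion_le.trans ?_
    refine (Finset.sum_le_card_nsmul _ _ G.natDegree fun y _ => (card_fib_le hG1 y).2).trans ?_
    rw [smul_eq_mul, mul_comm]
  have hsub : ∀ v' ∈ fib W v, fib α v' ⊆ (fib α v).biUnion (fun y => fib G y) := by
    intro v' hv' x hx
    rw [mem_fib hW1] at hv'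
    rw [mem_fib hα] at hx
    rw [Finset.mem_biUnion]
    refine ⟨G.eval x, ?_, (mem_fib hG1).2 rfl⟩
    rw [mem_fib hα, ← hev, hx, hv']
  have hn1 := (card_fib_le hα v).1
  have hDn : 2 * (G.natDegree * (fib α v).card) ≤ α.natDegree := by
    rw [← mul_assoc]
    exact hcon
  have hn2 : (fib α v).card ≤ G.natDegree * (fib α v).card := Nat.le_mul_of_pos_left _ (by omega)
  -- the only preimage of v under W is v
  have huniq : ∀ v' ∈ fib W v, v' = v := by
    intro v' hv'
    by_contra hne
    have h1 := Cnt3_two hα hne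
    have h2 := (Finset.card_le_card (hsub v' hv')).trans hQ
    omega
  have hmem : v ∈ fib W v := by
    have h1 := (card_fib_le hW1 v).1
    obtain ⟨v', hv'⟩ := Finset.card_pos.1 (show 0 < (fib W v).card by omega)
    have h2 := huniq v' hv'
    rwa [h2] at hv'
  rw [mem_fib hW1] at hmem
  have hS : ∀ x, G.eval x ∈ fib α v → x ∈ fib α v := by
    intro x hx
    rw [mem_fib hα, ← hev] at hx
    rw [mem_fib hα]
    exact huniq _ ((mem_fib hW1).2 hx)
  have hcard := card_preimage hG1 (fib α v) (fib α v) hS
  have hone : (fib α v).card = 1 := by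
    obtain ⟨d, hd⟩ : ∃ d, G.natDegree = d + 1 := ⟨G.natDegree - 1, by omega⟩
    rw [hd] at hcard
    have h1 : d * (fib α v).card ≤ d * 1 := by
      have h2 : (d + 1) * (fib α v).card = d * (fib α v).card + (fib α v).card := by ring
      omega
    have h3 := Nat.le_of_mul_le_mul_left h1 (by omega)
    omega
  obtain ⟨y, hy⟩ := Finset.card_eq_one.1 hone
  have hyv : α.eval y = v := by
    rw [← mem_fib hα, hy]
    exact Finset.mem_singleton_self y
  refine hsp (linConj_pow hG (Cnt3_pow hG (y := y) fun x hx => ?_))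
  have h1 : x ∈ fib α v := by
    apply hS
    rw [hx, mem_fib hα, hyv]
  rw [hy] at h1
  exact Finset.mem_singleton.1 h1

end Pool.Agent.MSC
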