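import Mathlib

/-!
# A numerical lemma
-/

namespace Pool.Agent.MSC

private theorem Cnt4_aux {ι : Type*} (S : Finset ι) (δ ε N : ι → ℕ) {A B D : ℕ} (hD : 1 ≤ D)
    (hA : 2 ≤ A) (hB : 4 * D ≤ B) (h1 : ∑ v ∈ S, δ v = A - 1) (h2 : ∑ v ∈ S, ε v = B - 1)
    (hN : ∀ v ∈ S, A ≤ N v + 2 * δ v) (h3 : ∑ v ∈ S, N v * ε v ≤ B - 1)
    (h6 : ∀ v ∈ S, B + 2 * D * ε v < 2 * D * B) : ∀ v ∈ S, 2 * δ v + 2 < A + 4 * D := by
  classical
  have hne : S.Nonempty := by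
    by_contra h
    rw [Finset.not_nonempty_iff_eq_empty] at h
    rw [h, Finset.sum_empty] at h1
    omega
  obtain ⟨w, hw, hmax⟩ := Finset.exists_max_image S δ hne
  obtain ⟨a, rfl⟩ : ∃ a, A = a + 1 := ⟨A - 1, by omega⟩
  obtain ⟨b, rfl⟩ : ∃ b, B = b + 1 := ⟨B - 1, by omega⟩
  simp only [Nat.add_sub_cancel] at h1 h2 h3
  have hb : 1 ≤ b := by omega
  -- `a ≤ 2 δ w`
  have s1 : (a + 1) * b ≤ b + 2 * (δ w * b) := by
    calc (a + 1) * b = ∑ v ∈ S, (a + 1) * ε v := by rw [← Finset.mul_sum, h2]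
      _ ≤ ∑ v ∈ S, (N v * ε v + 2 * (δ w * ε v)) := by
          refine Finset.sum_le_sum fun v hv => ?_
          have e1 := Nat.mul_le_mul_right (ε v) (hN v hv)
          have e2 := Nat.mul_le_mul_right (ε v) (hmax v hv)
          nlinarith
      _ = ∑ v ∈ S, N v * ε v + 2 * (δ w * b) := by
          rw [Finset.sum_add_distrib, ← Finset.mul_sum, ← Finset.mul_sum, h2]
      _ ≤ _ := by omega
  have s2 : a ≤ 2 * δ w := by
    by_contra h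
    push Not at h
    have : (2 * δ w + 1) * b ≤ a * b := Nat.mul_le_mul_right b h
    nlinarith
  -- the other elements
  have e1 : ∑ v ∈ S.erase w, δ v + δ w = a := by
    rw [Finset.sum_erase_add _ _ hw, h1]
  have e2 : ∑ v ∈ S.erase w, ε v + ε w = b := by
    rw [Finset.sum_erase_add _ _ hw, h2]
  obtain ⟨τ, hτ⟩ : ∃ τ, 2 * δ w + 2 = a + 1 + τ := ⟨2 * δ w + 2 - (a + 1), by omega⟩
  have s3 : τ * ∑ v ∈ S.erase w, ε v ≤ b := by
    refine le_trans ?_ h3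
    rw [Finset.mul_sum]
    refine le_trans (Finset.sum_le_sum fun v hv => ?_)
      (Finset.sum_le_sum_of_subset (Finset.erase_subset w S))
    refine Nat.mul_le_mul_right _ ?_
    have h4 := Finset.single_le_sum (f := δ) (fun i _ => Nat.zero_le _) hv
    have h5 := hN v (Finset.mem_of_mem_erase hv)
    omega
  have s4 : τ < 4 * D := by
    by_contra h
    push Not at h
    have h7 := h6 w hw
    have h8 : 4 * D * ∑ v ∈ S.erase w, ε v ≤ b := (Nat.mul_le_mul_right _ h).trans s3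
    obtain ⟨E, hE⟩ : ∃ E, E = ∑ v ∈ S.erase w, ε v := ⟨_, rfl⟩
    rw [← hE] at e2 h8
    have h9 : ε w = b - E := by omega
    have h10 : b = E + ε w := by omega
    have h11 : 2 * D * (b + 1) = 2 * D * E + 2 * D * ε w + 2 * D := by rw [h10]; ring
    nlinarith
  intro v hv
  have := hmax v hv
  omega

/-- **PROOF.** Let `v₁` maximise `δ`. From `h3` and `hN`: `Σ ε (A - 2 δ) ≤ B - 1`, so
`(A - 1) (B - 1) ≤ 2 Σ δ ε ≤ 2 δ(v₁) (B - 1)`, `δ(v₁) ≥ (A - 1) / 2`. For `v ≠ v₁`,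
`δ(v) ≤ A - 1 - δ(v₁)`, so `N(v) ≥ τ := 2 δ(v₁) - A + 2 ≥ 1`, and `τ Σ_{v ≠ v₁} ε(v) ≤ B - 1`. By
`h6`, `Σ_{v ≠ v₁} ε(v) > B / (2 D) - 1 ≥ B / (4 D)`; so `τ < 4 D`, `δ(v) ≤ δ(v₁) < A / 2 + 2 D` for all
`v`. In the same way `ε(v) < B / 2 + 2 D` for all `v`. Let `S₁ = {v : 3 δ(v) > A}`, at most two
elements. For `v ∉ S₁`, `N(v) ≥ A / 3`, so `Σ_{v ∉ S₁} ε(v) ≤ 3 B / A ≤ 3 B / 200`. So
`Σ_{v ∈ S₁} ε(v) ≥ B - 1 - 3 B / 200`, and since every `ε(v) < B / 2 + 2 D`, `B ≥ 100 D`: `S₁` has exactly two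
elements `v₁, v₂`, and `ε(v_i) ≥ B - 1 - 3 B / 200 - B / 2 - 2 D > 2 B / 5`. By `h3`,
`(N(v₁) + N(v₂)) 2 B / 5 ≤ B - 1`, so `N(v₁) + N(v₂) ≤ 2`. -/
theorem numeric {ι : Type*} (S : Finset ι) (δ ε N M : ι → ℕ) {A B D : ℕ} (hD : 2 ≤ D)
    (hA : 100 * D ≤ A) (hB : 100 * D ≤ B) (h1 : ∑ v ∈ S, δ v = A - 1) (h2 : ∑ v ∈ S, ε v = B - 1)
    (hN : ∀ v ∈ S, A ≤ N v + 2 * δ v) (hM : ∀ v ∈ S, B ≤ M v + 2 * ε v)
    (h3 : ∑ v ∈ S, N v * ε v ≤ B - 1) (h4 : ∑ v ∈ S, M v * δ v ≤ A - 1)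
    (h5 : ∀ v ∈ S, A + 2 * D * δ v < 2 * D * A) (h6 : ∀ v ∈ S, B + 2 * D * ε v < 2 * D * B) :
    ∃ v₁ ∈ S, ∃ v₂ ∈ S, v₁ ≠ v₂ ∧ N v₁ + N v₂ ≤ 2 := by
  classical
  have he : ∀ v ∈ S, 2 * ε v + 2 < B + 4 * D :=
    Cnt4_aux S ε δ M (by omega) (by omega) (by omega) h2 h1 hM h4 h5
  have hsplit : ∀ f : ι → ℕ, ∑ v ∈ S.filter (fun v => A < 3 * δ v), f v +
      ∑ v ∈ S.filter (fun v => ¬ A < 3 * δ v), f v = ∑ v ∈ S, f v :=
    fun f => Finset.sum_filter_add_sum_filter_not S _ f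
  obtain ⟨S₁, hS₁⟩ : ∃ S₁, S₁ = S.filter (fun v => A < 3 * δ v) := ⟨_, rfl⟩
  obtain ⟨S₂, hS₂⟩ : ∃ S₂, S₂ = S.filter (fun v => ¬ A < 3 * δ v) := ⟨_, rfl⟩
  rw [← hS₁, ← hS₂] at hsplit
  have m1 : ∀ v ∈ S₁, v ∈ S ∧ A < 3 * δ v := fun v hv => by
    rw [hS₁] at hv
    exact Finset.mem_filter.1 hv
  have m2 : ∀ v ∈ S₂, v ∈ S ∧ ¬ A < 3 * δ v := fun v hv => by
    rw [hS₂] at hv
    exact Finset.mem_filter.1 hv
  -- the complement
  obtain ⟨E, hE⟩ : ∃ E, E = ∑ v ∈ S₂, ε v := ⟨_, rfl⟩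
  have c1 : A * E ≤ 3 * (B - 1) := by
    rw [hE, Finset.mul_sum]
    calc ∑ v ∈ S₂, A * ε v ≤ ∑ v ∈ S₂, 3 * (N v * ε v) := by
          refine Finset.sum_le_sum fun v hv => ?_
          have a1 := m2 v hv
          have a2 := hN v a1.1
          have a3 : A ≤ 3 * N v := by omega
          calc A * ε v ≤ 3 * N v * ε v := Nat.mul_le_mul_right _ a3
            _ = _ := by ring
      _ = 3 * ∑ v ∈ S₂, N v * ε v := by rw [Finset.mul_sum]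
      _ ≤ 3 * (B - 1) := by
          have := hsplit (fun v => N v * ε v)
          have h7 := h3
          omega
  have c2 : 200 * E ≤ 3 * (B - 1) := (Nat.mul_le_mul_right E (by omega)).trans c1
  have c3 : ∑ v ∈ S₁, ε v + E = B - 1 := by rw [hE, hsplit ε, h2]
  -- the cardinality of `S₁`
  have d1 : S₁.card * (A + 1) ≤ 3 * (A - 1) := by
    calc S₁.card * (A + 1) = ∑ v ∈ S₁, (A + 1) := by rw [Finset.sum_const, smul_eq_mul]
      _ ≤ ∑ v ∈ S₁, 3 * δ v := Finset.sum_le_sum fun v hv => (m1 v hv).2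
      _ = 3 * ∑ v ∈ S₁, δ v := by rw [Finset.mul_sum]
      _ ≤ _ := by
          have := hsplit δ
          omega
  have d2 : S₁.card ≤ 2 := by
    by_contra h
    push Not at h
    have : 3 * (A + 1) ≤ S₁.card * (A + 1) := Nat.mul_le_mul_right _ h
    omega
  have d3 : S₁.card = 2 := by
    by_contra h
    have h7 : S₁.card ≤ 1 := by omega
    have h8 : 2 * ∑ v ∈ S₁, ε v ≤ B + 4 * D := by
      rcases Nat.le_one_iff_eq_zero_or_eq_one.1 h7 with h9 | h9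
      · rw [Finset.card_eq_zero] at h9
        rw [h9, Finset.sum_empty]
        omega
      · obtain ⟨v, hv⟩ := Finset.card_eq_one.1 h9
        have h10 := he v (m1 v (by rw [hv]; exact Finset.mem_singleton_self v)).1
        rw [hv, Finset.sum_singleton]
        omega
    omega
  obtain ⟨v₁, v₂, hne, hv⟩ := Finset.card_eq_two.1 d3
  have g1 : v₁ ∈ S₁ := by rw [hv]; simp
  have g2 : v₂ ∈ S₁ := by rw [hv]; simp
  have k1 := he v₁ (m1 v₁ g1).1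
  have k2 := he v₂ (m1 v₂ g2).1
  have k3 : ε v₁ + ε v₂ + E = B - 1 := by
    rw [← c3, hv, Finset.sum_pair hne]
  have k4 : 93 * B ≤ 200 * ε v₁ := by omega
  have k5 : 93 * B ≤ 200 * ε v₂ := by omega
  have k6 : N v₁ * ε v₁ + N v₂ * ε v₂ ≤ B - 1 := by
    have h7 := hsplit (fun v => N v * ε v)
    rw [hv, Finset.sum_pair hne] at h7
    omega
  refine ⟨v₁, (m1 v₁ g1).1, v₂, (m1 v₂ g2).1, hne, ?_⟩
  by_contra h
  push Not at h
  have l1 := Nat.mul_le_mul_left (N v₁) k4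
  have l2 := Nat.mul_le_mul_left (N v₂) k5
  have l3 : 3 * (93 * B) ≤ (N v₁ + N v₂) * (93 * B) := Nat.mul_le_mul_right _ h
  have l4 : (N v₁ + N v₂) * (93 * B) ≤ 200 * (B - 1) := by
    calc (N v₁ + N v₂) * (93 * B) = N v₁ * (93 * B) + N v₂ * (93 * B) := by ring
      _ ≤ N v₁ * (200 * ε v₁) + N v₂ * (200 * ε v₂) := by omega
      _ = 200 * (N v₁ * ε v₁ + N v₂ * ε v₂) := by ring
      _ ≤ _ := by omega
  omega

end Pool.Agent.MSC
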