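import Pool.Agent.MSC.Cnt1
import Pool.Agent.MSC.Spec

/-!
# Semiconjugacies from polynomials of Chebyshev type
-/

namespace Pool.Agent.MSC

open Polynomial Pool.Agent.PrepH

variable {F : Type*} [Field F] [IsAlgClosed F] [CharZero F]

/-- In a fibre with `natDegree α = card sfib + 2 dfc` the points which are not simple have local
degree `2`. -/
private theorem ldeg_two_of_eq {α : F[X]} (hα : 1 ≤ α.natDegree) {v : F}
    (h : α.natDegree = (sfib α v).card + 2 * dfc α v) :
    ∀ x ∈ fib α v, x ∉ sfib α v → ldeg α x = 2 := by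
  classical
  have hsub : sfib α v ⊆ fib α v := fun x hx => by
    rw [mem_fib hα]
    exact ((mem_sfib hα).1 hx).1
  have hsum := sum_ldeg hα v
  have hcard := card_fib_le hα v
  have hge : ∀ x ∈ fib α v \ sfib α v, 2 ≤ ldeg α x := by
    intro x hx
    rw [Finset.mem_sdiff, mem_fib hα, mem_sfib hα] at hx
    have h1 := ldeg_pos hα x
    have h2 : ldeg α x ≠ 1 := fun h3 => hx.2 ⟨hx.1, h3⟩
    omega
  have hs1 : ∑ x ∈ sfib α v, ldeg α x = (sfib α v).card := by
    rw [Finset.sum_congr rfl (fun x hx => ((mem_sfib hα).1 hx).2)]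
    simp
  have hsplit := Finset.sum_sdiff (f := fun x => ldeg α x) hsub
  have hcs : (fib α v \ sfib α v).card + (sfib α v).card = (fib α v).card :=
    Finset.card_sdiff_add_card_eq_card hsub
  have hdf : dfc α v = α.natDegree - (fib α v).card := rfl
  have htot : ∑ x ∈ fib α v \ sfib α v, ldeg α x = ∑ x ∈ fib α v \ sfib α v, 2 := by
    have : ∑ x ∈ fib α v \ sfib α v, 2 = 2 * (fib α v \ sfib α v).card := by
      rw [Finset.sum_const, smul_eq_mul, mul_comm]
    omega
  have := (Finset.sum_eq_sum_iff_of_le hge).1 htot.symm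
  intro x hx hx'
  exact (this x (Finset.mem_sdiff.2 ⟨hx, hx'⟩)).symm

/-- **PROOF.** Let `A = natDegree α`, `n` the number of the simple points over `v₁`, `v₂` (`n ≤ 2`) and `N`
the number of all points over `v₁`, `v₂`. By `exists_critical` `N = 2 A - dfc v₁ - dfc v₂ ≥ A + 1`, and
`2 A = Σ ldeg ≥ n + 2 (N - n) = 2 N - n ≥ 2 (A + 1) - n`. So `n = 2`, `N = A + 1`,
`dfc v₁ + dfc v₂ = A - 1`, all other defects are `0`, and the points over `v₁`, `v₂` which are not
simple have local degree exactly `2`. -/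
theorem cheb_type {α : F[X]} (hα : 1 ≤ α.natDegree) {v₁ v₂ : F} (h12 : v₁ ≠ v₂)
    (h : (sfib α v₁).card + (sfib α v₂).card ≤ 2) :
    ∃ p₁ p₂ : F, p₁ ≠ p₂ ∧
      (∀ x : F, α.eval x ≠ v₁ → α.eval x ≠ v₂ → ldeg α x = 1) ∧
      (∀ x : F, (α.eval x = v₁ ∨ α.eval x = v₂) → (ldeg α x = 1 ∧ (x = p₁ ∨ x = p₂)) ∨
        (ldeg α x = 2 ∧ x ≠ p₁ ∧ x ≠ p₂)) ∧
      (α.eval p₁ = v₁ ∨ α.eval p₁ = v₂) ∧ (α.eval p₂ = v₁ ∨ α.eval p₂ = v₂) := by
  classical
  obtain ⟨S, hS⟩ := exists_critical hα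
  have h2 := (hS {v₁, v₂}).2.1
  rw [Finset.sum_pair h12] at h2
  have g1 := sfib_ge hα v₁
  have g2 := sfib_ge hα v₂
  have e1 : α.natDegree = (sfib α v₁).card + 2 * dfc α v₁ := by omega
  have e2 : α.natDegree = (sfib α v₂).card + 2 * dfc α v₂ := by omega
  have e3 : (sfib α v₁).card + (sfib α v₂).card = 2 := by omega
  have e4 : dfc α v₁ + dfc α v₂ = α.natDegree - 1 := by omega
  have hdisj : Disjoint (sfib α v₁) (sfib α v₂) := by
    rw [Finset.disjoint_left]
    intro x hx hx'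
    exact h12 (((mem_sfib hα).1 hx).1.symm.trans ((mem_sfib hα).1 hx').1)
  have hcard : (sfib α v₁ ∪ sfib α v₂).card = 2 := by
    rw [Finset.card_union_of_disjoint hdisj, e3]
  obtain ⟨p₁, p₂, hp, hU⟩ := Finset.card_eq_two.1 hcard
  have hmem : ∀ x, (x ∈ sfib α v₁ ∨ x ∈ sfib α v₂) ↔ (x = p₁ ∨ x = p₂) := by
    intro x
    rw [← Finset.mem_union, hU, Finset.mem_insert, Finset.mem_singleton]
  refine ⟨p₁, p₂, hp, ?_, ?_, ?_, ?_⟩
  · intro x hx1 hx2
    have h3 := (hS {v₁, v₂, α.eval x}).2.1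
    rw [Finset.sum_insert (by simp [h12, hx1.symm]), Finset.sum_pair hx2.symm] at h3
    have h4 : dfc α (α.eval x) = 0 := by omega
    have h5 := card_fib_le hα (α.eval x)
    have h6 : (fib α (α.eval x)).card = α.natDegree := by
      have : dfc α (α.eval x) = α.natDegree - (fib α (α.eval x)).card := rfl
      omega
    have h7 : ∑ y ∈ fib α (α.eval x), 1 = ∑ y ∈ fib α (α.eval x), ldeg α y := by
      rw [sum_ldeg hα]
      simpa using h6
    have h8 := (Finset.sum_eq_sum_iff_of_le (fun y _ => ldeg_pos hα y)).1 h7 x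
      ((mem_fib hα).2 rfl)
    exact h8.symm
  · intro x hx
    by_cases hs : x ∈ sfib α v₁ ∨ x ∈ sfib α v₂
    · left
      refine ⟨?_, (hmem x).1 hs⟩
      rcases hs with hs | hs
      · exact ((mem_sfib hα).1 hs).2
      · exact ((mem_sfib hα).1 hs).2
    · right
      have hne : ¬ (x = p₁ ∨ x = p₂) := fun h' => hs ((hmem x).2 h')
      rw [not_or] at hs hne
      refine ⟨?_, hne.1, hne.2⟩
      rcases hx with hx | hx
      · exact ldeg_two_of_eq hα e1 x ((mem_fib hα).2 hx) hs.1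
      · exact ldeg_two_of_eq hα e2 x ((mem_fib hα).2 hx) hs.2
  · rcases (hmem p₁).2 (Or.inl rfl) with h' | h'
    · exact Or.inl ((mem_sfib hα).1 h').1
    · exact Or.inr ((mem_sfib hα).1 h').1
  · rcases (hmem p₂).2 (Or.inr rfl) with h' | h'
    · exact Or.inl ((mem_sfib hα).1 h').1
    · exact Or.inr ((mem_sfib hα).1 h').1

/-- Among `3 D` points there is one which is not critical for `G` and not mapped to `p₁`, `p₂`. -/
private theorem exists_good {G : F[X]} (hG : 1 ≤ G.natDegree) (p₁ p₂ : F) (S : Finset F)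
    (hS : 3 * G.natDegree ≤ S.card) :
    ∃ x ∈ S, ldeg G x = 1 ∧ G.eval x ≠ p₁ ∧ G.eval x ≠ p₂ := by
  classical
  by_contra hcon
  push Not at hcon
  have hsub : S ⊆ (S.filter fun x => ldeg G x ≠ 1) ∪ (fib G p₁ ∪ fib G p₂) := by
    intro x hx
    rw [Finset.mem_union, Finset.mem_union, Finset.mem_filter, mem_fib hG, mem_fib hG]
    by_cases h1 : ldeg G x = 1
    · right
      by_cases h2 : G.eval x = p₁
      · exact Or.inl h2
      · exact Or.inr (hcon x hx h1 h2)
    · exact Or.inl ⟨hx, h1⟩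
  have h1 := Finset.card_le_card hsub
  have h2 := Finset.card_union_le (S.filter fun x => ldeg G x ≠ 1) (fib G p₁ ∪ fib G p₂)
  have h3 := Finset.card_union_le (fib G p₁) (fib G p₂)
  have h4 := (card_fib_le hG p₁).2
  have h5 := (card_fib_le hG p₂).2
  have h6 := sum_ldeg_sub hG (S.filter fun x => ldeg G x ≠ 1)
  have h7 : (S.filter fun x => ldeg G x ≠ 1).card
      ≤ ∑ x ∈ S.filter (fun x => ldeg G x ≠ 1), (ldeg G x - 1) := by
    rw [Finset.card_eq_sum_ones]
    refine Finset.sum_le_sum fun x hx => ?_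
    have := (Finset.mem_filter.1 hx).2
    have := ldeg_pos hG x
    omega
  omega

/-- Two nonzero polynomials with the same multiplicities are proportional. -/
private theorem eq_const_mul {P Q : F[X]} (hP : P ≠ 0) (hQ : Q ≠ 0)
    (h : ∀ x, P.rootMultiplicity x = Q.rootMultiplicity x) :
    ∃ c : F, c ≠ 0 ∧ P = C c * Q := by
  classical
  have hr : P.roots = Q.roots := by
    ext x
    rw [count_roots, count_roots, h x]
  have h1 := (IsAlgClosed.splits P).eq_prod_roots
  have h2 := (IsAlgClosed.splits Q).eq_prod_roots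
  have hlP : P.leadingCoeff ≠ 0 := leadingCoeff_ne_zero.2 hP
  have hlQ : Q.leadingCoeff ≠ 0 := leadingCoeff_ne_zero.2 hQ
  refine ⟨P.leadingCoeff / Q.leadingCoeff, div_ne_zero hlP hlQ, ?_⟩
  calc P = C P.leadingCoeff * (Multiset.map (fun x => X - C x) P.roots).prod := h1
    _ = C (P.leadingCoeff / Q.leadingCoeff) *
        (C Q.leadingCoeff * (Multiset.map (fun x => X - C x) Q.roots).prod) := by
          rw [← mul_assoc, ← C_mul, div_mul_cancel₀ _ hlQ, hr]
    _ = C (P.leadingCoeff / Q.leadingCoeff) * Q := by rw [← h2]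

private theorem sub_C_ne_zero {G : F[X]} (hG : 1 ≤ G.natDegree) (p : F) : G - C p ≠ 0 := by
  intro h
  have h1 : (G - C p).natDegree = G.natDegree := natDegree_sub_C
  rw [h, natDegree_zero] at h1
  omega

private theorem rm_eq {G : F[X]} (hG : 1 ≤ G.natDegree) (p x : F) [Decidable (G.eval x = p)] :
    (G - C p).rootMultiplicity x = if G.eval x = p then ldeg G x else 0 := by
  split_ifs with h
  · rw [ldeg, h]
  · rw [rootMultiplicity_eq_zero_iff]
    intro h1
    exfalso
    apply h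
    have : (G - C p).eval x = 0 := h1
    rw [eval_sub, eval_C, sub_eq_zero] at this
    exact this

private theorem pell_step {G : F[X]} (hG : 1 ≤ G.natDegree) {p₁ p₂ : F} (hp : p₁ ≠ p₂)
    (h1 : ∀ x, (G.eval x = p₁ ∨ G.eval x = p₂) → (x = p₁ ∨ x = p₂) → ldeg G x = 1)
    (h2 : ∀ x, (G.eval x = p₁ ∨ G.eval x = p₂) → ¬ (x = p₁ ∨ x = p₂) → ldeg G x = 2) :
    ∃ (c : F) (R : F[X]), c ≠ 0 ∧
      (G - C p₁) * (G - C p₂) = C c * ((X - C p₁) * (X - C p₂) * R ^ 2) := by
  classical
  set U : Finset F := fib G p₁ ∪ fib G p₂ with hU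
  have hmemU : ∀ x, x ∈ U ↔ (G.eval x = p₁ ∨ G.eval x = p₂) := by
    intro x
    rw [hU, Finset.mem_union, mem_fib hG, mem_fib hG]
  have hdisj : Disjoint (fib G p₁) (fib G p₂) := by
    rw [Finset.disjoint_left]
    intro x hx hx'
    rw [mem_fib hG] at hx hx'
    exact hp (hx.symm.trans hx')
  have hsumU : ∑ x ∈ U, ldeg G x = 2 * G.natDegree := by
    rw [hU, Finset.sum_union hdisj, sum_ldeg hG, sum_ldeg hG, two_mul]
  set U₁ := U.filter fun x => x = p₁ ∨ x = p₂ with hU₁
  set U₂ := U.filter fun x => ¬ (x = p₁ ∨ x = p₂) with hU₂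
  have hs := Finset.sum_filter_add_sum_filter_not U (fun x => x = p₁ ∨ x = p₂)
    (fun x => ldeg G x)
  have hs1 : ∑ x ∈ U₁, ldeg G x = U₁.card := by
    rw [Finset.card_eq_sum_ones]
    refine Finset.sum_congr rfl fun x hx => ?_
    have := Finset.mem_filter.1 hx
    exact h1 x ((hmemU x).1 this.1) this.2
  have hs2 : ∑ x ∈ U₂, ldeg G x = 2 * U₂.card := by
    rw [mul_comm, ← smul_eq_mul, ← Finset.sum_const]
    refine Finset.sum_congr rfl fun x hx => ?_
    have := Finset.mem_filter.1 hx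
    exact h2 x ((hmemU x).1 this.1) this.2
  have hs3 : U₂.card ≤ G.natDegree - 1 := by
    refine le_trans ?_ (sum_ldeg_sub hG U₂)
    rw [Finset.card_eq_sum_ones]
    refine Finset.sum_le_sum fun x hx => ?_
    have := Finset.mem_filter.1 hx
    rw [h2 x ((hmemU x).1 this.1) this.2]
  have hs4 : U₁ ⊆ {p₁, p₂} := by
    intro x hx
    have := (Finset.mem_filter.1 hx).2
    rw [Finset.mem_insert, Finset.mem_singleton]
    exact this
  have hs5 : ({p₁, p₂} : Finset F).card = 2 := Finset.card_pair hp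
  have hs6 : 2 ≤ U₁.card := by
    have e1 : ∑ x ∈ U with (x = p₁ ∨ x = p₂), ldeg G x = U₁.card := hs1
    have e2 : ∑ x ∈ U with ¬ (x = p₁ ∨ x = p₂), ldeg G x = 2 * U₂.card := hs2
    omega
  have hs7 : U₁ = {p₁, p₂} := Finset.eq_of_subset_of_card_le hs4 (by omega)
  have hp1 : G.eval p₁ = p₁ ∨ G.eval p₁ = p₂ := by
    have : p₁ ∈ U₁ := by rw [hs7]; simp
    exact (hmemU _).1 (Finset.mem_filter.1 this).1
  have hp2 : G.eval p₂ = p₁ ∨ G.eval p₂ = p₂ := by
    have : p₂ ∈ U₁ := by rw [hs7]; simp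
    exact (hmemU _).1 (Finset.mem_filter.1 this).1
  set R : F[X] := ∏ x ∈ U₂, (X - C x) with hR
  have hRne : R ≠ 0 := Finset.prod_ne_zero_iff.2 fun x _ => X_sub_C_ne_zero x
  have hRroots : R.roots = U₂.val := by
    rw [hR]
    exact roots_prod_X_sub_C U₂
  have hL : (G - C p₁) * (G - C p₂) ≠ 0 :=
    mul_ne_zero (sub_C_ne_zero hG p₁) (sub_C_ne_zero hG p₂)
  have hX : (X - C p₁ : F[X]) * (X - C p₂) ≠ 0 :=
    mul_ne_zero (X_sub_C_ne_zero p₁) (X_sub_C_ne_zero p₂)
  have hRR : (X - C p₁ : F[X]) * (X - C p₂) * R ^ 2 ≠ 0 := mul_ne_zero hX (pow_ne_zero 2 hRne)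
  obtain ⟨c, hc, hcc⟩ := eq_const_mul hL hRR (fun x => by
    rw [rootMultiplicity_mul hL, rootMultiplicity_mul hRR, rootMultiplicity_mul hX,
      rm_eq hG, rm_eq hG, rootMultiplicity_X_sub_C, rootMultiplicity_X_sub_C,
      ← count_roots (R ^ 2), roots_pow, Multiset.count_nsmul, hRroots]
    have hcount : U₂.val.count x = if x ∈ U₂ then 1 else 0 := by
      rw [Multiset.count_eq_of_nodup U₂.nodup]
      rfl
    rw [hcount]
    by_cases hx : G.eval x = p₁ ∨ G.eval x = p₂
    · by_cases hxp : x = p₁ ∨ x = p₂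
      · have hxU : x ∉ U₂ := fun h' => (Finset.mem_filter.1 h').2 hxp
        have hl := h1 x hx hxp
        rw [if_neg hxU, hl]
        have a1 : ((if G.eval x = p₁ then 1 else 0) + (if G.eval x = p₂ then 1 else 0) : ℕ)
            = 1 := by
          rcases hx with hx | hx
          · rw [if_pos hx, if_neg (by rw [hx]; exact hp)]
          · rw [if_pos hx, if_neg (by rw [hx]; exact hp.symm)]
        have a2 : ((if x = p₁ then 1 else 0) + (if x = p₂ then 1 else 0) : ℕ) = 1 := by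
          rcases hxp with hxp | hxp
          · rw [if_pos hxp, if_neg (by rw [hxp]; exact hp)]
          · rw [if_pos hxp, if_neg (by rw [hxp]; exact hp.symm)]
        rw [a1, a2]
      · have hxU : x ∈ U₂ := Finset.mem_filter.2 ⟨(hmemU x).2 hx, hxp⟩
        have hl := h2 x hx hxp
        rw [if_pos hxU, hl]
        rw [not_or] at hxp
        rw [if_neg hxp.1, if_neg hxp.2]
        rcases hx with hx | hx
        · rw [if_pos hx, if_neg (by rw [hx]; exact hp)]
        · rw [if_pos hx, if_neg (by rw [hx]; exact hp.symm)]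
    · have hxU : x ∉ U₂ := fun h' => hx ((hmemU x).1 (Finset.mem_filter.1 h').1)
      have hne : ¬ (x = p₁ ∨ x = p₂) := by
        rintro (rfl | rfl)
        · exact hx hp1
        · exact hx hp2
      rw [not_or] at hne hx
      rw [if_neg hx.1, if_neg hx.2, if_neg hne.1, if_neg hne.2, if_neg hxU])
  exact ⟨c, R, hc, hcc⟩

/-- **PROOF.** Let `p₁`, `p₂` be the points of `cheb_type`, `D = natDegree G = natDegree W`,
`V = {v₁, v₂}`; `ldeg W (α x) * ldeg α x = ldeg α (G x) * ldeg G x` for all `x` (`ldeg_comp`). At most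
`D - 1` points `x` have `ldeg G x > 1` (`sum_ldeg_sub`), and at most `2 D` points satisfy
`G x ∈ {p₁, p₂}`.

(1) If `v' ∉ V`, `W v' ∈ V`, then `ldeg W v' = 2`: the fibre of `α` over `v'` has `A > 3 D` points, all of
local degree `1`; choose `x` in it with `ldeg G x = 1` and `G x ∉ {p₁, p₂}`; `α (G x) = W v' ∈ V`, so
`ldeg α (G x) = 2`.

(2) If `v' ∈ V`, `W v' ∈ V`, then `ldeg W v' = 1`: the fibre of `α` over `v'` has at least
`(A - 2) / 2 > 3 D` points of local degree `2` (`sum_ldeg`); choose `x` among them with `ldeg G x = 1`,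
`G x ∉ {p₁, p₂}`: `ldeg W v' * 2 = 2 * 1`.

(3) Let `G x ∈ {p₁, p₂}`. Then `α (G x) ∈ V`, `ldeg α (G x) = 1`, so
`ldeg G x = ldeg W (α x) * ldeg α x`. If `α x ∉ V` this is `2 * 1`. If `α x ∈ V` it is `ldeg α x`: `1` if
`x ∈ {p₁, p₂}`, and `2` otherwise. If `α x ∉ V` then `x ∉ {p₁, p₂}`. So `ldeg G x = 2` for the `x` with `G x ∈ {p₁, p₂}`,
`x ∉ {p₁, p₂}`, and `ldeg G x = 1` for those in `{p₁, p₂}`.

(4) Let `k` be the number of `i` with `G p_i ∈ {p₁, p₂}`, and `m` the number of the other points over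
`{p₁, p₂}`: `2 D = k + 2 m`, `m ≤ D - 1` (`sum_ldeg_sub`), so `k = 2`, `m = D - 1`. Hence
`(G - p₁) (G - p₂) = c (X - p₁) (X - p₂) R^2` with `R` the product of the `X - x` over these
`m` points. -/
theorem pell_of_cheb_type {α G W : F[X]} (hG : 2 ≤ G.natDegree)
    (hA : 100 * G.natDegree ≤ α.natDegree) (hW : W.comp α = α.comp G) {v₁ v₂ : F} (h12 : v₁ ≠ v₂)
    (h : (sfib α v₁).card + (sfib α v₂).card ≤ 2) :
    ∃ (p₁ p₂ c : F) (R : F[X]), p₁ ≠ p₂ ∧ c ≠ 0 ∧
      (G - C p₁) * (G - C p₂) = C c * ((X - C p₁) * (X - C p₂) * R ^ 2) := by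
  classical
  have hα : 1 ≤ α.natDegree := by omega
  have hG1 : 1 ≤ G.natDegree := by omega
  have hWd : W.natDegree = G.natDegree := by
    have h1 := congrArg natDegree hW
    rw [natDegree_comp, natDegree_comp, mul_comm] at h1
    exact Nat.eq_of_mul_eq_mul_left (by omega) h1
  have hW1 : 1 ≤ W.natDegree := by omega
  obtain ⟨p₁, p₂, hp, hsimple, hV, hp1V, hp2V⟩ := cheb_type hα h12 h
  have hld : ∀ x, ldeg W (α.eval x) * ldeg α x = ldeg α (G.eval x) * ldeg G x := by
    intro x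
    rw [← ldeg_comp hW1 hα, hW, ldeg_comp hα hG1]
  have hev : ∀ x, W.eval (α.eval x) = α.eval (G.eval x) := by
    intro x
    have := congrArg (eval x) hW
    rwa [eval_comp, eval_comp] at this
  -- (1)
  have s1 : ∀ v', v' ≠ v₁ → v' ≠ v₂ → (W.eval v' = v₁ ∨ W.eval v' = v₂) → ldeg W v' = 2 := by
    intro v' hv1 hv2 hWv
    have hall : ∀ x ∈ fib α v', ldeg α x = 1 := by
      intro x hx
      rw [mem_fib hα] at hx
      exact hsimple x (by rw [hx]; exact hv1) (by rw [hx]; exact hv2)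
    have hc : (fib α v').card = α.natDegree := by
      rw [← sum_ldeg hα v', Finset.card_eq_sum_ones]
      exact Finset.sum_congr rfl fun x hx => (hall x hx).symm
    obtain ⟨x, hx, hx1, hx2, hx3⟩ := exists_good hG1 p₁ p₂ (fib α v') (by omega)
    have hax := (mem_fib hα).1 hx
    have e := hld x
    rw [hax, hall x hx, hx1, mul_one, mul_one] at e
    rw [e]
    have hv := hev x
    rw [hax] at hv
    rw [hv] at hWv
    rcases hV _ hWv with ⟨_, h' | h'⟩ | h'
    · exact absurd h' hx2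
    · exact absurd h' hx3
    · exact h'.1
  -- (2)
  have s2 : ∀ v', (v' = v₁ ∨ v' = v₂) → (W.eval v' = v₁ ∨ W.eval v' = v₂) →
      ldeg W v' = 1 := by
    intro v' hv hWv
    have hdeg : ∀ x ∈ fib α v', (ldeg α x = 1 ∧ (x = p₁ ∨ x = p₂)) ∨
        (ldeg α x = 2 ∧ x ≠ p₁ ∧ x ≠ p₂) := by
      intro x hx
      rw [mem_fib hα] at hx
      exact hV x (by rw [hx]; exact hv)
    set S := (fib α v').filter fun x => ¬ (x = p₁ ∨ x = p₂) with hS
    have hs := Finset.sum_filter_add_sum_filter_not (fib α v') (fun x => x = p₁ ∨ x = p₂)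
      (fun x => ldeg α x)
    rw [sum_ldeg hα] at hs
    have hb1 : ∑ x ∈ fib α v' with (x = p₁ ∨ x = p₂), ldeg α x ≤ 2 := by
      have hsub : (fib α v').filter (fun x => x = p₁ ∨ x = p₂) ⊆ {p₁, p₂} := by
        intro x hx
        rw [Finset.mem_insert, Finset.mem_singleton]
        exact (Finset.mem_filter.1 hx).2
      have hc := Finset.card_le_card hsub
      rw [Finset.card_pair hp] at hc
      refine le_trans (le_of_eq ?_) hc
      rw [Finset.card_eq_sum_ones]
      refine Finset.sum_congr rfl fun x hx => ?_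
      rw [Finset.mem_filter] at hx
      rcases hdeg x hx.1 with h' | h'
      · exact h'.1
      · rcases hx.2 with hx2 | hx2
        · exact absurd hx2 h'.2.1
        · exact absurd hx2 h'.2.2
    have hb2 : ∑ x ∈ fib α v' with ¬ (x = p₁ ∨ x = p₂), ldeg α x = 2 * S.card := by
      rw [mul_comm, ← smul_eq_mul, ← Finset.sum_const]
      refine Finset.sum_congr rfl fun x hx => ?_
      rw [Finset.mem_filter] at hx
      rcases hdeg x hx.1 with h' | h'
      · exact absurd h'.2 hx.2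
      · exact h'.1
    have hScard : 3 * G.natDegree ≤ S.card := by omega
    obtain ⟨x, hx, hx1, hx2, hx3⟩ := exists_good hG1 p₁ p₂ S hScard
    rw [hS, Finset.mem_filter] at hx
    have hax := (mem_fib hα).1 hx.1
    have hlx : ldeg α x = 2 := by
      rcases hdeg x hx.1 with h' | h'
      · exact absurd h'.2 hx.2
      · exact h'.1
    have e := hld x
    have hv' := hev x
    rw [hax] at hv'
    rw [hv'] at hWv
    have hlG : ldeg α (G.eval x) = 2 := by
      rcases hV _ hWv with ⟨_, h' | h'⟩ | h'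
      · exact absurd h' hx2
      · exact absurd h' hx3
      · exact h'.1
    rw [hax, hlx, hx1, hlG] at e
    omega
  -- (3)
  have hGV : ∀ x, (G.eval x = p₁ ∨ G.eval x = p₂) →
      (α.eval (G.eval x) = v₁ ∨ α.eval (G.eval x) = v₂) ∧ ldeg α (G.eval x) = 1 := by
    intro x hx
    have h1 : α.eval (G.eval x) = v₁ ∨ α.eval (G.eval x) = v₂ := by
      rcases hx with hx | hx
      · rw [hx]; exact hp1V
      · rw [hx]; exact hp2V
    refine ⟨h1, ?_⟩
    rcases hV _ h1 with h' | h'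
    · exact h'.1
    · rcases hx with hx | hx
      · exact absurd hx h'.2.1
      · exact absurd hx h'.2.2
  have s3 : ∀ x, (G.eval x = p₁ ∨ G.eval x = p₂) →
      (α.eval x = v₁ ∨ α.eval x = v₂) → ldeg G x = ldeg α x := by
    intro x hx hax
    obtain ⟨h1, h2⟩ := hGV x hx
    rw [← hev x] at h1
    have e := hld x
    rw [s2 _ hax h1, h2, one_mul, one_mul] at e
    exact e.symm
  have s4 : ∀ x, (G.eval x = p₁ ∨ G.eval x = p₂) →
      ¬ (α.eval x = v₁ ∨ α.eval x = v₂) → ldeg G x = 2 := by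
    intro x hx hax
    rw [not_or] at hax
    obtain ⟨h1, h2⟩ := hGV x hx
    rw [← hev x] at h1
    have e := hld x
    rw [s1 _ hax.1 hax.2 h1, hsimple x hax.1 hax.2, h2, mul_one, one_mul] at e
    exact e.symm
  obtain ⟨c, R, hc, hcc⟩ := pell_step hG1 hp
    (fun x hx hxp => by
      have hax : α.eval x = v₁ ∨ α.eval x = v₂ := by
        rcases hxp with rfl | rfl
        · exact hp1V
        · exact hp2V
      rw [s3 x hx hax]
      rcases hV x hax with h' | h'
      · exact h'.1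
      · rcases hxp with hxp | hxp
        · exact absurd hxp h'.2.1
        · exact absurd hxp h'.2.2)
    (fun x hx hxp => by
      by_cases hax : α.eval x = v₁ ∨ α.eval x = v₂
      · rw [s3 x hx hax]
        rcases hV x hax with h' | h'
        · exact absurd h'.2 hxp
        · exact h'.1
      · exact s4 x hx hax)
  exact ⟨p₁, p₂, c, R, hp, hc, hcc⟩

/-- `w ^ n P (w + 1/w)`. -/
private noncomputable def lft (n : ℕ) (P : F[X]) : F[X] :=
  ∑ i ∈ Finset.range (n + 1), C (P.coeff i) * (X ^ 2 + 1) ^ i * X ^ (n - i)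

omit [IsAlgClosed F] [CharZero F] in
private theorem lft_eval {n : ℕ} {P : F[X]} (hP : P.natDegree ≤ n) {w : F} (hw : w ≠ 0) :
    (lft n P).eval w = w ^ n * P.eval (w + w⁻¹) := by
  rw [lft, eval_finset_sum, eval_eq_sum_range' (Nat.lt_succ_of_le hP), Finset.mul_sum]
  refine Finset.sum_congr rfl fun i hi => ?_
  have hi' : i ≤ n := Nat.lt_succ_iff.1 (Finset.mem_range.1 hi)
  simp only [eval_mul, eval_pow, eval_C, eval_add, eval_X, eval_one]
  have h1 : w ^ 2 + 1 = w * (w + w⁻¹) := by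
    field_simp
  have h2 : w ^ n = w ^ i * w ^ (n - i) := by
    rw [← pow_add, Nat.add_sub_cancel' hi']
  rw [h1, h2, mul_pow]
  ring

omit [IsAlgClosed F] in
private theorem eq_of_eval_ne_zero {P Q : F[X]} (h : ∀ w : F, w ≠ 0 → P.eval w = Q.eval w) :
    P = Q := by
  refine eq_of_infinite_eval_eq P Q ?_
  refine Set.Infinite.mono (s := {w : F | w ≠ 0}) (fun w hw => h w hw) ?_
  exact (Set.finite_singleton (0 : F)).infinite_compl

omit [IsAlgClosed F] [CharZero F] in
private theorem cheb_eval (n : ℕ) {w : F} (hw : w ≠ 0) :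
    (Chebyshev.C F n).eval (w + w⁻¹) = w ^ n + (w ^ n)⁻¹ := by
  induction n using Nat.strong_induction_on with
  | _ n ih =>
    match n with
    | 0 => simp [one_add_one_eq_two]
    | 1 => simp
    | n + 2 =>
      have h0 := ih n (by omega)
      have h1 := ih (n + 1) (by omega)
      have e : (((n + 2 : ℕ) : ℤ)) = (n : ℤ) + 2 := by push_cast; ring
      have e1 : (((n + 1 : ℕ) : ℤ)) = (n : ℤ) + 1 := by push_cast; ring
      rw [e1] at h1
      rw [e, Chebyshev.C_add_two, eval_sub, eval_mul, eval_X, h1, h0]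
      have : w ^ n ≠ 0 := pow_ne_zero n hw
      field_simp
      ring

private theorem pell_norm {G R : F[X]} (hG : 2 ≤ G.natDegree) {c : F} (hc : c ≠ 0)
    (h : (G - C 2) * (G - C (-2)) = C c * ((X - C 2) * (X - C (-2)) * R ^ 2)) :
    G = Chebyshev.C F G.natDegree ∨ G = -Chebyshev.C F G.natDegree := by
  set D := G.natDegree with hD
  have hR : R.natDegree ≤ D - 1 := by
    by_cases hR0 : R = 0
    · rw [hR0]; simp
    have h1 := congrArg natDegree h
    have hG1 : (1 : ℕ) ≤ G.natDegree := by omega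
    rw [natDegree_mul (sub_C_ne_zero hG1 _) (sub_C_ne_zero hG1 _), natDegree_sub_C,
      natDegree_sub_C, natDegree_C_mul hc,
      natDegree_mul (mul_ne_zero (X_sub_C_ne_zero _) (X_sub_C_ne_zero _)) (pow_ne_zero 2 hR0),
      natDegree_mul (X_sub_C_ne_zero _) (X_sub_C_ne_zero _), natDegree_X_sub_C,
      natDegree_X_sub_C, natDegree_pow] at h1
    omega
  obtain ⟨s, hs⟩ := IsAlgClosed.exists_pow_nat_eq c (n := 2) (by norm_num)
  set T : F[X] := C s * (X ^ 2 - 1) * lft (D - 1) R with hT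
  have hTe : ∀ w : F, w ≠ 0 → T.eval w = w ^ D * (s * (w - w⁻¹) * R.eval (w + w⁻¹)) := by
    intro w hw
    rw [hT, eval_mul, eval_mul, eval_C, lft_eval hR hw]
    simp only [eval_sub, eval_pow, eval_X, eval_one]
    have h2 : w ^ D = w * w ^ (D - 1) := by
      rw [← pow_succ', Nat.sub_add_cancel (by omega)]
    rw [h2]
    field_simp
  have hprod : (lft D G + T) * (lft D G - T) = C 4 * X ^ (2 * D) := by
    refine eq_of_eval_ne_zero fun w hw => ?_
    rw [eval_mul, eval_add, eval_sub, lft_eval le_rfl hw, hTe w hw, eval_mul, eval_C, eval_pow,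
      eval_X]
    have hx := congrArg (eval (w + w⁻¹)) h
    simp only [eval_mul, eval_sub, eval_C, eval_X, eval_pow] at hx
    have hx' : G.eval (w + w⁻¹) ^ 2 - s ^ 2 * (w - w⁻¹) ^ 2 * R.eval (w + w⁻¹) ^ 2 = 4 := by
      have e1 : (w - w⁻¹) ^ 2 = (w + w⁻¹ - 2) * (w + w⁻¹ - -2) := by
        field_simp
        ring
      rw [hs, e1]
      linear_combination hx
    rw [pow_mul']
    linear_combination (w ^ D) ^ 2 * hx'
  have hdvd : (lft D G + T) ∣ X ^ (2 * D) := by
    have h4 : IsUnit (C (4 : F)) := isUnit_C.2 (by norm_num)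
    rw [← h4.dvd_mul_left, ← hprod]
    exact dvd_mul_right _ _
  obtain ⟨i, hi, hassoc⟩ := (dvd_prime_pow prime_X _).1 hdvd
  obtain ⟨u, hu⟩ := hassoc.symm
  obtain ⟨κ, hκ, hκu⟩ := Polynomial.isUnit_iff.1 u.isUnit
  have hκ0 : κ ≠ 0 := hκ.ne_zero
  rw [← hκu] at hu
  have hB : lft D G - T = C (4 / κ) * X ^ (2 * D - i) := by
    have h1 : (X ^ i * C κ) * (lft D G - T) = (X ^ i * C κ) * (C (4 / κ) * X ^ (2 * D - i)) := by
      rw [hu, hprod]
      rw [← hu]
      have e1 : (X : F[X]) ^ (2 * D) = X ^ i * X ^ (2 * D - i) := by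
        rw [← pow_add, Nat.add_sub_cancel' hi]
      have e2 : (C (4 : F)) = C κ * C (4 / κ) := by
        rw [← C_mul, mul_div_cancel₀ _ hκ0]
      rw [e1, e2]
      ring
    exact mul_left_cancel₀ (mul_ne_zero (pow_ne_zero _ X_ne_zero) (C_ne_zero.2 hκ0)) h1
  have h2L : C 2 * lft D G = C κ * X ^ i + C (4 / κ) * X ^ (2 * D - i) := by
    have e2 : (C (2 : F)) = 1 + 1 := by
      rw [← C_1, ← C_add]; norm_num
    rw [← hB, mul_comm (C κ), hu, e2]
    ring
  -- the constant coefficient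
  have hc0 : (lft D G).eval 0 = G.coeff D := by
    rw [lft, eval_finset_sum, Finset.sum_range_succ, Finset.sum_eq_zero]
    · simp
    · intro j hj
      have hj' : j < D := Finset.mem_range.1 hj
      simp only [eval_mul, eval_pow, eval_C, eval_add, eval_X, eval_one]
      rw [zero_pow (by omega : D - j ≠ 0), mul_zero]
  have hlc : G.coeff D ≠ 0 := by
    rw [hD]
    exact leadingCoeff_ne_zero.2 (fun h0 => by rw [h0, natDegree_zero] at hD; omega)
  have hi2 : i = 0 ∨ i = 2 * D := by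
    by_contra hcon
    rw [not_or] at hcon
    have h1 := congrArg (eval 0) h2L
    rw [eval_mul, eval_C, hc0] at h1
    simp only [eval_add, eval_mul, eval_C, eval_pow, eval_X] at h1
    rw [zero_pow hcon.1, zero_pow (by omega : 2 * D - i ≠ 0), mul_zero, mul_zero, add_zero] at h1
    rcases mul_eq_zero.1 h1 with h2 | h2
    · norm_num at h2
    · exact hlc h2
  obtain ⟨m, hm0, hm⟩ : ∃ m : F, m ≠ 0 ∧
      ∀ w : F, w ≠ 0 → 2 * (w ^ D * G.eval (w + w⁻¹)) = m * w ^ (2 * D) + 4 / m := by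
    have hall : ∀ w : F, w ≠ 0 → 2 * (w ^ D * G.eval (w + w⁻¹))
        = κ * w ^ i + 4 / κ * w ^ (2 * D - i) := by
      intro w hw
      have h1 := congrArg (eval w) h2L
      rw [eval_mul, eval_C, lft_eval le_rfl hw] at h1
      simpa using h1
    rcases hi2 with hi2 | hi2
    · refine ⟨4 / κ, div_ne_zero (by norm_num) hκ0, fun w hw => ?_⟩
      rw [hall w hw, hi2, pow_zero, Nat.sub_zero]
      field_simp
      ring
    · refine ⟨κ, hκ0, fun w hw => ?_⟩
      rw [hall w hw, hi2, Nat.sub_self, pow_zero, mul_one]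
  have hm2 : m ^ 2 = 4 := by
    have h1 := hm 2 (by norm_num)
    have h2 := hm (2⁻¹) (by norm_num)
    rw [inv_inv, add_comm (2⁻¹ : F) 2] at h2
    have h3 : ((2 : F) ^ D) * (2⁻¹ : F) ^ D = 1 := by
      rw [← mul_pow, mul_inv_cancel₀ (by norm_num), one_pow]
    have h4 : ((2 : F) ^ (2 * D)) = (2 ^ D) ^ 2 := by rw [pow_mul']
    have h5 : ((2⁻¹ : F) ^ (2 * D)) = ((2⁻¹) ^ D) ^ 2 := by rw [pow_mul']
    rw [h4] at h1
    rw [h5] at h2
    set P : F := 2 ^ D with hP
    set Q : F := (2⁻¹ : F) ^ D with hQ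
    have h6 : (m - 4 / m) * (P ^ 2 - 1) = 0 := by
      have h7 : P ^ 2 * Q = P := by rw [pow_two, mul_assoc, h3, mul_one]
      have h8 : P ^ 2 * Q ^ 2 = 1 := by rw [← mul_pow, h3, one_pow]
      have h9 : 2 * (P * G.eval (2 + 2⁻¹)) = m + 4 / m * P ^ 2 := by
        linear_combination P ^ 2 * h2 - 2 * G.eval (2 + 2⁻¹) * h7 + m * h8
      linear_combination h9 - h1
    have hPn : P ^ 2 - 1 ≠ 0 := by
      rw [hP, ← pow_mul, sub_ne_zero]
      have : ((2 ^ (D * 2) : ℕ) : F) ≠ ((1 : ℕ) : F) := by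
        rw [Ne, Nat.cast_inj]
        have : 1 < 2 ^ (D * 2) := Nat.one_lt_pow (by omega) (by norm_num)
        omega
      simpa using this
    rcases mul_eq_zero.1 h6 with h7 | h7
    · field_simp at h7
      linear_combination h7
    · exact absurd h7 hPn
  have hm3 : m = 2 ∨ m = -2 := by
    have : (m - 2) * (m + 2) = 0 := by linear_combination hm2
    rcases mul_eq_zero.1 this with h1 | h1
    · left; linear_combination h1
    · right; linear_combination h1
  have hex : ∀ x : F, ∃ w : F, w ≠ 0 ∧ x = w + w⁻¹ := by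
    intro x
    obtain ⟨w, hw⟩ := IsAlgClosed.exists_root (X ^ 2 - C x * X + 1 : F[X]) (by
      have : (X ^ 2 - C x * X + 1 : F[X]).degree = 2 := by compute_degree!
      rw [this]
      norm_num)
    have hw' : w ^ 2 - x * w + 1 = 0 := by
      simpa using hw
    have hw0 : w ≠ 0 := by
      rintro rfl
      norm_num at hw'
    refine ⟨w, hw0, ?_⟩
    field_simp
    linear_combination -hw'
  rcases hm3 with rfl | rfl
  · left
    refine Polynomial.funext fun x => ?_
    obtain ⟨w, hw, rfl⟩ := hex x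
    rw [cheb_eval D hw]
    have h1 := hm w hw
    have hwD : w ^ D ≠ 0 := pow_ne_zero D hw
    rw [pow_mul'] at h1
    have h2 : (4 : F) / 2 = 2 := by norm_num
    rw [h2] at h1
    generalize G.eval (w + w⁻¹) = g at h1 ⊢
    generalize w ^ D = t at h1 hwD ⊢
    have h20 : (2 : F) ≠ 0 := by norm_num
    field_simp
    apply mul_left_cancel₀ h20
    linear_combination h1
  · right
    refine Polynomial.funext fun x => ?_
    obtain ⟨w, hw, rfl⟩ := hex x
    rw [eval_neg, cheb_eval D hw]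
    have h1 := hm w hw
    have hwD : w ^ D ≠ 0 := pow_ne_zero D hw
    rw [pow_mul'] at h1
    have h2 : (4 : F) / (-2) = -2 := by norm_num
    rw [h2] at h1
    generalize G.eval (w + w⁻¹) = g at h1 ⊢
    generalize w ^ D = t at h1 hwD ⊢
    have h20 : (2 : F) ≠ 0 := by norm_num
    field_simp
    apply mul_left_cancel₀ h20
    linear_combination h1

/-- **PROOF.** Conjugating by a linear polynomial, `p₁ = 2`, `p₂ = -2`: `G² - 4 = c (X² - 4) R²`. Let
`w` be a variable, `x = w + 1/w`, `x² - 4 = (w - 1/w)²`, and `S = √c (w - 1/w) R(w + 1/w)`. So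
`(G(x) - S) (G(x) + S) = 4` in the ring of Laurent polynomials, `G(x) + S = 2 κ w^m`,
`G(x) - S = 2 κ⁻¹ w^(-m)` (units of the Laurent polynomials), `G(w + 1/w) = κ w^m + κ⁻¹ w^(-m)`. It is symmetric, so
`κ = ± 1`, and `|m| = D`, `G = ± C_D`. -/
theorem special_of_pell {G : F[X]} (hG : 2 ≤ G.natDegree) {p₁ p₂ c : F} {R : F[X]}
    (hp : p₁ ≠ p₂) (hc : c ≠ 0)
    (h : (G - C p₁) * (G - C p₂) = C c * ((X - C p₁) * (X - C p₂) * R ^ 2)) : Special G := by
  have hsub : p₁ - p₂ ≠ 0 := sub_ne_zero.2 hp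
  set a : F := 4 / (p₁ - p₂) with ha
  have ha0 : a ≠ 0 := div_ne_zero (by norm_num) hsub
  set b : F := 2 - a * p₁ with hb
  have hap1 : a * p₁ + b = 2 := by rw [hb]; ring
  have hap2 : a * p₂ + b = -2 := by
    have : a * (p₁ - p₂) = 4 := by rw [ha]; exact div_mul_cancel₀ _ hsub
    rw [hb]
    linear_combination -this
  set l : F[X] := C a * X + C b with hl
  set l' : F[X] := C a⁻¹ * X + C (-(a⁻¹ * b)) with hl'
  have hl'l : l'.comp l = X := by
    rw [hl, hl', add_comp, mul_comp, C_comp, C_comp, X_comp, mul_add, ← mul_assoc, ← C_mul,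
      ← C_mul, inv_mul_cancel₀ ha0, C_neg, C_1]
    ring
  have hll' : l.comp l' = X := by
    have e : a * -(a⁻¹ * b) = -b := by
      rw [mul_neg, ← mul_assoc, mul_inv_cancel₀ ha0, one_mul]
    rw [hl, hl', add_comp, mul_comp, C_comp, C_comp, X_comp, mul_add, ← mul_assoc, ← C_mul,
      ← C_mul, mul_inv_cancel₀ ha0, e, C_neg, C_1]
    ring
  set G₁ : F[X] := l.comp (G.comp l') with hG₁
  have hG₁d : G₁.natDegree = G.natDegree := by
    have e1 : l.natDegree = 1 := natDegree_linear ha0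
    have e2 : l'.natDegree = 1 := natDegree_linear (inv_ne_zero ha0)
    rw [hG₁, natDegree_comp, natDegree_comp, e1, e2, one_mul, mul_one]
  have hcomp : l.comp G = G₁.comp l := by
    rw [hG₁, comp_assoc, comp_assoc, hl'l, comp_X]
  have e1 : G₁ - C 2 = C a * (G - C p₁).comp l' := by
    rw [hG₁, ← hap1, hl]
    simp only [add_comp, mul_comp, C_comp, X_comp, sub_comp, C_add, C_mul]
    ring
  have e2 : G₁ - C (-2) = C a * (G - C p₂).comp l' := by
    rw [hG₁, ← hap2, hl]
    simp only [add_comp, mul_comp, C_comp, X_comp, sub_comp, C_add, C_mul]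
    ring
  have e3 : (X - C 2 : F[X]) = C a * (X - C p₁).comp l' := by
    conv_lhs => rw [← hll']
    rw [← hap1, hl]
    simp only [add_comp, mul_comp, C_comp, X_comp, sub_comp, C_add, C_mul]
    ring
  have e4 : (X - C (-2) : F[X]) = C a * (X - C p₂).comp l' := by
    conv_lhs => rw [← hll']
    rw [← hap2, hl]
    simp only [add_comp, mul_comp, C_comp, X_comp, sub_comp, C_add, C_mul]
    ring
  have hpell : (G₁ - C 2) * (G₁ - C (-2))
      = C c * ((X - C 2) * (X - C (-2)) * (R.comp l') ^ 2) := by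
    have h1 := congrArg (fun P : F[X] => P.comp l') h
    simp only [mul_comp, pow_comp, C_comp] at h1
    rw [e1, e2, e3, e4]
    linear_combination (C a * C a) * h1
  rcases pell_norm (by rw [hG₁d]; exact hG) hc hpell with h1 | h1
  · right; left
    refine ⟨a, b, ha0, ?_⟩
    rw [hG₁d] at h1
    rw [← hl, hcomp, ← h1]
  · right; right
    refine ⟨a, b, ha0, ?_⟩
    rw [hG₁d] at h1
    rw [← hl, hcomp, ← h1]

end Pool.Agent.MSC
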