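import Pool.Agent.MSC.Cnt2
import Pool.Agent.MSC.Cnt3
import Pool.Agent.MSC.Cnt4
import Pool.Agent.MSC.Cnt5

/-!
# No commutative squares of large coprime degrees
-/

namespace Pool.Agent.MSC

open Polynomial Pool.Agent.PrepH

variable {F : Type*} [Field F] [IsAlgClosed F] [CharZero F]

private theorem Cnt6_h5 {G α W : F[X]} (hG : 2 ≤ G.natDegree) (hα : 1 ≤ α.natDegree)
    (hW : W.comp α = α.comp G) (hsp : ¬ Special G) (v : F) :
    α.natDegree + 2 * G.natDegree * dfc α v < 2 * G.natDegree * α.natDegree := by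
  have h1 := fib_large hG hα hW (fun h => hsp (Or.inl h)) v
  have h2 := (card_fib_le hα v).2
  have h3 : dfc α v + (fib α v).card = α.natDegree := by
    unfold dfc
    omega
  calc α.natDegree + 2 * G.natDegree * dfc α v
      < 2 * G.natDegree * (fib α v).card + 2 * G.natDegree * dfc α v := by omega
    _ = 2 * G.natDegree * (dfc α v + (fib α v).card) := by ring
    _ = 2 * G.natDegree * α.natDegree := by rw [h3]

/-- **PROOF.** Apply `numeric` with a finite set `S` containing the critical values of `α` and of `γ`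
(`exists_critical`), `δ = dfc α`, `ε = dfc γ`, `N v = |sfib α v|`, `M v = |sfib γ v|`
(`sfib_ge`; `sum_sfib_dfc` for `(α, γ, P, Q)` and for `(γ, α, Q, P)`; `fib_large` for `α` and `γ`).
Then `pell_of_cheb_type` and `special_of_pell`. -/
theorem no_common {G α γ P Q W : F[X]} (hG : 2 ≤ G.natDegree) (hsp : ¬ Special G)
    (hA : 100 * G.natDegree ≤ α.natDegree) (hB : 100 * G.natDegree ≤ γ.natDegree)
    (hQ : Q.natDegree = α.natDegree) (hP : P.natDegree = γ.natDegree)
    (hcop : Nat.Coprime α.natDegree γ.natDegree) (hc : α.comp P = γ.comp Q)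
    (h1 : W.comp α = α.comp G) (h2 : W.comp γ = γ.comp G) : False := by
  classical
  have hα : 1 ≤ α.natDegree := by omega
  have hγ : 1 ≤ γ.natDegree := by omega
  obtain ⟨Sα, hSα⟩ := exists_critical hα
  obtain ⟨Sγ, hSγ⟩ := exists_critical hγ
  obtain ⟨v₁, _, v₂, _, h12, h⟩ := numeric (Sα ∪ Sγ) (dfc α) (dfc γ) (fun v => (sfib α v).card)
    (fun v => (sfib γ v).card) hG hA hB ((hSα _).1 Finset.subset_union_left)
    ((hSγ _).1 Finset.subset_union_right) (fun v _ => sfib_ge hα v) (fun v _ => sfib_ge hγ v)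
    (sum_sfib_dfc hα hγ hQ hP hcop hc _) (sum_sfib_dfc hγ hα hP hQ hcop.symm hc.symm _)
    (fun v _ => Cnt6_h5 hG hα h1 hsp v) (fun v _ => Cnt6_h5 hG hγ h2 hsp v)
  obtain ⟨p₁, p₂, c, R, hp, hc0, hpell⟩ := pell_of_cheb_type hG hA h1 h12 h
  exact hsp (special_of_pell hG hp hc0 hpell)

end Pool.Agent.MSC
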