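import Pool.Agent.MSC.NP

/-!
# Extending embeddings into the field of Laurent series
-/

namespace Pool.Agent.MSC

open Polynomial IntermediateField

variable {F : Type*} [Field F] [IsAlgClosed F] [CharZero F]

/-- The trace as a sum of embeddings into a field where the minimal polynomials split. -/
theorem EmbL_trace {L E Ω : Type*} [Field L] [Field E] [Field Ω] [Algebra L E] [Algebra L Ω]
    [FiniteDimensional L E] [Algebra.IsSeparable L E]
    (hL : ∀ x : E, ((minpoly L x).map (algebraMap L Ω)).Splits) (e : E) :
    algebraMap L Ω (Algebra.trace L E e) = ∑ σ : E →ₐ[L] Ω, σ e := by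
  apply (algebraMap Ω (AlgebraicClosure Ω)).injective
  rw [← IsScalarTower.algebraMap_apply, trace_eq_sum_embeddings (AlgebraicClosure Ω), map_sum]
  let f : (E →ₐ[L] Ω) → (E →ₐ[L] AlgebraicClosure Ω) := fun σ =>
    (IsScalarTower.toAlgHom L Ω (AlgebraicClosure Ω)).comp σ
  have hinj : Function.Injective f := by
    intro σ σ' h
    ext x
    apply (algebraMap Ω (AlgebraicClosure Ω)).injective
    exact congrArg (fun g : E →ₐ[L] AlgebraicClosure Ω => g x) h
  have hbij : Function.Bijective f := by
    rw [Fintype.bijective_iff_injective_and_card]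
    refine ⟨hinj, ?_⟩
    rw [AlgHom.card_of_splits L E Ω hL, AlgHom.card]
  exact (Function.Bijective.sum_comp hbij (fun g : E →ₐ[L] AlgebraicClosure Ω => g e)).symm

/-- An embedding `ρ` of a field `L` into the field of Laurent series extends, after a substitution
`s ↦ s ^ m`, in `[E : L]` different ways to a finite extension `E` of `L`; the trace is the sum of these
embeddings, and they give all the roots of minimal polynomials.

**PROOF.** Let `e₀` be a primitive element of `E / L` (`Field.exists_primitive_element`, characteristic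
`0`) and `m` be given by `np_splits` for the image under `ρ` of its minimal polynomial. The embeddings
of `E` which extend `exm m ∘ ρ` correspond to the roots of that polynomial in `Om F`
(`IntermediateField.AdjoinSimple`/`PowerBasis.liftEquiv`), `[E : L]` many (separable, splits). For the trace and the minimal polynomials compose with an embedding of
`Om F` into its algebraic closure: all `L`-embeddings of `E` into the algebraic closure have image in
`Om F` (they are determined by the image of `e₀`), and `trace_eq_sum_embeddings`; every root of the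
minimal polynomial of `e` in the algebraic closure is the image of `e` under one of them
(`Algebra.IsAlgebraic.range_eval_eq_rootSet_minpoly`). -/
theorem exists_embeddings {E : Type*} [Field E] [Algebra F E] (L : IntermediateField F E)
    [FiniteDimensional L E] (ρ : L →ₐ[F] Om F) :
    ∃ (m : ℕ) (hm : 0 < m) (τ : Fin (Module.finrank L E) → (E →ₐ[F] Om F)),
      Function.Injective τ ∧ (∀ i (x : L), τ i (x : E) = exm m hm (ρ x)) ∧
      (∀ e : E, exm m hm (ρ (Algebra.trace L E e)) = ∑ i, τ i e) ∧
      (∀ e : E, ((minpoly L e).map (((exm m hm).comp ρ : L →ₐ[F] Om F) : L →+* Om F)).Splits) ∧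
      (∀ (e : E) (z : Om F),
        ((minpoly L e).map (((exm m hm).comp ρ : L →ₐ[F] Om F) : L →+* Om F)).eval z = 0 →
        ∃ i, τ i e = z) ∧
      (∀ τ' : E →ₐ[F] Om F, (∀ x : L, τ' (x : E) = exm m hm (ρ x)) → ∃ i, τ i = τ') := by
  classical
  have : CharZero L := charZero_of_injective_algebraMap (algebraMap F L).injective
  obtain ⟨α, hα⟩ := Field.exists_primitive_element L E
  obtain ⟨m, hm, hs⟩ := np_splits ((minpoly L α).map (ρ : L →+* Om F))
  rw [Polynomial.map_map] at hs
  set σ : L →ₐ[F] Om F := (exm m hm).comp ρ with hσ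
  let : Algebra L (Om F) := (σ : L →+* Om F).toAlgebra
  have halg : algebraMap L (Om F) = (σ : L →+* Om F) := rfl
  have : IsScalarTower F L (Om F) := IsScalarTower.of_algebraMap_eq fun x => (σ.commutes x).symm
  have hL : ∀ x : E, ((minpoly L x).map (algebraMap L (Om F))).Splits := by
    intro x
    refine IntermediateField.splits_of_mem_adjoin L E (S := ({α} : Set E)) ?_ (x := x) ?_
    · intro y hy
      rw [Set.mem_singleton_iff] at hy
      subst hy
      exact ⟨Algebra.IsIntegral.isIntegral _, hs⟩
    · rw [hα]
      exact IntermediateField.mem_top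
  have hcard : Fintype.card (E →ₐ[L] Om F) = Module.finrank L E :=
    AlgHom.card_of_splits L E (Om F) hL
  let ε : Fin (Module.finrank L E) ≃ (E →ₐ[L] Om F) :=
    (finCongr hcard.symm).trans (Fintype.equivFin (E →ₐ[L] Om F)).symm
  refine ⟨m, hm, fun i => (ε i).restrictScalars F, ?_, ?_, ?_, ?_, ?_, ?_⟩
  · intro i j hij
    apply ε.injective
    ext x
    exact congrArg (fun g : E →ₐ[F] Om F => g x) hij
  · intro i x
    exact (ε i).commutes x
  · intro e
    have h1 := EmbL_trace hL e
    have h2 : exm m hm (ρ (Algebra.trace L E e)) = algebraMap L (Om F) (Algebra.trace L E e) := rfl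
    rw [h2, h1]
    exact (Equiv.sum_comp ε (fun g : E →ₐ[L] Om F => g e)).symm
  · exact hL
  · intro e z hz
    obtain ⟨g, hg⟩ : z ∈ (Set.range fun (ψ : E →ₐ[L] Om F) => ψ e) := by
      rw [Algebra.IsAlgebraic.range_eval_eq_rootSet_minpoly_of_splits (Om F) hL e,
        Polynomial.mem_rootSet_of_ne (minpoly.ne_zero (Algebra.IsIntegral.isIntegral e)),
        Polynomial.aeval_def, ← Polynomial.eval_map]
      exact hz
    refine ⟨ε.symm g, ?_⟩
    show (ε (ε.symm g)) e = z
    rw [Equiv.apply_symm_apply]
    exact hg
  · intro τ' hτ'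
    let g : E →ₐ[L] Om F := { τ' with commutes' := fun x => hτ' x }
    refine ⟨ε.symm g, ?_⟩
    ext x
    show (ε (ε.symm g)) x = τ' x
    rw [Equiv.apply_symm_apply]
    rfl

end Pool.Agent.MSC
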