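import Pool.Agent.MSC.Laur

/-!
# Algebraic relations between `ξ(s^b)` and `ξ(κ s^a)`
-/

namespace Pool.Agent.MSC

open Polynomial

variable {F : Type*} [Field F]

/-- `ξ(s^b)` and `ξ(κ s^a)` are algebraically dependent. -/
def Rel (ξ : Om F) (b a : ℕ) (hb : 0 < b) (ha : 0 < a) (κ : Fˣ) : Prop :=
  ∃ H : MvPolynomial (Fin 2) F, H ≠ 0 ∧
    MvPolynomial.aeval ![exm b hb ξ, exm a ha (scal κ ξ)] H = 0

private def FamDep (x y : Om F) : Prop :=
  ∃ H : MvPolynomial (Fin 2) F, H ≠ 0 ∧ MvPolynomial.aeval ![x, y] H = 0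

private theorem FamDep_iff (x y : Om F) : FamDep x y ↔ ¬ AlgebraicIndependent F ![x, y] := by
  rw [algebraicIndependent_iff]
  unfold FamDep
  push Not
  constructor
  · rintro ⟨H, h1, h2⟩; exact ⟨H, h2, h1⟩
  · rintro ⟨H, h1, h2⟩; exact ⟨H, h2, h1⟩

private theorem FamDep_map {x y : Om F} (f : Om F →ₐ[F] Om F) (h : FamDep x y) :
    FamDep (f x) (f y) := by
  obtain ⟨H, h1, h2⟩ := h
  refine ⟨H, h1, ?_⟩
  have h4 : ![f x, f y] = fun i => f (![x, y] i) := by
    funext i; fin_cases i <;> rfl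
  rw [h4, ← MvPolynomial.comp_aeval_apply, h2, map_zero]

private theorem Fam_set_indep {x y : Om F} (hxy : x ≠ y) :
    (AlgebraicIndependent.matroid F (Om F)).Indep {x, y} ↔ AlgebraicIndependent F ![x, y] := by
  have hinj : Function.Injective ![x, y] := by
    intro i j hij
    fin_cases i <;> fin_cases j
    · rfl
    · exact absurd hij hxy
    · exact absurd hij.symm hxy
    · rfl
  have h := algebraicIndependent_subtype_range (R := F) hinj
  have hr : Set.range ![x, y] = {x, y} := by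
    ext w
    constructor
    · rintro ⟨i, rfl⟩
      fin_cases i
      · exact Or.inl rfl
      · exact Or.inr rfl
    · rintro (rfl | rfl)
      · exact ⟨0, rfl⟩
      · exact ⟨1, rfl⟩
  rw [hr] at h
  exact h

private theorem Fam_mem_closure {x y : Om F} (hy : Transcendental F y) (h : FamDep x y) :
    x ∈ (AlgebraicIndependent.matroid F (Om F)).closure {y} := by
  have hI : (AlgebraicIndependent.matroid F (Om F)).Indep {y} := by
    have := (algebraicIndependent_singleton_iff (R := F) (x := fun i : ({y} : Set (Om F)) => (i : Om F))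
      ⟨y, rfl⟩).2 hy
    exact this
  by_cases hxy : x = y
  · rw [hxy]
    exact (AlgebraicIndependent.matroid F (Om F)).mem_closure_of_mem' rfl (Set.mem_univ _)
  · rw [hI.mem_closure_iff_of_notMem (by simpa using hxy), Matroid.dep_iff, Fam_set_indep hxy]
    exact ⟨(FamDep_iff x y).1 h, Set.subset_univ _⟩

private theorem FamDep_trans {x y z : Om F} (hy : Transcendental F y) (h1 : FamDep x y)
    (h2 : FamDep z y) : FamDep x z := by
  rw [FamDep_iff]
  intro hI
  have hxz : x ≠ z := by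
    intro h
    have := hI.injective (a₁ := (0 : Fin 2)) (a₂ := 1) h
    exact absurd this (by decide)
  have hI' := (Fam_set_indep hxz).2 hI
  have hsub : ({x, z} : Set (Om F)) ⊆ (AlgebraicIndependent.matroid F (Om F)).closure {y} := by
    intro w hw
    rcases hw with rfl | hw
    · exact Fam_mem_closure hy h1
    · rw [Set.mem_singleton_iff] at hw
      rw [hw]
      exact Fam_mem_closure hy h2
  have h3 := hI'.encard_le_eRk_of_subset hsub
  rw [Matroid.eRk_closure_eq, Set.encard_pair hxz] at h3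
  have h4 := h3.trans (Matroid.eRk_le_encard _ _)
  rw [Set.encard_singleton] at h4
  exact absurd h4 (by decide)

private theorem FamDep_symm {x y : Om F} (h : FamDep x y) : FamDep y x := by
  obtain ⟨H, h1, h2⟩ := h
  refine ⟨MvPolynomial.rename (Equiv.swap (0 : Fin 2) 1) H, ?_, ?_⟩
  · intro h
    apply h1
    exact MvPolynomial.rename_injective _ (Equiv.injective _) (h.trans (map_zero _).symm)
  · rw [MvPolynomial.aeval_rename]
    have h4 : ![y, x] ∘ (Equiv.swap (0 : Fin 2) 1) = ![x, y] := by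
      funext i; fin_cases i <;> rfl
    rw [h4]
    exact h2

private theorem Fam_transc {x : Om F} (hx : x.ord < 0) : Transcendental F x := by
  rw [transcendental_iff]
  intro g hg
  by_contra h
  exact (aeval_ord hx h).1 hg

private theorem Fam_Rel_iff (ξ : Om F) (b a : ℕ) (hb : 0 < b) (ha : 0 < a) (κ : Fˣ) :
    Rel ξ b a hb ha κ ↔ FamDep (exm b hb ξ) (exm a ha (scal κ ξ)) := Iff.rfl

private theorem Fam_exm_congr {m n : ℕ} (h : m = n) (hm : 0 < m) (hn : 0 < n) (x : Om F) :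
    exm m hm x = exm n hn x := by
  subst h; rfl

private theorem Fam_Rel_congr {ξ : Om F} {b a b' a' : ℕ} (hbb : b = b') (haa : a = a')
    {hb : 0 < b} {ha : 0 < a} {hb' : 0 < b'} {ha' : 0 < a'} {κ : Fˣ}
    (h : Rel ξ b a hb ha κ) : Rel ξ b' a' hb' ha' κ := by
  subst hbb; subst haa; exact h

/-- **PROOF.** Choose `λ` with `λ^b' = κ` (`F` is algebraically closed) and `κ'' = κ' λ^a'`. The
substitution `s ↦ s^b'` in the first relation shows that `ξ(s^(b b'))` and `ξ(κ s^(a b'))` are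
dependent; the substitution `s ↦ λ s^a` in the second one: `ξ(λ^b' s^(a b')) = ξ(κ s^(a b'))` and
`ξ(κ' λ^a' s^(a a'))` are dependent. As `ξ(κ s^(a b'))` is transcendental (negative order,
`aeval_ord`), `ξ(s^(b b'))` and `ξ(κ'' s^(a a'))` are dependent (transitivity of algebraic dependence). If
`κ^(b N) = 1` and `κ'^(b' N) = 1` then
`κ''^(b b' N) = (κ'^(b' N))^b * (κ^(b N))^a' = 1`. -/
theorem rel_comp [IsAlgClosed F] {ξ : Om F} (hξ : ξ.ord = -1) {b a b' a' : ℕ} (hb : 0 < b)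
    (ha : 0 < a) (hb' : 0 < b') (ha' : 0 < a') {κ κ' : Fˣ} (h : Rel ξ b a hb ha κ)
    (h' : Rel ξ b' a' hb' ha' κ') {N : ℕ} (hκ : κ ^ (b * N) = 1) (hκ' : κ' ^ (b' * N) = 1) :
    ∃ κ'' : Fˣ, Rel ξ (b * b') (a * a') (Nat.mul_pos hb hb') (Nat.mul_pos ha ha') κ'' ∧
      κ'' ^ (b * b' * N) = 1 := by
  obtain ⟨l, hl⟩ := IsAlgClosed.exists_pow_nat_eq (κ : F) hb'
  have hl0 : l ≠ 0 := by
    rintro rfl
    rw [zero_pow hb'.ne'] at hl
    exact κ.ne_zero hl.symm
  obtain ⟨lu, rfl⟩ : ∃ u : Fˣ, (u : F) = l := ⟨Units.mk0 l hl0, rfl⟩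
  have hlu : lu ^ b' = κ := by
    apply Units.ext
    rw [Units.val_pow_eq_pow_val]
    exact hl
  refine ⟨κ' * lu ^ a', ?_, ?_⟩
  · have h1 := FamDep_map (exm b' hb') h
    rw [exm_exm, exm_exm] at h1
    have h2 := FamDep_map ((exm a ha).comp (scal lu)) h'
    rw [AlgHom.comp_apply, AlgHom.comp_apply, scal_exm, scal_exm, scal_scal, hlu, exm_exm,
      exm_exm] at h2
    rw [Fam_exm_congr (Nat.mul_comm a b') _ (Nat.mul_pos hb' ha)] at h2
    have ht : Transcendental F (exm (b' * a) (Nat.mul_pos hb' ha) (scal κ ξ)) := by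
      apply Fam_transc
      rw [exm_ord, scal_ord, hξ]
      have : 0 < b' * a := Nat.mul_pos hb' ha
      push_cast
      have h3 : (0 : ℤ) < (b' : ℤ) * a := by exact_mod_cast this
      linarith
    have h3 := FamDep_trans ht h1 (FamDep_symm h2)
    rw [Fam_exm_congr (Nat.mul_comm b' b) _ (Nat.mul_pos hb hb'), mul_comm (lu ^ a')] at h3
    exact h3
  · rw [mul_pow, ← pow_mul]
    have e1 : κ' ^ (b * b' * N) = (κ' ^ (b' * N)) ^ b := by
      rw [← pow_mul]; congr 1; ring
    have e2 : lu ^ (a' * (b * b' * N)) = (κ ^ (b * N)) ^ a' := by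
      rw [← hlu, ← pow_mul, ← pow_mul]; congr 1; ring
    rw [e1, e2, hκ, hκ', one_pow, one_pow, one_mul]

theorem rel_pow [IsAlgClosed F] {ξ : Om F} (hξ : ξ.ord = -1) {b a : ℕ} (hb : 0 < b)
    (ha : 0 < a) {κ : Fˣ} (h : Rel ξ b a hb ha κ) {N : ℕ} (hκ : κ ^ (b * N) = 1) (j : ℕ) :
    ∃ κ' : Fˣ, Rel ξ (b ^ (j + 1)) (a ^ (j + 1)) (Nat.pow_pos hb) (Nat.pow_pos ha) κ' ∧
      κ' ^ (b ^ (j + 1) * N) = 1 := by
  induction j with
  | zero =>
    refine ⟨κ, Fam_Rel_congr (by rw [zero_add, pow_one]) (by rw [zero_add, pow_one]) h, ?_⟩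
    rw [zero_add, pow_one]
    exact hκ
  | succ j ih =>
    obtain ⟨κ', h1, h2⟩ := ih
    obtain ⟨κ'', h3, h4⟩ := rel_comp hξ _ _ hb ha h1 h h2 hκ
    refine ⟨κ'', Fam_Rel_congr (pow_succ b (j + 1)).symm (pow_succ a (j + 1)).symm h3, ?_⟩
    rw [pow_succ b (j + 1)]
    exact h4

end Pool.Agent.MSC
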