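import Pool.Agent.MSC.Zl1

/-!
# A common left multiple of `P` and `Q`
-/

set_option linter.all false

namespace Pool.Agent.MSC

open Polynomial

variable {F : Type*} [Field F] [IsAlgClosed F] [CharZero F]

omit [IsAlgClosed F] [CharZero F] in
private theorem Zl2_inj {U : Om F} (hU : U.ord = -1) {g g' : F[X]} (h : aeval U g = aeval U g') :
    g = g' := by
  by_contra hne
  have h1 : g - g' ≠ 0 := sub_ne_zero.2 hne
  have h2 := (aeval_ord (x := U) (by rw [hU]; norm_num) h1).1
  apply h2
  rw [map_sub, h, sub_self]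

omit [IsAlgClosed F] [CharZero F] in
private theorem Zl2_ord {U : Om F} (hU : U.ord = -1) {g : F[X]} (h : g ≠ 0) :
    (aeval U g).ord = -(g.natDegree : ℤ) := by
  rw [(aeval_ord (x := U) (by rw [hU]; norm_num) h).2, hU]
  ring

omit [IsAlgClosed F] [CharZero F] in
private theorem Zl2_cancel {P A B : F[X]} (hP : 0 < P.natDegree) (h : A.comp P = B.comp P) :
    A = B := by
  have h1 : (A - B).comp P = 0 := by rw [Polynomial.sub_comp, h, sub_self]
  rcases Polynomial.comp_eq_zero_iff.1 h1 with h2 | h2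
  · exact sub_eq_zero.1 h2
  · exfalso
    rw [h2.2, Polynomial.natDegree_C] at hP
    exact lt_irrefl _ hP

omit [IsAlgClosed F] [CharZero F] in
private theorem Zl2_poly {n : ℕ} (hn : 0 < n) {U : Om F} (hU : U.ord = -1) {Z : F[X]}
    (hZ : Z.natDegree = n) (hZU : ∃ y, exm n hn y = aeval U Z) (d : ℕ) :
    ∀ e : F[X], e.natDegree ≤ d → (∃ x, exm n hn x = aeval U e) → ∃ W : F[X], W.comp Z = e := by
  obtain ⟨y, hy⟩ := hZU
  have hZ0 : Z ≠ 0 := by
    rintro rfl
    rw [Polynomial.natDegree_zero] at hZ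
    omega
  induction d with
  | zero =>
    intro e he _
    refine ⟨e, ?_⟩
    rw [Polynomial.eq_C_of_natDegree_le_zero he, Polynomial.C_comp]
  | succ d ih =>
    intro e he hx
    rcases Nat.lt_or_ge d e.natDegree with h1 | h1
    swap
    · exact ih e h1 hx
    obtain ⟨x, hx⟩ := hx
    have hed : e.natDegree = d + 1 := by omega
    have he0 : e ≠ 0 := by
      rintro rfl
      rw [Polynomial.natDegree_zero] at hed
      omega
    have h2 : (e.natDegree : ℤ) = n * (-(x.ord)) := by
      have h3 := Zl2_ord hU he0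
      rw [← hx, exm_ord] at h3
      linarith
    have h3 : n ∣ e.natDegree := by
      have : (n : ℤ) ∣ (e.natDegree : ℤ) := ⟨_, h2⟩
      exact_mod_cast this
    obtain ⟨k, hk⟩ := h3
    have hlZ : Z.leadingCoeff ≠ 0 := Polynomial.leadingCoeff_ne_zero.2 hZ0
    set c : F := e.leadingCoeff / Z.leadingCoeff ^ k with hc
    have hc0 : c ≠ 0 := div_ne_zero (Polynomial.leadingCoeff_ne_zero.2 he0) (pow_ne_zero _ hlZ)
    have hdeg : (C c * Z ^ k).degree = e.degree := by
      rw [Polynomial.degree_C_mul hc0, Polynomial.degree_eq_natDegree (pow_ne_zero _ hZ0),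
        Polynomial.natDegree_pow, hZ, Polynomial.degree_eq_natDegree he0, hk, mul_comm]
    have hlc : e.leadingCoeff = (C c * Z ^ k).leadingCoeff := by
      rw [Polynomial.leadingCoeff_mul, Polynomial.leadingCoeff_C, Polynomial.leadingCoeff_pow, hc,
        div_mul_cancel₀ _ (pow_ne_zero _ hlZ)]
    have hlt : (e - C c * Z ^ k).degree < e.degree :=
      Polynomial.degree_sub_lt hdeg.symm he0 hlc
    have hlt' : (e - C c * Z ^ k).natDegree ≤ d := by
      by_cases h0 : e - C c * Z ^ k = 0
      · rw [h0, Polynomial.natDegree_zero]; exact Nat.zero_le _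
      · have := Polynomial.natDegree_lt_natDegree h0 hlt
        omega
    obtain ⟨W, hW⟩ := ih _ hlt' ⟨x - algebraMap F (Om F) c * y ^ k, by
      rw [map_sub, map_mul, map_pow, AlgHom.commutes, hx, hy, map_sub, map_mul, map_pow,
        Polynomial.aeval_C]⟩
    refine ⟨W + C c * X ^ k, ?_⟩
    rw [Polynomial.add_comp, hW, Polynomial.mul_comp, Polynomial.C_comp, Polynomial.pow_comp,
      Polynomial.X_comp]
    ring

/-- **PROOF.** `aeval U` is injective on `F[X]` (`aeval_ord`). Let `z = P(U)^a`, all exponents divisible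
by `b`, order `- a b`. `exists_proj` for `Q` and `e = P^a` gives `γ` such that `y = γ(Q(U))` is
the part of `z` with exponents divisible by `a`; so all exponents of `y` are divisible by `a b`, and its order is
`- a b`; `natDegree γ = b` (`aeval_ord`). `exists_proj` for `P` and `e = γ.comp Q` gives `α` with
`α(P(U)) = y`; `natDegree α = a`, and `α.comp P = γ.comp Q =: Z`. The polynomial `Z.comp h` has
`(Z.comp h)(U) = Z(exm D U) = exm D y`, only exponents divisible by `a b`. Every polynomial `e` such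
that `e(U)` has only exponents divisible by `a b` is of the form `W.comp Z` (its degree is divisible by
`a b`; subtract `c Z^k`, induction on the degree). So `Z.comp h = W.comp Z`, and
`(α.comp G).comp P = (α.comp P).comp h = (W.comp α).comp P`; cancel `P` (not constant). The same for
`γ`. -/
theorem exists_common {a b D : ℕ} (ha : 0 < a) (hb : 0 < b) (hab : Nat.Coprime a b) (hD : 0 < D)
    {U : Om F} (hU : U.ord = -1) {P Q h G : F[X]} (hP : P.natDegree = b) (hQ : Q.natDegree = a)
    {ξ η : Om F} (hPU : exm b hb ξ = aeval U P) (hQU : exm a ha η = aeval U Q)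
    (hh : aeval U h = exm D hD U) (hGP : G.comp P = P.comp h) (hGQ : G.comp Q = Q.comp h) :
    ∃ α γ W : F[X], α.natDegree = a ∧ γ.natDegree = b ∧ α.comp P = γ.comp Q ∧
      W.comp α = α.comp G ∧ W.comp γ = γ.comp G := by
  have hP0 : P ≠ 0 := by
    rintro rfl
    rw [Polynomial.natDegree_zero] at hP
    omega
  obtain ⟨γ, hγ⟩ := exists_proj ha hU hQ hQU (P ^ a)
  set y : Om F := aeval U (γ.comp Q) with hy
  have hyc : ∀ k : ℤ, y.coeff k = if (a : ℤ) ∣ k then (aeval U (P ^ a)).coeff k else 0 := by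
    intro k
    rw [hy, Polynomial.aeval_comp]
    exact hγ k
  have hzb : ∀ k : ℤ, ¬ (b : ℤ) ∣ k → (aeval U (P ^ a)).coeff k = 0 := by
    intro k hk
    rw [map_pow, ← hPU, ← map_pow, exm_coeff, if_neg hk]
  have hyb : ∀ k : ℤ, ¬ (b : ℤ) ∣ k → y.coeff k = 0 := by
    intro k hk
    rw [hyc k, hzb k hk]
    split_ifs <;> rfl
  have hya : ∀ k : ℤ, ¬ (a : ℤ) ∣ k → y.coeff k = 0 := by
    intro k hk
    rw [hyc k, if_neg hk]
  have hab' : 0 < a * b := Nat.mul_pos ha hb
  have hyab : ∀ k : ℤ, ¬ ((a * b : ℕ) : ℤ) ∣ k → y.coeff k = 0 := by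
    intro k hk
    by_cases h1 : (a : ℤ) ∣ k
    · by_cases h2 : (b : ℤ) ∣ k
      · exfalso
        apply hk
        push_cast
        exact IsCoprime.mul_dvd (Nat.isCoprime_iff_coprime.2 hab) h1 h2
      · exact hyb k h2
    · exact hya k h1
  have hPa0 : P ^ a ≠ 0 := pow_ne_zero _ hP0
  have hzord : (aeval U (P ^ a)).ord = -((a * b : ℕ) : ℤ) := by
    rw [Zl2_ord hU hPa0, Polynomial.natDegree_pow, hP]
  have hz0 : aeval U (P ^ a) ≠ 0 := (aeval_ord (x := U) (by rw [hU]; norm_num) hPa0).1
  have hyord : y ≠ 0 ∧ y.ord = -((a * b : ℕ) : ℤ) := by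
    apply ord_eq
    · rw [hyc, if_pos, ← hzord]
      · exact coeff_ord hz0
      · push_cast
        exact ⟨-(b : ℤ), by ring⟩
    · intro k hk
      rw [hyc k]
      split_ifs
      · apply coeff_of_lt
        rw [hzord]
        exact hk
      · rfl
  have hγQ0 : γ.comp Q ≠ 0 := by
    intro h0
    apply hyord.1
    rw [hy, h0, map_zero]
  have hγd : γ.natDegree = b := by
    have h1 := Zl2_ord hU hγQ0
    rw [← hy, hyord.2, Polynomial.natDegree_comp, hQ] at h1
    have h2 : a * b = γ.natDegree * a := by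
      have : ((a * b : ℕ) : ℤ) = ((γ.natDegree * a : ℕ) : ℤ) := by linarith
      exact_mod_cast this
    rw [mul_comm γ.natDegree a] at h2
    exact (Nat.eq_of_mul_eq_mul_left ha h2).symm
  obtain ⟨α, hα⟩ := exists_proj hb hU hP hPU (γ.comp Q)
  have hαy : aeval U (α.comp P) = y := by
    apply Om.ext
    intro k
    rw [Polynomial.aeval_comp, hα k, ← hy]
    split_ifs with h1
    · rfl
    · exact (hyb k h1).symm
  have hZ : α.comp P = γ.comp Q := Zl2_inj hU (by rw [hαy])
  have hαd : α.natDegree = a := by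
    have h1 : (α.comp P).natDegree = (γ.comp Q).natDegree := by rw [hZ]
    rw [Polynomial.natDegree_comp, Polynomial.natDegree_comp, hP, hQ, hγd, mul_comm b a] at h1
    exact Nat.eq_of_mul_eq_mul_right hb h1
  obtain ⟨y', hy'⟩ := exists_exm hab' hyab
  have hZd : (γ.comp Q).natDegree = a * b := by
    rw [Polynomial.natDegree_comp, hγd, hQ, mul_comm]
  have hZhU : aeval U ((γ.comp Q).comp h) = exm D hD y := by
    rw [Polynomial.aeval_comp, hh, Polynomial.aeval_algHom_apply, hy]
  obtain ⟨W, hW⟩ := Zl2_poly hab' hU hZd ⟨y', by rw [hy', hy]⟩ _ ((γ.comp Q).comp h) le_rfl (by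
    apply exists_exm hab'
    intro k hk
    rw [hZhU, exm_coeff]
    split_ifs with h1
    · apply hyab
      intro h2
      apply hk
      obtain ⟨j, rfl⟩ := h1
      rw [Int.mul_ediv_cancel_left _ (by exact_mod_cast hD.ne')] at h2
      exact Dvd.dvd.mul_left h2 _
    · rfl)
  refine ⟨α, γ, W, hαd, hγd, hZ, ?_, ?_⟩
  · apply Zl2_cancel (P := P) (by omega)
    calc (W.comp α).comp P = W.comp (α.comp P) := Polynomial.comp_assoc _ _ _
      _ = (γ.comp Q).comp h := by rw [hZ, hW]
      _ = (α.comp P).comp h := by rw [hZ]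
      _ = α.comp (P.comp h) := Polynomial.comp_assoc _ _ _
      _ = α.comp (G.comp P) := by rw [hGP]
      _ = (α.comp G).comp P := (Polynomial.comp_assoc _ _ _).symm
  · apply Zl2_cancel (P := Q) (by omega)
    calc (W.comp γ).comp Q = W.comp (γ.comp Q) := Polynomial.comp_assoc _ _ _
      _ = (γ.comp Q).comp h := hW
      _ = γ.comp (Q.comp h) := Polynomial.comp_assoc _ _ _
      _ = γ.comp (G.comp Q) := by rw [hGQ]
      _ = (γ.comp G).comp Q := (Polynomial.comp_assoc _ _ _).symm

end Pool.Agent.MSC
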