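import Pool.Agent.MSC.Param
import Pool.Agent.MSC.Fam
import Pool.Agent.MSC.Bot
import Pool.Agent.MSC.Zl2

/-!
# From an algebraic relation between `ξ(s^b)` and `ξ(κ s^a)` to a commutative square
-/

namespace Pool.Agent.MSC

open Polynomial IntermediateField Pool.Agent.PrepH

section General

variable {K E : Type*} [Field K] [Field E] [Algebra K E]

private theorem FamK_alg {z : Fin 2 → E} {i j : Fin 2} (hij : i ≠ j)
    (hz : Transcendental K (z j)) {H : MvPolynomial (Fin 2) K} (hH : H ≠ 0)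
    (h : MvPolynomial.aeval z H = 0) : IsAlgebraic K⟮z j⟯ (z i) := by
  have hn : ¬ AlgebraicIndependent K z := fun hi => hH (hi.eq_zero_of_aeval_eq_zero H h)
  rw [AlgebraicIndependent.iff_transcendental_adjoin_image i, not_and] at hn
  have huniq : ∀ k : {k : Fin 2 // k ≠ i}, k = ⟨j, hij.symm⟩ := by
    rintro ⟨k, hk⟩
    refine Subtype.ext ?_
    show k = j
    omega
  let _ : Unique {k : Fin 2 // k ≠ i} := ⟨⟨⟨j, hij.symm⟩⟩, huniq⟩
  have h1 : AlgebraicIndependent K (fun k : {k : Fin 2 // k ≠ i} => z k) := by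
    rw [algebraicIndependent_unique_type_iff]
    exact hz
  have h2 : IsAlgebraic (Algebra.adjoin K (z '' {i}ᶜ)) (z i) := by
    by_contra hc
    exact hn h1 hc
  have h3 : z '' {i}ᶜ = {z j} := by
    have : ({i}ᶜ : Set (Fin 2)) = {j} := by
      ext k
      simp only [Set.mem_compl_iff, Set.mem_singleton_iff]
      omega
    rw [this, Set.image_singleton]
  rw [h3] at h2
  exact h2.tower_top_of_subalgebra_le (B := K⟮z j⟯.toSubalgebra)
    (IntermediateField.algebra_adjoin_le_adjoin K {z j})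

private theorem FamK_fin {z : Fin 2 → E} {i j : Fin 2} (hij : i ≠ j)
    (htop : IntermediateField.adjoin K {z 0, z 1} = ⊤) (ha : IsAlgebraic K⟮z j⟯ (z i)) :
    FiniteDimensional K⟮z j⟯ E := by
  have := IntermediateField.adjoin.finiteDimensional ha.isIntegral
  have h1 : (K⟮z j⟯⟮z i⟯ : IntermediateField K⟮z j⟯ E) = ⊤ := by
    have h2 : (K⟮z j⟯⟮z i⟯).restrictScalars K = ⊤ := by
      rw [IntermediateField.adjoin_simple_adjoin_simple, ← htop]
      congr 1
      have : (i = 0 ∧ j = 1) ∨ (i = 1 ∧ j = 0) := by omega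
      rcases this with ⟨rfl, rfl⟩ | ⟨rfl, rfl⟩
      · exact Set.pair_comm _ _
      · rfl
    rwa [← IntermediateField.restrictScalars_eq_top_iff (K := K)]
  rw [h1] at this
  exact LinearEquiv.finiteDimensional
    (IntermediateField.topEquiv (F := K⟮z j⟯) (E := E)).toLinearEquiv

end General

variable {F : Type*} [Field F] [IsAlgClosed F] [CharZero F]

omit [IsAlgClosed F] [CharZero F] in
private theorem FamK_transc {x : Om F} (hx : x.ord < 0) : Transcendental F x := by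
  rw [transcendental_iff]
  intro p hp
  by_contra h
  exact (aeval_ord hx h).1 hp

omit [IsAlgClosed F] [CharZero F] in
private theorem FamK_aeval_inj {x : Om F} (hx : x.ord < 0) {p q : F[X]}
    (h : aeval x p = aeval x q) : p = q := by
  have := (transcendental_iff_injective.1 (FamK_transc hx)) h
  exact this

omit [IsAlgClosed F] [CharZero F] in
private theorem FamK_exm_comm (m n : ℕ) (hm : 0 < m) (hn : 0 < n) (x : Om F) :
    exm m hm (exm n hn x) = exm n hn (exm m hm x) := by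
  rw [exm_exm, exm_exm]
  have : ∀ (k l : ℕ) (hk : 0 < k) (hl : 0 < l), k = l → exm k hk x = exm l hl x := by
    intro k l hk hl h
    subst h
    rfl
  exact this _ _ _ _ (mul_comm m n)

/-- **PROOF.** Let `X = ξ(s^b) = exm b ξ`, `Y = ξ(κ s^a) = exm a (scal κ ξ)`, of orders `- b`, `- a`, so
transcendental, and `E = F(X, Y) ⊆ Om F`, finite over `F(X)` and over `F(Y)` by the relation. Let
`ω = (κ^(D - 1))^a'`, where `a a' ≡ 1` modulo `b`; then `ω^b = 1` (as `κ^(b (D - 1)) = 1`) and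
`ω^a = κ^(D - 1)`. The substitution `Φ : s ↦ ω s^D`, that is `Φ = exm D ∘ scal ω` (`(scal ω x)(s) = x(ω s)`,
so `exm D (scal ω x) = x(ω s^D)`), maps `X` to `ξ(ω^b s^(b D)) = ξ(s^(b D)) = G(X)` and `Y` to
`ξ(κ ω^a s^(a D)) = ξ(κ^D s^(a D)) = scal`-image of `ξ(s^D) = G(ξ)`, that is `G(Y)`; so it maps `E` to itself. By
`param` there are `u ∈ E` and polynomials with `E = F(u)`, `X = P(u)`, `Y = Q(u)`,
`Φ u = h(u)`. As `X` has negative order, so has `u` (`aeval_ord_nonneg`), of order `- e`,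
`natDegree P * e = b`, `natDegree Q * e = a`, and `e = 1` because `a`, `b` are coprime. Choose `θ` with
`θ^(D - 1) = ω⁻¹` and `U = scal θ u`, `U(s) = u(θ s)`. `h(U) = scal θ (h(u)) = scal θ (u(ω s^D)) = u(ω θ^D s^D) = u(θ s^D) = exm D U`,
`P(U) = scal θ X = exm b (scal (θ^b) ξ)`, `Q(U) = scal θ Y = exm a (…)` (`scal_exm`). From
`G(X) = Φ X`: `G.comp P = P.comp h`, and `G.comp Q = Q.comp h`. Apply `exists_common`. -/
theorem common_of_rel {G : F[X]} {D : ℕ} (hD : 2 ≤ D) (hG : G.natDegree = D) (hD0 : 0 < D)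
    (hsp : ∀ r : ℕ, 1 ≤ r → ¬ Special (itp G r)) {ξ : Om F} (hξ : ξ.ord = -1)
    (hξ2 : aeval ξ G = exm D hD0 ξ) {b a : ℕ} (hb : 0 < b) (ha : 0 < a) (hab : Nat.Coprime a b)
    {κ : Fˣ} (hκ : κ ^ (b * (D - 1)) = 1) (h : Rel ξ b a hb ha κ) :
    ∃ α γ P Q W : F[X], α.natDegree = a ∧ γ.natDegree = b ∧ P.natDegree = b ∧ Q.natDegree = a ∧
      α.comp P = γ.comp Q ∧ W.comp α = α.comp G ∧ W.comp γ = γ.comp G := by
  obtain ⟨H, hH, hH0⟩ := h
  obtain ⟨D', rfl⟩ : ∃ D', D = D' + 1 := ⟨D - 1, by omega⟩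
  rw [Nat.add_sub_cancel] at hκ
  -- the root of unity `ω`
  obtain ⟨ω, hωb, hωa⟩ : ∃ ω : Fˣ, ω ^ b = 1 ∧ ω ^ a = κ ^ D' := by
    have hbez : (a : ℤ) * Nat.gcdA a b + (b : ℤ) * Nat.gcdB a b = 1 := by
      rw [← Nat.gcd_eq_gcd_ab, hab]
      rfl
    have hκ' : (κ ^ D') ^ b = 1 := by rw [← pow_mul, mul_comm D' b, hκ]
    refine ⟨(κ ^ D') ^ (Nat.gcdA a b), ?_, ?_⟩
    · rw [← zpow_natCast, ← zpow_mul, mul_comm, zpow_mul, zpow_natCast, hκ', one_zpow]
    · rw [← zpow_natCast ((κ ^ D') ^ (Nat.gcdA a b)), ← zpow_mul]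
      have h1 : Nat.gcdA a b * (a : ℤ) = 1 + (b : ℤ) * (- Nat.gcdB a b) := by
        linear_combination hbez
      rw [h1, zpow_add, zpow_one, zpow_mul, zpow_natCast (κ ^ D') b, hκ', one_zpow, mul_one]
  -- the series
  obtain ⟨x, hx⟩ : ∃ x : Om F, x = exm b hb ξ := ⟨_, rfl⟩
  obtain ⟨y, hy⟩ : ∃ y : Om F, y = exm a ha (scal κ ξ) := ⟨_, rfl⟩
  have hxo : x.ord = -(b : ℤ) := by rw [hx, exm_ord, hξ]; ring
  have hyo : y.ord = -(a : ℤ) := by rw [hy, exm_ord, scal_ord, hξ]; ring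
  have hb' : (0 : ℤ) < b := by exact_mod_cast hb
  have ha' : (0 : ℤ) < a := by exact_mod_cast ha
  have hxneg : x.ord < 0 := by omega
  have hyneg : y.ord < 0 := by omega
  rw [← hx, ← hy] at hH0
  obtain ⟨Ψ, hΨ⟩ : ∃ Ψ : Om F →ₐ[F] Om F, Ψ = (exm (D' + 1) hD0).comp (scal ω) := ⟨_, rfl⟩
  have hΨa : ∀ z : Om F, Ψ z = exm (D' + 1) hD0 (scal ω z) := fun z => by rw [hΨ]; rfl
  have hΨx : Ψ x = aeval x G := by
    rw [hΨa, hx, scal_exm, hωb]
    have h1 : scal (1 : Fˣ) ξ = ξ := Om.ext fun k => by rw [scal_coeff, one_zpow]; simp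
    rw [h1, aeval_algHom_apply, hξ2]
    exact FamK_exm_comm _ _ _ _ _
  have hΨy : Ψ y = aeval y G := by
    rw [hΨa, hy, scal_exm, hωa, scal_scal, ← pow_succ, aeval_algHom_apply, aeval_algHom_apply,
      hξ2, scal_exm]
    exact FamK_exm_comm _ _ _ _ _
  -- the field
  obtain ⟨E, hE⟩ : ∃ E : IntermediateField F (Om F), E = IntermediateField.adjoin F {x, y} :=
    ⟨_, rfl⟩
  have hxE : x ∈ E := by
    rw [hE]; exact IntermediateField.subset_adjoin F _ (Set.mem_insert _ _)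
  have hyE : y ∈ E := by
    rw [hE]; exact IntermediateField.subset_adjoin F _ (Set.mem_insert_of_mem _ rfl)
  have hpolyE : ∀ (z : Om F) (p : F[X]), z ∈ E → aeval z p ∈ E := by
    intro z p hz
    have h1 : aeval z p = ((aeval (⟨z, hz⟩ : E) p : E) : Om F) := by
      have := aeval_algHom_apply E.val (⟨z, hz⟩ : E) p
      exact this
    rw [h1]
    exact SetLike.coe_mem _
  have hmap : ∀ z : E, Ψ (z : Om F) ∈ E := by
    intro z
    have h1 : E.map Ψ ≤ E := by
      conv_lhs => rw [hE]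
      rw [IntermediateField.adjoin_map, IntermediateField.adjoin_le_iff]
      rintro _ ⟨w, hw, rfl⟩
      rcases hw with rfl | hw
      · rw [SetLike.mem_coe, hΨx]
        exact hpolyE _ _ hxE
      · rw [Set.mem_singleton_iff] at hw
        rw [hw, SetLike.mem_coe, hΨy]
        exact hpolyE _ _ hyE
    exact h1 ⟨z, z.2, rfl⟩
  obtain ⟨Φ, hΦ⟩ : ∃ Φ : E →ₐ[F] E, ∀ z : E, ((Φ z : E) : Om F) = Ψ (z : Om F) :=
    ⟨(Ψ.comp E.val).codRestrict E.toSubalgebra hmap, fun z => rfl⟩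
  obtain ⟨X', hX'⟩ : ∃ X' : E, (X' : Om F) = x := ⟨⟨x, hxE⟩, rfl⟩
  obtain ⟨Y', hY'⟩ : ∃ Y' : E, (Y' : Om F) = y := ⟨⟨y, hyE⟩, rfl⟩
  have hcoe : ∀ (z : E) (p : F[X]), ((aeval z p : E) : Om F) = aeval (z : Om F) p := by
    intro z p
    exact (aeval_algHom_apply E.val z p).symm
  have hΦX : Φ X' = aeval X' G := by
    apply Subtype.ext
    rw [hΦ, hcoe, hX', hΨx]
  have hΦY : Φ Y' = aeval Y' G := by
    apply Subtype.ext
    rw [hΦ, hcoe, hY', hΨy]
  have htr : ∀ z : E, (z : Om F).ord < 0 → Transcendental F z := by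
    intro z hz
    rw [transcendental_iff]
    intro p hp
    by_contra h0
    apply (aeval_ord hz h0).1
    rw [← hcoe, hp]
    rfl
  have hXt : Transcendental F X' := htr X' (by rw [hX']; exact hxneg)
  have hYt : Transcendental F Y' := htr Y' (by rw [hY']; exact hyneg)
  have hHE : MvPolynomial.aeval ![X', Y'] H = 0 := by
    apply Subtype.ext
    have h1 : ((MvPolynomial.aeval ![X', Y'] H : E) : Om F) =
        E.val (MvPolynomial.aeval ![X', Y'] H) := rfl
    rw [h1, MvPolynomial.comp_aeval_apply]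
    have h2 : (fun i => E.val (![X', Y'] i)) = ![x, y] := by
      funext i
      fin_cases i
      · exact hX'
      · exact hY'
    rw [h2, hH0]
    rfl
  have htop : IntermediateField.adjoin F {X', Y'} = (⊤ : IntermediateField F E) := by
    apply IntermediateField.map_injective E.val
    rw [IntermediateField.adjoin_map, Set.image_pair]
    have h1 : (⊤ : IntermediateField F E).map E.val = E := by
      rw [← AlgHom.fieldRange_eq_map, IntermediateField.fieldRange_val]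
    rw [h1]
    have h2 : E.val X' = x := hX'
    have h3 : E.val Y' = y := hY'
    rw [h2, h3, hE]
  have hfX : FiniteDimensional F⟮X'⟯ E :=
    FamK_fin (z := ![X', Y']) (i := 1) (j := 0) (by decide) htop
      (FamK_alg (by decide) hXt hH hHE)
  have hfY : FiniteDimensional F⟮Y'⟯ E :=
    FamK_fin (z := ![X', Y']) (i := 0) (j := 1) (by decide) htop
      (FamK_alg (by decide) hYt hH hHE)
  obtain ⟨u, P, Q, hp, -, hP, hQ, hu⟩ := param hXt hYt (G := G) (by omega) hΦX hΦY hsp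
  obtain ⟨v, hv⟩ : ∃ v : Om F, v = (u : Om F) := ⟨_, rfl⟩
  have hPx : x = aeval v P := by rw [← hX', hP, hcoe, hv]
  have hQy : y = aeval v Q := by rw [← hY', hQ, hcoe, hv]
  have hΨv : Ψ v = aeval v hp := by rw [hv, ← hΦ, hu, hcoe]
  have hvneg : v.ord < 0 := by
    by_contra hc
    have := aeval_ord_nonneg (not_lt.1 hc) P
    rw [← hPx] at this
    omega
  have hP0 : P ≠ 0 := by
    rintro rfl
    rw [map_zero] at hPx
    rw [hPx, ord_zero] at hxneg
    exact lt_irrefl _ hxneg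
  have hQ0 : Q ≠ 0 := by
    rintro rfl
    rw [map_zero] at hQy
    rw [hQy, ord_zero] at hyneg
    exact lt_irrefl _ hyneg
  have hPo := (aeval_ord hvneg hP0).2
  have hQo := (aeval_ord hvneg hQ0).2
  rw [← hPx, hxo] at hPo
  rw [← hQy, hyo] at hQo
  have hvo : v.ord = -1 := by
    obtain ⟨e, he⟩ : ∃ e : ℕ, v.ord = -(e : ℤ) := ⟨(-v.ord).toNat, by omega⟩
    rw [he] at hPo hQo
    have h1 : b = P.natDegree * e := by
      have : (b : ℤ) = P.natDegree * e := by linear_combination -hPo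
      exact_mod_cast this
    have h2 : a = Q.natDegree * e := by
      have : (a : ℤ) = Q.natDegree * e := by linear_combination -hQo
      exact_mod_cast this
    have h3 : e ∣ 1 := by
      rw [← hab]
      exact Nat.dvd_gcd ⟨_, by rw [mul_comm]; exact h2⟩ ⟨_, by rw [mul_comm]; exact h1⟩
    rw [Nat.dvd_one.1 h3] at he
    rw [he]
    rfl
  rw [hvo] at hPo hQo
  have hPd : P.natDegree = b := by
    have : (P.natDegree : ℤ) = b := by linear_combination hPo
    exact_mod_cast this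
  have hQd : Q.natDegree = a := by
    have : (Q.natDegree : ℤ) = a := by linear_combination hQo
    exact_mod_cast this
  have hGP : G.comp P = P.comp hp := by
    apply FamK_aeval_inj hvneg
    rw [aeval_comp, aeval_comp, ← hPx, ← hΨx, ← hΨv, aeval_algHom_apply, ← hPx]
  have hGQ : G.comp Q = Q.comp hp := by
    apply FamK_aeval_inj hvneg
    rw [aeval_comp, aeval_comp, ← hQy, ← hΨy, ← hΨv, aeval_algHom_apply, ← hQy]
  -- the new variable
  obtain ⟨θ, hθ⟩ : ∃ θ : Fˣ, θ ^ D' = ω⁻¹ := by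
    obtain ⟨t, ht⟩ := IsAlgClosed.exists_pow_nat_eq ((ω⁻¹ : Fˣ) : F) (show 0 < D' by omega)
    have ht0 : t ≠ 0 := by
      rintro rfl
      rw [zero_pow (by omega)] at ht
      exact (Units.ne_zero (ω⁻¹ : Fˣ)) ht.symm
    refine ⟨Units.mk0 t ht0, Units.ext ?_⟩
    rw [Units.val_pow_eq_pow_val, Units.val_mk0, ht]
  have hθω : θ ^ (D' + 1) * ω = θ := by
    rw [pow_succ, hθ, mul_assoc, mul_comm θ ω, inv_mul_cancel_left]
  have hUo : (scal θ v).ord = -1 := by rw [scal_ord, hvo]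
  have hUh : aeval (scal θ v) hp = exm (D' + 1) hD0 (scal θ v) := by
    rw [aeval_algHom_apply, ← hΨv, hΨa, scal_exm, scal_scal, hθω]
  have hPU : exm b hb (scal (θ ^ b) ξ) = aeval (scal θ v) P := by
    rw [aeval_algHom_apply, ← hPx, hx, scal_exm]
  have hQU : exm a ha (scal (θ ^ a) (scal κ ξ)) = aeval (scal θ v) Q := by
    rw [aeval_algHom_apply, ← hQy, hy, scal_exm]
  obtain ⟨α, γ, W, h1, h2, h3, h4, h5⟩ :=
    exists_common ha hb hab hD0 hUo hPd hQd hPU hQU hUh hGP hGQ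
  exact ⟨α, γ, P, Q, W, h1, h2, hPd, hQd, h3, h4, h5⟩

end Pool.Agent.MSC
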