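import Mathlib

/-!
# Laurent series in a variable `s`: the substitutions `s ↦ s ^ m` and `s ↦ c s`
-/

namespace Pool.Agent.MSC

/-- Laurent series in one variable `s` over `F`. -/
def Om (F : Type*) [Field F] : Type _ := HahnSeries ℤ F

variable {F : Type*} [Field F]

noncomputable instance : Field (Om F) := inferInstanceAs (Field (HahnSeries ℤ F))

noncomputable instance : Algebra F (Om F) :=
  RingHom.toAlgebra (HahnSeries.C : F →+* HahnSeries ℤ F)

/-- The coefficient of `s ^ k`. -/
def Om.coeff (x : Om F) (k : ℤ) : F := HahnSeries.coeff x k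

/-- The order of a Laurent series (`0` for the series `0`). -/
noncomputable def Om.ord (x : Om F) : ℤ := HahnSeries.order (x : HahnSeries ℤ F)

/-- The substitution `s ↦ s ^ m`, as a ring homomorphism. -/
noncomputable def exmRing (m : ℕ) (hm : 0 < m) : HahnSeries ℤ F →+* HahnSeries ℤ F :=
  HahnSeries.embDomainRingHom (AddMonoidHom.mulLeft (m : ℤ))
    (fun a b h => mul_left_cancel₀ (by exact_mod_cast hm.ne') h)
    (fun a b => mul_le_mul_iff_right₀ (by exact_mod_cast hm))

/-- The substitution `s ↦ s ^ m`. -/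
noncomputable def exm (m : ℕ) (hm : 0 < m) : Om F →ₐ[F] Om F where
  toFun x := exmRing m hm x
  map_one' := map_one (exmRing m hm)
  map_mul' x y := map_mul (exmRing m hm) x y
  map_zero' := map_zero (exmRing m hm)
  map_add' x y := map_add (exmRing m hm) x y
  commutes' _ := HahnSeries.embDomainRingHom_C

/-- The underlying function of `scal`. -/
def scalFun (c : Fˣ) (x : HahnSeries ℤ F) : HahnSeries ℤ F where
  coeff := fun k => ((c ^ k : Fˣ) : F) * x.coeff k
  isPWO_support' := x.isPWO_support.mono fun k hk => by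
    intro h
    simp only [Function.mem_support] at hk
    exact hk (by rw [h, mul_zero])

theorem scalFun_mul (c : Fˣ) (x y : HahnSeries ℤ F) :
    scalFun c (x * y) = scalFun c x * scalFun c y := by
  have hs : ∀ x : HahnSeries ℤ F, (scalFun c x).support = x.support := by
    intro x
    ext k
    simp only [HahnSeries.mem_support]
    show ((c ^ k : Fˣ) : F) * x.coeff k ≠ 0 ↔ x.coeff k ≠ 0
    constructor
    · intro h h'; exact h (by rw [h', mul_zero])
    · intro h; exact mul_ne_zero (Units.ne_zero _) h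
  ext k
  show ((c ^ k : Fˣ) : F) * (x * y).coeff k = _
  rw [HahnSeries.coeff_mul, HahnSeries.coeff_mul, Finset.mul_sum]
  refine Finset.sum_congr ?_ fun ij hij => ?_
  · ext ij
    simp only [Finset.mem_antidiagonal, hs]
  rw [Finset.mem_antidiagonal] at hij
  show ((c ^ k : Fˣ) : F) * (x.coeff ij.1 * y.coeff ij.2) =
    (((c ^ ij.1 : Fˣ) : F) * x.coeff ij.1) * (((c ^ ij.2 : Fˣ) : F) * y.coeff ij.2)
  rw [← hij.2.2, zpow_add, Units.val_mul]
  ring

theorem scalFun_add (c : Fˣ) (x y : HahnSeries ℤ F) :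
    scalFun c (x + y) = scalFun c x + scalFun c y := by
  apply HahnSeries.ext
  funext k
  rw [HahnSeries.coeff_add]
  show ((c ^ k : Fˣ) : F) * (x + y).coeff k = ((c ^ k : Fˣ) : F) * x.coeff k +
    ((c ^ k : Fˣ) : F) * y.coeff k
  rw [HahnSeries.coeff_add]; ring

/-- The substitution `s ↦ c s`. -/
noncomputable def scal (c : Fˣ) : Om F →ₐ[F] Om F where
  toFun x := scalFun c x
  map_one' := by
    apply HahnSeries.ext
    funext k
    show ((c ^ k : Fˣ) : F) * (1 : HahnSeries ℤ F).coeff k = (1 : HahnSeries ℤ F).coeff k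
    by_cases hk : k = 0
    · subst hk; simp
    · simp [HahnSeries.coeff_one, hk]
  map_mul' x y := scalFun_mul c x y
  map_zero' := by
    apply HahnSeries.ext
    funext k
    show ((c ^ k : Fˣ) : F) * (0 : HahnSeries ℤ F).coeff k = (0 : HahnSeries ℤ F).coeff k
    simp
  map_add' x y := scalFun_add c x y
  commutes' r := by
    apply HahnSeries.ext
    funext k
    show ((c ^ k : Fˣ) : F) * (HahnSeries.C r : HahnSeries ℤ F).coeff k =
      (HahnSeries.C r : HahnSeries ℤ F).coeff k
    by_cases hk : k = 0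
    · subst hk; simp
    · rw [HahnSeries.C_apply, HahnSeries.coeff_single_of_ne hk, mul_zero]

theorem Om.ext {x y : Om F} (h : ∀ k, x.coeff k = y.coeff k) : x = y := by
  exact HahnSeries.ext (funext h)

theorem coeff_zero (k : ℤ) : (0 : Om F).coeff k = 0 := by
  rfl

theorem coeff_add (x y : Om F) (k : ℤ) : (x + y).coeff k = x.coeff k + y.coeff k := by
  rfl

theorem coeff_sub (x y : Om F) (k : ℤ) : (x - y).coeff k = x.coeff k - y.coeff k := by
  exact HahnSeries.coeff_sub (x := (x : HahnSeries ℤ F)) (y := (y : HahnSeries ℤ F)) (a := k)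

theorem coeff_C (c : F) (k : ℤ) : (algebraMap F (Om F) c).coeff k = if k = 0 then c else 0 := by
  show (HahnSeries.C c : HahnSeries ℤ F).coeff k = if k = 0 then c else 0
  rw [HahnSeries.C_apply]
  split_ifs with h
  · rw [h, HahnSeries.coeff_single_same]
  · rw [HahnSeries.coeff_single_of_ne h]

theorem coeff_C_mul (c : F) (x : Om F) (k : ℤ) :
    (algebraMap F (Om F) c * x).coeff k = c * x.coeff k := by
  exact congrArg (fun z : HahnSeries ℤ F => z.coeff k)
    (HahnSeries.C_mul_eq_smul (r := c) (x := (x : HahnSeries ℤ F)))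

/-- There is a series with the given coefficients, if they vanish for small indices. -/
theorem exists_coeff (a : ℤ → F) (n : ℤ) (h : ∀ k < n, a k = 0) : ∃ x : Om F, ∀ k, x.coeff k = a k := by
  have hb : BddBelow (Function.support a) := by
    refine ⟨n, fun k hk => ?_⟩
    by_contra hlt
    exact hk (h k (not_le.1 hlt))
  exact ⟨(HahnSeries.ofSuppBddBelow a hb : HahnSeries ℤ F), fun k => rfl⟩

theorem coeff_of_lt {x : Om F} {k : ℤ} (h : k < x.ord) : x.coeff k = 0 := by
  exact HahnSeries.coeff_eq_zero_of_lt_order (x := (x : HahnSeries ℤ F)) h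

theorem coeff_ord {x : Om F} (h : x ≠ 0) : x.coeff x.ord ≠ 0 := by
  intro h0
  exact h ((HahnSeries.coeff_order_eq_zero (x := (x : HahnSeries ℤ F))).1 h0)

theorem le_ord {x : Om F} (h : x ≠ 0) {n : ℤ} (hn : ∀ k < n, x.coeff k = 0) : n ≤ x.ord := by
  by_contra hlt
  exact coeff_ord h (hn _ (not_le.1 hlt))

theorem ord_eq {x : Om F} {n : ℤ} (h : x.coeff n ≠ 0) (hn : ∀ k < n, x.coeff k = 0) :
    x ≠ 0 ∧ x.ord = n := by
  have h0 : x ≠ 0 := by
    rintro rfl
    exact h (coeff_zero n)
  refine ⟨h0, le_antisymm ?_ (le_ord h0 hn)⟩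
  by_contra hlt
  exact h (coeff_of_lt (not_le.1 hlt))

theorem ord_zero : (0 : Om F).ord = 0 := by
  exact HahnSeries.order_zero

theorem ord_C (c : F) : (algebraMap F (Om F) c).ord = 0 := by
  by_cases hc : c = 0
  · rw [hc, map_zero, ord_zero]
  · refine (ord_eq (n := 0) ?_ ?_).2
    · rw [coeff_C, if_pos rfl]
      exact hc
    · intro k hk
      rw [coeff_C, if_neg hk.ne]

theorem ord_mul {x y : Om F} (hx : x ≠ 0) (hy : y ≠ 0) : (x * y).ord = x.ord + y.ord := by
  exact HahnSeries.order_mul (x := (x : HahnSeries ℤ F)) (y := (y : HahnSeries ℤ F)) hx hy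

theorem ord_pow (x : Om F) (n : ℕ) : (x ^ n).ord = n * x.ord := by
  have h := HahnSeries.order_pow (x : HahnSeries ℤ F) n
  rw [nsmul_eq_mul] at h
  exact h

theorem ord_inv (x : Om F) : (x⁻¹).ord = - x.ord := by
  by_cases hx : x = 0
  · rw [hx, inv_zero, ord_zero, neg_zero]
  · have h1 := ord_mul hx (inv_ne_zero hx)
    have h2 : (1 : Om F).ord = 0 := by
      have := ord_C (F := F) 1
      rwa [map_one] at this
    rw [mul_inv_cancel₀ hx, h2] at h1
    omega

theorem ord_add {x y : Om F} (h : x + y ≠ 0) : min x.ord y.ord ≤ (x + y).ord := by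
  refine le_ord h fun k hk => ?_
  rw [coeff_add, coeff_of_lt (hk.trans_le (min_le_left _ _)),
    coeff_of_lt (hk.trans_le (min_le_right _ _)), add_zero]

/-- If `x`, `y` are nonzero of different orders, the order of the sum is the smaller one. -/
theorem ord_add_of_lt {x y : Om F} (hx : x ≠ 0) (h : x.ord < y.ord ∨ y = 0) :
    x + y ≠ 0 ∧ (x + y).ord = x.ord := by
  rcases h with h | h
  · refine ord_eq ?_ ?_
    · rw [coeff_add, coeff_of_lt h, add_zero]
      exact coeff_ord hx
    · intro k hk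
      rw [coeff_add, coeff_of_lt hk, coeff_of_lt (hk.trans h), add_zero]
  · rw [h, add_zero]
    exact ⟨hx, rfl⟩

theorem exists_lead {x y : Om F} (hx : x ≠ 0) (hy : y ≠ 0) (h : x.ord = y.ord) :
    ∃ c : F, c ≠ 0 ∧ (x - algebraMap F (Om F) c * y = 0 ∨
      x.ord < (x - algebraMap F (Om F) c * y).ord) := by
  have hxc := coeff_ord hx
  have hyc := coeff_ord hy
  refine ⟨x.coeff x.ord / y.coeff y.ord, div_ne_zero hxc hyc, ?_⟩
  by_cases h0 : x - algebraMap F (Om F) (x.coeff x.ord / y.coeff y.ord) * y = 0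
  · exact Or.inl h0
  · right
    have h1 : x.ord + 1 ≤ (x - algebraMap F (Om F) (x.coeff x.ord / y.coeff y.ord) * y).ord := by
      refine le_ord h0 fun k hk => ?_
      rw [coeff_sub, coeff_C_mul]
      rcases (Int.lt_add_one_iff.1 hk).lt_or_eq with h2 | h2
      · rw [coeff_of_lt h2, coeff_of_lt (h2.trans_eq h), mul_zero, sub_zero]
      · rw [h2, ← h, div_mul_cancel₀, sub_self]
        rw [h]
        exact hyc
    omega

theorem exm_coeff (m : ℕ) (hm : 0 < m) (x : Om F) (k : ℤ) :
    (exm m hm x).coeff k = if (m : ℤ) ∣ k then x.coeff (k / m) else 0 := by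
  show HahnSeries.coeff (exmRing m hm x) k = if (m : ℤ) ∣ k then x.coeff (k / m) else 0
  split_ifs with h
  · obtain ⟨j, rfl⟩ := h
    have hm0 : (m : ℤ) ≠ 0 := by exact_mod_cast hm.ne'
    rw [Int.mul_ediv_cancel_left _ hm0]
    exact HahnSeries.embDomain_coeff
  · refine HahnSeries.embDomain_of_notMem_range ?_
    rintro ⟨j, hj⟩
    exact h ⟨j, hj.symm⟩

theorem exm_ord (m : ℕ) (hm : 0 < m) (x : Om F) : (exm m hm x).ord = m * x.ord := by
  by_cases hx : x = 0
  · rw [hx, map_zero, ord_zero, mul_zero]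
  · have hm0 : (0 : ℤ) < m := by exact_mod_cast hm
    refine (ord_eq ?_ ?_).2
    · rw [exm_coeff, if_pos ⟨_, rfl⟩, Int.mul_ediv_cancel_left _ hm0.ne']
      exact coeff_ord hx
    · intro k hk
      rw [exm_coeff]
      split_ifs with h
      · obtain ⟨j, rfl⟩ := h
        rw [Int.mul_ediv_cancel_left _ hm0.ne']
        exact coeff_of_lt (lt_of_mul_lt_mul_left hk hm0.le)
      · rfl

theorem exm_exm (m n : ℕ) (hm : 0 < m) (hn : 0 < n) (x : Om F) :
    exm m hm (exm n hn x) = exm (m * n) (Nat.mul_pos hm hn) x := by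
  refine Om.ext fun k => ?_
  have hm0 : (0 : ℤ) < m := by exact_mod_cast hm
  have hn0 : (0 : ℤ) < n := by exact_mod_cast hn
  rw [exm_coeff, exm_coeff, exm_coeff]
  push_cast
  by_cases h : (m : ℤ) ∣ k
  · obtain ⟨j, rfl⟩ := h
    rw [if_pos ⟨_, rfl⟩, Int.mul_ediv_cancel_left _ hm0.ne']
    by_cases h2 : (n : ℤ) ∣ j
    · obtain ⟨i, rfl⟩ := h2
      rw [if_pos ⟨_, rfl⟩, Int.mul_ediv_cancel_left _ hn0.ne', if_pos ⟨i, by ring⟩]
      have h3 : (m : ℤ) * (n * i) = m * n * i := by ring
      rw [h3, Int.mul_ediv_cancel_left _ (mul_pos hm0 hn0).ne']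
    · rw [if_neg h2, if_neg]
      rintro ⟨i, hi⟩
      apply h2
      refine ⟨i, ?_⟩
      have h3 : (m : ℤ) * j = m * (n * i) := by rw [hi]; ring
      exact mul_left_cancel₀ hm0.ne' h3
  · rw [if_neg h, if_neg]
    rintro ⟨i, hi⟩
    exact h ⟨n * i, by rw [hi]; ring⟩

theorem exists_exm {m : ℕ} (hm : 0 < m) {x : Om F} (h : ∀ k : ℤ, ¬ (m : ℤ) ∣ k → x.coeff k = 0) :
    ∃ y : Om F, exm m hm y = x := by
  have hm0 : (0 : ℤ) < m := by exact_mod_cast hm
  obtain ⟨y, hy⟩ := exists_coeff (fun k : ℤ => x.coeff (m * k)) (min x.ord 0) (by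
    intro k hk
    have h1 : k < x.ord := hk.trans_le (min_le_left _ _)
    have h2 : k < 0 := hk.trans_le (min_le_right _ _)
    refine coeff_of_lt ?_
    nlinarith)
  refine ⟨y, Om.ext fun k => ?_⟩
  rw [exm_coeff]
  split_ifs with hk
  · obtain ⟨j, rfl⟩ := hk
    rw [Int.mul_ediv_cancel_left _ hm0.ne', hy]
  · rw [h k hk]

theorem scal_coeff (c : Fˣ) (x : Om F) (k : ℤ) :
    (scal c x).coeff k = ((c ^ k : Fˣ) : F) * x.coeff k := by
  rfl

theorem scal_ord (c : Fˣ) (x : Om F) : (scal c x).ord = x.ord := by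
  by_cases hx : x = 0
  · rw [hx, map_zero]
  · refine (ord_eq ?_ ?_).2
    · rw [scal_coeff]
      exact mul_ne_zero (Units.ne_zero _) (coeff_ord hx)
    · intro k hk
      rw [scal_coeff, coeff_of_lt hk, mul_zero]

theorem scal_scal (c d : Fˣ) (x : Om F) : scal c (scal d x) = scal (c * d) x := by
  refine Om.ext fun k => ?_
  rw [scal_coeff, scal_coeff, scal_coeff, mul_zpow, Units.val_mul]
  ring

theorem scal_exm (c : Fˣ) (m : ℕ) (hm : 0 < m) (x : Om F) :
    scal c (exm m hm x) = exm m hm (scal (c ^ m) x) := by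
  refine Om.ext fun k => ?_
  have hm0 : (0 : ℤ) < m := by exact_mod_cast hm
  rw [scal_coeff, exm_coeff, exm_coeff]
  split_ifs with h
  · obtain ⟨j, rfl⟩ := h
    rw [Int.mul_ediv_cancel_left _ hm0.ne', scal_coeff, zpow_mul, zpow_natCast]
  · rw [mul_zero]

private theorem Laur_coeff_sum {ι : Type*} (s : Finset ι) (f : ι → Om F) (k : ℤ) :
    (∑ i ∈ s, f i).coeff k = ∑ i ∈ s, (f i).coeff k := by
  classical
  induction s using Finset.induction_on with
  | empty => exact coeff_zero k
  | insert a s ha ih => rw [Finset.sum_insert ha, Finset.sum_insert ha, coeff_add, ih]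

/-- **PROOF.** If `x.ord < 0` then the order of `g(x)` is `natDegree g * x.ord`: the leading term
dominates. -/
theorem aeval_ord {x : Om F} (hx : x.ord < 0) {g : Polynomial F} (hg : g ≠ 0) :
    Polynomial.aeval x g ≠ 0 ∧ (Polynomial.aeval x g).ord = g.natDegree * x.ord := by
  have hsplit : Polynomial.aeval x g = algebraMap F (Om F) g.leadingCoeff * x ^ g.natDegree +
      ∑ i ∈ Finset.range g.natDegree, algebraMap F (Om F) (g.coeff i) * x ^ i := by
    rw [Polynomial.aeval_eq_sum_range, Finset.sum_range_succ, add_comm]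
    simp only [Algebra.smul_def]
    rfl
  have hx0 : x ≠ 0 := by
    rintro rfl
    rw [ord_zero] at hx
    exact lt_irrefl _ hx
  have hsum : ∀ k, k ≤ (g.natDegree : ℤ) * x.ord →
      (∑ i ∈ Finset.range g.natDegree, algebraMap F (Om F) (g.coeff i) * x ^ i).coeff k = 0 := by
    intro k hk
    rw [Laur_coeff_sum]
    refine Finset.sum_eq_zero fun i hi => ?_
    have hi' : (i : ℤ) + 1 ≤ g.natDegree := by exact_mod_cast Finset.mem_range.1 hi
    rw [coeff_C_mul, coeff_of_lt, mul_zero]
    rw [ord_pow]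
    nlinarith
  rw [hsplit]
  refine ord_eq ?_ ?_
  · rw [coeff_add, hsum _ le_rfl, add_zero, coeff_C_mul]
    refine mul_ne_zero (Polynomial.leadingCoeff_ne_zero.2 hg) ?_
    rw [← ord_pow]
    exact coeff_ord (pow_ne_zero _ hx0)
  · intro k hk
    rw [coeff_add, hsum _ hk.le, add_zero, coeff_C_mul, coeff_of_lt, mul_zero]
    rw [ord_pow]
    exact hk

/-- **PROOF.** Power series are a subring. -/
theorem aeval_ord_nonneg {x : Om F} (hx : 0 ≤ x.ord) (g : Polynomial F) :
    0 ≤ (Polynomial.aeval x g).ord := by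
  by_cases h : Polynomial.aeval x g = 0
  · rw [h, ord_zero]
  · refine le_ord h fun k hk => ?_
    rw [Polynomial.aeval_eq_sum_range, Laur_coeff_sum]
    refine Finset.sum_eq_zero fun i _ => ?_
    rw [Algebra.smul_def, coeff_C_mul, coeff_of_lt, mul_zero]
    rw [ord_pow]
    have h1 : 0 ≤ (i : ℤ) * x.ord := mul_nonneg (Nat.cast_nonneg i) hx
    omega

end Pool.Agent.MSC
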