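import Pool.Agent.MSC.Sub

/-!
# Infinitely many periodic points
-/

namespace Pool.Agent.MSC

open Polynomial Pool.Agent.PrepH

variable {F : Type*} [Field F] [IsAlgClosed F] [CharZero F]

omit [IsAlgClosed F] [CharZero F] in
private theorem PerPts_succ (f : F[X]) (r : ℕ) : itp f (r + 1) = f.comp (itp f r) := by
  unfold itp
  rw [Function.iterate_succ_apply']

omit [IsAlgClosed F] [CharZero F] in
private theorem PerPts_eval (f : F[X]) (r : ℕ) (x : F) :
    (itp f r).eval x = (fun y => f.eval y)^[r] x := by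
  have h := iterate_comp_eval (p := f) (q := X) r x
  rw [eval_X] at h
  exact h

omit [IsAlgClosed F] [CharZero F] in
private theorem PerPts_deg (f : F[X]) (r : ℕ) : (itp f r).natDegree = f.natDegree ^ r := by
  have h := natDegree_iterate_comp (p := f) (q := X) r
  rw [natDegree_X, mul_one] at h
  exact h

omit [IsAlgClosed F] [CharZero F] in
/-- The iterates at a fixed point. -/
private theorem PerPts_v (G : F[X]) {x : F} (hx : G.eval x = x) (i : ℕ) :
    ∃ v : F[X], itp G i - C x = (X - C x) * v ∧ v.eval x = (derivative G).eval x ^ i := by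
  obtain ⟨v1, hv1⟩ : (X - C x) ∣ G - C x := by
    rw [dvd_iff_isRoot, IsRoot.def, Polynomial.eval_sub, eval_C, hx, sub_self]
  have hG : G = (X - C x) * v1 + C x := by rw [← hv1]; ring
  have hv1x : v1.eval x = (derivative G).eval x := by
    rw [hG]
    simp
  induction i with
  | zero =>
    refine ⟨1, ?_, ?_⟩
    · rw [mul_one]; rfl
    · rw [eval_one, pow_zero]
  | succ i ih =>
    obtain ⟨v, hv, hvx⟩ := ih
    have hix : (itp G i).eval x = x := by
      have h1 := congrArg (eval x) hv
      rw [Polynomial.eval_sub, eval_mul, Polynomial.eval_sub, eval_X, eval_C, sub_self, zero_mul] at h1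
      exact sub_eq_zero.1 h1
    refine ⟨v * v1.comp (itp G i), ?_, ?_⟩
    · have h1 : ∀ Y : F[X], G.comp Y = (Y - C x) * v1.comp Y + C x := by
        intro Y
        conv_lhs => rw [hG]
        rw [add_comp, mul_comp, sub_comp, X_comp, C_comp]
      rw [PerPts_succ, h1, hv]
      ring
    · rw [eval_mul, eval_comp, hix, hvx, hv1x, pow_succ]

omit [IsAlgClosed F] in
private theorem PerPts_mult (G : F[X]) (hG : 2 ≤ G.natDegree) {x : F} (hx : G.eval x = x) {q : ℕ}
    (hq : 1 ≤ q) (hl : (derivative G).eval x ≠ 1 → (derivative G).eval x ^ q ≠ 1) :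
    rootMultiplicity x (itp G q - X) = rootMultiplicity x (G - X) := by
  have hdeg1 : (G - X).natDegree = G.natDegree :=
    natDegree_sub_eq_left_of_natDegree_lt (by rw [natDegree_X]; omega)
  have h0 : G - X ≠ 0 := by
    intro h
    rw [h, natDegree_zero] at hdeg1
    omega
  obtain ⟨u, hu, hu2⟩ := exists_eq_pow_rootMultiplicity_mul_and_not_dvd (G - X) h0 x
  obtain ⟨m, hm⟩ : ∃ m, m = rootMultiplicity x (G - X) := ⟨_, rfl⟩
  rw [← hm] at hu ⊢
  have hux : u.eval x ≠ 0 := by
    intro h
    exact hu2 (dvd_iff_isRoot.2 h)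
  choose v hv hvx using PerPts_v G hx
  have hterm : ∀ i, itp G (i + 1) - itp G i =
      (X - C x) ^ m * ((v i) ^ m * u.comp (itp G i)) := by
    intro i
    have h1 : itp G (i + 1) - itp G i = (G - X).comp (itp G i) := by
      rw [sub_comp, X_comp, PerPts_succ]
    rw [h1, hu, mul_comp, pow_comp, sub_comp, X_comp, C_comp, hv, mul_pow, mul_assoc]
  have hsum : itp G q - X = (X - C x) ^ m *
      ∑ i ∈ Finset.range q, ((v i) ^ m * u.comp (itp G i)) := by
    rw [Finset.mul_sum, ← Finset.sum_congr rfl (fun i _ => hterm i),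
      Finset.sum_range_sub (fun i => itp G i) q]
    rfl
  obtain ⟨l, hl0⟩ : ∃ l, l = (derivative G).eval x := ⟨_, rfl⟩
  rw [← hl0] at hl
  have hW : (∑ i ∈ Finset.range q, ((v i) ^ m * u.comp (itp G i))).eval x ≠ 0 := by
    have h1 : (∑ i ∈ Finset.range q, ((v i) ^ m * u.comp (itp G i))).eval x =
        (∑ i ∈ Finset.range q, (l ^ i) ^ m) * u.eval x := by
      rw [eval_finsetSum, Finset.sum_mul]
      refine Finset.sum_congr rfl fun i _ => ?_
      have hix : (itp G i).eval x = x := by
        have h1 := congrArg (eval x) (hv i)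
        rw [Polynomial.eval_sub, eval_mul, Polynomial.eval_sub, eval_X, eval_C, sub_self, zero_mul] at h1
        exact sub_eq_zero.1 h1
      rw [eval_mul, eval_pow, eval_comp, hix, hvx, hl0]
    rw [h1]
    refine mul_ne_zero ?_ hux
    by_cases hl1 : l = 1
    · rw [hl1]
      simp only [one_pow, Finset.sum_const, Finset.card_range, nsmul_eq_mul, mul_one]
      rw [Nat.cast_ne_zero]
      omega
    · have hm1 : m = 1 := by
        have h2 : 0 < m := by
          rw [hm, rootMultiplicity_pos h0, IsRoot.def, Polynomial.eval_sub, eval_X, hx, sub_self]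
        have h3 : ¬ 1 < m := by
          rw [hm, one_lt_rootMultiplicity_iff_isRoot h0]
          rintro ⟨-, h4⟩
          rw [IsRoot.def, derivative_sub, derivative_X, Polynomial.eval_sub, eval_one, ← hl0] at h4
          exact hl1 (sub_eq_zero.1 h4)
        omega
      rw [hm1]
      simp only [pow_one]
      intro h2
      have h3 := mul_geom_sum l q
      rw [h2, mul_zero] at h3
      exact hl hl1 (sub_eq_zero.1 h3.symm)
  have hW0 : (∑ i ∈ Finset.range q, ((v i) ^ m * u.comp (itp G i))) ≠ 0 := by
    intro h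
    rw [h, eval_zero] at hW
    exact hW rfl
  rw [hsum, rootMultiplicity_mul (mul_ne_zero (pow_ne_zero _ (X_sub_C_ne_zero x)) hW0),
    rootMultiplicity_X_sub_C_pow, rootMultiplicity_eq_zero hW, add_zero]

/-- **PROOF.** Suppose there are only finitely many. Let `Z` be the set of the fixed points of `f`, and
`q` a prime which is larger than the number of periodic points and such that no
`f'(x)`, `x ∈ Z`, is a primitive `q`-th root of unity (all but finitely many primes). The multiplicity of
`x ∈ Z` as a root of `itp f q - X` is the same as for `f - X`: if `f'(x) ≠ 1` then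
`(itp f q)'(x) = f'(x)^q ≠ 1` and both are `1`; if `f'(x) = 1`, then
`itp f q - X = Σ_{i < q} (f - X) ∘ itp f i`, and every term is `a (X - x)^m + …` with the same `a ≠ 0`
and `m`, so the sum is `q a (X - x)^m + …`. The sum of the multiplicities for `f` is
`natDegree f < natDegree (itp f q)`, so `itp f q` has a fixed point `x` not in `Z`, of exact period `q`;
its orbit has `q` elements, all periodic, contradiction. -/
theorem infinite_periodic {f : F[X]} (hf : 2 ≤ f.natDegree) :
    {c : F | ∃ r : ℕ, 1 ≤ r ∧ (itp f r).eval c = c}.Infinite := by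
  classical
  intro hfin
  obtain ⟨P, hP⟩ : ∃ P : Finset F, ∀ c, c ∈ P ↔ ∃ r : ℕ, 1 ≤ r ∧ (itp f r).eval c = c :=
    ⟨hfin.toFinset, fun c => by rw [Set.Finite.mem_toFinset]; rfl⟩
  -- all periodic points are fixed by an iterate
  have hr : ∀ c : F, ∃ r : ℕ, 1 ≤ r ∧ (c ∈ P → (itp f r).eval c = c) := by
    intro c
    by_cases hc : c ∈ P
    · obtain ⟨r, h1, h2⟩ := (hP c).1 hc
      exact ⟨r, h1, fun _ => h2⟩
    · exact ⟨1, le_rfl, fun h => absurd h hc⟩
  choose r hr1 hr2 using hr
  obtain ⟨N, hN⟩ : ∃ N, N = ∏ c ∈ P, r c := ⟨_, rfl⟩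
  have hN1 : 1 ≤ N := by
    rw [hN]
    exact Nat.succ_le_of_lt (Finset.prod_pos fun c _ => Nat.lt_of_succ_le (hr1 c))
  obtain ⟨G, hG⟩ : ∃ G, G = itp f N := ⟨_, rfl⟩
  have hGP : ∀ c ∈ P, G.eval c = c := by
    intro c hc
    rw [hG, PerPts_eval]
    have h1 : Function.IsPeriodicPt (fun y => f.eval y) (r c) c := by
      have := hr2 c hc
      rw [PerPts_eval] at this
      exact this
    exact h1.trans_dvd (by rw [hN]; exact Finset.dvd_prod_of_mem r hc)
  have hGd : 2 ≤ G.natDegree := by
    rw [hG, PerPts_deg]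
    calc 2 ≤ f.natDegree := hf
      _ = f.natDegree ^ 1 := (pow_one _).symm
      _ ≤ f.natDegree ^ N := Nat.pow_le_pow_right (by omega) hN1
  -- the exponent
  obtain ⟨M, hM⟩ : ∃ M, M = ∏ c ∈ P, max 1 (orderOf ((derivative G).eval c)) := ⟨_, rfl⟩
  have hM1 : 1 ≤ M := by
    rw [hM]
    exact Nat.succ_le_of_lt (Finset.prod_pos fun c _ => lt_of_lt_of_le one_pos (le_max_left _ _))
  obtain ⟨q, hq⟩ : ∃ q, q = M + 1 := ⟨_, rfl⟩
  have hlam : ∀ c ∈ P, (derivative G).eval c ≠ 1 → (derivative G).eval c ^ q ≠ 1 := by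
    intro c hc h1 h2
    have h3 : 0 < orderOf ((derivative G).eval c) := by
      rw [orderOf_pos_iff, isOfFinOrder_iff_pow_eq_one]
      exact ⟨q, by omega, h2⟩
    have h4 : orderOf ((derivative G).eval c) ∣ M := by
      have h5 : max 1 (orderOf ((derivative G).eval c)) = orderOf ((derivative G).eval c) :=
        max_eq_right h3
      rw [hM, ← h5]
      exact Finset.dvd_prod_of_mem (fun c => max 1 (orderOf ((derivative G).eval c))) hc
    have h5 : (derivative G).eval c ^ M = 1 := orderOf_dvd_iff_pow_eq_one.1 h4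
    rw [hq, pow_succ, h5, one_mul] at h2
    exact h1 h2
  have hroots : (itp G q - X).roots = (G - X).roots := by
    refine Multiset.ext.2 fun x => ?_
    rw [count_roots, count_roots]
    by_cases hx : x ∈ P
    · exact PerPts_mult G hGd (hGP x hx) (by omega) (hlam x hx)
    · rw [rootMultiplicity_eq_zero, rootMultiplicity_eq_zero]
      · intro h
        rw [IsRoot.def, Polynomial.eval_sub, eval_X, sub_eq_zero] at h
        apply hx
        rw [hP]
        exact ⟨N, hN1, by rw [← hG]; exact h⟩
      · intro h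
        rw [IsRoot.def, Polynomial.eval_sub, eval_X, sub_eq_zero, PerPts_eval] at h
        apply hx
        rw [hP]
        refine ⟨N * q, Nat.mul_pos hN1 (by omega), ?_⟩
        rw [PerPts_eval, Function.iterate_mul]
        have h1 : (fun y => f.eval y)^[N] = fun y => G.eval y := by
          funext y
          rw [hG, PerPts_eval]
        rw [h1]
        exact h
  have hd1 : (itp G q - X).natDegree = G.natDegree ^ q := by
    have h1 : G.natDegree ^ 1 ≤ G.natDegree ^ q := Nat.pow_le_pow_right (by omega) (by omega)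
    rw [pow_one] at h1
    rw [natDegree_sub_eq_left_of_natDegree_lt, PerPts_deg]
    rw [natDegree_X, PerPts_deg]
    omega
  have hd2 : (G - X).natDegree = G.natDegree :=
    natDegree_sub_eq_left_of_natDegree_lt (by rw [natDegree_X]; omega)
  have h1 := (IsAlgClosed.splits (itp G q - X)).natDegree_eq_card_roots
  have h2 := (IsAlgClosed.splits (G - X)).natDegree_eq_card_roots
  rw [hroots, ← h2, hd1, hd2] at h1
  have h3 : G.natDegree ^ 2 ≤ G.natDegree ^ q := Nat.pow_le_pow_right (by omega) (by omega)
  have h4 : G.natDegree * 2 ≤ G.natDegree * G.natDegree := Nat.mul_le_mul_left _ hGd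
  rw [pow_two] at h3
  omega

end Pool.Agent.MSC
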