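import Pool.Agent.MSC.TwoV
import Pool.Agent.MSC.Cases
import Pool.Agent.MSC.PerPts
import Pool.Agent.PrepH.FinComm

/-!
# Invariant irreducible polynomials
-/

namespace Pool.Agent.MSC

open Pool.Agent.PrepH

variable {F : Type*} [Field F] [IsAlgClosed F] [CharZero F] {n : ℕ}

omit [IsAlgClosed F] [CharZero F] in
private theorem MSn_vars_dvd {K E : MvPolynomial (Fin n) F} (h : K ∣ E) (hE : E ≠ 0) :
    K.vars ⊆ E.vars := by
  classical
  obtain ⟨L, rfl⟩ := h
  intro i hi
  rw [MvPolynomial.mem_vars_iff_degreeOf_ne_zero] at hi ⊢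
  rw [MvPolynomial.degreeOf_mul_eq (left_ne_zero_of_mul hE) (right_ne_zero_of_mul hE)]
  omega

omit [IsAlgClosed F] [CharZero F] in
private theorem MSn_coeff (i : Fin n) (g : Polynomial F) (m : Fin n →₀ ℕ) :
    (Polynomial.aeval (MvPolynomial.X i : MvPolynomial (Fin n) F) g).coeff m =
      ∑ k ∈ Finset.range (g.natDegree + 1), if Finsupp.single i k = m then g.coeff k else 0 := by
  classical
  rw [Polynomial.aeval_eq_sum_range, MvPolynomial.coeff_sum]
  refine Finset.sum_congr rfl fun k _ => ?_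
  rw [MvPolynomial.coeff_smul, MvPolynomial.coeff_X_pow]
  split_ifs with h
  · rw [smul_eq_mul, mul_one]
  · rw [smul_zero]

private theorem MSn_coeff_self (i : Fin n) (g : Polynomial F) :
    (Polynomial.aeval (MvPolynomial.X i : MvPolynomial (Fin n) F) g).coeff
      (Finsupp.single i g.natDegree) = g.coeff g.natDegree := by
  classical
  rw [MSn_coeff, Finset.sum_eq_single g.natDegree]
  · rw [if_pos rfl]
  · intro k _ hk
    rw [if_neg]
    intro h
    exact hk (Finsupp.single_injective i h)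
  · intro h
    exact absurd (Finset.mem_range.2 (Nat.lt_succ_self _)) h

private theorem MSn_coeff_other {i j : Fin n} (hij : i ≠ j) (g : Polynomial F) :
    (Polynomial.aeval (MvPolynomial.X i : MvPolynomial (Fin n) F) g).coeff
      (Finsupp.single j 1) = 0 := by
  classical
  rw [MSn_coeff]
  refine Finset.sum_eq_zero fun k _ => if_neg ?_
  intro h
  have h1 := DFunLike.congr_fun h j
  rw [Finsupp.single_eq_same, Finsupp.single_eq_of_ne hij.symm] at h1
  exact absurd h1 (by norm_num)

private theorem MSn_gr_i {i j : Fin n} (hij : i ≠ j) {g : Polynomial F} (hg : 1 ≤ g.natDegree) :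
    Finsupp.single i g.natDegree ∈ (MvPolynomial.X j -
      Polynomial.aeval (MvPolynomial.X i) g : MvPolynomial (Fin n) F).support := by
  classical
  rw [MvPolynomial.mem_support_iff, MvPolynomial.coeff_sub, MSn_coeff_self,
    MvPolynomial.coeff_X, if_neg, zero_sub]
  · rw [neg_ne_zero]
    have hg0 : g ≠ 0 := by
      rintro rfl
      rw [Polynomial.natDegree_zero] at hg
      omega
    exact Polynomial.leadingCoeff_ne_zero.2 hg0
  · intro h
    have h1 := DFunLike.congr_fun h j
    rw [Finsupp.single_eq_same, Finsupp.single_eq_of_ne hij.symm] at h1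
    exact absurd h1 (by norm_num)

private theorem MSn_gr_vars {i j : Fin n} (hij : i ≠ j) {g : Polynomial F}
    (hg : 1 ≤ g.natDegree) :
    i ∈ (MvPolynomial.X j - Polynomial.aeval (MvPolynomial.X i) g :
      MvPolynomial (Fin n) F).vars ∧
    j ∈ (MvPolynomial.X j - Polynomial.aeval (MvPolynomial.X i) g :
      MvPolynomial (Fin n) F).vars := by
  classical
  constructor
  · rw [MvPolynomial.mem_vars_iff_mem_support]
    refine ⟨_, MSn_gr_i hij hg, ?_⟩
    rw [Finsupp.mem_support_iff, Finsupp.single_eq_same]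
    omega
  · rw [MvPolynomial.mem_vars_iff_mem_support]
    refine ⟨Finsupp.single j 1, ?_, ?_⟩
    · rw [MvPolynomial.mem_support_iff, MvPolynomial.coeff_sub, MSn_coeff_other hij, sub_zero,
        MvPolynomial.coeff_X, if_pos rfl]
      exact one_ne_zero
    · rw [Finsupp.mem_support_iff, Finsupp.single_eq_same]
      exact one_ne_zero

private theorem MSn_gr_deg {i j : Fin n} (hij : i ≠ j) {g : Polynomial F}
    (hg : 1 ≤ g.natDegree) : g.natDegree ≤ (MvPolynomial.X j -
      Polynomial.aeval (MvPolynomial.X i) g : MvPolynomial (Fin n) F).totalDegree := by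
  have h := MvPolynomial.le_totalDegree (MSn_gr_i (F := F) hij hg)
  rwa [Finsupp.sum_single_index rfl] at h

private theorem MSn_pt_vars (i : Fin n) (c : F) :
    i ∈ (MvPolynomial.X i - MvPolynomial.C c : MvPolynomial (Fin n) F).vars := by
  classical
  rw [MvPolynomial.mem_vars_iff_mem_support]
  refine ⟨Finsupp.single i 1, ?_, ?_⟩
  · rw [MvPolynomial.mem_support_iff, MvPolynomial.coeff_sub, MvPolynomial.coeff_X, if_pos rfl,
      MvPolynomial.coeff_C, if_neg, sub_zero]
    · exact one_ne_zero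
    · intro h
      have h1 := DFunLike.congr_fun h i
      rw [Finsupp.single_eq_same, Finsupp.coe_zero, Pi.zero_apply] at h1
      exact absurd h1 (by norm_num)
  · rw [Finsupp.mem_support_iff, Finsupp.single_eq_same]
    exact one_ne_zero

omit [IsAlgClosed F] [CharZero F] in
private theorem MSn_gr_nonunit (i j : Fin n) (hij : i ≠ j) (g : Polynomial F) :
    ¬ IsUnit (MvPolynomial.X j - Polynomial.aeval (MvPolynomial.X i) g :
      MvPolynomial (Fin n) F) := by
  classical
  intro h
  have h1 := h.map (MvPolynomial.eval (Function.update (0 : Fin n → F) j (g.eval 0)))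
  have h2 : MvPolynomial.eval (Function.update (0 : Fin n → F) j (g.eval 0))
      (MvPolynomial.X j - Polynomial.aeval (MvPolynomial.X i) g) = 0 := by
    rw [map_sub, MvPolynomial.eval_X, Function.update_self]
    have h3 : MvPolynomial.eval (Function.update (0 : Fin n → F) j (g.eval 0))
        (Polynomial.aeval (MvPolynomial.X i) g) = g.eval 0 := by
      rw [Polynomial.aeval_def, Polynomial.hom_eval₂, MvPolynomial.eval_X,
        Function.update_of_ne hij]
      have h4 : (MvPolynomial.eval (Function.update (0 : Fin n → F) j (g.eval 0))).comp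
          (algebraMap F (MvPolynomial (Fin n) F)) = RingHom.id F := by
        ext a
        simp [MvPolynomial.algebraMap_eq]
      rw [h4, Polynomial.eval₂_id]
      rfl
    rw [h3, sub_self]
  rw [h2] at h1
  exact not_isUnit_zero h1

/-- The alternatives for one specialisation. -/
private theorem MSn_special {f : Polynomial F} {H : MvPolynomial (Fin n) F} {r : ℕ} (hr : 1 ≤ r)
    (h : H ∣ sub (itp f r) H) {i₀ : Fin n} (hi₀ : i₀ ∈ H.vars)
    (IH : ∀ K : MvPolynomial (Fin n) F, Irreducible K → ∀ r : ℕ, 1 ≤ r → K ∣ sub (itp f r) K →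
      K.vars.card < H.vars.card →
      (∃ (i : Fin n) (c : F), Associated K (MvPolynomial.X i - MvPolynomial.C c)) ∨
      (∃ i j : Fin n, i ≠ j ∧ ∃ g : Polynomial F, 1 ≤ g.natDegree ∧ CommIter f g ∧
        Associated K (MvPolynomial.X j - Polynomial.aeval (MvPolynomial.X i) g)))
    {c : F} {rc : ℕ} (hrc : 1 ≤ rc) (hc : (itp f rc).eval c = c)
    (hne : ev0 i₀ c H ≠ 0) (hu : ¬ IsUnit (ev0 i₀ c H)) :
    (∃ i : Fin n, i ≠ i₀ ∧ ∃ ζ : F, (MvPolynomial.X i - MvPolynomial.C ζ) ∣ ev0 i₀ c H) ∨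
    (∃ i j : Fin n, i ≠ j ∧ i ≠ i₀ ∧ j ≠ i₀ ∧ ∃ g : Polynomial F, 1 ≤ g.natDegree ∧
      g.natDegree ≤ H.totalDegree ∧ CommIter f g ∧
      (MvPolynomial.X j - Polynomial.aeval (MvPolynomial.X i) g) ∣ ev0 i₀ c H) := by
  classical
  have hG : (itp f (r * rc)).eval c = c := by
    have h1 : ev (itp f (r * rc)) c = c := by
      rw [ev_itp, mul_comm, Function.iterate_mul]
      refine Function.iterate_fixed ?_ r
      rw [← ev_itp]
      exact hc
    exact h1
  have hdvd : ev0 i₀ c H ∣ sub (itp f (r * rc)) (ev0 i₀ c H) :=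
    ev0_dvd (dvd_sub_itp_mul h rc) i₀ hG
  obtain ⟨K, hK, hKE, r', hr', hKr⟩ := exists_per_factor hne hu hdvd
  rw [itp_mul] at hKr
  have hKv : K.vars ⊆ H.vars.erase i₀ := (MSn_vars_dvd hKE hne).trans (vars_ev0 i₀ c H)
  have hcard : K.vars.card < H.vars.card :=
    (Finset.card_le_card hKv).trans_lt (Finset.card_erase_lt_of_mem hi₀)
  have hpos : 1 ≤ r * rc * r' := by
    have := Nat.mul_pos (Nat.mul_pos hr hrc) hr'
    omega
  rcases IH K hK _ hpos hKr hcard with ⟨i, ζ, hA⟩ | ⟨i, j, hij, g, hg, hcomm, hA⟩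
  · left
    have hi : i ∈ K.vars := MSn_vars_dvd hA.symm.dvd hK.ne_zero (MSn_pt_vars i ζ)
    exact ⟨i, (Finset.mem_erase.1 (hKv hi)).1, ζ, hA.symm.dvd.trans hKE⟩
  · right
    have hv := MSn_gr_vars (F := F) hij hg
    have hi : i ∈ K.vars := MSn_vars_dvd hA.symm.dvd hK.ne_zero hv.1
    have hj : j ∈ K.vars := MSn_vars_dvd hA.symm.dvd hK.ne_zero hv.2
    have hd := hA.symm.dvd.trans hKE
    refine ⟨i, j, hij, (Finset.mem_erase.1 (hKv hi)).1, (Finset.mem_erase.1 (hKv hj)).1, g, hg,
      ?_, hcomm, hd⟩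
    exact (MSn_gr_deg hij hg).trans ((MvPolynomial.totalDegree_le_of_dvd_of_isDomain hd hne).trans
      (totalDegree_ev0 i₀ c H))

/-- **PROOF.** Induction on the number of variables of `H`. No variable: `H` is constant, not irreducible. One
or two variables: `one_var`, `two_var`. Let `H` have at least three variables, `i₀` one of them. The set
of the periodic `c` (`infinite_periodic`), without the finitely many with `ev0 i₀ c H` a unit or `0`
(`ev0_nonunit`), is infinite. For such a `c`, `(itp f r_c).eval c = c`, let `G = itp f (r * r_c)`: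
`G.eval c = c`, `H ∣ sub G H` (`dvd_sub_itp_mul`), `ev0_dvd` and `exists_per_factor` give an irreducible factor
`K_c` of `ev0 i₀ c H` with `K_c ∣ sub (itp f (r r_c r')) K_c` (`itp_mul`), with fewer variables (`vars_ev0`;
variables of a factor). By induction `K_c` is associated to `X i - ζ` (with `i ≠ i₀`), or to
`X j - g(X i)`, `i, j ≠ i₀`, `natDegree g ≤ totalDegree (ev0 i₀ c H) ≤ totalDegree H`: by
`finite_comm` there are only finitely many such `g`. So by the pigeonhole principle one of the following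
holds: for a fixed `i`, infinitely many `c` are of the first kind, against `caseB` (with `l` a third variable of
`H`); or for fixed `i, j, g` infinitely many `c` of the second kind; then `X j - g(X i)` divides `H`
by `caseA`, so `H` is associated to it and has at most two variables, contradiction. -/
theorem ms_poly {f : Polynomial F} (hf : 2 ≤ f.natDegree) (hsp : ¬ Special f)
    {H : MvPolynomial (Fin n) F} (hH : Irreducible H) {r : ℕ} (hr : 1 ≤ r)
    (h : H ∣ sub (itp f r) H) :
    (∃ (i : Fin n) (c : F), Associated H (MvPolynomial.X i - MvPolynomial.C c)) ∨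
    (∃ i j : Fin n, i ≠ j ∧ ∃ g : Polynomial F, 1 ≤ g.natDegree ∧ CommIter f g ∧
      Associated H (MvPolynomial.X j - Polynomial.aeval (MvPolynomial.X i) g)) := by
  classical
  suffices hmain : ∀ N : ℕ, ∀ H : MvPolynomial (Fin n) F, Irreducible H → ∀ r : ℕ, 1 ≤ r →
      H ∣ sub (itp f r) H → H.vars.card = N →
      (∃ (i : Fin n) (c : F), Associated H (MvPolynomial.X i - MvPolynomial.C c)) ∨
      (∃ i j : Fin n, i ≠ j ∧ ∃ g : Polynomial F, 1 ≤ g.natDegree ∧ CommIter f g ∧
        Associated H (MvPolynomial.X j - Polynomial.aeval (MvPolynomial.X i) g)) from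
    hmain _ H hH r hr h rfl
  intro N
  induction N using Nat.strong_induction_on with
  | _ N ih =>
  intro H hH r hr h hN
  by_cases h0 : H.vars = ∅
  · exfalso
    have h1 := MvPolynomial.vars_eq_empty_iff_eq_C.1 h0
    by_cases hc : H.coeff 0 = 0
    · rw [hc, map_zero] at h1
      exact hH.ne_zero h1
    · apply hH.not_isUnit
      rw [h1]
      exact (isUnit_iff_ne_zero.2 hc).map MvPolynomial.C
  obtain ⟨i₀, hi₀⟩ := Finset.nonempty_iff_ne_empty.2 h0
  have : Nonempty (Fin n) := ⟨i₀⟩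
  by_cases hle1 : H.vars.card ≤ 1
  · obtain ⟨i, hi⟩ := Finset.card_le_one_iff_subset_singleton.1 hle1
    obtain ⟨c, hc⟩ := one_var hH hi
    exact Or.inl ⟨i, c, hc⟩
  by_cases h2 : H.vars.card = 2
  · obtain ⟨i, j, hij, hv⟩ := Finset.card_eq_two.1 h2
    obtain ⟨g, hg, hcomm, hA | hA⟩ := two_var hf hsp hH hij hv hr h
    · exact Or.inr ⟨i, j, hij, g, hg, hcomm, hA⟩
    · exact Or.inr ⟨j, i, hij.symm, g, hg, hcomm, hA⟩
  have h3 : 3 ≤ H.vars.card := by omega
  have hX : ¬ LinConj f (Polynomial.X ^ f.natDegree) := fun hl => hsp (Or.inl hl)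
  -- the finite set of possible `g`
  set GS : Set (Polynomial F) := {g | 1 ≤ g.natDegree ∧ g.natDegree ≤ H.totalDegree ∧
    CommIter f g} with hGS
  have hGSfin : GS.Finite := by
    have h4 : GS ⊆ ⋃ e ∈ Finset.Icc 1 H.totalDegree, {g : Polynomial F | g.natDegree = e ∧
        CommIter f g} := by
      intro g hg
      rw [Set.mem_iUnion₂]
      exact ⟨g.natDegree, Finset.mem_Icc.2 ⟨hg.1, hg.2.1⟩, rfl, hg.2.2⟩
    refine Set.Finite.subset ?_ h4
    refine Set.Finite.biUnion (Finset.finite_toSet _) fun e he => ?_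
    exact finite_comm hf hX e (Finset.mem_Icc.1 he).1
  set B : Fin n → Fin n → Polynomial F → Set F := fun i j g =>
    {c : F | (MvPolynomial.X j - Polynomial.aeval (MvPolynomial.X i) g) ∣ ev0 i₀ c H} with hB
  by_cases hex : ∃ i j : Fin n, i ≠ j ∧ i ≠ i₀ ∧ j ≠ i₀ ∧ ∃ g ∈ GS, (B i j g).Infinite
  · obtain ⟨i, j, hij, hi, hj, g, hg, hinf⟩ := hex
    have hd := caseA hij hi hj g hinf
    right
    refine ⟨i, j, hij, g, hg.1, hg.2.2, ?_⟩
    exact (hH.dvd_iff.1 hd).resolve_left (MSn_gr_nonunit i j hij g)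
  exfalso
  have hBfin : ∀ i j : Fin n, i ≠ j → i ≠ i₀ → j ≠ i₀ → ∀ g ∈ GS, (B i j g).Finite := by
    intro i j hij hi hj g hg
    by_contra hcon
    exact hex ⟨i, j, hij, hi, hj, g, hg, hcon⟩
  set A : Fin n → Set F := fun i =>
    {c : F | ∃ ζ : F, (MvPolynomial.X i - MvPolynomial.C ζ) ∣ ev0 i₀ c H} with hA
  have hAfin : ∀ i : Fin n, i ≠ i₀ → (A i).Finite := by
    intro i hi
    have h4 : ∃ l ∈ H.vars, l ≠ i₀ ∧ l ≠ i := by
      by_contra hcon
      push Not at hcon
      have h5 : H.vars ⊆ {i₀, i} := by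
        intro l hl
        by_cases hli : l = i₀
        · rw [hli]
          exact Finset.mem_insert_self _ _
        · exact Finset.mem_insert.2 (Or.inr (Finset.mem_singleton.2 (hcon l hl hli)))
      have h6 := (Finset.card_le_card h5).trans Finset.card_le_two
      omega
    obtain ⟨l, hl, hl0, hli⟩ := h4
    by_contra hcon
    exact caseB hH hi hl0 hli hl hcon
  obtain ⟨l, hl, hl0⟩ : ∃ l ∈ H.vars, l ≠ i₀ := by
    by_contra hcon
    push Not at hcon
    have h5 : H.vars ⊆ {i₀} := fun l hl => Finset.mem_singleton.2 (hcon l hl)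
    have h6 := Finset.card_le_card h5
    rw [Finset.card_singleton] at h6
    omega
  have hbad := ev0_nonunit (H := H) (i₀ := i₀) hl0 hl
  have hcover : {c : F | ∃ r : ℕ, 1 ≤ r ∧ (itp f r).eval c = c} ⊆
      {c : F | IsUnit (ev0 i₀ c H) ∨ ev0 i₀ c H = 0} ∪
      ((⋃ i ∈ {i : Fin n | i ≠ i₀}, A i) ∪
        ⋃ i ∈ {i : Fin n | i ≠ i₀}, ⋃ j ∈ {j : Fin n | i ≠ j ∧ j ≠ i₀}, ⋃ g ∈ GS, B i j g) := by
    rintro c ⟨rc, hrc, hc⟩
    by_cases hb : IsUnit (ev0 i₀ c H) ∨ ev0 i₀ c H = 0
    · exact Or.inl hb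
    push Not at hb
    refine Or.inr ?_
    rcases MSn_special hr h hi₀ (fun K hK r' hr' hKr hcard => ih _ (hN ▸ hcard) K hK r' hr' hKr rfl)
      hrc hc hb.2 hb.1 with ⟨i, hi, ζ, hd⟩ | ⟨i, j, hij, hi, hj, g, hg, hgd, hcomm, hd⟩
    · left
      rw [Set.mem_iUnion₂]
      exact ⟨i, hi, ζ, hd⟩
    · right
      rw [Set.mem_iUnion₂]
      refine ⟨i, hi, ?_⟩
      rw [Set.mem_iUnion₂]
      refine ⟨j, ⟨hij, hj⟩, ?_⟩
      rw [Set.mem_iUnion₂]
      exact ⟨g, ⟨hg, hgd, hcomm⟩, hd⟩
  refine infinite_periodic hf (Set.Finite.subset ?_ hcover)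
  refine hbad.union (Set.Finite.union ?_ ?_)
  · exact Set.Finite.biUnion (Set.toFinite _) fun i hi => hAfin i hi
  · refine Set.Finite.biUnion (Set.toFinite _) fun i hi => ?_
    refine Set.Finite.biUnion (Set.toFinite _) fun j hj => ?_
    exact Set.Finite.biUnion hGSfin fun g hg => hBfin i j hj.1 hi hj.2 g hg

end Pool.Agent.MSC
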