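import Pool.Agent.MSC.FamK
import Pool.Agent.MSC.Cnt6

/-!
# Periodic curves are graphs
-/

namespace Pool.Agent.MSC

open Polynomial IntermediateField Pool.Agent.PrepH

variable {F : Type*} [Field F] [IsAlgClosed F] [CharZero F]

variable {E : Type*} [Field E] [Algebra F E]

omit [IsAlgClosed F] [CharZero F] in
private theorem Main2_inj {u : E} (hu : Transcendental F u) {p q : F[X]}
    (h : aeval u p = aeval u q) : p = q :=
  (transcendental_iff_injective.1 hu) h

omit [IsAlgClosed F] [CharZero F] in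
private theorem Main2_trans_of_ord {U : Om F} (hU : U.ord < 0) : Transcendental F U := by
  rw [transcendental_iff]
  intro p hp
  by_contra h0
  exact (aeval_ord hU h0).1 hp

omit [IsAlgClosed F] [CharZero F] in
/-- the graph case: `P` is linear. -/
private theorem Main2_graph {X Y u : E} {P Q : F[X]} (hX : X = aeval u P) (hY : Y = aeval u Q)
    (hP : P.natDegree = 1) : ∃ g : F[X], Y = aeval X g := by
  obtain ⟨a, ha, b, hab⟩ := Polynomial.natDegree_eq_one.1 hP
  refine ⟨Q.comp (C a⁻¹ * (Polynomial.X - C b)), ?_⟩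
  rw [hY, aeval_comp]
  congr 1
  rw [hX, ← hab]
  simp only [map_mul, map_sub, map_add, aeval_C, aeval_X, add_sub_cancel_right]
  rw [← mul_assoc, ← map_mul, inv_mul_cancel₀ ha, map_one, one_mul]

omit [IsAlgClosed F] [CharZero F] in
/-- algebraic dependence of two polynomials. -/
private theorem Main2_dep (P Q : F[X]) :
    ∃ H : MvPolynomial (Fin 2) F, H ≠ 0 ∧ MvPolynomial.aeval ![P, Q] H = 0 := by
  by_contra hcon
  push Not at hcon
  have hind : AlgebraicIndependent F ![P, Q] := by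
    rw [algebraicIndependent_iff]
    intro p hp
    by_contra h0
    exact hcon p h0 hp
  have h1 := hind.lift_cardinalMk_le_trdeg
  rw [Polynomial.trdeg_of_isDomain] at h1
  simp at h1

omit [IsAlgClosed F] [CharZero F] in
private theorem Main2_ord_dvd {g : ℕ} (hg : 0 < g) {Z₁ Z₂ : Om F} (z₁ z₂ : Om F)
    (h₁ : Z₁ = exm g hg z₁) (h₂ : Z₂ = exm g hg z₂) (M : MvPolynomial (Fin 2) F) :
    ∃ w : Om F, MvPolynomial.aeval ![Z₁, Z₂] M = exm g hg w := by
  refine ⟨MvPolynomial.aeval ![z₁, z₂] M, ?_⟩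
  have h : (MvPolynomial.aeval ![Z₁, Z₂] : MvPolynomial (Fin 2) F →ₐ[F] Om F) =
      (exm g hg).comp (MvPolynomial.aeval ![z₁, z₂]) := by
    apply MvPolynomial.algHom_ext
    intro i
    fin_cases i
    · simp [h₁]
    · simp [h₂]
  rw [h]
  rfl

omit [IsAlgClosed F] [CharZero F] in
/-- evaluation of a polynomial in `P`, `Q` at `u`. -/
private theorem Main2_ev {A : Type*} [CommRing A] [Algebra F A] (u : A) (P Q : F[X])
    (M : MvPolynomial (Fin 2) F) :
    MvPolynomial.aeval ![aeval u P, aeval u Q] M = aeval u (MvPolynomial.aeval ![P, Q] M) := by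
  have h : (MvPolynomial.aeval ![aeval u P, aeval u Q] : MvPolynomial (Fin 2) F →ₐ[F] A) =
      (aeval u).comp (MvPolynomial.aeval ![P, Q]) := by
    apply MvPolynomial.algHom_ext
    intro i
    fin_cases i
    · simp
    · simp
  rw [h]
  rfl

omit [IsAlgClosed F] [CharZero F] in
private theorem Main2_coprime {X Y u : E} (hu : Transcendental F u) {P Q : F[X]}
    (hX : X = aeval u P) (hY : Y = aeval u Q)
    (htop : IntermediateField.adjoin F {X, Y} = ⊤) {U : Om F} (hU : U.ord = -1) {a b : ℕ}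
    (hb : 0 < b) (ha : 0 < a) {ξ η : Om F} (hξ : exm b hb ξ = aeval U P)
    (hη : exm a ha η = aeval U Q) : Nat.Coprime a b := by
  obtain ⟨g, hg⟩ : ∃ g, g = Nat.gcd a b := ⟨_, rfl⟩
  have hg0 : 0 < g := by
    rw [hg]
    exact Nat.gcd_pos_of_pos_left _ ha
  obtain ⟨a', ha'⟩ : g ∣ a := by
    rw [hg]
    exact Nat.gcd_dvd_left _ _
  obtain ⟨b', hb'⟩ : g ∣ b := by
    rw [hg]
    exact Nat.gcd_dvd_right _ _
  have ha'0 : 0 < a' := Nat.pos_of_ne_zero (by rintro rfl; simp at ha'; omega)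
  have hb'0 : 0 < b' := Nat.pos_of_ne_zero (by rintro rfl; simp at hb'; omega)
  have e₁ : aeval U P = exm g hg0 (exm b' hb'0 ξ) := by
    rw [exm_exm, ← hξ]
    congr 1
    subst hb'
    rfl
  have e₂ : aeval U Q = exm g hg0 (exm a' ha'0 η) := by
    rw [exm_exm, ← hη]
    congr 1
    subst ha'
    rfl
  have hmem : u ∈ IntermediateField.adjoin F (Set.range ![X, Y]) := by
    have h1 : Set.range ![X, Y] = {X, Y} := by
      ext z
      simp [Matrix.range_cons, or_comm]
    rw [h1, htop]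
    trivial
  obtain ⟨r, s, hrs⟩ := (IntermediateField.mem_adjoin_range_iff F ![X, Y] u).1 hmem
  have hs0 : MvPolynomial.aeval ![X, Y] s ≠ 0 := by
    intro h0
    rw [h0, div_zero] at hrs
    apply hu
    rw [hrs]
    exact isAlgebraic_zero
  rw [eq_div_iff hs0, hX, hY, Main2_ev, Main2_ev] at hrs
  rw [hX, hY, Main2_ev] at hs0
  have hpoly : Polynomial.X * MvPolynomial.aeval ![P, Q] s = MvPolynomial.aeval ![P, Q] r := by
    apply Main2_inj hu
    rw [map_mul, aeval_X]
    exact hrs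
  have hs1 : MvPolynomial.aeval ![P, Q] s ≠ 0 := by
    intro h0
    rw [h0, map_zero] at hs0
    exact hs0 rfl
  have hUneg : U.ord < 0 := by rw [hU]; norm_num
  have hU0 : U ≠ 0 := by
    rintro rfl
    rw [ord_zero] at hU
    norm_num at hU
  have hev : U * aeval U (MvPolynomial.aeval ![P, Q] s) =
      aeval U (MvPolynomial.aeval ![P, Q] r) := by
    rw [← hpoly, map_mul, aeval_X]
  have hsU := (aeval_ord hUneg hs1).1
  obtain ⟨w₁, hw₁⟩ := Main2_ord_dvd hg0 _ _ e₁ e₂ s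
  obtain ⟨w₂, hw₂⟩ := Main2_ord_dvd hg0 _ _ e₁ e₂ r
  rw [Main2_ev] at hw₁ hw₂
  have hord := congrArg Om.ord hev
  rw [ord_mul hU0 hsU, hw₁, hw₂, exm_ord, exm_ord, hU] at hord
  have hdvd : (g : ℤ) ∣ 1 := ⟨w₁.ord - w₂.ord, by linarith⟩
  have hg1 : g = 1 := by
    have := Int.natCast_dvd_natCast.1 (by simpa using hdvd : ((g : ℕ) : ℤ) ∣ ((1 : ℕ) : ℤ))
    exact Nat.dvd_one.1 this
  rw [Nat.Coprime, ← hg, hg1]

/-- **PROOF.** `param` gives `u, P, Q, h` with `E = F(u)`; `u` is transcendental. Let `b = natDegree P`,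
`a = natDegree Q`, `D = natDegree G = natDegree h`; `G.comp P = P.comp h`, `G.comp Q = Q.comp h`.

If `b = 1`, `u` is a linear polynomial in `X`, and `Y = Q(u)` is a polynomial in `X`; the case `a = 1` is the same. Suppose
`a, b ≥ 2`. Let `U` be given by `exists_bottcher` for `h`. `P(U)` has order `- b` and
`G(P(U)) = P(h(U)) = exm D (P(U))`; by `exists_root_of_semiconj` `P(U) = exm b ξ`,
`Q(U) = exm a η`, where `ξ`, `η` are solutions for `G`; by `bottcher_unique`, `η = scal κ ξ` with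
`κ^(D - 1) = 1`. `gcd(a, b) = 1`: let `g` be the gcd. `F(u) → Om F`, `u ↦ U`, maps
`F(u) = F(X, Y)` into the field of the series with exponents divisible by `g` (the range of `exm g`), and `U`
has order `- 1`. The relation between `X = P(u)` and `Y = Q(u)` (the resultant; `P(u)` and `Q(u)` are
algebraically dependent) gives `Rel ξ b a κ`. By `rel_pow` (with `N = D - 1`) and `common_of_rel`
there are commutative squares with degrees `a^(j + 1)`, `b^(j + 1)` for all `j`; for large `j` this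
contradicts `no_common`. -/
theorem graph_of_semiconj {X Y : E} (hX : Transcendental F X) (hY : Transcendental F Y)
    [FiniteDimensional F⟮X⟯ E] [FiniteDimensional F⟮Y⟯ E] (htop : IntermediateField.adjoin F {X, Y} = ⊤)
    {G : F[X]} (hG : 2 ≤ G.natDegree) {Φ : E →ₐ[F] E} (hΦX : Φ X = aeval X G)
    (hΦY : Φ Y = aeval Y G) (hsp : ∀ r : ℕ, 1 ≤ r → ¬ Special (itp G r)) :
    (∃ g : F[X], Y = aeval X g) ∨ ∃ g : F[X], X = aeval Y g := by
  obtain ⟨u, P, Q, h, hutop, hXu, hYu, hΦu⟩ := param hX hY hG hΦX hΦY hsp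
  have hu : Transcendental F u := by
    have h1 : Transcendental F (aeval u P) := hXu ▸ hX
    exact (transcendental_aeval_iff.1 h1).1
  have hGP : G.comp P = P.comp h := by
    apply Main2_inj hu
    rw [aeval_comp, aeval_comp, ← hXu, ← hΦu, aeval_algHom_apply, ← hXu, hΦX]
  have hGQ : G.comp Q = Q.comp h := by
    apply Main2_inj hu
    rw [aeval_comp, aeval_comp, ← hYu, ← hΦu, aeval_algHom_apply, ← hYu, hΦY]
  obtain ⟨D, hD⟩ : ∃ D, D = G.natDegree := ⟨_, rfl⟩
  have hD2 : 2 ≤ D := hD ▸ hG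
  have hD0 : 0 < D := by omega
  obtain ⟨b, hb⟩ : ∃ b, b = P.natDegree := ⟨_, rfl⟩
  obtain ⟨a, ha⟩ : ∃ a, a = Q.natDegree := ⟨_, rfl⟩
  have hb0 : 0 < b := by
    by_contra h0
    have h1 : P.natDegree = 0 := by omega
    obtain ⟨c, hc⟩ := Polynomial.natDegree_eq_zero.1 h1
    apply hX
    rw [hXu, ← hc, aeval_C]
    exact isAlgebraic_algebraMap c
  have ha0 : 0 < a := by
    by_contra h0
    have h1 : Q.natDegree = 0 := by omega
    obtain ⟨c, hc⟩ := Polynomial.natDegree_eq_zero.1 h1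
    apply hY
    rw [hYu, ← hc, aeval_C]
    exact isAlgebraic_algebraMap c
  have hhD : h.natDegree = D := by
    have h1 := congrArg Polynomial.natDegree hGP
    rw [natDegree_comp, natDegree_comp, ← hb, ← hD, mul_comm] at h1
    exact (Nat.eq_of_mul_eq_mul_left hb0 h1).symm
  by_cases hb1 : b = 1
  · left
    exact Main2_graph hXu hYu (hb ▸ hb1)
  by_cases ha1 : a = 1
  · right
    exact Main2_graph hYu hXu (ha ▸ ha1)
  exfalso
  obtain ⟨U, hU, hU2⟩ := exists_bottcher hD2 hhD hD0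
  have hUneg : U.ord < 0 := by rw [hU]; norm_num
  have hP0 : P ≠ 0 := by
    rintro rfl
    simp at hb
    omega
  have hQ0 : Q ≠ 0 := by
    rintro rfl
    simp at ha
    omega
  have hZP : (aeval U P).ord = -(b : ℤ) := by
    rw [(aeval_ord hUneg hP0).2, hU, ← hb]
    ring
  have hZQ : (aeval U Q).ord = -(a : ℤ) := by
    rw [(aeval_ord hUneg hQ0).2, hU, ← ha]
    ring
  have hZP2 : aeval (aeval U P) G = exm D hD0 (aeval U P) := by
    rw [← aeval_comp, hGP, aeval_comp, hU2, aeval_algHom_apply]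
  have hZQ2 : aeval (aeval U Q) G = exm D hD0 (aeval U Q) := by
    rw [← aeval_comp, hGQ, aeval_comp, hU2, aeval_algHom_apply]
  obtain ⟨ξ, hξ, hξ1, hξ2⟩ := exists_root_of_semiconj hD2 hD.symm hD0 hb0 hZP hZP2
  obtain ⟨η, hη, hη1, hη2⟩ := exists_root_of_semiconj hD2 hD.symm hD0 ha0 hZQ hZQ2
  obtain ⟨κ, hκ, hκη⟩ := bottcher_unique hD2 hD.symm hD0 hξ1 hη1 hξ2 hη2
  have hcop : Nat.Coprime a b := Main2_coprime hu hXu hYu htop hU hb0 ha0 hξ hη
  have hrel : Rel ξ b a hb0 ha0 κ := by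
    obtain ⟨H, hH0, hH⟩ := Main2_dep P Q
    refine ⟨H, hH0, ?_⟩
    rw [hξ, ← hκη, hη, Main2_ev, hH, map_zero]
  have hκb : κ ^ (b * (D - 1)) = 1 := by
    rw [mul_comm, pow_mul, hκ, one_pow]
  -- choose `j` with `100 D ≤ a ^ (j + 1), b ^ (j + 1)`
  obtain ⟨κ', hrel', hκ'⟩ := rel_pow hξ1 hb0 ha0 hrel hκb (100 * D)
  have hbig : ∀ n : ℕ, 2 ≤ n → 100 * D ≤ n ^ (100 * D + 1) := by
    intro n hn
    calc 100 * D ≤ 2 ^ (100 * D) := Nat.lt_two_pow_self.le
      _ ≤ 2 ^ (100 * D + 1) := Nat.pow_le_pow_right (by norm_num) (Nat.le_succ _)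
      _ ≤ n ^ (100 * D + 1) := Nat.pow_le_pow_left hn _
  obtain ⟨α, γ, P', Q', W, hα, hγ, hP', hQ', hc, h1, h2⟩ :=
    common_of_rel hD2 hD.symm hD0 hsp hξ1 hξ2 (Nat.pow_pos hb0) (Nat.pow_pos ha0)
      (Nat.Coprime.pow _ _ hcop) hκ' hrel'
  have hspG : ¬ Special G := by
    have h3 := hsp 1 le_rfl
    have h4 : itp G 1 = G := by
      show G.comp Polynomial.X = G
      exact comp_X
    rwa [h4] at h3
  refine no_common hG hspG (α := α) (γ := γ) (P := P') (Q := Q') (W := W) ?_ ?_ ?_ ?_ ?_ hc h1 h2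
  · rw [hα, ← hD]
    exact hbig a (by omega)
  · rw [hγ, ← hD]
    exact hbig b (by omega)
  · rw [hQ', hα]
  · rw [hP', hγ]
  · rw [hα, hγ]
    exact Nat.Coprime.pow _ _ hcop

end Pool.Agent.MSC
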