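import Pool.Agent.PrepH.Inf

/-!
# Values of multihomogenisations: multiplicativity
-/

namespace Pool.Agent.MSC

open Pool.Agent.PrepH

variable {F : Type*} [Field F] {n : ℕ}

private theorem Mval_cval_add (p : P1 F) (a b : ℕ) : cval p (a + b) = cval p a * cval p b := by
  cases p with
  | none => exact (one_mul 1).symm
  | some x => exact pow_add x a b

private theorem Mval_cval_zero (p : P1 F) : cval p 0 = 1 := by
  cases p with
  | none => rfl
  | some x => exact pow_zero x

/-- the value of a monomial, `0` if it is not of top degree `d` at infinity -/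
private noncomputable def Mval_w (P : Fin n → P1 F) (d : Fin n → ℕ) (m : Fin n →₀ ℕ) : F :=
  haveI := Classical.dec
  if ∀ i, P i = none → m i = d i then ∏ i, cval (P i) (m i) else 0

private noncomputable def Mval_L (P : Fin n → P1 F) (d : Fin n → ℕ) :
    MvPolynomial (Fin n) F →ₗ[F] F :=
  (MvPolynomial.basisMonomials (Fin n) F).constr F (Mval_w P d)

private theorem Mval_L_mon (P : Fin n → P1 F) (d : Fin n → ℕ) (m : Fin n →₀ ℕ) (c : F) :
    Mval_L P d (MvPolynomial.monomial m c) = c * Mval_w P d m := by
  have h1 : MvPolynomial.monomial m c = c • (MvPolynomial.basisMonomials (Fin n) F m) := by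
    rw [MvPolynomial.coe_basisMonomials, MvPolynomial.smul_monomial, smul_eq_mul, mul_one]
  rw [h1, map_smul, Mval_L, Module.Basis.constr_basis, smul_eq_mul]

private theorem Mval_L_sum (P : Fin n → P1 F) (d : Fin n → ℕ) (H : MvPolynomial (Fin n) F) :
    Mval_L P d H = ∑ m ∈ H.support, H.coeff m * Mval_w P d m := by
  conv_lhs => rw [← MvPolynomial.support_sum_monomial_coeff H]
  rw [map_sum]
  exact Finset.sum_congr rfl fun m _ => Mval_L_mon P d m _

private theorem Mval_eq (P : Fin n → P1 F) (H : MvPolynomial (Fin n) F) :
    mval H P = Mval_L P (fun i => H.degreeOf i) H := by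
  classical
  rw [Mval_L_sum, mval, Finset.sum_filter]
  refine Finset.sum_congr rfl fun m _ => ?_
  unfold Mval_w
  split_ifs
  · rfl
  · rw [mul_zero]

private theorem Mval_w_add (P : Fin n → P1 F) {d e : Fin n → ℕ} {a b : Fin n →₀ ℕ}
    (ha : ∀ i, a i ≤ d i) (hb : ∀ i, b i ≤ e i) :
    Mval_w P (fun i => d i + e i) (a + b) = Mval_w P d a * Mval_w P e b := by
  classical
  unfold Mval_w
  by_cases h1 : ∀ i, P i = none → a i = d i
  · by_cases h2 : ∀ i, P i = none → b i = e i
    · rw [if_pos h1, if_pos h2, if_pos, ← Finset.prod_mul_distrib]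
      · refine Finset.prod_congr rfl fun i _ => ?_
        rw [Finsupp.add_apply, Mval_cval_add]
      · intro i hi
        rw [Finsupp.add_apply, h1 i hi, h2 i hi]
    · rw [if_neg h2, mul_zero, if_neg]
      intro h
      apply h2
      intro i hi
      have h3 : (a + b) i = d i + e i := h i hi
      rw [Finsupp.add_apply] at h3
      have := ha i
      have := hb i
      omega
  · rw [if_neg h1, zero_mul, if_neg]
    intro h
    apply h1
    intro i hi
    have h3 : (a + b) i = d i + e i := h i hi
    rw [Finsupp.add_apply] at h3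
    have := ha i
    have := hb i
    omega

private theorem Mval_zero (P : Fin n → P1 F) : mval (0 : MvPolynomial (Fin n) F) P = 0 := by
  rw [Mval_eq, map_zero]

/-- **PROOF.** `degreeOf i (H * K) = degreeOf i H + degreeOf i K` for nonzero `H`, `K`
(`MvPolynomial.degreeOf_mul_eq` or similar). For an infinite coordinate `i`, a monomial of `H * K` with top degree in
`X i` arises only from monomials `m₁`, `m₂` of `H`, `K` with top degree. So the sum for `H * K` is the
product of the sums (sum over all pairs of monomials of `H` and `K`, `coeff_mul`, cancelling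
coefficients do no harm). -/
theorem mval_mul (H K : MvPolynomial (Fin n) F) (P : Fin n → P1 F) :
    mval (H * K) P = mval H P * mval K P := by
  classical
  by_cases hH : H = 0
  · rw [hH, zero_mul, Mval_zero, zero_mul]
  by_cases hK : K = 0
  · rw [hK, mul_zero, Mval_zero, mul_zero]
  have hd : (fun i => (H * K).degreeOf i) = fun i => H.degreeOf i + K.degreeOf i := by
    funext i
    exact MvPolynomial.degreeOf_mul_eq hH hK
  have hHK : H * K = ∑ a ∈ H.support, ∑ b ∈ K.support,
      MvPolynomial.monomial (a + b) (H.coeff a * K.coeff b) := by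
    conv_lhs => rw [← MvPolynomial.support_sum_monomial_coeff H,
      ← MvPolynomial.support_sum_monomial_coeff K]
    rw [Finset.sum_mul_sum]
    exact Finset.sum_congr rfl fun a _ => Finset.sum_congr rfl fun b _ =>
      MvPolynomial.monomial_mul
  rw [Mval_eq, Mval_eq P H, Mval_eq P K, hd, Mval_L_sum P _ H, Mval_L_sum P _ K, hHK, map_sum,
    Finset.sum_mul_sum]
  refine Finset.sum_congr rfl fun a ha => ?_
  rw [map_sum]
  refine Finset.sum_congr rfl fun b hb => ?_
  rw [Mval_L_mon, Mval_w_add P (fun i => MvPolynomial.monomial_le_degreeOf i ha)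
    (fun i => MvPolynomial.monomial_le_degreeOf i hb)]
  ring

theorem mval_C (c : F) (P : Fin n → P1 F) : mval (MvPolynomial.C c) P = c := by
  classical
  rw [Mval_eq, MvPolynomial.C_apply, Mval_L_mon]
  unfold Mval_w
  rw [if_pos]
  · rw [Finset.prod_eq_one fun i _ => ?_, mul_one]
    exact Mval_cval_zero _
  · intro i _
    show (0 : Fin n →₀ ℕ) i = MvPolynomial.degreeOf i (MvPolynomial.C c : MvPolynomial (Fin n) F)
    rw [MvPolynomial.degreeOf_C]
    rfl

theorem mval_X_sub_C (i : Fin n) (c : F) (P : Fin n → P1 F) :
    mval (MvPolynomial.X i - MvPolynomial.C c) P = 0 ↔ P i = some c := by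
  classical
  set q : MvPolynomial (Fin n) F := MvPolynomial.X i - MvPolynomial.C c with hq
  have hd1 : ∀ j, j ≠ i → q.degreeOf j = 0 := by
    intro j hj
    have h := MvPolynomial.degreeOf_sub_le j (MvPolynomial.X i) (MvPolynomial.C c : MvPolynomial (Fin n) F)
    rw [MvPolynomial.degreeOf_X, if_neg hj, MvPolynomial.degreeOf_C] at h
    simpa using h
  have hd2 : q.degreeOf i = 1 := by
    apply le_antisymm
    · have h := MvPolynomial.degreeOf_sub_le i (MvPolynomial.X i) (MvPolynomial.C c : MvPolynomial (Fin n) F)
      rw [MvPolynomial.degreeOf_X, if_pos rfl, MvPolynomial.degreeOf_C] at h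
      simpa using h
    · have hs : (Finsupp.single i 1 : Fin n →₀ ℕ) ∈ q.support := by
        have h0 : ¬ (0 : Fin n →₀ ℕ) = Finsupp.single i 1 := by
          intro h
          have := DFunLike.congr_fun h i
          simp at this
        rw [MvPolynomial.mem_support_iff, hq, MvPolynomial.coeff_sub, MvPolynomial.coeff_C,
          if_neg h0, sub_zero, MvPolynomial.coeff_X]
        simp
      have := MvPolynomial.monomial_le_degreeOf i hs
      simpa using this
  rw [Mval_eq, hq, map_sub, ← hq, MvPolynomial.C_apply, Mval_L_mon]
  rw [show (MvPolynomial.X i : MvPolynomial (Fin n) F) = MvPolynomial.monomial (Finsupp.single i 1) 1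
    from rfl, Mval_L_mon, one_mul]
  cases hP : P i with
  | none =>
    have e1 : Mval_w P (fun j => q.degreeOf j) (Finsupp.single i 1) = 1 := by
      unfold Mval_w
      rw [if_pos]
      · refine Finset.prod_eq_one fun j _ => ?_
        by_cases hj : j = i
        · subst hj
          rw [hP]
          rfl
        · rw [Finsupp.single_eq_of_ne hj]
          exact Mval_cval_zero _
      · intro j _
        by_cases hj : j = i
        · subst hj
          rw [Finsupp.single_eq_same]
          exact hd2.symm
        · rw [Finsupp.single_eq_of_ne hj]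
          exact (hd1 j hj).symm
    have e2 : Mval_w P (fun j => q.degreeOf j) 0 = 0 := by
      unfold Mval_w
      rw [if_neg]
      intro h
      have h5 : (0 : Fin n →₀ ℕ) i = q.degreeOf i := h i hP
      rw [hd2] at h5
      simp at h5
    rw [e1, e2, mul_zero, sub_zero]
    simp
  | some x =>
    have hcond : ∀ m : Fin n →₀ ℕ, (∀ j, j ≠ i → m j = 0) →
        ∀ j, P j = none → m j = q.degreeOf j := by
      intro m hm j hj
      have hji : j ≠ i := by
        rintro rfl
        rw [hP] at hj
        exact absurd hj (by simp)
      rw [hm j hji, hd1 j hji]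
    have e1 : Mval_w P (fun j => q.degreeOf j) (Finsupp.single i 1) = x := by
      unfold Mval_w
      rw [if_pos (hcond _ fun j hj => Finsupp.single_eq_of_ne hj), Finset.prod_eq_single i]
      · rw [hP, Finsupp.single_eq_same]
        exact pow_one x
      · intro j _ hj
        rw [Finsupp.single_eq_of_ne hj]
        exact Mval_cval_zero _
      · intro h
        exact absurd (Finset.mem_univ i) h
    have e2 : Mval_w P (fun j => q.degreeOf j) 0 = 1 := by
      unfold Mval_w
      rw [if_pos (hcond _ fun j _ => rfl)]
      exact Finset.prod_eq_one fun j _ => Mval_cval_zero _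
    rw [e1, e2, mul_one, sub_eq_zero]
    exact ⟨fun h => by rw [h], fun h => Option.some.inj h⟩

end Pool.Agent.MSC
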