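import Pool.Agent.MSC.Laur

/-!
# Newton-Puiseux theorem
-/

set_option linter.all false

namespace Pool.Agent.MSC

open Polynomial

variable {F : Type*} [Field F] [IsAlgClosed F] [CharZero F]

instance NP_isAdicComplete :
    IsAdicComplete (IsLocalRing.maximalIdeal (PowerSeries F)) (PowerSeries F) := by
  rw [PowerSeries.maximalIdeal_eq_span_X]
  infer_instance

lemma NP_mem_maximalIdeal_iff (a : PowerSeries F) :
    a ∈ IsLocalRing.maximalIdeal (PowerSeries F) ↔ PowerSeries.constantCoeff a = 0 := by
  rw [PowerSeries.maximalIdeal_eq_span_X, Ideal.mem_span_singleton, PowerSeries.X_dvd_iff]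

/-- Hensel step: the distinguished factor of a monic polynomial over `F⟦X⟧`. -/
lemma NP_exists_factor (g : (PowerSeries F)[X]) (k : ℕ)
    (hk : ∀ i < k, PowerSeries.constantCoeff (g.coeff i) = 0)
    (hk' : PowerSeries.constantCoeff (g.coeff k) ≠ 0) :
    ∃ G : (PowerSeries F)[X], G.Monic ∧ G.natDegree = k ∧ G ∣ g := by
  have hres : ∀ a : PowerSeries F, IsLocalRing.residue (PowerSeries F) a = 0 ↔
      PowerSeries.constantCoeff a = 0 := fun a => by
    rw [IsLocalRing.residue_eq_zero_iff, NP_mem_maximalIdeal_iff]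
  have hord : ((g : PowerSeries (PowerSeries F)).map
      (IsLocalRing.residue (PowerSeries F))).order = k := by
    rw [PowerSeries.order_eq_nat]
    constructor
    · rw [PowerSeries.coeff_map, Polynomial.coeff_coe, Ne, hres]
      exact hk'
    · intro i hi
      rw [PowerSeries.coeff_map, Polynomial.coeff_coe, hres]
      exact hk i hi
  have hne : (g : PowerSeries (PowerSeries F)).map (IsLocalRing.residue (PowerSeries F)) ≠ 0 := by
    intro h
    rw [h, PowerSeries.order_zero] at hord
    exact absurd hord (by simp)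
  obtain ⟨G, h, H⟩ := PowerSeries.exists_isWeierstrassFactorization hne
  have hdeg : G.natDegree = k := by
    rw [H.natDegree_eq_toNat_order_map, hord]
    rfl
  have hmon : G.Monic := H.isDistinguishedAt.monic
  refine ⟨G, hmon, hdeg, ?_⟩
  have hordG : ((G : PowerSeries (PowerSeries F)).map
      (Ideal.Quotient.mk (IsLocalRing.maximalIdeal (PowerSeries F)))).order.toNat = G.natDegree := by
    have := congrArg ENat.toNat (H.isDistinguishedAt.coe_natDegree_eq_order_map
      (G : PowerSeries (PowerSeries F)) 1 (by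
        rw [map_one, ← Ideal.ne_top_iff_one]
        exact Ideal.IsMaximal.ne_top inferInstance) (by simp))
    rw [← this]
    rfl
  have hdiv : PowerSeries.IsWeierstrassDivisorAt (G : PowerSeries (PowerSeries F))
      (IsLocalRing.maximalIdeal (PowerSeries F)) := H.isDistinguishedAt.isWeierstrassDivisorAt'
  have hlt : (g %ₘ G).degree < ((G : PowerSeries (PowerSeries F)).map
      (Ideal.Quotient.mk (IsLocalRing.maximalIdeal (PowerSeries F)))).order.toNat := by
    rw [hordG, ← Polynomial.degree_eq_natDegree hmon.ne_zero]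
    exact Polynomial.degree_modByMonic_lt _ hmon
  have key := hdiv.eq_of_mul_add_eq_mul_add (q := ((g /ₘ G : (PowerSeries F)[X]) :
      PowerSeries (PowerSeries F))) (q' := h) (r := g %ₘ G) (r' := 0) hlt (by
        rw [Polynomial.degree_zero]
        exact WithBot.bot_lt_coe _) (by
        rw [← H.eq_mul, Polynomial.coe_zero, add_zero, ← Polynomial.coe_mul,
          ← Polynomial.coe_add, add_comm, Polynomial.modByMonic_add_div])
  rw [← Polynomial.modByMonic_eq_zero_iff_dvd hmon]
  exact key.2

/-- the ring homomorphism `expand` -/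
noncomputable abbrev NP_ex (n : ℕ) (hn : n ≠ 0) : PowerSeries F →+* PowerSeries F :=
  (PowerSeries.expand (R := F) n hn).toRingHom

/-- the polynomial has a root after an expansion -/
def NPHasRt (g : (PowerSeries F)[X]) : Prop :=
  ∃ (n : ℕ) (hn : n ≠ 0) (a : PowerSeries F), (g.map (NP_ex n hn)).eval a = 0

lemma NPHasRt.of_dvd {g G : (PowerSeries F)[X]} (h : G ∣ g) (hG : NPHasRt G) : NPHasRt g := by
  obtain ⟨q, rfl⟩ := h
  obtain ⟨n, hn, a, ha⟩ := hG
  exact ⟨n, hn, a, by rw [Polynomial.map_mul, eval_mul, ha, zero_mul]⟩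

lemma NPHasRt.of_comp {g : (PowerSeries F)[X]} {c : PowerSeries F} (h : NPHasRt (g.comp (X + C c))) :
    NPHasRt g := by
  obtain ⟨n, hn, a, ha⟩ := h
  refine ⟨n, hn, a + NP_ex n hn c, ?_⟩
  rw [Polynomial.map_comp, eval_comp] at ha
  rw [← ha]
  congr 1
  simp

lemma NPHasRt.of_scale {g g' : (PowerSeries F)[X]} {e : ℕ} (he : e ≠ 0) {a b : PowerSeries F}
    (h : (g.map (NP_ex e he)).comp (C a * X) = C b * g') (h' : NPHasRt g') : NPHasRt g := by
  obtain ⟨n, hn, z, hz⟩ := h'
  refine ⟨n * e, Nat.mul_ne_zero hn he, NP_ex n hn a * z, ?_⟩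
  have h1 : g.map (NP_ex (n * e) (Nat.mul_ne_zero hn he)) = (g.map (NP_ex e he)).map (NP_ex n hn) := by
    rw [Polynomial.map_map]
    congr 1
    ext1 φ
    exact PowerSeries.expand_mul n hn e he φ
  have h2 := congrArg (fun p : (PowerSeries F)[X] => (p.map (NP_ex n hn)).eval z) h
  simp only [Polynomial.map_comp, eval_comp, Polynomial.map_mul, eval_mul, hz, mul_zero,
    Polynomial.map_C, Polynomial.map_X, eval_C, eval_X] at h2
  rw [h1]
  exact h2

/-- reduction modulo the maximal ideal -/
noncomputable abbrev NP_red (g : (PowerSeries F)[X]) : F[X] :=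
  g.map (PowerSeries.constantCoeff (R := F))

/-- if the reduction is not a power of a linear polynomial, use the Hensel step. -/
lemma NPHasRt.of_red {g : (PowerSeries F)[X]} (hg : g.Monic) (hd : 2 ≤ g.natDegree)
    (h0 : (NP_red g).coeff (g.natDegree - 1) = 0) {i : ℕ} (hi : i < g.natDegree)
    (hi' : (NP_red g).coeff i ≠ 0)
    (ih : ∀ G : (PowerSeries F)[X], G.Monic → 0 < G.natDegree → G.natDegree < g.natDegree →
      NPHasRt G) : NPHasRt g := by
  set P := NP_red g with hP
  have hPm : P.Monic := hg.map _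
  have hPd : P.natDegree = g.natDegree := hg.natDegree_map _
  have hP0 : P ≠ 0 := hPm.ne_zero
  obtain ⟨z0, hz0⟩ := IsAlgClosed.exists_root P (by
    rw [Polynomial.degree_eq_natDegree hP0, hPd]
    intro h
    have : g.natDegree = 0 := by exact_mod_cast h
    omega)
  set k := P.rootMultiplicity z0 with hk
  have hkpos : 0 < k := (Polynomial.rootMultiplicity_pos hP0).mpr hz0
  obtain ⟨Q, hQ, hQ'⟩ := Polynomial.exists_eq_pow_rootMultiplicity_mul_and_not_dvd P hP0 z0
  rw [← hk] at hQ
  have hQ0 : Q.eval z0 ≠ 0 := by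
    intro h
    exact hQ' (Polynomial.dvd_iff_isRoot.mpr h)
  have hQm : Q.Monic := by
    have := hPm
    rw [hQ] at this
    exact (Polynomial.monic_X_sub_C z0).pow k |>.of_mul_monic_left this
  have hdeg : g.natDegree = k + Q.natDegree := by
    rw [← hPd, hQ, ((Polynomial.monic_X_sub_C z0).pow k).natDegree_mul hQm,
      (Polynomial.monic_X_sub_C z0).natDegree_pow, Polynomial.natDegree_X_sub_C, mul_one]
  have hklt : k < g.natDegree := by
    by_contra hcon
    have hk' : Q.natDegree = 0 := by omega
    have hkm : k = g.natDegree := by omega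
    have hQ1 : Q = 1 := hQm.natDegree_eq_zero.mp hk'
    rw [hQ1, mul_one] at hQ
    have h1 := h0
    rw [hQ, sub_eq_add_neg, ← map_neg, Polynomial.coeff_X_add_C_pow, hkm] at h1
    have h2 : g.natDegree - (g.natDegree - 1) = 1 := by omega
    rw [h2, pow_one] at h1
    have h3 : (g.natDegree.choose (g.natDegree - 1) : F) ≠ 0 := by
      rw [Nat.cast_ne_zero]
      exact (Nat.choose_pos (by omega)).ne'
    have h4 : z0 = 0 := by
      rcases mul_eq_zero.mp h1 with h | h
      · exact neg_eq_zero.mp h
      · exact absurd h h3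
    rw [h4, map_zero, sub_zero] at hQ
    apply hi'
    rw [hQ, Polynomial.coeff_X_pow, if_neg (by omega)]
  -- translate
  apply NPHasRt.of_comp (c := PowerSeries.C z0)
  have hred : NP_red (g.comp (X + C (PowerSeries.C z0))) = P.comp (X + C z0) := by
    rw [NP_red, Polynomial.map_comp]
    congr 1
    simp
  have hcomp : P.comp (X + C z0) = X ^ k * Q.comp (X + C z0) := by
    conv_lhs => rw [hQ]
    rw [Polynomial.mul_comp, Polynomial.pow_comp, Polynomial.sub_comp, Polynomial.X_comp,
      Polynomial.C_comp]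
    congr 2
    ring
  have hcoeff : ∀ j, PowerSeries.constantCoeff ((g.comp (X + C (PowerSeries.C z0))).coeff j) =
      (X ^ k * Q.comp (X + C z0)).coeff j := by
    intro j
    rw [← hcomp, ← hred, Polynomial.coeff_map]
  obtain ⟨G, hG1, hG2, hG3⟩ := NP_exists_factor (g.comp (X + C (PowerSeries.C z0))) k (by
    intro j hj
    rw [hcoeff, Polynomial.coeff_X_pow_mul', if_neg (by omega)]) (by
    rw [hcoeff, Polynomial.coeff_X_pow_mul', if_pos le_rfl, Nat.sub_self,
      Polynomial.coeff_zero_eq_eval_zero, Polynomial.eval_comp]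
    simpa using hQ0)
  exact NPHasRt.of_dvd hG3 (ih G hG1 (by omega) (by omega))

lemma NPHasRt.of_tsch {g : (PowerSeries F)[X]} (hg : g.Monic) (hd2 : 2 ≤ g.natDegree)
    (h0 : g.coeff (g.natDegree - 1) = 0)
    (ih : ∀ G : (PowerSeries F)[X], G.Monic → 0 < G.natDegree → G.natDegree < g.natDegree →
      NPHasRt G) : NPHasRt g := by
  classical
  set m := g.natDegree with hm
  by_cases hall : ∀ i < m, g.coeff i = 0
  · refine ⟨1, one_ne_zero, 0, ?_⟩
    rw [← Polynomial.coeff_zero_eq_eval_zero, Polynomial.coeff_map, hall 0 (by omega), map_zero]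
  push Not at hall
  set S := (Finset.range m).filter (fun i => g.coeff i ≠ 0) with hS
  have hSne : S.Nonempty := by
    obtain ⟨i, hi, hi'⟩ := hall
    exact ⟨i, by rw [hS, Finset.mem_filter, Finset.mem_range]; exact ⟨hi, hi'⟩⟩
  obtain ⟨i0, hi0, hmin⟩ := Finset.exists_min_image S
    (fun i => ((g.coeff i).order.toNat : ℚ) / ((m : ℚ) - i)) hSne
  rw [hS, Finset.mem_filter, Finset.mem_range] at hi0
  obtain ⟨hi0m, hi0c⟩ := hi0
  set e := m - i0 with he
  set r := (g.coeff i0).order.toNat with hr
  have hepos : 0 < e := by omega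
  have hecast : ((m : ℚ) - i0) = e := by
    rw [he, Nat.cast_sub hi0m.le]
  have hmin' : ∀ i < m, g.coeff i ≠ 0 → r * (m - i) ≤ e * (g.coeff i).order.toNat := by
    intro i hi hi'
    have h1 := hmin i (by rw [hS, Finset.mem_filter, Finset.mem_range]; exact ⟨hi, hi'⟩)
    rw [hecast, ← Nat.cast_sub hi.le, div_le_div_iff₀ (by exact_mod_cast hepos)
      (by exact_mod_cast (by omega : 0 < m - i))] at h1
    have h2 : ((r * (m - i) : ℕ) : ℚ) ≤ ((e * (g.coeff i).order.toNat : ℕ) : ℚ) := by
      push_cast [Nat.cast_sub hi.le]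
      push_cast [Nat.cast_sub hi.le] at h1
      linarith
    exact_mod_cast h2
  have hdiv : ∀ i, ∃ d : PowerSeries F, i < m →
      NP_ex e hepos.ne' (g.coeff i) = PowerSeries.X ^ (r * (m - i)) * d := by
    intro i
    by_cases hi : i < m
    · by_cases hc : g.coeff i = 0
      · exact ⟨0, fun _ => by rw [hc, map_zero, mul_zero]⟩
      · have h1 : PowerSeries.X ^ (r * (m - i)) ∣ NP_ex e hepos.ne' (g.coeff i) := by
          rw [PowerSeries.X_pow_dvd_iff]
          intro j hj
          show PowerSeries.coeff j (PowerSeries.expand e hepos.ne' (g.coeff i)) = 0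
          rw [PowerSeries.coeff_expand]
          split_ifs with hej
          · apply PowerSeries.coeff_of_lt_order_toNat
            have h2 := hmin' i hi hc
            rw [Nat.div_lt_iff_lt_mul hepos, mul_comm]
            omega
          · rfl
        obtain ⟨d, hd⟩ := h1
        exact ⟨d, fun _ => hd⟩
    · exact ⟨0, fun h => absurd h hi⟩
  choose d hd using hdiv
  set L : (PowerSeries F)[X] := ∑ i ∈ Finset.range m, Polynomial.monomial i (d i) with hL
  have hLc : ∀ j, L.coeff j = if j < m then d j else 0 := by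
    intro j
    rw [hL, Polynomial.finsetSum_coeff]
    simp only [Polynomial.coeff_monomial]
    rw [Finset.sum_ite_eq']
    simp only [Finset.mem_range]
  have hLd : L.degree < m := by
    rw [Polynomial.degree_lt_iff_coeff_zero]
    intro j hj
    rw [hLc, if_neg (by omega)]
  have hg'm : (X ^ m + L).Monic := Polynomial.monic_X_pow_add hLd
  have hg'd : (X ^ m + L).natDegree = m := by
    rw [Polynomial.natDegree_add_eq_left_of_degree_lt (by rw [Polynomial.degree_X_pow]; exact hLd),
      Polynomial.natDegree_X_pow]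
  have hg'c : ∀ j, (X ^ m + L).coeff j = if j < m then d j else if j = m then 1 else 0 := by
    intro j
    rw [Polynomial.coeff_add, hLc, Polynomial.coeff_X_pow]
    rcases lt_trichotomy j m with h | h | h
    · simp [h, h.ne]
    · simp [h]
    · simp [h.not_gt, h.ne']
  have hscale : (g.map (NP_ex e hepos.ne')).comp (C (PowerSeries.X ^ r) * X) =
      C (PowerSeries.X ^ (r * m)) * (X ^ m + L) := by
    ext1 j
    rw [Polynomial.comp_C_mul_X_coeff, Polynomial.coeff_C_mul, hg'c, Polynomial.coeff_map]
    rcases lt_trichotomy j m with h | h | h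
    · rw [if_pos h, hd j h]
      have h1 : r * m = r * (m - j) + r * j := by
        rw [← Nat.mul_add]
        congr 1
        omega
      rw [h1, pow_add, ← pow_mul]
      ring
    · rw [if_neg (by omega), if_pos h, h, hm, hg.coeff_natDegree, map_one, one_mul, mul_one,
        ← pow_mul]
    · rw [if_neg (by omega), if_neg (by omega), Polynomial.coeff_eq_zero_of_natDegree_lt h,
        map_zero, zero_mul, mul_zero]
  apply NPHasRt.of_scale hepos.ne' hscale
  apply NPHasRt.of_red hg'm (by rw [hg'd]; exact hd2) (i := i0) ?_ (by rw [hg'd]; exact hi0m) ?_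
  · intro G hG1 hG2 hG3
    rw [hg'd] at hG3
    exact ih G hG1 hG2 hG3
  · rw [Polynomial.coeff_map, hg'd, hg'c, if_pos (by omega)]
    have h1 := hd (m - 1) (by omega)
    rw [h0, map_zero, eq_comm, mul_eq_zero] at h1
    rcases h1 with h1 | h1
    · exact absurd h1 (pow_ne_zero _ PowerSeries.X_ne_zero)
    · rw [h1, map_zero]
  · rw [Polynomial.coeff_map, hg'c, if_pos hi0m]
    intro hcon
    have h1 := hd i0 hi0m
    rw [← he] at h1
    have h2 := congrArg (PowerSeries.coeff (r * e)) h1
    have h3 : PowerSeries.coeff (r * e) (NP_ex e hepos.ne' (g.coeff i0)) =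
        PowerSeries.coeff r (g.coeff i0) := by
      show PowerSeries.coeff (r * e) (PowerSeries.expand e hepos.ne' (g.coeff i0)) = _
      rw [mul_comm r e, PowerSeries.coeff_expand_mul]
    rw [h3, PowerSeries.coeff_X_pow_mul', if_pos le_rfl, Nat.sub_self,
      PowerSeries.coeff_zero_eq_constantCoeff_apply, hcon] at h2
    exact PowerSeries.coeff_order hi0c h2

/-- **Newton-Puiseux** -/
theorem NP_aux (m : ℕ) : ∀ g : (PowerSeries F)[X], g.Monic → g.natDegree = m →
    0 < m → NPHasRt g := by
  induction m using Nat.strong_induction_on with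
  | _ m ih =>
    intro g hg hgm hm
    rcases Nat.lt_or_ge 1 m with hm1 | hm1
    swap
    · -- degree one
      have h1 : m = 1 := by omega
      have h2 : g = X + C (g.coeff 0) := by
        have := hg.as_sum
        rw [hgm, h1, Finset.sum_range_one, pow_one, pow_zero, mul_one] at this
        exact this
      refine ⟨1, one_ne_zero, NP_ex 1 one_ne_zero (-(g.coeff 0)), ?_⟩
      conv_lhs => rw [h2]
      simp
    · set t : PowerSeries F := PowerSeries.C ((m : F)⁻¹) * g.coeff (m - 1) with ht
      have hmt : (m : PowerSeries F) * t = g.coeff (m - 1) := by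
        have e1 : (m : PowerSeries F) = PowerSeries.C (m : F) := (map_natCast _ _).symm
        rw [ht, ← mul_assoc, e1, ← map_mul, mul_inv_cancel₀ (by
          rw [Nat.cast_ne_zero]; omega), map_one, one_mul]
      apply NPHasRt.of_comp (c := -t)
      have hmon : (g.comp (X + C (-t))).Monic := hg.comp_X_add_C _
      have hdeg : (g.comp (X + C (-t))).natDegree = m := by
        rw [Polynomial.natDegree_comp, Polynomial.natDegree_X_add_C, mul_one, hgm]
      apply NPHasRt.of_tsch hmon (by omega)
      · rw [hdeg, ← Polynomial.taylor_apply, Polynomial.taylor_coeff]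
        have h3 : ((Polynomial.hasseDeriv (m - 1)) g).natDegree < 2 := by
          have := Polynomial.natDegree_hasseDeriv_le g (m - 1)
          omega
        rw [Polynomial.eval_eq_sum_range' h3, Finset.sum_range_succ, Finset.sum_range_one,
          Polynomial.hasseDeriv_coeff, Polynomial.hasseDeriv_coeff, zero_add, Nat.choose_self,
          show 1 + (m - 1) = m by omega, ← hgm, hg.coeff_natDegree, hgm]
        have h4 : m.choose (m - 1) = m := by
          rw [Nat.choose_symm_of_eq_add (show m = (m - 1) + 1 by omega), Nat.choose_one_right]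
        rw [h4, Nat.cast_one, one_mul, pow_zero, mul_one, mul_one, pow_one, ← hmt]
        ring
      · intro G hG1 hG2 hG3
        rw [hdeg] at hG3
        exact ih _ hG3 G hG1 rfl hG2


/-- **PROOF.** Copy the file `Pool/Agent/Hhelper20/HF/Puiseux.lean` (`HF.newton_puiseux`) with `ℂ`
replaced by `F` (rename everything with the prefix `NP_`, or make it private). -/
theorem np_root (g : (PowerSeries F)[X]) (hg : g.Monic) (hd : 0 < g.natDegree) :
    ∃ (n : ℕ) (hn : n ≠ 0) (a : PowerSeries F),
      (g.map (PowerSeries.expand (R := F) n hn).toRingHom).eval a = 0 :=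
  NP_aux g.natDegree g hg rfl hd


omit [IsAlgClosed F] [CharZero F] in
theorem NP_hcoeff (x : Om F) (k : ℤ) : x.coeff k = HahnSeries.coeff (x : HahnSeries ℤ F) k := rfl

/-- Power series as Laurent series. -/
noncomputable def NP_of : PowerSeries F →+* Om F :=
  (HahnSeries.ofPowerSeries ℤ F : PowerSeries F →+* HahnSeries ℤ F)

omit [IsAlgClosed F] [CharZero F] in
theorem NP_of_coeff_nat (f : PowerSeries F) (n : ℕ) :
    (NP_of f).coeff (n : ℤ) = PowerSeries.coeff n f :=
  HahnSeries.ofPowerSeries_apply_coeff f n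

omit [IsAlgClosed F] [CharZero F] in
theorem NP_of_coeff_neg (f : PowerSeries F) {k : ℤ} (hk : k < 0) : (NP_of f).coeff k = 0 := by
  show HahnSeries.coeff (HahnSeries.ofPowerSeries ℤ F f) k = 0
  rw [HahnSeries.ofPowerSeries_apply]
  apply HahnSeries.embDomain_notin_range
  rintro ⟨n, hn⟩
  have : ((n : ℕ) : ℤ) = k := hn
  omega

omit [IsAlgClosed F] [CharZero F] in
theorem NP_exists_of (x : Om F) (h : ∀ k < 0, x.coeff k = 0) : ∃ f, NP_of f = x := by
  refine ⟨PowerSeries.mk fun n => x.coeff (n : ℤ), ?_⟩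
  apply Om.ext
  intro k
  rcases lt_or_ge k 0 with hk | hk
  · rw [NP_of_coeff_neg _ hk, h k hk]
  · obtain ⟨n, rfl⟩ := Int.eq_ofNat_of_zero_le hk
    rw [NP_of_coeff_nat, PowerSeries.coeff_mk]

omit [IsAlgClosed F] [CharZero F] in
theorem NP_of_expand (n : ℕ) (hn : n ≠ 0) (hn' : 0 < n) (f : PowerSeries F) :
    NP_of (PowerSeries.expand n hn f) = exm n hn' (NP_of f) := by
  apply Om.ext
  intro k
  rw [exm_coeff]
  rcases lt_or_ge k 0 with hk | hk
  · rw [NP_of_coeff_neg _ hk]
    split_ifs with h
    · obtain ⟨j, rfl⟩ := h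
      have hj : j < 0 := by
        by_contra hj
        push Not at hj
        have : (0 : ℤ) ≤ n * j := mul_nonneg (by positivity) hj
        omega
      rw [Int.mul_ediv_cancel_left _ (by exact_mod_cast hn), NP_of_coeff_neg _ hj]
    · rfl
  · obtain ⟨j, rfl⟩ := Int.eq_ofNat_of_zero_le hk
    rw [NP_of_coeff_nat, PowerSeries.coeff_expand]
    by_cases h : n ∣ j
    · rw [if_pos h, if_pos (by exact_mod_cast h)]
      obtain ⟨i, rfl⟩ := h
      rw [Nat.mul_div_cancel_left _ hn']
      have : ((n * i : ℕ) : ℤ) / n = (i : ℤ) := by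
        push_cast
        rw [Int.mul_ediv_cancel_left _ (by exact_mod_cast hn)]
      rw [this, NP_of_coeff_nat]
    · rw [if_neg h, if_neg (by exact_mod_cast h)]

/-- The monomial `s ^ N`. -/
noncomputable def NP_mon (N : ℤ) : Om F := (HahnSeries.single N (1 : F) : HahnSeries ℤ F)

omit [IsAlgClosed F] [CharZero F] in
theorem NP_mon_ne (N : ℤ) : (NP_mon N : Om F) ≠ 0 := by
  intro h
  have h1 : (NP_mon N : Om F).coeff N = 1 := HahnSeries.coeff_single_same N (1 : F)
  rw [h, coeff_zero] at h1
  exact zero_ne_one h1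

omit [IsAlgClosed F] [CharZero F] in
theorem NP_mon_pow (N : ℤ) (k : ℕ) : (NP_mon N : Om F) ^ k = NP_mon (k * N) := by
  show (HahnSeries.single N (1 : F) : HahnSeries ℤ F) ^ k = HahnSeries.single ((k : ℤ) * N) 1
  rw [HahnSeries.single_pow, one_pow]
  simp

omit [IsAlgClosed F] [CharZero F] in
theorem NP_mul_mon (x : Om F) (N k : ℤ) : (x * NP_mon N).coeff k = x.coeff (k - N) := by
  let x' : HahnSeries ℤ F := x
  show HahnSeries.coeff (x' * HahnSeries.single N (1 : F)) k = HahnSeries.coeff x' (k - N)
  have h := HahnSeries.coeff_mul_single_add (x := x') (a := k - N) (b := N)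
    (r := (1 : F))
  rw [sub_add_cancel, mul_one] at h
  exact h

theorem NP_root_monic (g : (Om F)[X]) (hg : g.Monic) (hd : 0 < g.natDegree) :
    ∃ (m : ℕ) (hm : 0 < m) (y : Om F),
      (g.map ((exm m hm : Om F →ₐ[F] Om F) : Om F →+* Om F)).eval y = 0 := by
  classical
  set d := g.natDegree with hdd
  set N : ℕ := ∑ i ∈ Finset.range d, ((g.coeff i).ord).natAbs with hN
  set h : (Om F)[X] := scaleRoots g (NP_mon N) with hh
  have hmon : h.Monic := (monic_scaleRoots_iff _).2 hg
  have hdeg : h.natDegree = d := natDegree_scaleRoots _ _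
  have hlift : h ∈ Polynomial.lifts (NP_of (F := F)) := by
    rw [Polynomial.lifts_iff_coeff_lifts]
    intro i
    rcases lt_trichotomy i d with hi | hi | hi
    · apply NP_exists_of
      intro k hk
      rw [hh, coeff_scaleRoots, NP_mon_pow, NP_mul_mon]
      apply coeff_of_lt
      have h1 : (((g.coeff i).ord).natAbs : ℤ) ≤ (N : ℤ) := by
        exact_mod_cast Finset.single_le_sum (f := fun i => ((g.coeff i).ord).natAbs)
          (fun _ _ => Nat.zero_le _) (Finset.mem_range.2 hi)
      have h2 : (N : ℤ) ≤ ((g.natDegree - i : ℕ) : ℤ) * (N : ℤ) := by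
        have h3 : (1 : ℤ) ≤ ((g.natDegree - i : ℕ) : ℤ) := by
          have : 1 ≤ g.natDegree - i := by omega
          exact_mod_cast this
        nlinarith [Int.natCast_nonneg N]
      have h4 : -(((g.coeff i).ord).natAbs : ℤ) ≤ (g.coeff i).ord := by omega
      linarith
    · refine ⟨1, ?_⟩
      rw [map_one, hi, ← hdeg]
      exact hmon.symm
    · refine ⟨0, ?_⟩
      rw [map_zero, Polynomial.coeff_eq_zero_of_natDegree_lt (by omega)]
  obtain ⟨G, hG, hGd, hGm⟩ := Polynomial.lifts_and_natDegree_eq_and_monic hlift hmon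
  obtain ⟨n, hn, a, ha⟩ := np_root G hGm (by rw [hGd, hdeg]; exact hd)
  have hn' : 0 < n := Nat.pos_of_ne_zero hn
  set e : Om F →+* Om F := ((exm n hn' : Om F →ₐ[F] Om F) : Om F →+* Om F) with he
  have h1 : ((G.map (PowerSeries.expand (R := F) n hn).toRingHom).map (NP_of (F := F))).eval
      (NP_of a) = 0 := by
    rw [Polynomial.eval_map, Polynomial.eval₂_at_apply, ha, map_zero]
  have h2 : (G.map (PowerSeries.expand (R := F) n hn).toRingHom).map (NP_of (F := F)) =
      h.map e := by
    rw [← hG, Polynomial.map_map, Polynomial.map_map]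
    congr 1
    ext1 f
    exact NP_of_expand n hn hn' f
  have h3 : h.map e = scaleRoots (g.map e) (e (NP_mon N)) := by
    rw [hh]
    apply map_scaleRoots
    rw [hg.leadingCoeff, map_one]
    exact one_ne_zero
  have h4 : e (NP_mon N) ≠ 0 := by
    rw [Ne, map_eq_zero]
    exact NP_mon_ne _
  refine ⟨n, hn', (e (NP_mon N))⁻¹ * NP_of a, ?_⟩
  have h5 := scaleRoots_eval_mul (g.map e) ((e (NP_mon N))⁻¹ * NP_of a) (e (NP_mon N))
  rw [← mul_assoc, mul_inv_cancel₀ h4, one_mul, ← h3, ← h2, h1] at h5
  rcases mul_eq_zero.1 h5.symm with h6 | h6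
  · exact absurd ((pow_eq_zero_iff (by
      rw [hg.natDegree_map]; exact hd.ne')).1 h6) h4
  · exact h6

theorem NP_root_gen (g : (Om F)[X]) (hd : 0 < g.natDegree) :
    ∃ (m : ℕ) (hm : 0 < m) (y : Om F),
      (g.map ((exm m hm : Om F →ₐ[F] Om F) : Om F →+* Om F)).eval y = 0 := by
  have h0 : g.leadingCoeff ≠ 0 := by
    intro h
    rw [Polynomial.leadingCoeff_eq_zero] at h
    rw [h, Polynomial.natDegree_zero] at hd
    exact lt_irrefl _ hd
  have hmon : (g * C g.leadingCoeff⁻¹).Monic :=
    Polynomial.monic_mul_leadingCoeff_inv (Polynomial.leadingCoeff_ne_zero.1 h0)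
  have hdeg : (g * C g.leadingCoeff⁻¹).natDegree = g.natDegree :=
    Polynomial.natDegree_mul_C (inv_ne_zero h0)
  obtain ⟨m, hm, y, hy⟩ := NP_root_monic _ hmon (by rw [hdeg]; exact hd)
  refine ⟨m, hm, y, ?_⟩
  rw [Polynomial.map_mul, Polynomial.eval_mul, Polynomial.map_C, Polynomial.eval_C] at hy
  rcases mul_eq_zero.1 hy with h | h
  · exact h
  · rw [map_eq_zero] at h
    exact absurd h (inv_ne_zero h0)

theorem NP_splits_aux (d : ℕ) : ∀ g : (Om F)[X], g.natDegree = d →
    ∃ (m : ℕ) (hm : 0 < m),
      (g.map ((exm m hm : Om F →ₐ[F] Om F) : Om F →+* Om F)).Splits := by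
  induction d with
  | zero =>
    intro g hg
    refine ⟨1, one_pos, ?_⟩
    apply Polynomial.Splits.of_natDegree_eq_zero
    rw [Polynomial.natDegree_map, hg]
  | succ d ih =>
    intro g hg
    obtain ⟨m, hm, y, hy⟩ := NP_root_gen g (by omega)
    set e : Om F →+* Om F := ((exm m hm : Om F →ₐ[F] Om F) : Om F →+* Om F) with he
    obtain ⟨q, hq⟩ := Polynomial.dvd_iff_isRoot.2 hy
    have hdeg : q.natDegree = d := by
      have h1 : (g.map e).natDegree = d + 1 := by rw [Polynomial.natDegree_map, hg]
      have hq0 : q ≠ 0 := by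
        rintro rfl
        rw [hq, mul_zero, Polynomial.natDegree_zero] at h1
        omega
      rw [hq, Polynomial.natDegree_mul (Polynomial.X_sub_C_ne_zero y) hq0,
        Polynomial.natDegree_X_sub_C] at h1
      omega
    obtain ⟨m', hm', hs⟩ := ih q hdeg
    refine ⟨m' * m, Nat.mul_pos hm' hm, ?_⟩
    have h2 : g.map ((exm (m' * m) (Nat.mul_pos hm' hm) : Om F →ₐ[F] Om F) : Om F →+* Om F) =
        (g.map e).map ((exm m' hm' : Om F →ₐ[F] Om F) : Om F →+* Om F) := by
      rw [Polynomial.map_map]
      congr 1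
      ext1 x
      exact (exm_exm m' m hm' hm x).symm
    rw [h2, hq, Polynomial.map_mul]
    refine Polynomial.Splits.mul ?_ hs
    rw [Polynomial.map_sub, Polynomial.map_X, Polynomial.map_C]
    exact Polynomial.Splits.X_sub_C _

/-- A polynomial over the field of Laurent series splits after `s ↦ s ^ m`.

**PROOF.** Induction on the degree. `g` of positive degree: multiply the roots by a power of `s` to get a
monic polynomial with coefficients in the power series ring (`s^(N d) g(T / s^N)` made monic),
take a root after `s ↦ s^n` by `np_root`; so `g.map (exm n)` has a root; divide by the linear factor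
and use the induction hypothesis, and `exm_exm`. -/
theorem np_splits (g : (Om F)[X]) :
    ∃ (m : ℕ) (hm : 0 < m), (g.map ((exm m hm : Om F →ₐ[F] Om F) : Om F →+* Om F)).Splits :=
  NP_splits_aux g.natDegree g rfl

end Pool.Agent.MSC
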