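import Pool.Agent.MSC.Tr

/-!
# An element with a single simple pole
-/

namespace Pool.Agent.MSC

open Polynomial IntermediateField

variable {F : Type*} [Field F] [IsAlgClosed F] [CharZero F]

variable {E : Type*} [Field E] [Algebra F E]

omit [IsAlgClosed F] [CharZero F] in
private theorem rat1_iter {X : E} {D : ℕ} (hD : 2 ≤ D) {U : E → E} {v₁ : E → ℚ}
    (h₁ : v₁ ∈ places F X) {b : ℕ} {y : E} (hy : y ≠ 0) (hvy : v₁ y = -1 / (b : ℚ))
    (ha : ∀ v ∈ places F X, ∀ e : E, U e ≠ 0 → v e / D ≤ v (U e))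
    (hb : ∀ v ∈ places F X, ∀ e x : E, e ≠ 0 → x ≠ 0 → v e = D * v x →
      U e ≠ 0 ∧ v (U e) = v x) :
    ∀ (l : ℕ) (e : E), e ≠ 0 → v₁ e = -(D : ℚ) ^ l / b →
      U^[l] e ≠ 0 ∧ v₁ (U^[l] e) = -1 / b ∧ ∀ v ∈ places F X, v e / (D : ℚ) ^ l ≤ v (U^[l] e) := by
  have hD0 : (0 : ℚ) < D := by
    have : 0 < D := by omega
    exact_mod_cast this
  intro l
  induction l with
  | zero =>
    intro e he hv
    refine ⟨he, ?_, fun v _ => ?_⟩
    · rw [Function.iterate_zero_apply, hv, pow_zero]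
    · rw [Function.iterate_zero_apply, pow_zero, div_one]
  | succ l ih =>
    intro e he hv
    have hx : y ^ (D ^ l) ≠ 0 := pow_ne_zero _ hy
    have hvx : v₁ (y ^ (D ^ l)) = -(D : ℚ) ^ l / b := by
      rw [place_pow h₁, hvy]
      push_cast
      ring
    have h1 := hb v₁ h₁ e (y ^ (D ^ l)) he hx (by
      rw [hv, hvx, pow_succ]
      ring)
    obtain ⟨h2, h3, h4⟩ := ih (U e) h1.1 (by rw [h1.2, hvx])
    rw [Function.iterate_succ_apply]
    refine ⟨h2, h3, fun v hv' => ?_⟩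
    have h5 := ha v hv' e h1.1
    have h6 := h4 v hv'
    calc v e / (D : ℚ) ^ (l + 1) = v e / D / (D : ℚ) ^ l := by
          rw [pow_succ, div_div, mul_comm]
      _ ≤ v (U e) / (D : ℚ) ^ l := by
          apply div_le_div_of_nonneg_right h5
          positivity
      _ ≤ _ := h6

omit [IsAlgClosed F] [CharZero F] in
private theorem rat1_X {X : E} : IsIntegral (Algebra.adjoin F {X}) X := by
  have h : X = algebraMap (Algebra.adjoin F {X}) E
      ⟨X, Algebra.subset_adjoin (Set.mem_singleton X)⟩ := rfl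
  rw [h]
  exact isIntegral_algebraMap

/-- an integral element with its largest pole at `v₁` -/
private theorem rat1_gamma {X : E} (hX : Transcendental F X) [FiniteDimensional F⟮X⟯ E]
    {v₁ : E → ℚ} (h₁ : v₁ ∈ places F X) {b : (E → ℚ) → ℕ}
    (hb0 : ∀ v ∈ places F X, 0 < b v)
    (hbk : ∀ v ∈ places F X, ∀ x : E, ∃ k : ℤ, v x = (k : ℚ) / b v)
    (hmax : ∀ v ∈ places F X, b v ≤ b v₁) :
    ∃ (γ : E) (N : ℕ), γ ≠ 0 ∧ IsIntegral (Algebra.adjoin F {X}) γ ∧ 0 < N ∧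
      v₁ γ = -(N : ℚ) / b v₁ ∧ ∀ v ∈ places F X, v ≠ v₁ → -((N : ℚ) - 1) / b v ≤ v γ := by
  obtain ⟨z, hz0, hz1, hz2⟩ := approx hX h₁
  obtain ⟨g, hg0, hg⟩ := exists_integral_mul hX z
  have hgv : ∀ v ∈ places F X, aeval X g ≠ 0 ∧ v (aeval X g) = -(g.natDegree : ℚ) := by
    intro v hv
    have h2 := place_poly_neg hv (x := X) (by rw [place_X hv]; norm_num) hg0
    refine ⟨h2.1, ?_⟩
    rw [h2.2, place_X hv]
    ring
  have hX0 : X ≠ 0 := by
    intro h
    apply hX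
    rw [h]
    exact isAlgebraic_zero
  have hα0 : aeval X g * z ≠ 0 := mul_ne_zero (hgv v₁ h₁).1 hz0
  have hγv : ∀ v ∈ places F X, v (aeval X g * z * X) = -(g.natDegree : ℚ) - 1 + v z := by
    intro v hv
    rw [place_mul hv hα0 hX0, place_mul hv (hgv v hv).1 hz0, (hgv v hv).2, place_X hv]
    ring
  obtain ⟨k, hk⟩ := hbk v₁ h₁ (aeval X g * z * X)
  have hb1 : (0 : ℚ) < b v₁ := by exact_mod_cast hb0 v₁ h₁
  have hneg : v₁ (aeval X g * z * X) < -((g.natDegree : ℚ) + 1) := by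
    rw [hγv v₁ h₁]
    linarith
  have hkneg : k < 0 := by
    have h3 : (k : ℚ) / b v₁ < 0 := by
      rw [← hk]
      have : (0 : ℚ) ≤ g.natDegree := Nat.cast_nonneg _
      linarith
    by_contra hcon
    push Not at hcon
    have h4 : (0 : ℚ) ≤ k := by exact_mod_cast hcon
    have h5 : 0 ≤ (k : ℚ) / b v₁ := div_nonneg h4 hb1.le
    linarith
  have hN : ((-k).toNat : ℤ) = -k := Int.toNat_of_nonneg (by omega)
  have hNq : (((-k).toNat : ℕ) : ℚ) = -(k : ℚ) := by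
    have : (((-k).toNat : ℤ) : ℚ) = ((-k : ℤ) : ℚ) := by rw [hN]
    push_cast at this
    exact_mod_cast this
  refine ⟨aeval X g * z * X, (-k).toNat, mul_ne_zero hα0 hX0, hg.mul rat1_X, by omega, ?_, ?_⟩
  · rw [hk, hNq, neg_neg]
  · intro v hv hne
    obtain ⟨j, hj⟩ := hbk v hv (aeval X g * z * X)
    have hbv : (0 : ℚ) < b v := by exact_mod_cast hb0 v hv
    have h6 : -((g.natDegree : ℚ) + 1) < v (aeval X g * z * X) := by
      rw [hγv v hv]
      have := hz2 v hv hne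
      linarith
    have h7 : (b v : ℚ) ≤ b v₁ := by exact_mod_cast hmax v hv
    have h8 : (0 : ℚ) < (g.natDegree : ℚ) + 1 := by positivity
    -- `-j < -k`
    have h9 : (k : ℚ) < j := by
      have e1 : (j : ℚ) = v (aeval X g * z * X) * b v := by
        rw [hj]
        field_simp
      have e2 : (k : ℚ) = v₁ (aeval X g * z * X) * b v₁ := by
        rw [hk]
        field_simp
      have e3 : v₁ (aeval X g * z * X) * b v₁ < -((g.natDegree : ℚ) + 1) * b v₁ :=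
        mul_lt_mul_of_pos_right hneg hb1
      have e4 : -((g.natDegree : ℚ) + 1) * b v < v (aeval X g * z * X) * b v :=
        mul_lt_mul_of_pos_right h6 hbv
      have e5 : -((g.natDegree : ℚ) + 1) * b v₁ ≤ -((g.natDegree : ℚ) + 1) * b v := by
        nlinarith
      linarith
    have h10 : k + 1 ≤ j := by
      have : k < j := by exact_mod_cast h9
      omega
    have h11 : (k : ℚ) + 1 ≤ j := by exact_mod_cast h10
    rw [hj, hNq]
    apply div_le_div_of_nonneg_right _ hbv.le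
    linarith

/-- integral elements with a given order at `v₁` modulo `N` -/
private theorem rat1_eta {X : E} (hX : Transcendental F X) [FiniteDimensional F⟮X⟯ E]
    {v₁ : E → ℚ} (h₁ : v₁ ∈ places F X) {b : ℕ} (hb : 0 < b) {y : E} (hy : y ≠ 0)
    (hvy : v₁ y = -1 / (b : ℚ)) {N : ℕ} (hN : 0 < N) (ρ : ℕ) :
    ∃ (η : E) (d : ℕ), η ≠ 0 ∧ IsIntegral (Algebra.adjoin F {X}) η ∧
      v₁ η = -((b * N * d + ρ : ℕ) : ℚ) / b := by
  obtain ⟨g, hg0, hg⟩ := exists_integral_mul hX (y ^ ρ)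
  have h2 := place_poly_neg h₁ (x := X) (by rw [place_X h₁]; norm_num) hg0
  have hX0 : X ≠ 0 := by
    intro h
    apply hX
    rw [h]
    exact isAlgebraic_zero
  have hyρ : y ^ ρ ≠ 0 := pow_ne_zero _ hy
  have hbq : (b : ℚ) ≠ 0 := by
    have : b ≠ 0 := by omega
    exact_mod_cast this
  refine ⟨aeval X g * y ^ ρ * X ^ (g.natDegree * (N - 1)), g.natDegree,
    mul_ne_zero (mul_ne_zero h2.1 hyρ) (pow_ne_zero _ hX0), hg.mul (rat1_X.pow _), ?_⟩
  rw [place_mul h₁ (mul_ne_zero h2.1 hyρ) (pow_ne_zero _ hX0), place_mul h₁ h2.1 hyρ, h2.2,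
    place_pow h₁, place_pow h₁, place_X h₁, hvy]
  obtain ⟨M, rfl⟩ : ∃ M, N = M + 1 := ⟨N - 1, by omega⟩
  rw [Nat.add_sub_cancel]
  push_cast
  field_simp
  ring

/-- **PROOF.** Write `D = natDegree G ≥ 2`, `A` for the ring of the elements of `E` integral over
`F[X]`, `b_v` for the number of `place_group`. Let `v₁` be a place with the largest
`b_1 = b_{v₁}` (`places_finite`, `places_nonempty`), and `n_v(e) = - b_v v(e) ∈ ℤ`.

(1) There is `γ ∈ A`, `γ ≠ 0`, with `N := n_{v₁}(γ) > 0` and `n_v(γ) < N` for the other places: by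
`approx` there is `z` with `v₁ z < 0 < v z`; by `exists_integral_mul` there is `b ∈ F[X]` with
`α = b(X) z ∈ A`; `v b(X) = - deg b` for all places, so `- v₁ α > deg b > - v α` and for `γ = α X`:
`- v₁ γ > max (0, - v γ)`; as `b_v ≤ b_1`, `n_v(γ) < n_{v₁}(γ)`.

(2) For every residue class `ρ` modulo `N` there is `η ∈ A`, `η ≠ 0`, with `n_{v₁}(η) ≡ ρ`: there is
`e` with `n_{v₁}(e) = ρ` (a power of the element with `v₁ x = 1/b_1`, or its inverse), and `b ∈ F[X]`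
with `b(X) e ∈ A`; take `η = b(X) e X^t` with `t ≥ 0`, `deg b + t ≡ 0` modulo `N`. Fix such an
`η_ρ` for all `0 ≤ ρ < N`, and let `C` be larger than all `|n_v(η_ρ)|`.

(3) For a large `l` let `ρ ≡ D^l` modulo `N` and `m = (D^l - n_{v₁}(η_ρ)) / N > 2 C`,
`θ = γ^m η_ρ ∈ A`. Then `n_{v₁}(θ) = D^l` and, for the other places,
`n_v(θ) ≤ m (N - 1) + C = D^l - n_{v₁}(η_ρ) - m + C < D^l`.

(4) Let `U` be the transfer and `u = U^l θ ∈ A`. With `x₁`, `v₁ x₁ = - 1 / b_1`: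
`v₁ θ = D^l v₁ x₁`, so by `l` applications of the second property (with `x = x₁^(D^(l - 1))`, …)
`u ≠ 0` and `v₁ u = v₁ x₁ = - 1 / b_1`. For the other places
`v u ≥ v θ / D^l > - 1 / b_v`, so `v u ≥ 0`. -/
theorem exists_simple {X : E} (hX : Transcendental F X) [FiniteDimensional F⟮X⟯ E]
    {G : F[X]} (hG : 2 ≤ G.natDegree) {Φ : E →ₐ[F] E} (hΦ : Φ X = aeval X G)
    (hfix : Fixed X G Φ) :
    ∃ v₁ ∈ places F X, ∃ u : E, IsIntegral (Algebra.adjoin F {X}) u ∧ v₁ u < 0 ∧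
      (∀ x : E, ∃ k : ℤ, v₁ x = k * v₁ u) ∧ ∀ v ∈ places F X, v ≠ v₁ → 0 ≤ v u := by
  classical
  have hbex : ∀ v : E → ℚ, ∃ b : ℕ, v ∈ places F X → 0 < b ∧
      (∀ x : E, ∃ k : ℤ, v x = (k : ℚ) / b) ∧ ∃ x : E, x ≠ 0 ∧ v x = 1 / (b : ℚ) := by
    intro v
    by_cases hv : v ∈ places F X
    · obtain ⟨b, hb⟩ := place_group hv
      exact ⟨b, fun _ => hb⟩
    · exact ⟨0, fun h => absurd h hv⟩
  choose b hb using hbex
  set S := (places_finite hX).toFinset with hS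
  have hmem : ∀ v, v ∈ S ↔ v ∈ places F X := fun v => Set.Finite.mem_toFinset _
  have hSne : S.Nonempty := by
    obtain ⟨v, hv⟩ := places_nonempty hX
    exact ⟨v, (hmem v).2 hv⟩
  obtain ⟨v₁, hv₁S, hmax⟩ := Finset.exists_max_image S b hSne
  have h₁ : v₁ ∈ places F X := (hmem v₁).1 hv₁S
  obtain ⟨γ, N, hγ0, hγ, hN, hγ1, hγ2⟩ := rat1_gamma hX h₁ (b := b) (fun v hv => (hb v hv).1)
    (fun v hv => (hb v hv).2.1) (fun v hv => hmax v ((hmem v).2 hv))
  obtain ⟨hb1, hbk1, x₁, hx₁, hvx₁⟩ := hb v₁ h₁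
  have hy : x₁⁻¹ ≠ 0 := inv_ne_zero hx₁
  have hvy : v₁ x₁⁻¹ = -1 / (b v₁ : ℚ) := by
    rw [place_inv h₁, hvx₁]
    ring
  choose η d hη0 hη hηv using fun ρ => rat1_eta hX h₁ hb1 hy hvy hN ρ
  obtain ⟨U, hUa, hUb, hUc⟩ := exists_transfer hX (by omega : 1 ≤ G.natDegree) hΦ hfix
  -- a bound for the `η ρ`
  obtain ⟨C, hC⟩ := exists_nat_ge (∑ ρ ∈ Finset.range N, ∑ v ∈ S, |(b v : ℚ) * v (η ρ)|)
  have hCb : ∀ ρ < N, ∀ v ∈ places F X, |(b v : ℚ) * v (η ρ)| ≤ C := by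
    intro ρ hρ v hv
    refine le_trans ?_ hC
    refine le_trans ?_ (Finset.single_le_sum (f := fun ρ => ∑ v ∈ S, |(b v : ℚ) * v (η ρ)|)
      (fun _ _ => Finset.sum_nonneg fun _ _ => abs_nonneg _) (Finset.mem_range.2 hρ))
    exact Finset.single_le_sum (f := fun v => |(b v : ℚ) * v (η ρ)|)
      (fun _ _ => abs_nonneg _) ((hmem v).2 hv)
  set Bd : ℕ := ∑ ρ ∈ Finset.range N, b v₁ * d ρ with hBd
  have hBdb : ∀ ρ < N, b v₁ * d ρ ≤ Bd := by
    intro ρ hρ
    exact Finset.single_le_sum (f := fun ρ => b v₁ * d ρ) (fun _ _ => Nat.zero_le _)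
      (Finset.mem_range.2 hρ)
  set D := G.natDegree with hD
  set l : ℕ := N * (C + C + Bd + 1) with hl
  set ρ : ℕ := D ^ l % N with hρ
  have hρN : ρ < N := Nat.mod_lt _ hN
  have hDl : l < D ^ l := lt_of_lt_of_le l.lt_two_pow_self (Nat.pow_le_pow_left hG l)
  have hq : C + C + Bd + 1 ≤ D ^ l / N := by
    rw [Nat.le_div_iff_mul_le hN, mul_comm]
    exact hDl.le
  set m : ℕ := D ^ l / N - b v₁ * d ρ with hm
  have hm1 : m + b v₁ * d ρ = D ^ l / N := by
    have := hBdb ρ hρN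
    omega
  have hm2 : C + C < m := by
    have := hBdb ρ hρN
    omega
  have hdiv : N * (D ^ l / N) + ρ = D ^ l := Nat.div_add_mod _ _
  have hkey : m * N + (b v₁ * N * d ρ + ρ) = D ^ l := by
    rw [← hdiv, ← hm1]
    ring
  set θ : E := γ ^ m * η ρ with hθ
  have hγm : γ ^ m ≠ 0 := pow_ne_zero _ hγ0
  have hθ0 : θ ≠ 0 := mul_ne_zero hγm (hη0 ρ)
  have hb1q : (0 : ℚ) < b v₁ := by exact_mod_cast hb1
  have hθ1 : v₁ θ = -(D : ℚ) ^ l / b v₁ := by
    rw [hθ, place_mul h₁ hγm (hη0 ρ), place_pow h₁, hγ1, hηv ρ]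
    have h2 : ((m * N + (b v₁ * N * d ρ + ρ) : ℕ) : ℚ) = (D : ℚ) ^ l := by
      rw [hkey]
      push_cast
      rfl
    rw [← h2]
    push_cast
    field_simp
    ring
  have hθi : IsIntegral (Algebra.adjoin F {X}) θ := (hγ.pow m).mul (hη ρ)
  obtain ⟨hu0, hu1, hu2⟩ := rat1_iter (F := F) hG h₁ hy hvy hUa hUb l θ hθ0 hθ1
  have hui : ∀ j : ℕ, IsIntegral (Algebra.adjoin F {X}) (U^[j] θ) := by
    intro j
    induction j with
    | zero => exact hθi
    | succ j ih =>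
      rw [Function.iterate_succ_apply']
      exact hUc _ ih
  refine ⟨v₁, h₁, U^[l] θ, hui l, ?_, ?_, ?_⟩
  · rw [hu1]
    exact div_neg_of_neg_of_pos (by norm_num) hb1q
  · intro x
    obtain ⟨k, hk⟩ := hbk1 x
    refine ⟨-k, ?_⟩
    rw [hu1, hk]
    push_cast
    ring
  · intro v hv hne
    have hbv : (0 : ℚ) < b v := by exact_mod_cast (hb v hv).1
    have hDl0 : (0 : ℚ) < (D : ℚ) ^ l := by
      have : 0 < D := by omega
      positivity
    -- the order of `θ`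
    have h3 : -(D : ℚ) ^ l / b v < v θ := by
      rw [hθ, place_mul hv hγm (hη0 ρ), place_pow hv]
      have h4 := hγ2 v hv hne
      have h5 := hCb ρ hρN v hv
      have h6 := hCb ρ hρN v₁ h₁
      rw [div_lt_iff₀ hbv]
      rw [div_le_iff₀ hbv] at h4
      have h7 : -(C : ℚ) ≤ (b v : ℚ) * v (η ρ) := (abs_le.1 h5).1
      have h8 : (b v₁ : ℚ) * v₁ (η ρ) = -((b v₁ * N * d ρ + ρ : ℕ) : ℚ) := by
        rw [hηv ρ]
        field_simp
      have h9 : ((b v₁ * N * d ρ + ρ : ℕ) : ℚ) ≤ C := by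
        have := (abs_le.1 h6).1
        rw [h8] at this
        linarith
      have h10 : ((m : ℚ) * N + ((b v₁ * N * d ρ + ρ : ℕ) : ℚ)) = (D : ℚ) ^ l := by
        have : ((m * N + (b v₁ * N * d ρ + ρ) : ℕ) : ℚ) = (D : ℚ) ^ l := by
          rw [hkey]
          push_cast
          rfl
        rw [← this]
        push_cast
        rfl
      have h11 : (C : ℚ) + C < m := by exact_mod_cast hm2
      have h12 : (m : ℚ) * (-((N : ℚ) - 1)) ≤ m * (v γ * b v) :=
        mul_le_mul_of_nonneg_left h4 (Nat.cast_nonneg _)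
      nlinarith
    have h4 : -1 / (b v : ℚ) < v (U^[l] θ) := by
      refine lt_of_lt_of_le ?_ (hu2 v hv)
      rw [lt_div_iff₀ hDl0]
      calc -1 / (b v : ℚ) * (D : ℚ) ^ l = -(D : ℚ) ^ l / b v := by ring
        _ < v θ := h3
    obtain ⟨k, hk⟩ := (hb v hv).2.1 (U^[l] θ)
    rw [hk] at h4 ⊢
    rw [div_lt_div_iff_of_pos_right hbv] at h4
    have h5 : (-1 : ℤ) < k := by exact_mod_cast h4
    have h6 : (0 : ℤ) ≤ k := by omega
    exact div_nonneg (by exact_mod_cast h6) hbv.le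

end Pool.Agent.MSC
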