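import Pool.Agent.MSC.Cheb2
import Pool.Agent.MSC.Rat1

/-!
# Periodic curves are parametrised by polynomials
-/

namespace Pool.Agent.MSC

open Polynomial IntermediateField Pool.Agent.PrepH

variable {F : Type*} [Field F] [IsAlgClosed F] [CharZero F]

variable {E : Type*} [Field E] [Algebra F E]

private theorem Param_itp_succ (f : F[X]) (r : ℕ) : itp f (r + 1) = f.comp (itp f r) := by
  unfold itp
  rw [Function.iterate_succ_apply']

private theorem Param_pow {Z : E} {G : F[X]} {Φ : E →ₐ[F] E} (hΦ : Φ Z = aeval Z G) (r : ℕ) :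
    (Φ ^ r) Z = aeval Z (itp G r) := by
  induction r with
  | zero =>
    have h : itp G 0 = Polynomial.X := rfl
    rw [h, pow_zero, aeval_X]
    rfl
  | succ r ih =>
    rw [pow_succ, Param_itp_succ, aeval_comp, ← ih]
    show (Φ ^ r) (Φ Z) = _
    rw [hΦ, aeval_algHom_apply]

private theorem Param_integral {Z u : E} {G : F[X]} {Φ : E →ₐ[F] E} (hΦ : Φ Z = aeval Z G)
    (hu : IsIntegral (Algebra.adjoin F {Z}) u) : IsIntegral (Algebra.adjoin F {Z}) (Φ u) := by
  have h1 : ∀ x : Algebra.adjoin F {Z}, Φ (x : E) ∈ Algebra.adjoin F {Z} := by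
    rintro ⟨x, hx⟩
    rw [Algebra.adjoin_singleton_eq_range_aeval] at hx
    obtain ⟨q, rfl⟩ := hx
    show Φ (aeval Z q) ∈ _
    rw [← aeval_algHom_apply, hΦ, ← aeval_comp, Algebra.adjoin_singleton_eq_range_aeval]
    exact ⟨_, rfl⟩
  exact hu.map_of_comp_eq
    ((Φ.comp (Subalgebra.val _)).codRestrict (Algebra.adjoin F {Z}) h1 :
      Algebra.adjoin F {Z} →+* Algebra.adjoin F {Z}) (Φ : E →+* E) (by ext x; rfl)

private theorem Param_integral_self (Z : E) : IsIntegral (Algebra.adjoin F {Z}) Z := by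
  have h : Z = algebraMap (Algebra.adjoin F {Z}) E ⟨Z, Algebra.self_mem_adjoin_singleton F Z⟩ := rfl
  rw [h]
  exact isIntegral_algebraMap

/-- **PROOF.** Let `N_X`, `N_Y` be given by `exists_fixed` for `X` and for `Y`, `r = N_X N_Y`,
`Φ' = Φ^r`, `G' = itp G r` (degree `D^r`, `natDegree_itp`), `Φ' X = G'(X)`, `Φ' Y = G'(Y)`; `Φ'` fixes the places with a
pole at `X`, and those with a pole at `Y`. `G'` is not conjugate to a power, so by `place_other_neg` (twice)
`v Y < 0` for `v ∈ places F X` and `v X < 0` for `v ∈ places F Y`; `integral_of_places`: `Y` is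
integral over `F[X]`. Take `v₁`, `u` of `exists_simple` (for `Φ'`, `G'`). By
`special_of_two_places` there is no other place than `v₁`. So by `mem_poly` all elements of `E` which are
integral over `F[X]` are polynomials in `u`: `X`, `Y`, and `Φ u` (for the original `Φ`; it is
integral over `F[Φ X] ⊆ F[X]`). `adjoin_eq_top`. -/
theorem param {X Y : E} (hX : Transcendental F X) (hY : Transcendental F Y)
    [FiniteDimensional F⟮X⟯ E] [FiniteDimensional F⟮Y⟯ E] {G : F[X]} (hG : 2 ≤ G.natDegree)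
    {Φ : E →ₐ[F] E} (hΦX : Φ X = aeval X G) (hΦY : Φ Y = aeval Y G)
    (hsp : ∀ r : ℕ, 1 ≤ r → ¬ Special (itp G r)) :
    ∃ (u : E) (P Q h : F[X]), F⟮u⟯ = ⊤ ∧ X = aeval u P ∧ Y = aeval u Q ∧ Φ u = aeval u h := by
  have hG1 : 1 ≤ G.natDegree := by omega
  obtain ⟨NX, hNX, hfX⟩ := exists_fixed hX hG1 hΦX
  obtain ⟨NY, hNY, hfY⟩ := exists_fixed hY hG1 hΦY
  obtain ⟨r, hr⟩ : ∃ r, r = NX * NY := ⟨_, rfl⟩
  have hr1 : 1 ≤ r := by
    rw [hr]
    exact Nat.mul_pos hNX hNY
  have hrX : NX ∣ r := ⟨NY, hr⟩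
  have hrY : NY ∣ r := ⟨NX, by rw [hr, mul_comm]⟩
  have hdeg : (itp G r).natDegree = G.natDegree ^ r := natDegree_itp G r
  have hG' : 2 ≤ (itp G r).natDegree := by
    rw [hdeg]
    calc 2 ≤ G.natDegree := hG
      _ = G.natDegree ^ 1 := (pow_one _).symm
      _ ≤ G.natDegree ^ r := Nat.pow_le_pow_right (by omega) hr1
  have hΦX' : (Φ ^ r) X = aeval X (itp G r) := Param_pow hΦX r
  have hΦY' : (Φ ^ r) Y = aeval Y (itp G r) := Param_pow hΦY r
  have hFX : Fixed X (itp G r) (Φ ^ r) := by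
    intro v hv e
    rw [hfX r hrX v hv e, hdeg]
    push_cast
    rfl
  have hFY : Fixed Y (itp G r) (Φ ^ r) := by
    intro v hv e
    rw [hfY r hrY v hv e, hdeg]
    push_cast
    rfl
  have hnot : ¬ LinConj (itp G r) (Polynomial.X ^ (itp G r).natDegree) :=
    fun h => hsp r hr1 (Or.inl h)
  have hYX : ∀ v ∈ places F Y, v X < 0 := place_other_neg hX hG' hΦX' hFY hnot
  have hintY : IsIntegral (Algebra.adjoin F {X}) Y := integral_of_places hX hY hYX
  obtain ⟨v₁, h₁, u, hu, hu1, hg, hu2⟩ := exists_simple hX hG' hΦX' hFX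
  have huniq : ∀ v ∈ places F X, v = v₁ := by
    intro v hv
    by_contra hne
    exact hsp r hr1 (special_of_two_places hX hG' hΦX' hFX h₁ hu hu1 hg hu2 hv hne)
  obtain ⟨P, hP⟩ := mem_poly hX h₁ hu hu1 hg hu2 (Param_integral_self X)
    (fun v hv hne => absurd (huniq v hv) hne)
  obtain ⟨Q, hQ⟩ := mem_poly hX h₁ hu hu1 hg hu2 hintY
    (fun v hv hne => absurd (huniq v hv) hne)
  obtain ⟨h, hh⟩ := mem_poly hX h₁ hu hu1 hg hu2 (Param_integral hΦX hu)
    (fun v hv hne => absurd (huniq v hv) hne)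
  exact ⟨u, P, Q, h, adjoin_eq_top hX h₁ hu hu1 hg hu2, hP, hQ, hh⟩

end Pool.Agent.MSC
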