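import Pool.Agent.MSC.EmbL

/-!
# The normalised valuations of `E` with a pole at `X`
-/

namespace Pool.Agent.MSC

open Polynomial IntermediateField

variable {F : Type*} [Field F]

variable {E : Type*} [Field E] [Algebra F E]

/-- The valuation of `E` given by an embedding into the field of Laurent series, normalised by
`v X = - 1` (only used for `e ≠ 0`). -/
noncomputable def val (X : E) (τ : E →ₐ[F] Om F) : E → ℚ :=
  fun e => ((τ e).ord : ℚ) / (-((τ X).ord : ℚ))

/-- The places of `E` with a pole at `X`. -/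
def places (F : Type*) [Field F] {E : Type*} [Field E] [Algebra F E] (X : E) : Set (E → ℚ) :=
  {v | ∃ τ : E →ₐ[F] Om F, (τ X).ord < 0 ∧ v = val X τ}

private theorem Pl_unfold {X : E} {v : E → ℚ} (hv : v ∈ places F X) :
    ∃ (τ : E →ₐ[F] Om F) (N : ℕ), 0 < N ∧ (τ X).ord = -(N : ℤ) ∧ ∀ e, v e = ((τ e).ord : ℚ) / N := by
  obtain ⟨τ, h, rfl⟩ := hv
  refine ⟨τ, (-(τ X).ord).toNat, by omega, by omega, fun e => ?_⟩
  unfold val
  have h1 : (((-(τ X).ord).toNat : ℤ) : ℚ) = -((τ X).ord : ℚ) := by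
    rw [Int.toNat_of_nonneg (by omega)]
    push_cast
    ring
  rw [← h1]
  norm_cast

theorem place_X {X : E} {v : E → ℚ} (hv : v ∈ places F X) : v X = -1 := by
  obtain ⟨τ, N, hN, hX, h⟩ := Pl_unfold hv
  rw [h, hX]
  have : (N : ℚ) ≠ 0 := by exact_mod_cast hN.ne'
  push_cast
  field_simp

theorem place_mul {X : E} {v : E → ℚ} (hv : v ∈ places F X) {x y : E} (hx : x ≠ 0) (hy : y ≠ 0) :
    v (x * y) = v x + v y := by
  obtain ⟨τ, N, hN, hX, h⟩ := Pl_unfold hv
  rw [h, h, h, map_mul, ord_mul ((map_ne_zero τ).2 hx) ((map_ne_zero τ).2 hy)]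
  push_cast
  ring

theorem place_pow {X : E} {v : E → ℚ} (hv : v ∈ places F X) (x : E) (n : ℕ) :
    v (x ^ n) = n * v x := by
  obtain ⟨τ, N, hN, hX, h⟩ := Pl_unfold hv
  rw [h, h, map_pow, ord_pow]
  push_cast
  ring

theorem place_inv {X : E} {v : E → ℚ} (hv : v ∈ places F X) (x : E) : v x⁻¹ = - v x := by
  obtain ⟨τ, N, hN, hX, h⟩ := Pl_unfold hv
  rw [h, h, map_inv₀, ord_inv]
  push_cast
  ring

theorem place_zero {X : E} {v : E → ℚ} (hv : v ∈ places F X) : v 0 = 0 := by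
  obtain ⟨τ, N, hN, hX, h⟩ := Pl_unfold hv
  rw [h, map_zero, ord_zero]
  simp

theorem place_C {X : E} {v : E → ℚ} (hv : v ∈ places F X) (c : F) : v (algebraMap F E c) = 0 := by
  obtain ⟨τ, N, hN, hX, h⟩ := Pl_unfold hv
  rw [h, AlgHom.commutes, ord_C]
  simp

theorem place_add {X : E} {v : E → ℚ} (hv : v ∈ places F X) {x y : E} (h : x + y ≠ 0) :
    min (v x) (v y) ≤ v (x + y) := by
  obtain ⟨τ, N, hN, hX, hτ⟩ := Pl_unfold hv
  have hN' : (0 : ℚ) < N := by exact_mod_cast hN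
  have h1 : min (τ x).ord (τ y).ord ≤ (τ x + τ y).ord :=
    ord_add (by rw [← map_add]; exact (map_ne_zero τ).2 h)
  rw [← map_add] at h1
  rw [hτ, hτ, hτ]
  rcases min_le_iff.1 h1 with h2 | h2
  · refine min_le_of_left_le ((div_le_div_iff_of_pos_right hN').2 ?_)
    exact_mod_cast h2
  · refine min_le_of_right_le ((div_le_div_iff_of_pos_right hN').2 ?_)
    exact_mod_cast h2

private theorem Pl_neg {X : E} {v : E → ℚ} (hv : v ∈ places F X) (x : E) : v (-x) = v x := by
  rcases eq_or_ne x 0 with rfl | hx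
  · rw [neg_zero]
  · have h1 : -x = algebraMap F E (-1) * x := by simp
    rw [h1, place_mul hv (by simp) hx, place_C hv, zero_add]

theorem place_sub {X : E} {v : E → ℚ} (hv : v ∈ places F X) {x y : E} (h : x - y ≠ 0) :
    min (v x) (v y) ≤ v (x - y) := by
  rw [sub_eq_add_neg] at h ⊢
  rw [← Pl_neg hv y]
  exact place_add hv h

theorem place_add_of_lt {X : E} {v : E → ℚ} (hv : v ∈ places F X) {x y : E} (hx : x ≠ 0)
    (h : v x < v y ∨ y = 0) : x + y ≠ 0 ∧ v (x + y) = v x := by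
  obtain ⟨τ, N, hN, hX, hτ⟩ := Pl_unfold hv
  have hN' : (0 : ℚ) < N := by exact_mod_cast hN
  rw [hτ, hτ] at h
  have h1 := ord_add_of_lt (x := τ x) (y := τ y) ((map_ne_zero τ).2 hx) (by
    rcases h with h | h
    · left
      have := (div_lt_div_iff_of_pos_right hN').1 h
      exact_mod_cast this
    · right
      rw [h, map_zero])
  rw [← map_add] at h1
  refine ⟨(map_ne_zero τ).1 h1.1, ?_⟩
  rw [hτ, hτ, h1.2]

/-- **PROOF.** `exists_lead`. -/
theorem place_lead {X : E} {v : E → ℚ} (hv : v ∈ places F X) {x y : E} (hx : x ≠ 0) (hy : y ≠ 0)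
    (h : v x = v y) : ∃ c : F, c ≠ 0 ∧ (x - algebraMap F E c * y = 0 ∨
      v x < v (x - algebraMap F E c * y)) := by
  obtain ⟨τ, N, hN, hX, hτ⟩ := Pl_unfold hv
  have hN' : (0 : ℚ) < N := by exact_mod_cast hN
  rw [hτ, hτ] at h
  have h1 : (τ x).ord = (τ y).ord := by
    have := (div_left_inj' hN'.ne').1 h
    exact_mod_cast this
  obtain ⟨c, hc, h2⟩ := exists_lead ((map_ne_zero τ).2 hx) ((map_ne_zero τ).2 hy) h1
  have h3 : τ x - algebraMap F (Om F) c * τ y = τ (x - algebraMap F E c * y) := by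
    rw [map_sub, map_mul, AlgHom.commutes]
  rw [h3] at h2
  refine ⟨c, hc, ?_⟩
  rcases h2 with h2 | h2
  · exact Or.inl ((map_eq_zero τ).1 h2)
  · right
    rw [hτ, hτ]
    refine (div_lt_div_iff_of_pos_right hN').2 ?_
    exact_mod_cast h2

/-- **PROOF.** If `v x > 0` (or `x = 0`) take `c = 0`, otherwise `place_lead` with `y = 1`. -/
theorem place_residue {X : E} {v : E → ℚ} (hv : v ∈ places F X) {x : E} (h : 0 ≤ v x) :
    ∃ c : F, x - algebraMap F E c = 0 ∨ 0 < v (x - algebraMap F E c) := by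
  rcases h.eq_or_lt with h | h
  · rcases eq_or_ne x 0 with rfl | hx
    · exact ⟨0, Or.inl (by simp)⟩
    · have h1 : v x = v 1 := by
        rw [← h, ← map_one (algebraMap F E), place_C hv]
      obtain ⟨c, -, h2⟩ := place_lead hv hx one_ne_zero h1
      rw [mul_one, ← h] at h2
      exact ⟨c, h2⟩
  · exact ⟨0, Or.inr (by simpa using h)⟩

/-- The value group is `(1/b) ℤ`. -/
theorem place_group {X : E} {v : E → ℚ} (hv : v ∈ places F X) : ∃ b : ℕ, 0 < b ∧
    (∀ x : E, ∃ k : ℤ, v x = (k : ℚ) / b) ∧ ∃ x : E, x ≠ 0 ∧ v x = 1 / (b : ℚ) := by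
  obtain ⟨τ, N, hN, hX, hτ⟩ := Pl_unfold hv
  have hN' : (0 : ℚ) < N := by exact_mod_cast hN
  -- the group of orders
  let G : AddSubgroup ℤ :=
    { carrier := {k | ∃ x : E, x ≠ 0 ∧ (τ x).ord = k}
      add_mem' := by
        rintro a b ⟨x, hx, rfl⟩ ⟨y, hy, rfl⟩
        exact ⟨x * y, mul_ne_zero hx hy, by
          rw [map_mul, ord_mul ((map_ne_zero τ).2 hx) ((map_ne_zero τ).2 hy)]⟩
      zero_mem' := ⟨1, one_ne_zero, by
        rw [map_one, ← map_one (algebraMap F (Om F)), ord_C]⟩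
      neg_mem' := by
        rintro a ⟨x, hx, rfl⟩
        exact ⟨x⁻¹, inv_ne_zero hx, by rw [map_inv₀, ord_inv]⟩ }
  have hX0 : X ≠ 0 := by
    rintro rfl
    rw [map_zero, ord_zero] at hX
    omega
  obtain ⟨g, hg⟩ := Int.subgroup_cyclic G
  have hgG : ∀ k, k ∈ G ↔ g ∣ k := by
    intro k
    rw [hg, AddSubgroup.mem_closure_singleton]
    constructor
    · rintro ⟨n, rfl⟩
      exact ⟨n, by simp [mul_comm]⟩
    · rintro ⟨n, rfl⟩
      exact ⟨n, by simp [mul_comm]⟩
  have hNG : -(N : ℤ) ∈ G := ⟨X, hX0, hX⟩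
  obtain ⟨b, hb⟩ := (hgG _).1 hNG
  have hg0 : g ≠ 0 := by
    rintro rfl
    omega
  have hb0 : b ≠ 0 := by
    rintro rfl
    omega
  have hbq : (b.natAbs : ℚ) = |(b : ℚ)| := by
    rw [← Int.cast_natCast, Int.natCast_natAbs, Int.cast_abs]
  have hNq : (N : ℚ) = |(g : ℚ)| * |(b : ℚ)| := by
    rw [← abs_mul]
    have : (N : ℚ) = |-(N : ℚ)| := by rw [abs_neg, abs_of_pos hN']
    rw [this]
    congr 1
    exact_mod_cast hb
  have hgq : |(g : ℚ)| ≠ 0 := abs_ne_zero.2 (by exact_mod_cast hg0)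
  have hbq0 : |(b : ℚ)| ≠ 0 := abs_ne_zero.2 (by exact_mod_cast hb0)
  refine ⟨b.natAbs, Int.natAbs_pos.2 hb0, fun x => ?_, ?_⟩
  · rcases eq_or_ne x 0 with rfl | hx
    · exact ⟨0, by rw [place_zero hv]; simp⟩
    · obtain ⟨k, hk⟩ := (hgG _).1 ⟨x, hx, rfl⟩
      refine ⟨k * g.sign, ?_⟩
      rw [hτ, hk, hbq, hNq]
      push_cast
      have h1 : (g : ℚ) = (g.sign : ℚ) * |(g : ℚ)| := by
        have := Int.sign_mul_abs g
        exact_mod_cast this.symm
      rw [div_eq_div_iff (mul_ne_zero hgq hbq0) hbq0]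
      calc (g : ℚ) * k * |(b : ℚ)| = ((g.sign : ℚ) * |(g : ℚ)|) * k * |(b : ℚ)| := by rw [← h1]
        _ = k * (g.sign : ℚ) * (|(g : ℚ)| * |(b : ℚ)|) := by ring
  · obtain ⟨x, hx, h1⟩ := (hgG |g|).2 ((dvd_abs _ _).2 dvd_rfl)
    refine ⟨x, hx, ?_⟩
    rw [hτ, h1, hbq, hNq, Int.cast_abs]
    field_simp

theorem place_poly_neg {X : E} {v : E → ℚ} (hv : v ∈ places F X) {x : E} (hx : v x < 0)
    {g : F[X]} (hg : g ≠ 0) : aeval x g ≠ 0 ∧ v (aeval x g) = g.natDegree * v x := by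
  obtain ⟨τ, N, hN, hX, hτ⟩ := Pl_unfold hv
  have hN' : (0 : ℚ) < N := by exact_mod_cast hN
  have h1 : (τ x).ord < 0 := by
    rw [hτ, div_lt_iff₀ hN', zero_mul] at hx
    exact_mod_cast hx
  have h2 := aeval_ord h1 hg
  rw [aeval_algHom_apply] at h2
  refine ⟨(map_ne_zero τ).1 h2.1, ?_⟩
  rw [hτ, hτ, h2.2]
  push_cast
  ring

theorem place_poly_nonneg {X : E} {v : E → ℚ} (hv : v ∈ places F X) {x : E} (hx : 0 ≤ v x)
    (g : F[X]) : 0 ≤ v (aeval x g) := by
  obtain ⟨τ, N, hN, hX, hτ⟩ := Pl_unfold hv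
  have hN' : (0 : ℚ) < N := by exact_mod_cast hN
  have h1 : 0 ≤ (τ x).ord := by
    rw [hτ, le_div_iff₀ hN', zero_mul] at hx
    exact_mod_cast hx
  have h2 := aeval_ord_nonneg h1 g
  rw [aeval_algHom_apply] at h2
  rw [hτ, le_div_iff₀ hN', zero_mul]
  exact_mod_cast h2

/-- The order of `g(x)` at a place where `x` has the residue `c`. -/
theorem place_poly_root {X : E} {v : E → ℚ} (hv : v ∈ places F X) {x : E} {c : F}
    (hx : 0 < v (x - algebraMap F E c)) {g : F[X]} (hg : g ≠ 0) :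
    aeval x g ≠ 0 ∧ v (aeval x g) = g.rootMultiplicity c * v (x - algebraMap F E c) := by
  obtain ⟨q, hq, hqc⟩ := exists_eq_pow_rootMultiplicity_mul_and_not_dvd g hg c
  have hxc : x - algebraMap F E c ≠ 0 := by
    intro h
    rw [h, place_zero hv] at hx
    exact lt_irrefl _ hx
  -- `q(x)` is a unit
  have hq1 : aeval x q ≠ 0 ∧ v (aeval x q) = 0 := by
    have h1 : q.eval c ≠ 0 := fun h => hqc (dvd_iff_isRoot.2 h)
    obtain ⟨r, hr⟩ : (Polynomial.X - C c) ∣ q - C (q.eval c) := by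
      rw [dvd_iff_isRoot]
      simp
    have h2 : aeval x q = algebraMap F E (q.eval c) + (x - algebraMap F E c) * aeval x r := by
      have h3 := congrArg (aeval x) hr
      rw [map_sub, map_mul, map_sub, aeval_C, aeval_X, aeval_C] at h3
      rw [← h3]
      ring
    rw [h2]
    have h4 : 0 ≤ v x := by
      by_contra h5
      push Not at h5
      have h6 := place_poly_neg hv h5 (g := Polynomial.X - C c) (X_sub_C_ne_zero c)
      rw [map_sub, aeval_X, aeval_C, natDegree_X_sub_C] at h6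
      rw [h6.2] at hx
      push_cast at hx
      linarith
    have h7 := place_add_of_lt hv (x := algebraMap F E (q.eval c))
      (y := (x - algebraMap F E c) * aeval x r) (by simpa using h1) (by
        rcases eq_or_ne (aeval x r) 0 with h8 | h8
        · right
          rw [h8, mul_zero]
        · left
          rw [place_C hv, place_mul hv hxc h8]
          have := place_poly_nonneg hv h4 r
          linarith)
    rw [place_C hv] at h7
    exact h7
  have h9 : aeval x g = (x - algebraMap F E c) ^ g.rootMultiplicity c * aeval x q := by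
    conv_lhs => rw [hq]
    rw [map_mul, map_pow, map_sub, aeval_X, aeval_C]
  rw [h9]
  refine ⟨mul_ne_zero (pow_ne_zero _ hxc) hq1.1, ?_⟩
  rw [place_mul hv (pow_ne_zero _ hxc) hq1.1, place_pow hv, hq1.2, add_zero]

open scoped algebraAdjoinAdjoin in
/-- An element integral over `F[X]` stays so; integral elements of `E` form a fraction ring.
**PROOF.** `exists_integral_multiple` for `algebraic` elements. -/
theorem exists_integral_mul {X : E} (hX : Transcendental F X) [FiniteDimensional F⟮X⟯ E] (e : E) :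
    ∃ b : F[X], b ≠ 0 ∧ IsIntegral (Algebra.adjoin F {X}) (aeval X b * e) := by
  have h1 : IsAlgebraic (Algebra.adjoin F {X}) e :=
    (IsFractionRing.isAlgebraic_iff (Algebra.adjoin F {X}) F⟮X⟯ E).2
      (Algebra.IsAlgebraic.isAlgebraic e)
  obtain ⟨⟨y, hy⟩, hy0, hint⟩ := h1.exists_integral_multiple
  have hy' := hy
  rw [Algebra.adjoin_singleton_eq_range_aeval] at hy'
  obtain ⟨b, hb⟩ := hy'
  refine ⟨b, ?_, ?_⟩
  · rintro rfl
    apply hy0
    apply Subtype.ext
    show y = 0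
    rw [← hb]
    exact map_zero _
  · rw [Algebra.smul_def] at hint
    have h2 : algebraMap (Algebra.adjoin F {X}) E ⟨y, hy⟩ = aeval X b := hb.symm
    rwa [h2] at hint

end Pool.Agent.MSC
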