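import Pool.Agent.MSC.Pl

/-!
# Approximation and finiteness of the places with a pole at `X`
-/

set_option linter.all false

namespace Pool.Agent.MSC

open Polynomial IntermediateField

variable {F : Type*} [Field F] [IsAlgClosed F] [CharZero F]

variable {E : Type*} [Field E] [Algebra F E]

/-- The absolute value `exp (- v e)` of a place. -/
private noncomputable def Pl2_abs {X : E} {v : E → ℚ} (hv : v ∈ places F X) : AbsoluteValue E ℝ :=
  haveI := Classical.dec
  { toFun := fun e => if e = 0 then 0 else Real.exp (-(v e : ℝ))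
    map_mul' := by
      intro x y
      by_cases hx : x = 0
      · simp [hx]
      · by_cases hy : y = 0
        · simp [hy]
        · simp only [hx, hy, mul_eq_zero, or_self, if_false]
          rw [place_mul hv hx hy, ← Real.exp_add]
          congr 1
          push_cast
          ring
    nonneg' := by
      intro x
      split_ifs
      · exact le_rfl
      · exact (Real.exp_pos _).le
    eq_zero' := by
      intro x
      constructor
      · intro h
        by_contra hx
        simp only [hx, if_false] at h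
        exact (Real.exp_pos _).ne' h
      · intro h
        simp [h]
    add_le' := by
      intro x y
      by_cases hx : x = 0
      · simp [hx]
      · by_cases hy : y = 0
        · simp [hy]
        · by_cases hxy : x + y = 0
          · simp only [hxy, hx, hy, if_true, if_false]
            positivity
          · simp only [hx, hy, hxy, if_false]
            have h := place_add hv hxy
            rcases min_le_iff.1 h with h | h
            · have h1 : Real.exp (-(v (x + y) : ℝ)) ≤ Real.exp (-(v x : ℝ)) := by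
                apply Real.exp_le_exp.2
                have : ((v x : ℚ) : ℝ) ≤ ((v (x + y) : ℚ) : ℝ) := by exact_mod_cast h
                linarith
              have h2 := (Real.exp_pos (-(v y : ℝ))).le
              linarith
            · have h1 : Real.exp (-(v (x + y) : ℝ)) ≤ Real.exp (-(v y : ℝ)) := by
                apply Real.exp_le_exp.2
                have : ((v y : ℚ) : ℝ) ≤ ((v (x + y) : ℚ) : ℝ) := by exact_mod_cast h
                linarith
              have h2 := (Real.exp_pos (-(v x : ℝ))).le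
              linarith }

private theorem Pl2_abs_apply {X : E} {v : E → ℚ} (hv : v ∈ places F X) {e : E} (he : e ≠ 0) :
    Pl2_abs hv e = Real.exp (-(v e : ℝ)) := by
  exact if_neg he

omit [IsAlgClosed F] [CharZero F] in
private theorem Pl2_X_ne {X : E} {v : E → ℚ} (hv : v ∈ places F X) : X ≠ 0 := by
  intro h
  have h1 := place_X hv
  have h2 := place_zero hv
  rw [h] at h1
  rw [h1] at h2
  norm_num at h2

private theorem Pl2_abs_X {X : E} {v : E → ℚ} (hv : v ∈ places F X) :
    Pl2_abs hv X = Real.exp 1 := by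
  rw [Pl2_abs_apply hv (Pl2_X_ne hv), place_X hv]
  norm_num

private theorem Pl2_abs_nontriv {X : E} {v : E → ℚ} (hv : v ∈ places F X) :
    (Pl2_abs hv).IsNontrivial := by
  refine ⟨X, Pl2_X_ne hv, ?_⟩
  rw [Pl2_abs_X hv]
  have := Real.add_one_lt_exp (one_ne_zero (α := ℝ))
  intro h
  linarith

private theorem Pl2_eq_of_isEquiv {X : E} {v w : E → ℚ} (hv : v ∈ places F X)
    (hw : w ∈ places F X) (h : (Pl2_abs hv).IsEquiv (Pl2_abs hw)) : v = w := by
  obtain ⟨c, hc, h⟩ := AbsoluteValue.isEquiv_iff_exists_rpow_eq.1 h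
  have h1 := congrFun h X
  simp only [Pl2_abs_X] at h1
  rw [← Real.exp_mul, one_mul] at h1
  have h2 : c = 1 := Real.exp_injective h1
  subst h2
  funext e
  by_cases he : e = 0
  · rw [he, place_zero hv, place_zero hw]
  · have h3 := congrFun h e
    simp only [Real.rpow_one] at h3
    rw [Pl2_abs_apply hv he, Pl2_abs_apply hw he] at h3
    have h4 := Real.exp_injective h3
    have h5 : ((v e : ℚ) : ℝ) = ((w e : ℚ) : ℝ) := by linarith
    exact_mod_cast h5

/-- **PROOF.** For `v ∈ places F X` let `|e|_v = exp (- v e)`, `|0|_v = 0`, a nontrivial absolute value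
(`AbsoluteValue E ℝ`) with `|X|_v = exp 1`. Two equivalent ones are powers of each other, and because of
the common value at `X` they are equal. So for a finite set of places Mathlib's approximation theorem
`AbsoluteValue.exists_one_lt_lt_one_pi_of_not_isEquiv` applies. -/
theorem approx_finite {X : E} (S : Finset (E → ℚ)) (hS : ∀ v ∈ S, v ∈ places F X) {v₁ : E → ℚ}
    (h₁ : v₁ ∈ S) : ∃ z : E, z ≠ 0 ∧ v₁ z < 0 ∧ ∀ v ∈ S, v ≠ v₁ → 0 < v z := by
  obtain ⟨a, ha1, ha2⟩ := AbsoluteValue.exists_one_lt_lt_one_pi_of_not_isEquiv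
    (v := fun i : S => Pl2_abs (hS i.1 i.2)) (fun i => Pl2_abs_nontriv _)
    (fun i j hij h => hij (Subtype.ext (Pl2_eq_of_isEquiv _ _ h))) ⟨v₁, h₁⟩
  have ha0 : a ≠ 0 := by
    rintro rfl
    rw [map_zero] at ha1
    linarith
  refine ⟨a, ha0, ?_, ?_⟩
  · rw [Pl2_abs_apply _ ha0] at ha1
    have h := Real.one_lt_exp_iff.1 ha1
    have h2 : ((v₁ a : ℚ) : ℝ) < ((0 : ℚ) : ℝ) := by
      push_cast
      simp only at h
      linarith
    exact_mod_cast h2
  · intro v hv hne
    have h := ha2 ⟨v, hv⟩ (fun h => hne (congrArg Subtype.val h))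
    rw [Pl2_abs_apply _ ha0] at h
    have h := Real.exp_lt_one_iff.1 h
    have h2 : ((0 : ℚ) : ℝ) < ((v a : ℚ) : ℝ) := by
      push_cast
      simp only at h
      linarith
    exact_mod_cast h2

omit [IsAlgClosed F] [CharZero F] in
private theorem Pl2_agree {X : E} {v w : E → ℚ} (hv : v ∈ places F X) (hw : w ∈ places F X)
    (c : F⟮X⟯) : v (c : E) = w (c : E) := by
  obtain ⟨r, s, hrs⟩ := IntermediateField.mem_adjoin_simple_iff F (x := (c : E)) |>.1 c.2
  have hvX : v X < 0 := by rw [place_X hv]; norm_num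
  have hwX : w X < 0 := by rw [place_X hw]; norm_num
  by_cases hr : r = 0
  · rw [hrs, hr]
    simp only [map_zero, zero_div]
    rw [place_zero hv, place_zero hw]
  · by_cases hs : s = 0
    · rw [hrs, hs]
      simp only [map_zero, div_zero]
      rw [place_zero hv, place_zero hw]
    · obtain ⟨h1, h2⟩ := place_poly_neg hv hvX hr
      obtain ⟨h3, h4⟩ := place_poly_neg hv hvX hs
      obtain ⟨_, h5⟩ := place_poly_neg hw hwX hr
      obtain ⟨_, h6⟩ := place_poly_neg hw hwX hs
      rw [hrs, div_eq_mul_inv, place_mul hv h1 (inv_ne_zero h3), place_mul hw h1 (inv_ne_zero h3),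
        place_inv hv, place_inv hw, h2, h4, h5, h6, place_X hv, place_X hw]

omit [IsAlgClosed F] [CharZero F] in
private theorem Pl2_sum {X : E} {v : E → ℚ} (hv : v ∈ places F X) {ι : Type*} (T : Finset ι)
    (y : ι → E) (q : ℚ) (h : ∀ j ∈ T, y j = 0 ∨ q < v (y j)) :
    (∑ j ∈ T, y j) = 0 ∨ q < v (∑ j ∈ T, y j) := by
  classical
  induction T using Finset.induction_on with
  | empty => left; simp
  | insert a T ha ih =>
    rw [Finset.sum_insert ha]
    have h1 := h a (Finset.mem_insert_self _ _)
    have h2 := ih (fun j hj => h j (Finset.mem_insert_of_mem hj))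
    rcases h1 with h1 | h1
    · rw [h1, zero_add]
      exact h2
    · rcases h2 with h2 | h2
      · rw [h2, add_zero]
        exact Or.inr h1
      · by_cases h0 : y a + ∑ j ∈ T, y j = 0
        · exact Or.inl h0
        · right
          exact (lt_min h1 h2).trans_le (place_add hv h0)

private theorem Pl2_exists_e {X : E} (S : Finset (E → ℚ)) (hS : ∀ v ∈ S, v ∈ places F X)
    (v₁ : S) : ∃ e : E, e ≠ 0 ∧ v₁.1 e = 0 ∧ ∀ v ∈ S, v ≠ v₁.1 → 0 < v e := by
  obtain ⟨z, hz, h1, h2⟩ := approx_finite S hS v₁.2
  have hv1 := hS v₁.1 v₁.2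
  have hone : ∀ v ∈ places F X, v (1 : E) = 0 := by
    intro v hv
    have := place_C hv (1 : F)
    rwa [map_one] at this
  obtain ⟨h3, h4⟩ := place_add_of_lt hv1 (x := z) (y := 1) hz (Or.inl (by rw [hone _ hv1]; exact h1))
  refine ⟨z * (z + 1)⁻¹, mul_ne_zero hz (inv_ne_zero h3), ?_, ?_⟩
  · rw [place_mul hv1 hz (inv_ne_zero h3), place_inv hv1, h4]
    ring
  · intro v hv hne
    have h5 := h2 v hv hne
    obtain ⟨h6, h7⟩ := place_add_of_lt (hS v hv) (x := 1) (y := z) one_ne_zero
      (Or.inl (by rw [hone _ (hS v hv)]; exact h5))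
    rw [place_mul (hS v hv) hz (inv_ne_zero h3), place_inv (hS v hv), add_comm z 1, h7,
      hone _ (hS v hv)]
    linarith

/-- **PROOF.** Let `v_1, …, v_m` be different places. By `approx_finite` there are `z_i` with
`v_i z_i < 0`, `v_j z_i > 0` for `j ≠ i`; put `e_i = z_i / (1 + z_i)`, then `v_i (e_i - 1) > 0` (or
`e_i = 1`) and `v_j e_i > 0` for `j ≠ i`. These elements are linearly independent over
`F(X) = F⟮X⟯`: all places agree on `F(X)` (`v (a(X)/b(X)) = deg b - deg a`); in a relation
`Σ c_i e_i = 0` let `i` be such that `v c_i` is minimal among the nonzero `c_i`; then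
`v_i (c_i e_i) = v c_i < v_i (c_j e_j)` for `j ≠ i`, contradiction. So `m ≤ [E : F(X)]`. -/
theorem places_finite {X : E} (hX : Transcendental F X) [FiniteDimensional F⟮X⟯ E] :
    (places F X).Finite := by
  classical
  by_contra hinf
  obtain ⟨S, hS, hcard⟩ := Set.Infinite.exists_subset_card_eq hinf
    (Module.finrank F⟮X⟯ E + 1)
  have hS' : ∀ v ∈ S, v ∈ places F X := fun v hv => hS hv
  choose e he0 he1 he2 using Pl2_exists_e S hS'
  have hli : LinearIndependent F⟮X⟯ e := by
    rw [Fintype.linearIndependent_iff]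
    intro c hc
    by_contra hne
    push Not at hne
    obtain ⟨i₁, hi₁⟩ := hne
    obtain ⟨i, hi, hmin⟩ := Finset.exists_min_image (Finset.univ.filter (fun i => c i ≠ 0))
      (fun j => i₁.1 (c j : E)) ⟨i₁, by simpa using hi₁⟩
    have hci : c i ≠ 0 := by simpa using hi
    have hci' : ((c i : F⟮X⟯) : E) ≠ 0 := by
      intro h
      exact hci (by exact_mod_cast h)
    have hvi := hS' i.1 i.2
    rw [← Finset.add_sum_erase _ _ (Finset.mem_univ i)] at hc
    have hx : c i • e i = (c i : E) * e i := by
      rw [IntermediateField.smul_def, smul_eq_mul]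
    have hval : i.1 (c i • e i) = i.1 (c i : E) := by
      rw [hx, place_mul hvi hci' (he0 i), he1 i, add_zero]
    have hsum := Pl2_sum hvi (Finset.univ.erase i) (fun j => c j • e j) (i.1 (c i : E)) (by
      intro j hj
      by_cases hcj : c j = 0
      · left
        rw [hcj, zero_smul]
      · right
        have hcj' : ((c j : F⟮X⟯) : E) ≠ 0 := by
          intro h
          exact hcj (by exact_mod_cast h)
        have h1 := hmin j (by simpa using hcj)
        rw [Pl2_agree (hS' i₁.1 i₁.2) hvi (c i), Pl2_agree (hS' i₁.1 i₁.2) hvi (c j)] at h1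
        have h2 := he2 j i.1 i.2 (fun h => (Finset.ne_of_mem_erase hj) (Subtype.ext h.symm))
        rw [IntermediateField.smul_def, smul_eq_mul, place_mul hvi hcj' (he0 j)]
        linarith)
    have h0 : c i • e i ≠ 0 := by
      rw [hx]
      exact mul_ne_zero hci' (he0 i)
    refine (place_add_of_lt hvi h0 ?_).1 hc
    rcases hsum with h | h
    · exact Or.inr h
    · left
      rw [hval]
      exact h
  have h1 := hli.fintype_card_le_finrank
  rw [Fintype.card_coe, hcard] at h1
  omega

/-- **PROOF.** `exists_embeddings` for `L = F(X)` and the embedding `X ↦ s⁻¹`. -/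
theorem places_nonempty {X : E} (hX : Transcendental F X) [FiniteDimensional F⟮X⟯ E] :
    (places F X).Nonempty := by
  obtain ⟨y, hy⟩ := exists_coeff (F := F) (fun k : ℤ => if k = -1 then 1 else 0) (-1) (by
    intro k hk
    rw [if_neg hk.ne])
  have hyord : y.ord = -1 := by
    refine (ord_eq ?_ ?_).2
    · rw [hy, if_pos rfl]
      exact one_ne_zero
    · intro k hk
      rw [hy, if_neg hk.ne]
  have hytr : Transcendental F y := by
    rw [transcendental_iff]
    intro p hp
    by_contra hp0
    exact (aeval_ord (by rw [hyord]; norm_num) hp0).1 hp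
  let ρ : F⟮X⟯ →ₐ[F] Om F := (F⟮y⟯.val.comp
    (RatFunc.algEquivOfTranscendental y hytr : RatFunc F →ₐ[F] F⟮y⟯)).comp
    ((RatFunc.algEquivOfTranscendental X hX).symm : F⟮X⟯ →ₐ[F] RatFunc F)
  have hρ : ρ (AdjoinSimple.gen F X) = y := by
    show ((RatFunc.algEquivOfTranscendental y hytr
      ((RatFunc.algEquivOfTranscendental X hX).symm (AdjoinSimple.gen F X)) : F⟮y⟯) : Om F) = y
    rw [RatFunc.algEquivOfTranscendental_symm_gen, RatFunc.algEquivOfTranscendental_X]
  obtain ⟨m, hm, τ, _, hτ, _⟩ := exists_embeddings F⟮X⟯ ρ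
  have hpos : 0 < Module.finrank F⟮X⟯ E := Module.finrank_pos
  refine ⟨val X (τ ⟨0, hpos⟩), τ ⟨0, hpos⟩, ?_, rfl⟩
  have h1 := hτ ⟨0, hpos⟩ (AdjoinSimple.gen F X)
  rw [AdjoinSimple.coe_gen, hρ] at h1
  rw [h1, exm_ord, hyord]
  have : (0 : ℤ) < m := by exact_mod_cast hm
  linarith

theorem approx {X : E} (hX : Transcendental F X) [FiniteDimensional F⟮X⟯ E] {v₁ : E → ℚ}
    (h₁ : v₁ ∈ places F X) : ∃ z : E, z ≠ 0 ∧ v₁ z < 0 ∧ ∀ v ∈ places F X, v ≠ v₁ → 0 < v z := by
  obtain ⟨z, h0, h2, h3⟩ := approx_finite (places_finite hX).toFinset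
    (fun v hv => (Set.Finite.mem_toFinset _).1 hv) ((Set.Finite.mem_toFinset _).2 h₁)
  exact ⟨z, h0, h2, fun v hv => h3 v ((Set.Finite.mem_toFinset _).2 hv)⟩

end Pool.Agent.MSC
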