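import Pool.Agent.MSC.MSn
import Pool.Agent.MSC.Mval
import Pool.Agent.PrepH.Graph

/-!
# The theorem of Medvedev and Scanlon for hypersurfaces
-/

namespace Pool.Agent.MSC

open Pool.Agent.PrepH

set_option linter.unusedSectionVars false

variable {F : Type*} [Field F] [IsAlgClosed F] [CharZero F]

private theorem SetsP_null {n : ℕ} {K G : MvPolynomial (Fin n) F} (hK : Prime K)
    (h : ∀ x : Fin n → F, MvPolynomial.eval x K = 0 → MvPolynomial.eval x G = 0) : K ∣ G := by
  have h1 : G ∈ MvPolynomial.vanishingIdeal F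
      (MvPolynomial.zeroLocus F (Ideal.span ({K} : Set (MvPolynomial (Fin n) F)))) := by
    rw [MvPolynomial.mem_vanishingIdeal_iff]
    intro x hx
    rw [MvPolynomial.mem_zeroLocus_iff] at hx
    have h2 := hx K (Ideal.subset_span rfl)
    exact h x h2
  rw [MvPolynomial.vanishingIdeal_zeroLocus_eq_radical, Ideal.mem_radical_iff] at h1
  obtain ⟨N, hN⟩ := h1
  rw [Ideal.mem_span_singleton] at hN
  exact hK.dvd_of_dvd_pow hN

private theorem SetsP_unit {n : ℕ} {u : MvPolynomial (Fin n) F} (hu : IsUnit u)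
    (P : Fin n → P1 F) : mval u P ≠ 0 := by
  rw [MvPolynomial.isUnit_iff_eq_C_of_isReduced] at hu
  obtain ⟨r, hr, rfl⟩ := hu
  rw [mval_C]
  exact hr.ne_zero

private theorem SetsP_assoc {n : ℕ} {H K : MvPolynomial (Fin n) F} (h : Associated H K)
    (P : Fin n → P1 F) : mval H P = 0 ↔ mval K P = 0 := by
  obtain ⟨u, rfl⟩ := h
  rw [mval_mul, mul_eq_zero]
  exact ⟨Or.inl, fun h => h.resolve_right (SetsP_unit u.isUnit P)⟩

private theorem SetsP_dvd {n : ℕ} {H K : MvPolynomial (Fin n) F} (h : H ∣ K)
    {P : Fin n → P1 F} (hP : mval H P = 0) : mval K P = 0 := by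
  obtain ⟨u, rfl⟩ := h
  rw [mval_mul, hP, zero_mul]

private theorem SetsP_prod {n : ℕ} (S : Multiset (MvPolynomial (Fin n) F)) (P : Fin n → P1 F) :
    mval S.prod P = 0 ↔ ∃ K ∈ S, mval K P = 0 := by
  induction S using Multiset.induction_on with
  | empty =>
    rw [Multiset.prod_zero]
    constructor
    · intro h
      exact absurd h (SetsP_unit isUnit_one P)
    · rintro ⟨K, hK, _⟩
      exact absurd hK (Multiset.notMem_zero K)
  | cons a S ih =>
    rw [Multiset.prod_cons, mval_mul, mul_eq_zero, ih]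
    constructor
    · rintro (h | ⟨K, hK, h⟩)
      · exact ⟨a, Multiset.mem_cons_self a S, h⟩
      · exact ⟨K, Multiset.mem_cons_of_mem hK, h⟩
    · rintro ⟨K, hK, h⟩
      rcases Multiset.mem_cons.1 hK with rfl | hK
      · exact Or.inl h
      · exact Or.inr ⟨K, hK, h⟩

private theorem SetsP_phi {n : ℕ} (f : Polynomial F) (m : ℕ) (P : Fin n → P1 F) (i : Fin n) :
    (phi f)^[m] P i = (onP1 f)^[m] (P i) := by
  induction m generalizing P with
  | zero => rfl
  | succ m ih =>
    rw [Function.iterate_succ_apply, Function.iterate_succ_apply, ih]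
    rfl

private theorem SetsP_phi_some {n : ℕ} (f : Polynomial F) (m : ℕ) (x : Fin n → F) :
    (phi f)^[m] (fun i => some (x i)) = fun i => some ((itp f m).eval (x i)) := by
  funext i
  rw [SetsP_phi, ← onP1_itp]
  rfl

private theorem SetsP_none (f : Polynomial F) (m : ℕ) : (onP1 f)^[m] none = none := by
  rw [← onP1_itp]
  rfl

private theorem SetsP_sub_dvd {n : ℕ} {G : Polynomial F} {H K : MvPolynomial (Fin n) F}
    (h : H ∣ K) : sub G H ∣ sub G K := by
  obtain ⟨u, rfl⟩ := h
  rw [sub_mul]
  exact dvd_mul_right _ _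

private theorem SetsP_sub_prod {n : ℕ} (G : Polynomial F)
    (S : Multiset (MvPolynomial (Fin n) F)) : sub G S.prod = (S.map (sub G)).prod := by
  induction S using Multiset.induction_on with
  | empty =>
    rw [Multiset.prod_zero, Multiset.map_zero, Multiset.prod_zero]
    exact map_one _
  | cons a S ih =>
    rw [Multiset.prod_cons, sub_mul, ih, Multiset.map_cons, Multiset.prod_cons]

private theorem SetsP_iter {n : ℕ} {ι : Type*} {f : Polynomial F} {m : ℕ}
    (K : ι → MvPolynomial (Fin n) F) (σ : ι → ι)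
    (h : ∀ i, K i ∣ sub (itp f m) (K (σ i))) (r : ℕ) (i : ι) :
    K i ∣ sub (itp f (m * r)) (K (σ^[r] i)) := by
  induction r generalizing i with
  | zero =>
    have h1 : sub (itp f (m * 0)) (K (σ^[0] i)) = K i := by
      rw [mul_zero]
      unfold sub itp
      simp
    rw [h1]
  | succ r ih =>
    have h1 := (h i).trans (SetsP_sub_dvd (G := itp f m) (ih (σ i)))
    rw [sub_sub, ← itp_add] at h1
    rw [Function.iterate_succ_apply]
    have h2 : m * (r + 1) = m * r + m := by ring
    rw [h2]
    exact h1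

private theorem SetsP_periodic {f : Polynomial F} {n : ℕ} {m : ℕ}
    {H : MvPolynomial (Fin n) F} {s : Finset (Fin n)} (hH0 : H ≠ 0)
    (him : (phi f)^[m] '' {P : Fin n → P1 F | mval H P = 0 ∨ ∃ i ∈ s, P i = none} =
      {P : Fin n → P1 F | mval H P = 0 ∨ ∃ i ∈ s, P i = none})
    {Q : Fin n → P1 F} (hQ : mval H Q = 0) :
    ∃ K : MvPolynomial (Fin n) F, Irreducible K ∧ K ∣ H ∧ mval K Q = 0 ∧
      ∃ r : ℕ, 1 ≤ r ∧ K ∣ sub (itp f (m * r)) K := by
  classical
  set S := UniqueFactorizationMonoid.factors H with hS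
  have hSH : Associated S.prod H := UniqueFactorizationMonoid.factors_prod hH0
  have hirr : ∀ K ∈ S, Irreducible K := UniqueFactorizationMonoid.irreducible_of_factor
  have hprime : ∀ K ∈ S, Prime K := fun K hK => (hirr K hK).prime
  have hval : ∀ P : Fin n → P1 F, mval H P = 0 ↔ ∃ K ∈ S, mval K P = 0 := by
    intro P
    rw [← SetsP_assoc hSH, SetsP_prod]
  have hdvd : ∀ K ∈ S, K ∣ H := fun K hK => (Multiset.dvd_prod hK).trans hSH.dvd
  set T : Finset (Associates (MvPolynomial (Fin n) F)) := (S.map Associates.mk).toFinset with hT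
  have hrep : ∀ a : T, ∃ K ∈ S, Associates.mk K = a.1 := by
    rintro ⟨a, h1⟩
    rw [hT, Multiset.mem_toFinset, Multiset.mem_map] at h1
    exact h1
  choose K hKS hKa using hrep
  have hmem : ∀ L ∈ S, ∃ a : T, Associated (K a) L := by
    intro L hL
    have h1 : Associates.mk L ∈ T := by
      rw [hT, Multiset.mem_toFinset, Multiset.mem_map]
      exact ⟨L, hL, rfl⟩
    refine ⟨⟨Associates.mk L, h1⟩, ?_⟩
    rw [← Associates.mk_eq_mk_iff_associated, hKa]
  have hval' : ∀ P : Fin n → P1 F, mval H P = 0 ↔ ∃ a : T, mval (K a) P = 0 := by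
    intro P
    rw [hval]
    constructor
    · rintro ⟨L, hL, h⟩
      obtain ⟨a, ha⟩ := hmem L hL
      exact ⟨a, (SetsP_assoc ha P).2 h⟩
    · rintro ⟨a, ha⟩
      exact ⟨K a, hKS a, ha⟩
  -- (1)
  have h1 : ∀ a : T, ∃ b : T, K a ∣ sub (itp f m) (K b) := by
    intro a
    have h2 : K a ∣ sub (itp f m) H := by
      refine SetsP_null (hprime _ (hKS a)) fun x hx => ?_
      have h3 : (fun i => some (x i) : Fin n → P1 F) ∈
          {P : Fin n → P1 F | mval H P = 0 ∨ ∃ i ∈ s, P i = none} := by
        left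
        rw [hval']
        exact ⟨a, by rw [mval_some]; exact hx⟩
      have h4 : (phi f)^[m] (fun i => some (x i) : Fin n → P1 F) ∈
          {P : Fin n → P1 F | mval H P = 0 ∨ ∃ i ∈ s, P i = none} := by
        rw [← him]
        exact ⟨_, h3, rfl⟩
      rw [SetsP_phi_some] at h4
      rcases h4 with h4 | ⟨i, _, hi⟩
      · rw [mval_some] at h4
        rw [eval_sub]
        exact h4
      · exact absurd hi (Option.some_ne_none _)
    have h3 : K a ∣ (S.map (sub (itp f m))).prod := by
      rw [← SetsP_sub_prod]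
      exact h2.trans (SetsP_sub_dvd hSH.symm.dvd)
    obtain ⟨L, hL, hLa⟩ := (hprime _ (hKS a)).exists_mem_multiset_map_dvd h3
    obtain ⟨b, hb⟩ := hmem L hL
    exact ⟨b, hLa.trans (SetsP_sub_dvd hb.symm.dvd)⟩
  choose σ hσ using h1
  -- (2)
  have hsurj : Function.Surjective σ := by
    intro l
    have h2 : K l ∣ ∏ a : T, K (σ a) := by
      refine SetsP_null (hprime _ (hKS l)) fun x hx => ?_
      have h3 : (fun i => some (x i) : Fin n → P1 F) ∈
          {P : Fin n → P1 F | mval H P = 0 ∨ ∃ i ∈ s, P i = none} := by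
        left
        rw [hval']
        exact ⟨l, by rw [mval_some]; exact hx⟩
      rw [← him] at h3
      obtain ⟨P, hP, hPx⟩ := h3
      have h4 : ∀ i, ∃ y : F, P i = some y := by
        intro i
        rcases hPi : P i with _ | y
        · exfalso
          have h5 := congrFun hPx i
          rw [SetsP_phi, hPi, SetsP_none] at h5
          exact absurd h5.symm (Option.some_ne_none _)
        · exact ⟨y, rfl⟩
      choose y hy using h4
      have h5 : P = fun i => some (y i) := funext hy
      rw [h5, SetsP_phi_some] at hPx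
      have h6 : (fun i => (itp f m).eval (y i)) = x := by
        funext i
        exact Option.some.inj (congrFun hPx i)
      rcases hP with hP | ⟨i, _, hi⟩
      · rw [hval'] at hP
        obtain ⟨a, ha⟩ := hP
        rw [h5, mval_some] at ha
        rw [map_prod]
        refine Finset.prod_eq_zero (Finset.mem_univ a) ?_
        obtain ⟨w, hw⟩ := hσ a
        have h7 := congrArg (MvPolynomial.eval y) hw
        rw [eval_sub, map_mul, ha, zero_mul, h6] at h7
        exact h7
      · rw [hy i] at hi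
        exact absurd hi (Option.some_ne_none _)
    obtain ⟨a, _, ha⟩ := (Prime.dvd_finsetProd_iff (hprime _ (hKS l)) _).1 h2
    refine ⟨a, ?_⟩
    have h3 : Associated (K l) (K (σ a)) :=
      (hirr _ (hKS l)).associated_of_dvd (hirr _ (hKS _)) ha
    apply Subtype.ext
    rw [← hKa, ← hKa, Associates.mk_eq_mk_iff_associated]
    exact h3.symm
  have hinj : Function.Injective σ := Finite.injective_iff_surjective.2 hsurj
  rw [hval'] at hQ
  obtain ⟨a, ha⟩ := hQ
  obtain ⟨r, hr, hra⟩ := hinj.mem_periodicPts a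
  refine ⟨K a, hirr _ (hKS a), hdvd _ (hKS a), ha, r, hr, ?_⟩
  have h2 := SetsP_iter K σ hσ r a
  have h3 : σ^[r] a = a := hra
  rw [h3] at h2
  exact h2

/-- **PROOF.** Let `V = {P | mval H P = 0 ∨ ∃ i ∈ s, P i = none}`, `φ^m '' V = V`, `Q ∈ V`. If
`Q i = none` for some `i ∈ s`, take `ζ = none` (`{P | P i = none} ⊆ V`, `onP1 f none = none`). Otherwise
`mval H Q = 0`. Let `K_1, …, K_t` be the irreducible factors of `H` up to units (`H ≠ 0`; there is at
least one because `mval H Q = 0`, `mval_C`). By `mval_mul`, `mval H P = 0` iff `mval K_k P = 0` for some `k`.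

(1) For every `k` there is `l` with `K_k ∣ sub (itp f m) K_l`: for an affine point `x` with `K_k(x) = 0`,
`φ^m(x) ∈ V` is an affine point, so `H(f^m(x)) = 0` (`mval_some`, `eval_sub`). By the Nullstellensatz
(`MvPolynomial.vanishingIdeal_zeroLocus_eq_radical`, `F` algebraically closed), `K_k` divides a power of
`sub (itp f m) H`, the product of the `sub (itp f m) K_l` (up to a unit, with multiplicities), and `K_k` is prime.
Choose such an `l = σ(k)`.

(2) `σ` is surjective: let `x` be an affine point with `K_l(x) = 0`, so `x ∈ V`, `x = φ^m(P)` with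
`P ∈ V`, and `P` is affine (`onP1 f` maps `none` to `none`); so `K_k(P) = 0` for some `k`, and
`K_σ(k)(x) = K_σ(k)(f^m(P)) = 0`. So the product of the `K_σ(k)` vanishes where `K_l` does; by the
Nullstellensatz `K_l` divides some `K_σ(k)`, and is associated to it, `l = σ(k)`.

So `σ` is a permutation, and every `K_k` satisfies `K_k ∣ sub (itp f (m r)) K_k` for some `r ≥ 1`
(`sub_sub`, `itp_add`). Choose `k` with `mval K_k Q = 0` and apply `ms_poly`. If `K_k` is associated to
`X i - C c`: `{P | P i = some c} ⊆ V` and `Q i = some c` (`mval_X_sub_C`, `mval_mul`; units are nonzero constants), and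
`X i - C c ∣ (itp f (m r))(X i) - C c` shows that `c` is periodic. If it is associated to
`X j - g(X i) = gph X g i j`, then `mval K_k P = 0` iff `P j = onP1 g (P i)` by `mval_gph` (with `A = X`). -/
theorem ms_holds {f : Polynomial F} (hf : 2 ≤ f.natDegree) (hsp : ¬ Special f) (n : ℕ) :
    MedvedevScanlon f n := by
  rintro V ⟨⟨H, s, hH0, _, hV⟩, m, hm, him⟩ Q hQ
  subst hV
  rcases hQ with hQ | ⟨i, hi, hQi⟩
  swap
  · left
    exact ⟨i, none, 1, le_rfl, rfl, fun P hP => Or.inr ⟨i, hi, hP⟩, hQi⟩
  obtain ⟨K, hK, hKH, hKQ, r, hr, hKr⟩ := SetsP_periodic hH0 him hQ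
  have hmr : 1 ≤ m * r := Nat.mul_pos hm hr
  rcases ms_poly hf hsp hK hmr hKr with ⟨i, c, hic⟩ | ⟨i, j, hij, g, hg, hcg, hgK⟩
  · left
    refine ⟨i, some c, m * r, hmr, ?_, ?_, ?_⟩
    · have h1 : MvPolynomial.X i - MvPolynomial.C c ∣
          sub (itp f (m * r)) (MvPolynomial.X i - MvPolynomial.C c : MvPolynomial (Fin n) F) :=
        (hic.symm.dvd.trans hKr).trans (SetsP_sub_dvd hic.dvd)
      obtain ⟨w, hw⟩ := h1
      have h2 := congrArg (MvPolynomial.eval (fun _ => c)) hw
      rw [eval_sub, map_mul, map_sub, map_sub, MvPolynomial.eval_X, MvPolynomial.eval_C,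
        MvPolynomial.eval_X, MvPolynomial.eval_C, sub_self, zero_mul, sub_eq_zero] at h2
      rw [← onP1_itp]
      change some ((itp f (m * r)).eval c) = some c
      rw [h2]
    · intro P hP
      left
      exact SetsP_dvd hKH ((SetsP_assoc hic P).2 ((mval_X_sub_C i c P).2 hP))
    · exact (mval_X_sub_C i c Q).1 ((SetsP_assoc hic Q).1 hKQ)
  · right
    have hX : (1 : ℕ) ≤ (Polynomial.X : Polynomial F).natDegree := by
      rw [Polynomial.natDegree_X]
    have h0 : (MvPolynomial.X j - Polynomial.aeval (MvPolynomial.X i) g : MvPolynomial (Fin n) F) =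
        gph Polynomial.X g i j := by
      unfold gph
      rw [Polynomial.aeval_X]
    rw [h0] at hgK
    have hX1 : ∀ x : P1 F, onP1 (Polynomial.X : Polynomial F) x = x := by
      intro x
      cases x with
      | none => rfl
      | some x => simp [onP1, ev]
    have h2 : ∀ P : Fin n → P1 F, mval K P = 0 ↔ P j = onP1 g (P i) := by
      intro P
      rw [SetsP_assoc hgK, mval_gph hX hg hij, hX1]
    refine ⟨i, j, hij, g, hg, hcg, ?_, ?_⟩
    · intro P hP
      left
      exact SetsP_dvd hKH ((h2 P).2 hP)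
    · exact (h2 Q).1 hKQ

end Pool.Agent.MSC
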