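import Pool.Agent.MSC.Spec

/-!
# Substitutions in polynomials of several variables, and periodic factors
-/

namespace Pool.Agent.MSC

open Pool.Agent.PrepH

variable {F : Type*} [Field F] {n : ℕ}

/-- `H(G(x_1), …, G(x_n))`. -/
noncomputable def sub (G : Polynomial F) (H : MvPolynomial (Fin n) F) : MvPolynomial (Fin n) F :=
  MvPolynomial.aeval (fun i => Polynomial.aeval (MvPolynomial.X i) G) H

/-- `H` with `x_(i₀)` replaced by `c`. -/
noncomputable def ev0 (i₀ : Fin n) (c : F) (H : MvPolynomial (Fin n) F) :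
    MvPolynomial (Fin n) F :=
  MvPolynomial.aeval (fun i => if i = i₀ then MvPolynomial.C c else MvPolynomial.X i) H

theorem sub_mul (G : Polynomial F) (H K : MvPolynomial (Fin n) F) :
    sub G (H * K) = sub G H * sub G K := map_mul _ _ _

theorem ev0_mul (i₀ : Fin n) (c : F) (H K : MvPolynomial (Fin n) F) :
    ev0 i₀ c (H * K) = ev0 i₀ c H * ev0 i₀ c K := map_mul _ _ _

private theorem Sub_eval {x : Fin n → F} (P : MvPolynomial (Fin n) F) :
    MvPolynomial.eval x P = MvPolynomial.aeval x P := by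
  rw [← MvPolynomial.coe_aeval_eq_eval]
  rfl

private theorem Sub_comp {B : Type*} [CommRing B] [Algebra F B]
    (φ : MvPolynomial (Fin n) F →ₐ[F] B) (ψ : Fin n → MvPolynomial (Fin n) F)
    (H : MvPolynomial (Fin n) F) :
    φ (MvPolynomial.aeval ψ H) = MvPolynomial.aeval (fun i => φ (ψ i)) H := by
  rw [← AlgHom.comp_apply, MvPolynomial.comp_aeval]

theorem eval_sub (G : Polynomial F) (H : MvPolynomial (Fin n) F) (x : Fin n → F) :
    MvPolynomial.eval x (sub G H) = MvPolynomial.eval (fun i => G.eval (x i)) H := by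
  unfold sub
  rw [Sub_eval, Sub_eval, Sub_comp]
  have h1 : (fun i => (MvPolynomial.aeval x)
      (Polynomial.aeval (MvPolynomial.X i : MvPolynomial (Fin n) F) G)) =
      fun i => G.eval (x i) := by
    funext i
    rw [← Polynomial.aeval_algHom_apply, MvPolynomial.aeval_X, Polynomial.coe_aeval_eq_eval]
  rw [h1]

theorem eval_ev0 (i₀ : Fin n) (c : F) (H : MvPolynomial (Fin n) F) (x : Fin n → F) :
    MvPolynomial.eval x (ev0 i₀ c H) = MvPolynomial.eval (Function.update x i₀ c) H := by
  unfold ev0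
  rw [Sub_eval, Sub_eval, Sub_comp]
  have h1 : (fun i => (MvPolynomial.aeval x)
      ((if i = i₀ then MvPolynomial.C c else MvPolynomial.X i) : MvPolynomial (Fin n) F)) =
      Function.update x i₀ c := by
    funext i
    by_cases h : i = i₀
    · subst h
      rw [if_pos rfl, Function.update_self, MvPolynomial.aeval_C]
      rfl
    · rw [if_neg h, Function.update_of_ne h, MvPolynomial.aeval_X]
  rw [h1]

theorem sub_sub (A B : Polynomial F) (H : MvPolynomial (Fin n) F) :
    sub A (sub B H) = sub (B.comp A) H := by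
  unfold sub
  rw [Sub_comp]
  have h1 : (fun i : Fin n => (MvPolynomial.aeval
      (fun i => Polynomial.aeval (MvPolynomial.X i : MvPolynomial (Fin n) F) A))
      (Polynomial.aeval (MvPolynomial.X i : MvPolynomial (Fin n) F) B)) =
      fun i => Polynomial.aeval (MvPolynomial.X i : MvPolynomial (Fin n) F) (B.comp A) := by
    funext i
    rw [← Polynomial.aeval_algHom_apply, MvPolynomial.aeval_X, Polynomial.aeval_comp]
  rw [h1]

private theorem Sub_itp_succ (f : Polynomial F) (r : ℕ) : itp f (r + 1) = f.comp (itp f r) := by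
  unfold itp
  rw [Function.iterate_succ_apply']

private theorem Sub_itp_zero (f : Polynomial F) : itp f 0 = Polynomial.X := rfl

private theorem Sub_sub_X (H : MvPolynomial (Fin n) F) : sub Polynomial.X H = H := by
  unfold sub
  simp

theorem itp_add (f : Polynomial F) (a b : ℕ) : itp f (a + b) = (itp f a).comp (itp f b) := by
  induction a with
  | zero => rw [Sub_itp_zero, zero_add, Polynomial.X_comp]
  | succ a ih => rw [Nat.add_right_comm, Sub_itp_succ, Sub_itp_succ, ih, Polynomial.comp_assoc]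

theorem itp_mul (f : Polynomial F) (a b : ℕ) : itp (itp f a) b = itp f (a * b) := by
  induction b with
  | zero => rfl
  | succ b ih => rw [Sub_itp_succ, ih, ← itp_add, Nat.mul_succ, Nat.add_comm]

theorem dvd_sub_itp_mul {G : Polynomial F} {H : MvPolynomial (Fin n) F} {r : ℕ}
    (h : H ∣ sub (itp G r) H) (k : ℕ) : H ∣ sub (itp G (r * k)) H := by
  induction k with
  | zero => rw [Nat.mul_zero, Sub_itp_zero, Sub_sub_X]
  | succ k ih =>
      rw [Nat.mul_succ, itp_add, ← sub_sub]
      obtain ⟨L, hL⟩ := ih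
      exact h.trans ⟨sub (itp G r) L, by rw [← sub_mul, ← hL]⟩

/-- **PROOF.** `ev0 i₀ c (sub G H) = sub G (ev0 i₀ c H)`, because `G(c) = c`. -/
theorem ev0_dvd {G : Polynomial F} {H : MvPolynomial (Fin n) F} (h : H ∣ sub G H) (i₀ : Fin n)
    {c : F} (hc : G.eval c = c) : ev0 i₀ c H ∣ sub G (ev0 i₀ c H) := by
  have key : ∀ K : MvPolynomial (Fin n) F, sub G (ev0 i₀ c K) = ev0 i₀ c (sub G K) := by
    intro K
    unfold ev0 sub
    rw [Sub_comp, Sub_comp]
    have h1 : (fun i : Fin n => (MvPolynomial.aeval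
        (fun i => Polynomial.aeval (MvPolynomial.X i : MvPolynomial (Fin n) F) G))
        ((if i = i₀ then MvPolynomial.C c else MvPolynomial.X i) : MvPolynomial (Fin n) F)) =
        fun i => (MvPolynomial.aeval (fun i =>
          ((if i = i₀ then MvPolynomial.C c else MvPolynomial.X i) : MvPolynomial (Fin n) F)))
          (Polynomial.aeval (MvPolynomial.X i : MvPolynomial (Fin n) F) G) := by
      funext i
      rw [← Polynomial.aeval_algHom_apply, MvPolynomial.aeval_X]
      by_cases hi : i = i₀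
      · rw [if_pos hi]
        have e1 : (MvPolynomial.C c : MvPolynomial (Fin n) F) =
            algebraMap F (MvPolynomial (Fin n) F) c := rfl
        rw [e1, AlgHom.commutes, Polynomial.aeval_algebraMap_apply, Polynomial.coe_aeval_eq_eval,
          hc]
      · rw [if_neg hi, MvPolynomial.aeval_X]
    rw [h1]
  rw [key]
  obtain ⟨L, hL⟩ := h
  exact ⟨ev0 i₀ c L, by rw [← ev0_mul, ← hL]⟩

theorem vars_ev0 (i₀ : Fin n) (c : F) (H : MvPolynomial (Fin n) F) :
    (ev0 i₀ c H).vars ⊆ H.vars.erase i₀ := by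
  classical
  have h1 := MvPolynomial.vars_bind₁
    (fun i => if i = i₀ then (MvPolynomial.C c : MvPolynomial (Fin n) F) else MvPolynomial.X i) H
  intro j hj
  have h2 := h1 hj
  rw [Finset.mem_biUnion] at h2
  obtain ⟨i, hi, hij⟩ := h2
  by_cases h : i = i₀
  · rw [if_pos h, MvPolynomial.vars_C] at hij
    simp at hij
  · rw [if_neg h, MvPolynomial.vars_X, Finset.mem_singleton] at hij
    subst hij
    exact Finset.mem_erase.2 ⟨h, hi⟩

theorem totalDegree_ev0 (i₀ : Fin n) (c : F) (H : MvPolynomial (Fin n) F) :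
    (ev0 i₀ c H).totalDegree ≤ H.totalDegree := by
  classical
  unfold ev0
  rw [MvPolynomial.aeval_def, MvPolynomial.eval₂_eq']
  refine MvPolynomial.totalDegree_finsetSum_le fun m hm => ?_
  refine (MvPolynomial.totalDegree_mul _ _).trans ?_
  have h1 : ((algebraMap F (MvPolynomial (Fin n) F)) (MvPolynomial.coeff m H)).totalDegree = 0 :=
    MvPolynomial.totalDegree_C _
  rw [h1, zero_add]
  refine (MvPolynomial.totalDegree_finsetProd _ _).trans ?_
  have h2 : ∀ i : Fin n, (((if i = i₀ then MvPolynomial.C c else MvPolynomial.X i) :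
      MvPolynomial (Fin n) F) ^ m i).totalDegree ≤ m i := by
    intro i
    refine (MvPolynomial.totalDegree_pow _ _).trans ?_
    by_cases h : i = i₀
    · simp [h]
    · rw [if_neg h, MvPolynomial.totalDegree_X, mul_one]
  refine (Finset.sum_le_sum fun i _ => h2 i).trans ?_
  have h3 := MvPolynomial.le_totalDegree hm
  rwa [Finsupp.sum_fintype _ _ (fun _ => rfl)] at h3

/-- **PROOF.** Let `K_1, …, K_m` be the irreducible factors of `H` up to units
(`UniqueFactorizationMonoid`), `m ≥ 1`. For every `i`, `K_i` divides `H`, so `sub G H`, so some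
`sub G K_σ(i)`. Some `i` is periodic for `σ : Fin m → Fin m`, `σ^r i = i`, and `K_i` divides
`sub (itp G r) K_i`. -/
theorem exists_per_factor {G : Polynomial F} {H : MvPolynomial (Fin n) F} (h0 : H ≠ 0)
    (hu : ¬ IsUnit H) (h : H ∣ sub G H) :
    ∃ K : MvPolynomial (Fin n) F, Irreducible K ∧ K ∣ H ∧ ∃ r : ℕ, 1 ≤ r ∧ K ∣ sub (itp G r) K := by
  classical
  set T := UniqueFactorizationMonoid.factors H with hT
  have hTirr : ∀ K ∈ T, Irreducible K := fun K hK =>
    UniqueFactorizationMonoid.irreducible_of_factor K hK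
  have hTprod : Associated T.prod H := UniqueFactorizationMonoid.factors_prod h0
  have hTdvd : ∀ K ∈ T, K ∣ H := fun K hK =>
    (Multiset.dvd_prod hK).trans hTprod.dvd
  have hprod : ∀ S : Multiset (MvPolynomial (Fin n) F), sub G S.prod = (S.map (sub G)).prod := by
    intro S
    exact map_multiset_prod (MvPolynomial.aeval (fun i => Polynomial.aeval (MvPolynomial.X i) G)) S
  have step : ∀ K ∈ T, ∃ K' ∈ T, K ∣ sub G K' := by
    intro K hK
    have h1 : K ∣ sub G H := (hTdvd K hK).trans h
    obtain ⟨L, hL⟩ := hTprod.symm.dvd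
    have h2 : K ∣ (T.map (sub G)).prod := by
      rw [← hprod, hL, sub_mul]
      exact h1.trans (dvd_mul_right _ _)
    have hp : Prime K := (hTirr K hK).prime
    obtain ⟨q, hq, hKq⟩ := hp.exists_mem_multiset_map_dvd h2
    exact ⟨q, hq, hKq⟩
  have hne : ∃ K, K ∈ T := by
    by_contra hc
    have h1 : T = 0 := Multiset.eq_zero_of_forall_notMem fun K hK => hc ⟨K, hK⟩
    rw [h1, Multiset.prod_zero] at hTprod
    exact hu (hTprod.isUnit isUnit_one)
  obtain ⟨K0, hK0⟩ := hne
  choose! σ hσ1 hσ2 using step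
  have hit : ∀ j : ℕ, ∀ K ∈ T, σ^[j] K ∈ T ∧ K ∣ sub (itp G j) (σ^[j] K) := by
    intro j
    induction j with
    | zero =>
        intro K hK
        refine ⟨hK, ?_⟩
        rw [Sub_itp_zero, Sub_sub_X]
        exact dvd_rfl
    | succ j ih =>
        intro K hK
        obtain ⟨a1, a2⟩ := ih K hK
        rw [Function.iterate_succ_apply']
        refine ⟨hσ1 _ a1, a2.trans ?_⟩
        rw [Sub_itp_succ, ← sub_sub]
        obtain ⟨L, hL⟩ := hσ2 _ a1
        exact ⟨sub (itp G j) L, by rw [← sub_mul, ← hL]⟩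
  -- pigeonhole
  have hmaps : ∀ j ∈ Finset.range (T.toFinset.card + 1), σ^[j] K0 ∈ T.toFinset := fun j _ =>
    Multiset.mem_toFinset.2 (hit j K0 hK0).1
  obtain ⟨a, ha, b, hb, hab, heq⟩ := Finset.exists_ne_map_eq_of_card_lt_of_maps_to
    (by rw [Finset.card_range]; exact Nat.lt_succ_self _) hmaps
  have main : ∀ a b : ℕ, a < b → σ^[a] K0 = σ^[b] K0 →
      ∃ K : MvPolynomial (Fin n) F, Irreducible K ∧ K ∣ H ∧
        ∃ r : ℕ, 1 ≤ r ∧ K ∣ sub (itp G r) K := by
    intro a b hab heq
    have hK := (hit a K0 hK0).1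
    refine ⟨σ^[a] K0, hTirr _ hK, hTdvd _ hK, b - a, by omega, ?_⟩
    have h1 := (hit (b - a) _ hK).2
    rw [← Function.iterate_add_apply, Nat.sub_add_cancel hab.le, ← heq] at h1
    exact h1
  rcases lt_or_gt_of_ne hab with h1 | h1
  · exact main a b h1 heq
  · exact main b a h1 heq.symm

end Pool.Agent.MSC
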