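import Pool.Agent.MSC.Ph

/-!
# The transfer operator
-/

namespace Pool.Agent.MSC

open Polynomial IntermediateField

variable {F : Type*} [Field F] [IsAlgClosed F] [CharZero F]

variable {E : Type*} [Field E] [Algebra F E]

omit [IsAlgClosed F] [CharZero F] in
private theorem Tr_sum {ι : Type*} (f : ι → Om F) (n : ℤ) (hf : ∀ i, f i = 0 ∨ n ≤ (f i).ord)
    (s : Finset ι) (hs : ∑ i ∈ s, f i ≠ 0) : n ≤ (∑ i ∈ s, f i).ord := by
  classical
  refine le_ord hs ?_
  have key : ∀ t : Finset ι, ∀ k < n, (∑ i ∈ t, f i).coeff k = 0 := by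
    intro t
    induction t using Finset.induction_on with
    | empty => intro k _; rw [Finset.sum_empty, coeff_zero]
    | insert a t ha ih =>
      intro k hk
      rw [Finset.sum_insert ha, coeff_add, ih k hk, add_zero]
      rcases hf a with h | h
      · rw [h, coeff_zero]
      · exact coeff_of_lt (lt_of_lt_of_le hk h)
  exact key s

omit [IsAlgClosed F] [CharZero F] in
private theorem Tr_map_ne {m : ℕ} {hm : 0 < m} {x : Om F} (h : x ≠ 0) : exm m hm x ≠ 0 := by
  intro h'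
  exact h ((map_eq_zero (exm m hm)).1 h')

/-- **PROOF.** Let `v = val X τ`, `L = Φ.fieldRange`, `ρ = τ` restricted to `L`. By
`exists_embeddings`: `τ_i : E → Om F` (`i < D`) with `τ_i x = exm m (τ x)` for `x ∈ L`, and
`exm m (τ (Tr e)) = Σ τ_i e`. `(τ_i (Φ X)).ord = m (τ (Φ X)).ord < 0`, so `(τ_i X).ord < 0`
and (`aeval_ord`) `D (τ_i X).ord = m D (τ X).ord`. So `v_i = val X τ_i` is a place, and as `Φ` fixes
`v_i` and `v`: `D v_i e = v_i (Φ e) = (τ_i (Φ e)).ord / (- (τ_i X).ord) =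
m (τ (Φ e)).ord / (- m (τ X).ord) = v (Φ e) = D v e`. So `v_i e = v e`,
`(τ_i e).ord = m (τ e).ord` for all `i`, and the order of the sum is at least that. -/
theorem trace_le {X : E} (hX : Transcendental F X) [FiniteDimensional F⟮X⟯ E]
    {G : F[X]} (hG : 1 ≤ G.natDegree) {Φ : E →ₐ[F] E} (hΦ : Φ X = aeval X G)
    (hfix : Fixed X G Φ) {v : E → ℚ} (hv : v ∈ places F X) {e : E}
    (h : Algebra.trace Φ.fieldRange E e ≠ 0) :
    v e ≤ v (Algebra.trace Φ.fieldRange E e : E) := by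
  obtain ⟨hfd, hD⟩ := finrank_fieldRange hX hG hΦ
  have hG0 : G ≠ 0 := by
    rintro rfl
    simp at hG
  have hDq : (0 : ℚ) < G.natDegree := by exact_mod_cast hG
  have hDz : (0 : ℤ) < G.natDegree := by exact_mod_cast hG
  have hvfix := hfix v hv
  obtain ⟨τ, hτX, rfl⟩ := hv
  obtain ⟨m, hm, τ', -, hτ', htr, -⟩ :=
    exists_embeddings Φ.fieldRange (τ.comp Φ.fieldRange.val)
  have hmz : (0 : ℤ) < m := by exact_mod_cast hm
  have hmq : (0 : ℚ) < m := by exact_mod_cast hm
  have hmem : ∀ x : E, Φ x ∈ Φ.fieldRange := fun x => ⟨x, rfl⟩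
  have hΦτ : ∀ i (x : E), τ' i (Φ x) = exm m hm (τ (Φ x)) := fun i x => hτ' i ⟨Φ x, hmem x⟩
  have hordG : (τ (Φ X)).ord = G.natDegree * (τ X).ord := by
    rw [hΦ, ← aeval_algHom_apply]
    exact (aeval_ord hτX hG0).2
  have hXord : ∀ i, (τ' i X).ord = m * (τ X).ord := by
    intro i
    have h1 : (aeval (τ' i X) G).ord = m * (G.natDegree * (τ X).ord) := by
      have h2 := hΦτ i X
      rw [hΦ, ← aeval_algHom_apply] at h2
      rw [h2, exm_ord, ← hΦ, hordG]
    have h2 : (τ' i X).ord < 0 := by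
      by_contra hcon
      have h3 := aeval_ord_nonneg (not_lt.1 hcon) G
      rw [h1] at h3
      have h4 : (m : ℤ) * (G.natDegree * (τ X).ord) < 0 :=
        mul_neg_of_pos_of_neg hmz (mul_neg_of_pos_of_neg hDz hτX)
      exact absurd h3 (not_le.2 h4)
    have h3 := (aeval_ord h2 hG0).2
    rw [h1] at h3
    have h4 : (G.natDegree : ℤ) * (τ' i X).ord = G.natDegree * (m * (τ X).ord) := by
      rw [← h3]; ring
    exact mul_left_cancel₀ hDz.ne' h4
  have hpl : ∀ i, val X (τ' i) ∈ places F X := fun i =>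
    ⟨τ' i, by rw [hXord]; exact mul_neg_of_pos_of_neg hmz hτX, rfl⟩
  have hτXq : ((τ X).ord : ℚ) < 0 := by exact_mod_cast hτX
  have heord : ∀ i, (τ' i e).ord = m * (τ e).ord := by
    intro i
    have h1 := hfix _ (hpl i) e
    have h2 := hvfix e
    have h3 : val X (τ' i) (Φ e) = val X τ (Φ e) := by
      unfold val
      rw [hΦτ, exm_ord, hXord]
      push_cast
      rw [← mul_neg, mul_div_mul_left _ _ hmq.ne']
    rw [h3, h2] at h1
    have h4 : val X τ e = val X (τ' i) e := mul_left_cancel₀ hDq.ne' h1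
    unfold val at h4
    rw [hXord, div_eq_div_iff (by linarith) (by
      push_cast
      have := mul_neg_of_pos_of_neg hmq hτXq
      linarith)] at h4
    push_cast at h4
    have h5 : ((τ X).ord : ℚ) * ((τ' i e).ord : ℚ) = ((τ X).ord : ℚ) * (m * (τ e).ord) := by
      linarith
    have h6 := mul_left_cancel₀ hτXq.ne h5
    exact_mod_cast h6
  have hT0 : (Algebra.trace Φ.fieldRange E e : E) ≠ 0 := by
    intro h0
    exact h (Subtype.ext h0)
  have hτT : τ (Algebra.trace Φ.fieldRange E e : E) ≠ 0 := by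
    intro h0
    exact hT0 ((map_eq_zero τ).1 h0)
  have hsum := htr e
  have hsum2 : exm m hm (τ (Algebra.trace Φ.fieldRange E e : E)) = ∑ i, τ' i e := hsum
  have hle : (m : ℤ) * (τ e).ord ≤ (∑ i, τ' i e).ord := by
    refine Tr_sum (fun i => τ' i e) _ (fun i => Or.inr (heord i).ge) Finset.univ ?_
    show ∑ i, τ' i e ≠ 0
    rw [← hsum2]
    exact Tr_map_ne hτT
  rw [← hsum2, exm_ord] at hle
  have h7 : (τ e).ord ≤ (τ (Algebra.trace Φ.fieldRange E e : E)).ord :=
    le_of_mul_le_mul_left hle hmz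
  unfold val
  refine div_le_div_of_nonneg_right ?_ (by linarith)
  exact_mod_cast h7

omit [IsAlgClosed F] [CharZero F] in
private theorem Tr_range {R S : Type*} [CommRing R] [CommRing S] (f : R →+* E) (g : S →+* E)
    (hfg : Set.range f ⊆ Set.range g) {e : E} (h : f.IsIntegralElem e) : g.IsIntegralElem e := by
  obtain ⟨p, hp, hpe⟩ := h
  have h1 : p.map f ∈ lifts g := by
    rw [lifts_iff_coeff_lifts]
    intro n
    rw [coeff_map]
    exact hfg ⟨_, rfl⟩
  obtain ⟨q, hq, -, hqm⟩ := lifts_and_natDegree_eq_and_monic h1 (hp.map f)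
  refine ⟨q, hqm, ?_⟩
  rw [← eval_map, hq, eval_map]
  exact hpe

omit [IsAlgClosed F] [CharZero F] in
private theorem Tr_integral {X : E} {G : F[X]} (hG : 1 ≤ G.natDegree) {Y : E}
    (hY : Y = aeval X G) {e : E} (he : IsIntegral (Algebra.adjoin F {X}) e) :
    IsIntegral (Algebra.adjoin F {Y}) e := by
  have hG0 : G ≠ 0 := by
    rintro rfl
    simp at hG
  -- `X` is integral over `F[Y]`
  have hXint : IsIntegral (Algebra.adjoin F {Y}) X := by
    obtain ⟨y, hy⟩ : ∃ y : Algebra.adjoin F {Y}, (y : E) = Y :=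
      ⟨⟨Y, Algebra.subset_adjoin rfl⟩, rfl⟩
    have hmon : (C G.leadingCoeff⁻¹ * G).Monic := by
      rw [mul_comm]
      exact monic_mul_leadingCoeff_inv hG0
    refine ⟨(C G.leadingCoeff⁻¹ * G).map (algebraMap F (Algebra.adjoin F {Y})) -
      C (algebraMap F (Algebra.adjoin F {Y}) G.leadingCoeff⁻¹ * y), ?_, ?_⟩
    · refine (hmon.map _).sub_of_left ?_
      refine lt_of_le_of_lt degree_C_le ?_
      rw [(hmon).degree_map]
      rw [degree_C_mul (inv_ne_zero (leadingCoeff_ne_zero.2 hG0))]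
      rw [← natDegree_pos_iff_degree_pos]
      exact hG
    · rw [eval₂_sub, eval₂_map, eval₂_C, ← IsScalarTower.algebraMap_eq F (Algebra.adjoin F {Y}) E,
        ← aeval_def, map_mul, aeval_C, ← hY, map_mul,
        ← IsScalarTower.algebraMap_apply F (Algebra.adjoin F {Y}) E]
      show _ - algebraMap F E G.leadingCoeff⁻¹ * (y : E) = 0
      rw [hy, sub_self]
  -- all elements of `F[X]` are integral over `F[Y]`
  have hle : Set.range (algebraMap (Algebra.adjoin F {X}) E) ⊆
      Set.range (algebraMap (integralClosure (Algebra.adjoin F {Y}) E) E) := by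
    rintro _ ⟨a, rfl⟩
    have ha := a.2
    have hle2 : Algebra.adjoin F {X} ≤
        (integralClosure (Algebra.adjoin F {Y}) E).restrictScalars F := by
      refine Algebra.adjoin_le ?_
      rintro _ rfl
      exact hXint
    exact ⟨⟨(a : E), hle2 ha⟩, rfl⟩
  have h2 : IsIntegral (integralClosure (Algebra.adjoin F {Y}) E) e :=
    Tr_range _ _ hle he
  exact isIntegral_trans (R := Algebra.adjoin F {Y})
    (A := integralClosure (Algebra.adjoin F {Y}) E) e h2

omit [IsAlgClosed F] [CharZero F] in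
private theorem Tr_rangeA (Y : E) : Set.range (algebraMap (Algebra.adjoin F {Y}) E) =
    Set.range ((aeval Y : F[X] →ₐ[F] E) : F[X] →+* E) := by
  ext z
  constructor
  · rintro ⟨⟨a, ha⟩, rfl⟩
    have ha' : a ∈ (aeval Y : F[X] →ₐ[F] E).range :=
      (Algebra.adjoin_singleton_eq_range_aeval F Y) ▸ ha
    obtain ⟨p, hp⟩ := ha'
    exact ⟨p, hp⟩
  · rintro ⟨p, rfl⟩
    refine ⟨⟨aeval Y p, ?_⟩, rfl⟩
    rw [Algebra.adjoin_singleton_eq_range_aeval]
    exact ⟨p, rfl⟩

omit [IsAlgClosed F] [CharZero F] in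
private theorem Tr_trace {Φ : E →ₐ[F] E} {X : E} [FiniteDimensional Φ.fieldRange E]
    (Ψ : Φ.fieldRange →ₐ[F] E) (hΨ : ∀ x : E, ∀ h : Φ x ∈ Φ.fieldRange, Ψ ⟨Φ x, h⟩ = x) {e : E}
    (he : IsIntegral (Algebra.adjoin F {Φ X}) e) :
    IsIntegral (Algebra.adjoin F {X}) (Ψ (Algebra.trace Φ.fieldRange E e)) := by
  have hmem : Φ X ∈ Φ.fieldRange := ⟨X, rfl⟩
  obtain ⟨y, hy⟩ : ∃ y : Φ.fieldRange, y = ⟨Φ X, hmem⟩ := ⟨_, rfl⟩
  have hyE : (y : E) = Φ X := by rw [hy]
  have hΨy : Ψ y = X := by rw [hy]; exact hΨ X hmem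
  let a1 : Algebra F[X] Φ.fieldRange := ((aeval y : F[X] →ₐ[F] Φ.fieldRange) : F[X] →+* _).toAlgebra
  let a2 : Algebra F[X] E := ((aeval (Φ X) : F[X] →ₐ[F] E) : F[X] →+* E).toAlgebra
  have : IsScalarTower F[X] Φ.fieldRange E := IsScalarTower.of_algebraMap_eq (by
    intro p
    show aeval (Φ X) p = ((aeval y p : Φ.fieldRange) : E)
    rw [← hyE]
    exact (aeval_algHom_apply Φ.fieldRange.val y p))
  have h1 : IsIntegral F[X] e :=
    Tr_range _ (algebraMap F[X] E) (Tr_rangeA (Φ X)).subset he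
  have h2 := Algebra.isIntegral_trace (R := F[X]) (L := Φ.fieldRange) (F := E) h1
  obtain ⟨p, hp, hpe⟩ := h2
  have h3 : ((aeval X : F[X] →ₐ[F] E) : F[X] →+* E).IsIntegralElem
      (Ψ (Algebra.trace Φ.fieldRange E e)) := by
    refine ⟨p, hp, ?_⟩
    have h4 := congrArg (Ψ : Φ.fieldRange →+* E) hpe
    rw [hom_eval₂, map_zero] at h4
    have h5 : ((Ψ : Φ.fieldRange →+* E).comp (algebraMap F[X] Φ.fieldRange)) =
        ((aeval X : F[X] →ₐ[F] E) : F[X] →+* E) := by
      refine RingHom.ext fun r => ?_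
      show Ψ (aeval y r) = aeval X r
      rw [← aeval_algHom_apply, hΨy]
    rw [h5] at h4
    exact h4
  exact Tr_range _ (algebraMap (Algebra.adjoin F {X}) E) (Tr_rangeA X).symm.subset h3

/-- The transfer: `Φ (U e)` is the trace of `e` to `Φ(E)`, divided by `D`.

**PROOF.** `U e = Φ⁻¹ (Tr e / D)`; it is additive and `U (Φ x) = x`. If `v e = D v x`, there is
`c ≠ 0` in `F` with `e = c Φ x + e'`, `e' = 0` or `v e' > v e` (`place_lead`, `v (Φ x) = D v x`); so
`U e = c x + U e'`, `U e' = 0` or `v (U e') ≥ v e' / D > v x`. If `e` is integral over `F[X]`, it is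
integral over `F[Φ X] = F[G(X)]` (`X` is integral over `F[G(X)]`), so is its trace
(`Algebra.isIntegral_trace`), and `U e` is integral over `F[X]` (apply `Φ⁻¹`). -/
theorem exists_transfer {X : E} (hX : Transcendental F X) [FiniteDimensional F⟮X⟯ E]
    {G : F[X]} (hG : 1 ≤ G.natDegree) {Φ : E →ₐ[F] E} (hΦ : Φ X = aeval X G)
    (hfix : Fixed X G Φ) :
    ∃ U : E → E, (∀ v ∈ places F X, ∀ e : E, U e ≠ 0 → v e / G.natDegree ≤ v (U e)) ∧
      (∀ v ∈ places F X, ∀ e x : E, e ≠ 0 → x ≠ 0 → v e = G.natDegree * v x →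
        U e ≠ 0 ∧ v (U e) = v x) ∧
      (∀ e : E, IsIntegral (Algebra.adjoin F {X}) e → IsIntegral (Algebra.adjoin F {X}) (U e)) := by
  obtain ⟨hfd, hD⟩ := finrank_fieldRange hX hG hΦ
  have hDq : (0 : ℚ) < G.natDegree := by exact_mod_cast hG
  have hD0 : (G.natDegree : F) ≠ 0 := by
    rw [Nat.cast_ne_zero]; omega
  have hmem : ∀ x : E, Φ x ∈ Φ.fieldRange := fun x => ⟨x, rfl⟩
  obtain ⟨Ψ, hΨ, hΨ'⟩ : ∃ Ψ : Φ.fieldRange →ₐ[F] E,
      (∀ x : E, ∀ h : Φ x ∈ Φ.fieldRange, Ψ ⟨Φ x, h⟩ = x) ∧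
      ∀ y : Φ.fieldRange, Φ (Ψ y) = y := by
    have hinj : Function.Injective Φ := RingHom.injective (Φ : E →+* E)
    have hbij : Function.Bijective (Φ.codRestrict Φ.fieldRange.toSubalgebra hmem) := by
      constructor
      · intro a b hab
        exact hinj (congrArg Subtype.val hab)
      · rintro ⟨_, x, rfl⟩
        exact ⟨x, rfl⟩
    refine ⟨((AlgEquiv.ofBijective _ hbij).symm : Φ.fieldRange.toSubalgebra →ₐ[F] E), ?_, ?_⟩
    · intro x h
      exact (AlgEquiv.ofBijective _ hbij).symm_apply_apply x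
    · intro y
      exact congrArg Subtype.val ((AlgEquiv.ofBijective _ hbij).apply_symm_apply y)
  obtain ⟨U, hU⟩ : ∃ U : E → E, ∀ e, U e =
      algebraMap F E (G.natDegree : F)⁻¹ * Ψ (Algebra.trace Φ.fieldRange E e) := ⟨_, fun _ => rfl⟩
  have hΦU : ∀ e, Φ (U e) = algebraMap F E (G.natDegree : F)⁻¹ *
      (Algebra.trace Φ.fieldRange E e : E) := by
    intro e
    rw [hU, map_mul, hΨ', AlgHom.commutes]
  have hUadd : ∀ a b, U (a + b) = U a + U b := by
    intro a b
    rw [hU, hU, hU, map_add, map_add, mul_add]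
  have hUΦ : ∀ (c : F) (x : E), U (algebraMap F E c * Φ x) = algebraMap F E c * x := by
    intro c x
    have h1 : algebraMap F E c * Φ x = algebraMap Φ.fieldRange E
        ⟨Φ (algebraMap F E c * x), hmem _⟩ := by
      show _ = Φ (algebraMap F E c * x)
      rw [map_mul, AlgHom.commutes]
    rw [hU, h1, Algebra.trace_algebraMap, hD, map_nsmul, hΨ, nsmul_eq_mul, ← mul_assoc,
      ← map_natCast (algebraMap F E), ← map_mul, inv_mul_cancel₀ hD0, map_one, one_mul]
  have hUle : ∀ v ∈ places F X, ∀ e : E, U e ≠ 0 → v e / G.natDegree ≤ v (U e) := by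
    intro v hv e he
    have h1 : Algebra.trace Φ.fieldRange E e ≠ 0 := by
      intro h0
      apply he
      rw [hU, h0, map_zero, mul_zero]
    have h2 := trace_le hX hG hΦ hfix hv h1
    have hT0 : (Algebra.trace Φ.fieldRange E e : E) ≠ 0 := by
      intro h0
      exact h1 (Subtype.ext h0)
    have h3 := hfix v hv (U e)
    have hc0 : algebraMap F E (G.natDegree : F)⁻¹ ≠ 0 := by
      rw [Ne, map_eq_zero]
      exact inv_ne_zero hD0
    rw [hΦU, place_mul hv hc0 hT0, place_C hv, zero_add] at h3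
    rw [div_le_iff₀ hDq, mul_comm, ← h3]
    exact h2
  refine ⟨U, hUle, ?_, ?_⟩
  · intro v hv e x he hx hvx
    have hΦx : Φ x ≠ 0 := by
      intro h0
      exact hx ((map_eq_zero Φ).1 h0)
    have h1 : v e = v (Φ x) := by rw [hfix v hv x, hvx]
    obtain ⟨c, hc, hc2⟩ := place_lead hv he hΦx h1
    obtain ⟨e', he'⟩ : ∃ e' : E, e' = e - algebraMap F E c * Φ x := ⟨_, rfl⟩
    rw [← he'] at hc2
    have h2 : U e = algebraMap F E c * x + U e' := by
      have : e = algebraMap F E c * Φ x + e' := by rw [he']; ring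
      rw [this, hUadd, hUΦ]
    have hcE : algebraMap F E c ≠ 0 := by
      rw [Ne, map_eq_zero]; exact hc
    have hcx : algebraMap F E c * x ≠ 0 := mul_ne_zero hcE hx
    have hvcx : v (algebraMap F E c * x) = v x := by
      rw [place_mul hv hcE hx, place_C hv, zero_add]
    have h3 : v (algebraMap F E c * x) < v (U e') ∨ U e' = 0 := by
      by_cases h0 : U e' = 0
      · exact Or.inr h0
      · left
        rcases hc2 with h4 | h4
        · exfalso
          apply h0
          rw [hU, h4, map_zero, map_zero, mul_zero]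
        · rw [hvcx]
          refine lt_of_lt_of_le ?_ (hUle v hv e' h0)
          rw [lt_div_iff₀ hDq, mul_comm, ← hvx]
          exact h4
    have h4 := place_add_of_lt hv hcx h3
    rw [h2]
    exact ⟨h4.1, by rw [h4.2, hvcx]⟩
  · intro e he
    have h1 : IsIntegral (Algebra.adjoin F {Φ X}) e := Tr_integral hG hΦ he
    have h2 := Tr_trace (X := X) Ψ hΨ h1
    rw [hU]
    refine IsIntegral.mul ?_ h2
    rw [IsScalarTower.algebraMap_apply F (Algebra.adjoin F {X}) E]
    exact isIntegral_algebraMap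

end Pool.Agent.MSC
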