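import Pool.Agent.MSC.Main2
import Pool.Agent.MSC.Sub

/-!
# Invariant irreducible polynomials in one or two variables
-/

namespace Pool.Agent.MSC

open Pool.Agent.PrepH

/-- Two algebra homomorphisms which agree on the variables of a polynomial agree on it. -/
private theorem TwoV_congr {F σ S : Type*} [Field F] [CommRing S] [Algebra F S]
    (f₁ f₂ : MvPolynomial σ F →ₐ[F] S) (p : MvPolynomial σ F)
    (h : ∀ i ∈ p.vars, f₁ (MvPolynomial.X i) = f₂ (MvPolynomial.X i)) : f₁ p = f₂ p := by
  have := MvPolynomial.hom_congr_vars (f₁ := (f₁ : MvPolynomial σ F →+* S))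
    (f₂ := (f₂ : MvPolynomial σ F →+* S)) (p₁ := p) (p₂ := p) ?_ (fun i hi _ => h i hi) rfl
  · exact this
  · ext c
    simp only [RingHom.comp_apply, RingHom.coe_coe]
    rw [← MvPolynomial.algebraMap_eq, AlgHom.commutes, AlgHom.commutes]

private theorem TwoV_irr {F σ : Type*} [Field F] [DecidableEq σ] {i j : σ} (hij : i ≠ j)
    (g : Polynomial F) :
    Irreducible (MvPolynomial.X j - Polynomial.aeval (MvPolynomial.X i : MvPolynomial σ F) g) := by
  set L : MvPolynomial σ F :=
    MvPolynomial.X j - Polynomial.aeval (MvPolynomial.X i : MvPolynomial σ F) g with hL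
  let a : MvPolynomial σ F →ₐ[F] MvPolynomial σ F := MvPolynomial.aeval (fun k =>
    if k = j then MvPolynomial.X j + Polynomial.aeval (MvPolynomial.X i : MvPolynomial σ F) g
    else MvPolynomial.X k)
  let b : MvPolynomial σ F →ₐ[F] MvPolynomial σ F := MvPolynomial.aeval (fun k =>
    if k = j then MvPolynomial.X j - Polynomial.aeval (MvPolynomial.X i : MvPolynomial σ F) g
    else MvPolynomial.X k)
  have ai : a (MvPolynomial.X i) = MvPolynomial.X i := by
    simp only [a, MvPolynomial.aeval_X, if_neg hij]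
  have bi : b (MvPolynomial.X i) = MvPolynomial.X i := by
    simp only [b, MvPolynomial.aeval_X, if_neg hij]
  have aj : a (MvPolynomial.X j) = MvPolynomial.X j +
      Polynomial.aeval (MvPolynomial.X i : MvPolynomial σ F) g := by
    simp only [a, MvPolynomial.aeval_X, if_true]
  have bj : b (MvPolynomial.X j) = MvPolynomial.X j -
      Polynomial.aeval (MvPolynomial.X i : MvPolynomial σ F) g := by
    simp only [b, MvPolynomial.aeval_X, if_true]
  have ag : a (Polynomial.aeval (MvPolynomial.X i : MvPolynomial σ F) g) =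
      Polynomial.aeval (MvPolynomial.X i : MvPolynomial σ F) g := by
    rw [← Polynomial.aeval_algHom_apply, ai]
  have bg : b (Polynomial.aeval (MvPolynomial.X i : MvPolynomial σ F) g) =
      Polynomial.aeval (MvPolynomial.X i : MvPolynomial σ F) g := by
    rw [← Polynomial.aeval_algHom_apply, bi]
  have ak : ∀ k, k ≠ j → a (MvPolynomial.X k) = MvPolynomial.X k := fun k hk => by
    simp only [a, MvPolynomial.aeval_X, if_neg hk]
  have bk : ∀ k, k ≠ j → b (MvPolynomial.X k) = MvPolynomial.X k := fun k hk => by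
    simp only [b, MvPolynomial.aeval_X, if_neg hk]
  have hab : a.comp b = AlgHom.id F _ := by
    apply MvPolynomial.algHom_ext
    intro k
    rw [AlgHom.comp_apply, AlgHom.id_apply]
    by_cases hk : k = j
    · subst hk
      rw [bj, map_sub, aj, ag, add_sub_cancel_right]
    · rw [bk k hk, ak k hk]
  have hba : b.comp a = AlgHom.id F _ := by
    apply MvPolynomial.algHom_ext
    intro k
    rw [AlgHom.comp_apply, AlgHom.id_apply]
    by_cases hk : k = j
    · subst hk
      rw [aj, map_add, bj, bg, sub_add_cancel]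
    · rw [ak k hk, bk k hk]
  let e : MvPolynomial σ F ≃ₐ[F] MvPolynomial σ F := AlgEquiv.ofAlgHom b a hba hab
  have he : e (MvPolynomial.X j) = L := by
    show b (MvPolynomial.X j) = L
    rw [bj]
  rw [← he]
  have h1 : Irreducible (MvPolynomial.X j : MvPolynomial σ F) :=
    (MvPolynomial.X_prime).irreducible
  exact (MulEquiv.irreducible_iff (e : MvPolynomial σ F ≃* MvPolynomial σ F)).2 h1

variable {F : Type*} [Field F] [IsAlgClosed F] [CharZero F] {n : ℕ}

/-- **PROOF.** `H` is a polynomial in `X i` alone, not constant, so has a root. -/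
theorem one_var {H : MvPolynomial (Fin n) F} (hH : Irreducible H) {i : Fin n}
    (hv : H.vars ⊆ {i}) : ∃ c : F, Associated H (MvPolynomial.X i - MvPolynomial.C c) := by
  set q : Polynomial F := MvPolynomial.aeval (fun _ => Polynomial.X) H with hq
  have hHq : H = Polynomial.aeval (MvPolynomial.X i : MvPolynomial (Fin n) F) q := by
    have h1 := TwoV_congr (AlgHom.id F (MvPolynomial (Fin n) F))
      ((Polynomial.aeval (MvPolynomial.X i : MvPolynomial (Fin n) F)).comp
        (MvPolynomial.aeval (fun _ => Polynomial.X))) H (fun k hk => by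
          have hk' : k = i := Finset.mem_singleton.1 (hv hk)
          rw [AlgHom.comp_apply, MvPolynomial.aeval_X, Polynomial.aeval_X, hk']
          rfl)
    exact h1
  have hd : q.degree ≠ 0 := by
    intro h0
    obtain ⟨c, hc⟩ : ∃ c : F, q = Polynomial.C c := ⟨_, Polynomial.eq_C_of_degree_eq_zero h0⟩
    have h1 : c ≠ 0 := by
      rintro rfl
      rw [hc, Polynomial.C_0, Polynomial.degree_zero] at h0
      exact absurd h0 (by simp)
    apply hH.not_isUnit
    rw [hHq, hc, Polynomial.aeval_C]
    exact (isUnit_iff_ne_zero.2 h1).map _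
  obtain ⟨c, hc⟩ := IsAlgClosed.exists_root q hd
  refine ⟨c, ?_⟩
  have hdvd : (MvPolynomial.X i - MvPolynomial.C c : MvPolynomial (Fin n) F) ∣ H := by
    have h1 := map_dvd (Polynomial.aeval (MvPolynomial.X i : MvPolynomial (Fin n) F))
      (Polynomial.dvd_iff_isRoot.2 hc)
    rw [← hHq, map_sub, Polynomial.aeval_X, Polynomial.aeval_C] at h1
    exact h1
  obtain ⟨K, hK⟩ := hdvd
  have hnu : ¬ IsUnit (MvPolynomial.X i - MvPolynomial.C c : MvPolynomial (Fin n) F) := by
    intro h
    have h1 := h.map (MvPolynomial.eval (fun _ => c))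
    rw [map_sub, MvPolynomial.eval_X, MvPolynomial.eval_C, sub_self] at h1
    exact not_isUnit_zero h1
  have hKu : IsUnit K := (hH.isUnit_or_isUnit hK).resolve_left hnu
  obtain ⟨u, hu⟩ := hKu
  exact Associated.symm ⟨u, by rw [hu, hK]⟩

omit [IsAlgClosed F] [CharZero F] in
private theorem TwoV_alg {S : Type*} [CommRing S] [IsDomain S] [Algebra F S]
    {x : Fin 2 → S} {a b : Fin 2} (hab : a ≠ b) (hX : Transcendental F (x a))
    {H : MvPolynomial (Fin 2) F} (hH : H ≠ 0) (h : MvPolynomial.aeval x H = 0) :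
    IsAlgebraic (Algebra.adjoin F {x a}) (x b) := by
  have hnot : ¬ AlgebraicIndependent F x := by
    intro hi
    apply hH
    have := algebraicIndependent_iff_injective_aeval.1 hi
    apply this
    rw [h, map_zero]
  by_contra hcon
  apply hnot
  rw [AlgebraicIndependent.iff_transcendental_adjoin_image b]
  have hc : ({b}ᶜ : Set (Fin 2)) = {a} := by
    ext k
    simp only [Set.mem_compl_iff, Set.mem_singleton_iff]
    fin_cases a <;> fin_cases b <;> fin_cases k <;> simp_all
  refine ⟨?_, ?_⟩
  · have : Subsingleton {j : Fin 2 // j ≠ b} := by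
      constructor
      rintro ⟨u, hu⟩ ⟨v, hv⟩
      have h1 : u ∈ ({b}ᶜ : Set (Fin 2)) := hu
      have h2 : v ∈ ({b}ᶜ : Set (Fin 2)) := hv
      rw [hc] at h1 h2
      rw [Set.mem_singleton_iff] at h1 h2
      simp only [Subtype.mk.injEq]
      rw [h1, h2]
    rw [algebraicIndependent_singleton_iff (⟨a, hab⟩ : {j : Fin 2 // j ≠ b})]
    exact hX
  · rw [hc, Set.image_singleton]
    exact hcon

omit [IsAlgClosed F] [CharZero F] in
open IntermediateField in
private theorem TwoV_fd {E : Type*} [Field E] [Algebra F E] {X Y : E}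
    (htop : IntermediateField.adjoin F {X, Y} = ⊤)
    (halg : IsAlgebraic (Algebra.adjoin F {X}) Y) : FiniteDimensional F⟮X⟯ E := by
  have h1 : IsIntegral F⟮X⟯ Y := by
    rw [← isAlgebraic_iff_isIntegral]
    obtain ⟨p, hp, hp'⟩ := halg
    have hle : ∀ z ∈ Algebra.adjoin F {X}, z ∈ F⟮X⟯ := fun z hz =>
      IntermediateField.algebra_adjoin_le_adjoin F {X} hz
    let ι : Algebra.adjoin F {X} →+* F⟮X⟯ :=
      { toFun := fun z => ⟨z.1, hle z.1 z.2⟩
        map_one' := rfl
        map_mul' := fun _ _ => rfl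
        map_zero' := rfl
        map_add' := fun _ _ => rfl }
    have hι : Function.Injective ι := by
      intro u v huv
      have : (ι u : E) = ι v := by rw [huv]
      exact Subtype.ext this
    refine ⟨p.map ι, ?_, ?_⟩
    · rw [Ne, Polynomial.map_eq_zero_iff hι]
      exact hp
    · rw [Polynomial.aeval_def, Polynomial.eval₂_map]
      rw [Polynomial.aeval_def] at hp'
      exact hp'
  have h2 : FiniteDimensional F⟮X⟯ F⟮X⟯⟮Y⟯ := IntermediateField.adjoin.finiteDimensional h1
  have h3 : F⟮X⟯⟮Y⟯ = ⊤ := by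
    apply IntermediateField.restrictScalars_injective F
    rw [IntermediateField.adjoin_simple_adjoin_simple, htop]
    rfl
  rw [h3] at h2
  exact Module.Finite.equiv (IntermediateField.topEquiv (F := F⟮X⟯) (E := E)).toLinearEquiv
  
omit [IsAlgClosed F] [CharZero F] in
/-- If every element of `B` is algebraic over `F[x]`, an endomorphism of `B` which is injective on
`F[x]` is injective. -/
private theorem TwoV_inj {B : Type*} [CommRing B] [IsDomain B] [Algebra F B] {x : B}
    (hx : Transcendental F x) (halg : ∀ z : B, IsAlgebraic (Algebra.adjoin F {x}) z)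
    {G : Polynomial F} (hG : 1 ≤ G.natDegree) (ψ : B →ₐ[F] B)
    (hψ : ψ x = Polynomial.aeval x G) : Function.Injective ψ := by
  rw [injective_iff_map_eq_zero]
  intro z hz
  by_contra hz0
  obtain ⟨r, hr, hdvd⟩ := (halg z).exists_nonzero_dvd (mem_nonZeroDivisors_of_ne_zero hz0)
  obtain ⟨p, hp⟩ : ∃ p : Polynomial F, Polynomial.aeval x p = (r : B) := by
    have h1 : (r : B) ∈ (Polynomial.aeval (R := F) x).range := by
      rw [← Algebra.adjoin_singleton_eq_range_aeval]
      exact r.2
    exact h1
  have h1 : ψ (Polynomial.aeval x p) = 0 := by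
    have h2 := map_dvd ψ hdvd
    rw [hz, zero_dvd_iff] at h2
    rw [hp]
    exact h2
  rw [← Polynomial.aeval_algHom_apply, hψ, ← Polynomial.aeval_comp] at h1
  have h3 : p.comp G = 0 := by
    by_contra h4
    exact hx ⟨_, h4, h1⟩
  have h5 : p ≠ 0 := by
    rintro rfl
    apply hr
    rw [map_zero] at hp
    exact Subtype.ext hp.symm
  rcases Polynomial.comp_eq_zero_iff.1 h3 with h6 | ⟨_, h6⟩
  · exact h5 h6
  · rw [h6, Polynomial.natDegree_C] at hG
    omega

omit [IsAlgClosed F] [CharZero F] in
private theorem TwoV_deg {a b : Fin 2} (hab : a ≠ b) (p : Polynomial F) :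
    (Polynomial.aeval (MvPolynomial.X a : MvPolynomial (Fin 2) F) p).degreeOf b = 0 := by
  induction p using Polynomial.induction_on' with
  | add p q hp hq =>
    rw [map_add]
    have := MvPolynomial.degreeOf_add_le b
      (Polynomial.aeval (MvPolynomial.X a : MvPolynomial (Fin 2) F) p)
      (Polynomial.aeval (MvPolynomial.X a : MvPolynomial (Fin 2) F) q)
    rw [hp, hq] at this
    simpa using this
  | monomial k c =>
    rw [Polynomial.aeval_monomial, MvPolynomial.algebraMap_eq]
    have h1 := MvPolynomial.degreeOf_mul_le b (MvPolynomial.C c : MvPolynomial (Fin 2) F)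
      ((MvPolynomial.X a) ^ k)
    have h2 := MvPolynomial.degreeOf_pow_le b (MvPolynomial.X a : MvPolynomial (Fin 2) F) k
    rw [MvPolynomial.degreeOf_X, if_neg hab.symm, mul_zero] at h2
    rw [MvPolynomial.degreeOf_C] at h1
    omega

omit [IsAlgClosed F] [CharZero F] in
private theorem TwoV_trans {B : Type*} [CommRing B] [Algebra F B] {H : MvPolynomial (Fin 2) F}
    (π : MvPolynomial (Fin 2) F →ₐ[F] B) (hπ : ∀ z, π z = 0 → H ∣ z) {a b : Fin 2} (hab : a ≠ b)
    (hb : b ∈ H.vars) : Transcendental F (π (MvPolynomial.X a)) := by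
  rintro ⟨p, hp, hp'⟩
  rw [Polynomial.aeval_algHom_apply] at hp'
  obtain ⟨K, hK⟩ := hπ _ hp'
  have h1 : Polynomial.aeval (MvPolynomial.X a : MvPolynomial (Fin 2) F) p ≠ 0 := fun h =>
    MvPolynomial.transcendental_X F a ⟨p, hp, h⟩
  have hH0 : H ≠ 0 := by
    rintro rfl
    rw [zero_mul] at hK
    exact h1 hK
  have hK0 : K ≠ 0 := by
    rintro rfl
    rw [mul_zero] at hK
    exact h1 hK
  have h2 : (Polynomial.aeval (MvPolynomial.X a : MvPolynomial (Fin 2) F) p).degreeOf b = 0 :=
    TwoV_deg hab p
  rw [hK, MvPolynomial.degreeOf_mul_eq hH0 hK0] at h2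
  have h3 : H.degreeOf b = 0 := by omega
  rw [MvPolynomial.mem_vars_iff_mem_support] at hb
  obtain ⟨d, hd, hbd⟩ := hb
  rw [Finsupp.mem_support_iff] at hbd
  have h4 := MvPolynomial.monomial_le_degreeOf b hd
  omega

omit [IsAlgClosed F] [CharZero F] in
/-- The field-theoretic data attached to an irreducible polynomial in two variables. -/
private theorem TwoV_field {B E : Type*} [CommRing B] [IsDomain B] [Algebra F B] [Field E]
    [Algebra F E] [Algebra B E] [IsScalarTower F B E] [IsFractionRing B E]
    (π : MvPolynomial (Fin 2) F →ₐ[F] B) (hs : Function.Surjective π) :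
    IntermediateField.adjoin F {algebraMap B E (π (MvPolynomial.X 0)),
      algebraMap B E (π (MvPolynomial.X 1))} = ⊤ := by
  rw [eq_top_iff]
  intro z _
  obtain ⟨a, b, _, hz⟩ := IsFractionRing.div_surjective (A := B) z
  obtain ⟨a, rfl⟩ := hs a
  obtain ⟨b, rfl⟩ := hs b
  have key : ∀ w : MvPolynomial (Fin 2) F, algebraMap B E (π w) ∈ IntermediateField.adjoin F
      {algebraMap B E (π (MvPolynomial.X 0)), algebraMap B E (π (MvPolynomial.X 1))} := by
    intro w
    induction w using MvPolynomial.induction_on with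
    | C c =>
      rw [← MvPolynomial.algebraMap_eq, AlgHom.commutes, ← IsScalarTower.algebraMap_apply]
      exact IntermediateField.algebraMap_mem _ _
    | add u v hu hv =>
      rw [map_add, map_add]
      exact add_mem hu hv
    | mul_X u k hu =>
      rw [map_mul, map_mul]
      refine mul_mem hu ?_
      apply IntermediateField.subset_adjoin
      fin_cases k
      · exact Set.mem_insert _ _
      · exact Set.mem_insert_of_mem _ rfl
  rw [← hz]
  exact div_mem (key a) (key b)

private theorem TwoV_abs {B E : Type*} [CommRing B] [IsDomain B] [Algebra F B] [Field E]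
    [Algebra F E] [Algebra B E] [IsScalarTower F B E] [IsFractionRing B E]
    {f : Polynomial F} (hf : 2 ≤ f.natDegree) (hsp : ¬ Special f)
    {H : MvPolynomial (Fin 2) F} (hH0 : H ≠ 0) (h0 : 0 ∈ H.vars) (h1 : 1 ∈ H.vars)
    {r : ℕ} (hr : 1 ≤ r) (π : MvPolynomial (Fin 2) F →ₐ[F] B) (hπs : Function.Surjective π)
    (hπ : ∀ z, π z = 0 ↔ H ∣ z) (ψ : B →ₐ[F] B)
    (hψX : ∀ k, ψ (π (MvPolynomial.X k)) = Polynomial.aeval (π (MvPolynomial.X k)) (itp f r)) :
    ∃ g : Polynomial F, 1 ≤ g.natDegree ∧ CommIter f g ∧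
      (H ∣ MvPolynomial.X 1 - Polynomial.aeval (MvPolynomial.X 0) g ∨
        H ∣ MvPolynomial.X 0 - Polynomial.aeval (MvPolynomial.X 1) g) := by
  have hGd : 2 ≤ (itp f r).natDegree := by
    rw [natDegree_itp]
    calc 2 ≤ f.natDegree := hf
      _ = f.natDegree ^ 1 := (pow_one _).symm
      _ ≤ f.natDegree ^ r := Nat.pow_le_pow_right (by omega) hr
  have hsp' : ∀ s : ℕ, 1 ≤ s → ¬ Special (itp (itp f r) s) := by
    intro s hs hcon
    rw [itp_mul] at hcon
    exact hsp (special_of_itp hf (Nat.mul_pos hr hs) hcon)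
  have hcomm : ∀ {g : Polynomial F}, (itp f r).comp g = g.comp (itp f r) → CommIter f g := by
    intro g e2
    refine ⟨r, hr, fun x => ?_⟩
    rw [← ev_itp]
    have e3 := congrArg (Polynomial.eval x) e2
    rw [Polynomial.eval_comp, Polynomial.eval_comp] at e3
    exact e3.symm
  generalize itp f r = G at hψX hGd hsp' hcomm
  have h01 : (0 : Fin 2) ≠ 1 := by decide
  have ht0 : Transcendental F (π (MvPolynomial.X 0)) :=
    TwoV_trans π (fun z hz => (hπ z).1 hz) h01 h1
  have ht1 : Transcendental F (π (MvPolynomial.X 1)) :=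
    TwoV_trans π (fun z hz => (hπ z).1 hz) h01.symm h0
  have hz : MvPolynomial.aeval (fun k => π (MvPolynomial.X k)) H = 0 := by
    have : MvPolynomial.aeval (fun k => π (MvPolynomial.X k)) = π := by
      apply MvPolynomial.algHom_ext
      intro k
      rw [MvPolynomial.aeval_X]
    rw [this, hπ]
  have ha : IsAlgebraic (Algebra.adjoin F {π (MvPolynomial.X 0)}) (π (MvPolynomial.X 1)) :=
    TwoV_alg (x := fun k => π (MvPolynomial.X k)) h01 ht0 hH0 hz
  have hall : ∀ z : B, IsAlgebraic (Algebra.adjoin F {π (MvPolynomial.X 0)}) z := by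
    intro z
    obtain ⟨z, rfl⟩ := hπs z
    induction z using MvPolynomial.induction_on with
    | C c =>
      rw [← MvPolynomial.algebraMap_eq, AlgHom.commutes]
      exact isAlgebraic_algebraMap (algebraMap F (Algebra.adjoin F {π (MvPolynomial.X 0)}) c)
    | add u v hu hv =>
      rw [map_add]
      exact hu.add hv
    | mul_X u k hu =>
      rw [map_mul]
      refine hu.mul ?_
      fin_cases k
      · exact isAlgebraic_algebraMap (⟨π (MvPolynomial.X 0), Algebra.subset_adjoin rfl⟩ :
          Algebra.adjoin F {π (MvPolynomial.X 0)})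
      · exact ha
  have hψi : Function.Injective ψ := TwoV_inj ht0 hall (by omega) ψ (hψX 0)
  have hinj : Function.Injective (algebraMap B E) := IsFractionRing.injective B E
  let j : B →ₐ[F] E := IsScalarTower.toAlgHom F B E
  have hj : Function.Injective (j.comp ψ) := hinj.comp hψi
  let Φ : E →ₐ[F] E := IsFractionRing.liftAlgHom hj
  have hΦ : ∀ z : B, Φ (algebraMap B E z) = algebraMap B E (ψ z) := fun z =>
    IsFractionRing.lift_algebraMap (g := (j.comp ψ : B →+* E)) hj z
  set X : E := algebraMap B E (π (MvPolynomial.X 0)) with hX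
  set Y : E := algebraMap B E (π (MvPolynomial.X 1)) with hY
  have hΦX : Φ X = Polynomial.aeval X G := by
    rw [hX, hΦ, hψX, Polynomial.aeval_algebraMap_apply]
  have hΦY : Φ Y = Polynomial.aeval Y G := by
    rw [hY, hΦ, hψX, Polynomial.aeval_algebraMap_apply]
  have hXt : Transcendental F X := (transcendental_algebraMap_iff hinj).2 ht0
  have hYt : Transcendental F Y := (transcendental_algebraMap_iff hinj).2 ht1
  have htop : IntermediateField.adjoin F {X, Y} = ⊤ := TwoV_field π hπs
  have hzE : MvPolynomial.aeval (fun k => algebraMap B E (π (MvPolynomial.X k))) H = 0 := by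
    have h2 : MvPolynomial.aeval (fun k => algebraMap B E (π (MvPolynomial.X k))) = j.comp π := by
      apply MvPolynomial.algHom_ext
      intro k
      rw [MvPolynomial.aeval_X]
      rfl
    rw [h2, AlgHom.comp_apply, (hπ H).2 dvd_rfl, map_zero]
  have ha0 : IsAlgebraic (Algebra.adjoin F {X}) Y :=
    TwoV_alg (x := fun k => algebraMap B E (π (MvPolynomial.X k))) h01 hXt hH0 hzE
  have ha1 : IsAlgebraic (Algebra.adjoin F {Y}) X :=
    TwoV_alg (x := fun k => algebraMap B E (π (MvPolynomial.X k))) h01.symm hYt hH0 hzE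
  have htop' : IntermediateField.adjoin F {Y, X} = ⊤ := by
    rw [Set.pair_comm]
    exact htop
  have hfd0 : FiniteDimensional (IntermediateField.adjoin F {X}) E := TwoV_fd htop ha0
  have hfd1 : FiniteDimensional (IntermediateField.adjoin F {Y}) E := TwoV_fd htop' ha1
  -- the conclusion from an equality `Y = g(X)`
  have fin : ∀ {U V : E} {g : Polynomial F}, Transcendental F U → Transcendental F V →
      Φ U = Polynomial.aeval U G → Φ V = Polynomial.aeval V G → V = Polynomial.aeval U g →
      1 ≤ g.natDegree ∧ CommIter f g := by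
    intro U V g hU hV hΦU hΦV hVU
    constructor
    · by_contra hcon
      have hcon' : g.natDegree = 0 := by omega
      rw [Polynomial.eq_C_of_natDegree_eq_zero hcon', Polynomial.aeval_C] at hVU
      rw [hVU] at hV
      exact hV (isAlgebraic_algebraMap _)
    · have e1 : Polynomial.aeval U (G.comp g) = Polynomial.aeval U (g.comp G) := by
        rw [Polynomial.aeval_comp, Polynomial.aeval_comp, ← hVU, ← hΦV, ← hΦU, hVU,
          Polynomial.aeval_algHom_apply]
      apply hcomm
      by_contra hne
      exact hU ⟨G.comp g - g.comp G, sub_ne_zero.2 hne, by rw [map_sub, e1, sub_self]⟩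
  rcases graph_of_semiconj hXt hYt htop hGd hΦX hΦY hsp' with ⟨g, hg⟩ | ⟨g, hg⟩
  · obtain ⟨g1, g2⟩ := fin hXt hYt hΦX hΦY hg
    refine ⟨g, g1, g2, Or.inl ?_⟩
    rw [← hπ, map_sub, sub_eq_zero, ← Polynomial.aeval_algHom_apply]
    apply hinj
    rw [← Polynomial.aeval_algebraMap_apply]
    exact hg
  · obtain ⟨g1, g2⟩ := fin hYt hXt hΦY hΦX hg
    refine ⟨g, g1, g2, Or.inr ?_⟩
    rw [← hπ, map_sub, sub_eq_zero, ← Polynomial.aeval_algHom_apply]
    apply hinj
    rw [← Polynomial.aeval_algebraMap_apply]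
    exact hg

private theorem TwoV_main {f : Polynomial F} (hf : 2 ≤ f.natDegree) (hsp : ¬ Special f)
    {H : MvPolynomial (Fin 2) F} (hH : Irreducible H) (h0 : 0 ∈ H.vars) (h1 : 1 ∈ H.vars)
    {r : ℕ} (hr : 1 ≤ r) (h : H ∣ sub (itp f r) H) :
    ∃ g : Polynomial F, 1 ≤ g.natDegree ∧ CommIter f g ∧
      (H ∣ MvPolynomial.X 1 - Polynomial.aeval (MvPolynomial.X 0) g ∨
        H ∣ MvPolynomial.X 0 - Polynomial.aeval (MvPolynomial.X 1) g) := by
  have hprime : (Ideal.span {H} : Ideal (MvPolynomial (Fin 2) F)).IsPrime := by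
    rw [Ideal.span_singleton_prime hH.ne_zero]
    exact hH.prime
  have hdom : IsDomain (MvPolynomial (Fin 2) F ⧸ Ideal.span {H}) :=
    Ideal.Quotient.isDomain _
  have hπ : ∀ z, Ideal.Quotient.mkₐ F (Ideal.span {H}) z = 0 ↔ H ∣ z := by
    intro z
    rw [← Ideal.mem_span_singleton]
    exact Ideal.Quotient.eq_zero_iff_mem
  have hσ : ∀ z : MvPolynomial (Fin 2) F,
      MvPolynomial.aeval (fun k => Polynomial.aeval
        (Ideal.Quotient.mkₐ F (Ideal.span {H}) (MvPolynomial.X k)) (itp f r)) z =
      Ideal.Quotient.mkₐ F (Ideal.span {H}) (sub (itp f r) z) := by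
    intro z
    have : MvPolynomial.aeval (fun k => Polynomial.aeval
        (Ideal.Quotient.mkₐ F (Ideal.span {H}) (MvPolynomial.X k)) (itp f r)) =
        (Ideal.Quotient.mkₐ F (Ideal.span {H})).comp (MvPolynomial.aeval
        (fun i => Polynomial.aeval (MvPolynomial.X i : MvPolynomial (Fin 2) F) (itp f r))) := by
      apply MvPolynomial.algHom_ext
      intro k
      rw [MvPolynomial.aeval_X, AlgHom.comp_apply, MvPolynomial.aeval_X,
        ← Polynomial.aeval_algHom_apply]
    rw [this]
    rfl
  have hσI : ∀ z ∈ (Ideal.span {H} : Ideal (MvPolynomial (Fin 2) F)),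
      MvPolynomial.aeval (fun k => Polynomial.aeval
        (Ideal.Quotient.mkₐ F (Ideal.span {H}) (MvPolynomial.X k)) (itp f r)) z = 0 := by
    intro z hz
    obtain ⟨w, rfl⟩ := Ideal.mem_span_singleton.1 hz
    rw [hσ, sub_mul, hπ]
    exact h.mul_right _
  refine TwoV_abs (E := FractionRing (MvPolynomial (Fin 2) F ⧸ Ideal.span {H})) hf hsp hH.ne_zero
    h0 h1 hr (Ideal.Quotient.mkₐ F (Ideal.span {H})) (Ideal.Quotient.mkₐ_surjective F _) hπ
    (Ideal.Quotient.liftₐ _ _ hσI) ?_
  intro k
  exact (Ideal.Quotient.liftₐ_apply _ _ hσI _).trans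
    ((Ideal.Quotient.lift_mk _ _ _).trans (MvPolynomial.aeval_X _ k))

/-- **PROOF.** `H = rename ![i, j] H₂` with `H₂ : MvPolynomial (Fin 2) F` irreducible and
`H₂ ∣ sub G H₂`, `G = itp f r` (`sub` commutes with the renaming, an injective map with a left inverse).
Let `B = MvPolynomial (Fin 2) F / (H₂)`, a domain, `E` its fraction field, `X`, `Y` the
images of the variables. `X` is transcendental over `F`, since `H₂` does not divide a nonzero polynomial in the
first variable (both variables occur in `H₂`); the same for `Y`. `E = F(X, Y)`, and it is finite over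
`F(X)` and over `F(Y)` because of `H₂(X, Y) = 0`. `X ↦ G(X)`, `Y ↦ G(Y)` defines an
endomorphism of `B` (as `H₂ ∣ sub G H₂`); it is injective: a nonzero `z ∈ B` is algebraic over `F(X)`, so it has a
multiple `p(X) ≠ 0`, and `p(G(X)) ≠ 0`. It extends to `Φ : E → E`. By `graph_of_semiconj` (with
`special_of_itp`, `itp_mul`) `Y = g(X)` or `X = g(Y)`; in the first case `H₂` divides the irreducible polynomial
`X_1 - g(X_0)`, `g` is not constant, and `g(G(X)) = Φ Y = G(Y) = G(g(X))`. -/
theorem two_var {f : Polynomial F} (hf : 2 ≤ f.natDegree) (hsp : ¬ Special f)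
    {H : MvPolynomial (Fin n) F} (hH : Irreducible H) {i j : Fin n} (hij : i ≠ j)
    (hv : H.vars = {i, j}) {r : ℕ} (hr : 1 ≤ r) (h : H ∣ sub (itp f r) H) :
    ∃ g : Polynomial F, 1 ≤ g.natDegree ∧ CommIter f g ∧
      (Associated H (MvPolynomial.X j - Polynomial.aeval (MvPolynomial.X i) g) ∨
        Associated H (MvPolynomial.X i - Polynomial.aeval (MvPolynomial.X j) g)) := by
  let e : Fin 2 → Fin n := ![i, j]
  have he0 : e 0 = i := rfl
  have he1 : e 1 = j := rfl
  let ι : MvPolynomial (Fin 2) F →ₐ[F] MvPolynomial (Fin n) F := MvPolynomial.rename e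
  let ρ : MvPolynomial (Fin n) F →ₐ[F] MvPolynomial (Fin 2) F := MvPolynomial.aeval
    (fun k => if k = i then MvPolynomial.X 0 else if k = j then MvPolynomial.X 1 else 0)
  have ιX : ∀ k, ι (MvPolynomial.X k) = MvPolynomial.X (e k) := fun k => MvPolynomial.rename_X _ _
  have ρi : ρ (MvPolynomial.X i) = MvPolynomial.X 0 := by
    simp only [ρ, MvPolynomial.aeval_X, if_true]
  have ρj : ρ (MvPolynomial.X j) = MvPolynomial.X 1 := by
    simp only [ρ, MvPolynomial.aeval_X, if_true, if_neg hij.symm]
  have hρι : ∀ z, ρ (ι z) = z := by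
    intro z
    have : ρ.comp ι = AlgHom.id F _ := by
      apply MvPolynomial.algHom_ext
      intro k
      rw [AlgHom.comp_apply, ιX, AlgHom.id_apply]
      fin_cases k
      · exact ρi
      · exact ρj
    exact DFunLike.congr_fun this z
  set H₂ := ρ H with hH₂
  have hιH : ι H₂ = H := by
    have := TwoV_congr (ι.comp ρ) (AlgHom.id F _) H (fun k hk => by
      rw [hv, Finset.mem_insert, Finset.mem_singleton] at hk
      rw [AlgHom.comp_apply, AlgHom.id_apply]
      rcases hk with rfl | rfl
      · rw [ρi, ιX]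
        exact congrArg MvPolynomial.X he0
      · rw [ρj, ιX]
        exact congrArg MvPolynomial.X he1)
    exact this
  have hirr : Irreducible H₂ := by
    refine ⟨fun hu => hH.not_isUnit (by rw [← hιH]; exact hu.map ι), fun a b hab => ?_⟩
    have h1 : H = ι a * ι b := by rw [← hιH, hab, map_mul]
    rcases hH.isUnit_or_isUnit h1 with h2 | h2
    · exact Or.inl (by have := h2.map ρ; rwa [hρι] at this)
    · exact Or.inr (by have := h2.map ρ; rwa [hρι] at this)
  have hsub : ∀ z : MvPolynomial (Fin 2) F, sub (itp f r) (ι z) = ι (sub (itp f r) z) := by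
    intro z
    have : (MvPolynomial.aeval (fun k => Polynomial.aeval
        (MvPolynomial.X k : MvPolynomial (Fin n) F) (itp f r)) :
          MvPolynomial (Fin n) F →ₐ[F] MvPolynomial (Fin n) F).comp ι =
        ι.comp (MvPolynomial.aeval (fun k => Polynomial.aeval
          (MvPolynomial.X k : MvPolynomial (Fin 2) F) (itp f r))) := by
      apply MvPolynomial.algHom_ext
      intro k
      rw [AlgHom.comp_apply, ιX, MvPolynomial.aeval_X, AlgHom.comp_apply, MvPolynomial.aeval_X,
        ← Polynomial.aeval_algHom_apply, ιX]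
    exact DFunLike.congr_fun this z
  have hdvd : H₂ ∣ sub (itp f r) H₂ := by
    have h1 := map_dvd ρ h
    rw [← hιH, hsub, hρι, hρι] at h1
    exact h1
  have hvars : ∀ k, k ∈ H₂.vars := by
    intro k
    have h1 : e k ∈ H.vars := by
      rw [hv]
      fin_cases k
      · exact Finset.mem_insert_self _ _
      · exact Finset.mem_insert_of_mem (Finset.mem_singleton_self _)
    rw [← hιH] at h1
    obtain ⟨l, hl, hl'⟩ := MvPolynomial.mem_vars_rename e H₂ h1
    have hlk : l = k := by
      fin_cases l <;> fin_cases k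
      · rfl
      · exact absurd hl' hij
      · exact absurd hl'.symm hij
      · rfl
    rw [← hlk]
    exact hl
  obtain ⟨g, g1, g2, g3⟩ := TwoV_main hf hsp hirr (hvars 0) (hvars 1) hr hdvd
  refine ⟨g, g1, g2, ?_⟩
  rcases g3 with g3 | g3
  · left
    have h1 := map_dvd ι g3
    rw [hιH, map_sub, ιX, ← Polynomial.aeval_algHom_apply, ιX] at h1
    exact hH.associated_of_dvd (TwoV_irr hij g) h1
  · right
    have h1 := map_dvd ι g3
    rw [hιH, map_sub, ιX, ← Polynomial.aeval_algHom_apply, ιX] at h1
    exact hH.associated_of_dvd (TwoV_irr hij.symm g) h1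

end Pool.Agent.MSC
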