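import Pool.Agent.MSC.Laur

/-!
# Projection to the exponents divisible by `b`
-/

namespace Pool.Agent.MSC

open Polynomial

variable {F : Type*} [Field F] [IsAlgClosed F] [CharZero F]

omit [IsAlgClosed F] [CharZero F] in
private theorem Zl1_coeff_sum {ι : Type*} (s : Finset ι) (f : ι → Om F) (k : ℤ) :
    (∑ i ∈ s, f i).coeff k = ∑ i ∈ s, (f i).coeff k := by
  classical
  induction s using Finset.induction_on with
  | empty => exact coeff_zero k
  | insert a s ha ih => rw [Finset.sum_insert ha, Finset.sum_insert ha, coeff_add, ih]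

omit [IsAlgClosed F] [CharZero F] in
private theorem Zl1_scal_one (x : Om F) : scal 1 x = x := by
  refine Om.ext fun k => ?_
  rw [scal_coeff, one_zpow, Units.val_one, one_mul]

omit [IsAlgClosed F] [CharZero F] in
/-- Symmetric functions of the roots of `P(T) - y`. -/
private theorem Zl1_symm {b : ℕ} (hb : 0 < b) {P : F[X]} (hP : P.natDegree = b) {y : Om F}
    {V : Fin b → Om F} (hV : Function.Injective V) (hVP : ∀ i, aeval (V i) P = y) (e : F[X]) :
    ∃ p : F[X], aeval y p = ∑ i, aeval (V i) e := by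
  classical
  have hinj : Function.Injective (algebraMap F (Om F)) := (algebraMap F (Om F)).injective
  set R : (Om F)[X] := P.map (algebraMap F (Om F)) - C y with hR
  have hRdeg : R.natDegree = b := by
    rw [hR, natDegree_sub_C, natDegree_map_eq_of_injective hinj, hP]
  have hR0 : R ≠ 0 := by
    intro h
    rw [h, natDegree_zero] at hRdeg
    omega
  have hRcoeff : ∀ k, R.coeff k = algebraMap F (Om F) (P.coeff k) - if k = 0 then y else 0 := by
    intro k
    rw [hR, Polynomial.coeff_sub, Polynomial.coeff_map, Polynomial.coeff_C]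
  have hlc : R.leadingCoeff = algebraMap F (Om F) P.leadingCoeff := by
    rw [leadingCoeff, hRdeg, hRcoeff, if_neg hb.ne', sub_zero, leadingCoeff, hP]
  have hPlc : P.leadingCoeff ≠ 0 := by
    rw [leadingCoeff_ne_zero]
    rintro rfl
    rw [natDegree_zero] at hP
    omega
  have hlc0 : algebraMap F (Om F) P.leadingCoeff ≠ 0 := by
    rw [Ne, map_eq_zero]
    exact hPlc
  have hroots : R.roots = Finset.univ.val.map V := by
    symm
    apply Multiset.eq_of_le_of_card_le
    · rw [Multiset.le_iff_subset ((Multiset.nodup_map_iff_of_injective hV).2 Finset.univ.nodup)]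
      intro x hx
      obtain ⟨i, _, rfl⟩ := Multiset.mem_map.1 hx
      rw [mem_roots hR0]
      show eval (V i) R = 0
      rw [hR, eval_sub, eval_C, eval_map_algebraMap, hVP, sub_self]
    · rw [Multiset.card_map]
      calc R.roots.card ≤ R.natDegree := card_roots' R
        _ = b := hRdeg
        _ = _ := by simp
  have hcard : R.roots.card = R.natDegree := by
    rw [hroots, Multiset.card_map, hRdeg]
    simp
  set τ : Fin b → F[X] := fun i => C ((-1) ^ ((i : ℕ) + 1) / P.leadingCoeff) *
    (C (P.coeff (b - ((i : ℕ) + 1))) - if b - ((i : ℕ) + 1) = 0 then X else 0) with hτ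
  have hesymm : ∀ i : Fin b, MvPolynomial.aeval V (MvPolynomial.esymm (Fin b) F ((i : ℕ) + 1)) =
      aeval y (τ i) := by
    intro i
    have hi : (i : ℕ) + 1 ≤ b := i.2
    rw [MvPolynomial.aeval_esymm_eq_multiset_esymm, ← hroots]
    have h1 := coeff_eq_esymm_roots_of_card hcard (k := b - ((i : ℕ) + 1)) (by omega)
    have h2 : R.natDegree - (b - ((i : ℕ) + 1)) = (i : ℕ) + 1 := by omega
    rw [h2, hRcoeff, hlc] at h1
    have h3 : aeval y (τ i) = algebraMap F (Om F) ((-1) ^ ((i : ℕ) + 1) / P.leadingCoeff) *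
        (algebraMap F (Om F) (P.coeff (b - ((i : ℕ) + 1))) -
          if b - ((i : ℕ) + 1) = 0 then y else 0) := by
      rw [hτ]
      simp only [map_mul, map_sub, aeval_C]
      congr 2
      split_ifs
      · rw [aeval_X]
      · rw [map_zero]
    rw [h3, h1, map_div₀, map_pow, map_neg, map_one]
    have h4 : ((-1 : Om F) ^ ((i : ℕ) + 1)) * (-1) ^ ((i : ℕ) + 1) = 1 := by
      rw [← mul_pow]
      simp
    field_simp
    linear_combination (-(R.roots.esymm ((i : ℕ) + 1))) * h4
  -- the symmetric polynomial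
  set S : MvPolynomial (Fin b) F := ∑ i, aeval (MvPolynomial.X i) e with hS
  have hSsymm : S ∈ MvPolynomial.symmetricSubalgebra (Fin b) F := by
    intro σ
    rw [hS, map_sum]
    rw [← Equiv.sum_comp σ (fun i => aeval (MvPolynomial.X i : MvPolynomial (Fin b) F) e)]
    refine Finset.sum_congr rfl fun i _ => ?_
    rw [← aeval_algHom_apply, MvPolynomial.rename_X]
  obtain ⟨q, hq⟩ := MvPolynomial.esymmAlgHom_surjective F (σ := Fin b) (n := b)
    (by rw [Fintype.card_fin]) ⟨S, hSsymm⟩
  refine ⟨MvPolynomial.aeval τ q, ?_⟩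
  have h1 : MvPolynomial.aeval V S = ∑ i, aeval (V i) e := by
    rw [hS, map_sum]
    refine Finset.sum_congr rfl fun i _ => ?_
    rw [← aeval_algHom_apply, MvPolynomial.aeval_X]
  rw [← h1]
  have h2 : S = MvPolynomial.aeval (fun i : Fin b => MvPolynomial.esymm (Fin b) F ((i : ℕ) + 1)) q := by
    rw [← MvPolynomial.esymmAlgHom_apply, hq]
  rw [h2]
  have h3 : aeval y (MvPolynomial.aeval τ q) = MvPolynomial.aeval (fun i => aeval y (τ i)) q := by
    rw [← AlgHom.comp_apply, MvPolynomial.comp_aeval]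
  have h4 : MvPolynomial.aeval V (MvPolynomial.aeval
      (fun i : Fin b => MvPolynomial.esymm (Fin b) F ((i : ℕ) + 1)) q) =
      MvPolynomial.aeval (fun i : Fin b => MvPolynomial.aeval V
        (MvPolynomial.esymm (Fin b) F ((i : ℕ) + 1))) q := by
    rw [← AlgHom.comp_apply, MvPolynomial.comp_aeval]
  rw [h3, h4]
  congr 1
  congr 1
  funext i
  exact (hesymm i).symm

/-- The part of `e(U)` with exponents divisible by `b` is a polynomial in `P(U)`.

**PROOF.** Let `ω` be a primitive `b`-th root of unity, `U_i = scal (ω^i) U`, `i < b`: different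
(the coefficient of `s^(-1)`) roots in `Om F` of `P(T) - P(U)`, because `P(U) = exm b ξ` is fixed by
`scal (ω^i)`. So `P(T) - P(U) = lc(P) Π (T - U_i)`, and `Σ_i e(U_i)` is a symmetric function of the
roots of this polynomial, so (Newton, or as trace of multiplication by `e(T)` on
`F[x][T]/(P(T) - x)`, specialised to `x = P(U)`) it is of the form `p(P(U))` with
`p ∈ F[x]`. The coefficient of `s^k` in `Σ_i e(U_i)` is `Σ_i ω^(i k)` times the one in `e(U)`, that is
`b` times it if `b ∣ k` and `0` otherwise. -/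
theorem exists_proj {b : ℕ} (hb : 0 < b) {U : Om F} (hU : U.ord = -1) {P : F[X]}
    (hP : P.natDegree = b) {ξ : Om F} (hPU : exm b hb ξ = aeval U P) (e : F[X]) :
    ∃ p : F[X], ∀ k : ℤ, (aeval (aeval U P) p).coeff k =
      if (b : ℤ) ∣ k then (aeval U e).coeff k else 0 := by
  classical
  have : NeZero (b : F) := ⟨by exact_mod_cast hb.ne'⟩
  obtain ⟨ω, hω⟩ := HasEnoughRootsOfUnity.exists_primitiveRoot F b
  obtain ⟨w, hw⟩ : ∃ w : Fˣ, (w : F) = ω := ⟨Units.mk0 ω (hω.ne_zero hb.ne'), rfl⟩
  have hwp : IsPrimitiveRoot w b := by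
    rw [← IsPrimitiveRoot.coe_units_iff, hw]
    exact hω
  have hU0 : U ≠ 0 := by
    rintro rfl
    rw [ord_zero] at hU
    omega
  have hUc : U.coeff (-1) ≠ 0 := by
    rw [← hU]
    exact coeff_ord hU0
  set V : Fin b → Om F := fun i => scal (w ^ (i : ℕ)) U with hV
  have hVinj : Function.Injective V := by
    intro i j hij
    have h1 := congrArg (fun x : Om F => x.coeff (-1)) hij
    simp only [hV, scal_coeff] at h1
    have h2 := mul_right_cancel₀ hUc h1
    have h3 := Units.val_injective h2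
    rw [zpow_neg_one, zpow_neg_one] at h3
    have h4 := inv_injective h3
    exact Fin.ext (hwp.pow_inj i.2 j.2 h4)
  have hscal : ∀ (c : Fˣ) (g : F[X]), aeval (scal c U) g = scal c (aeval U g) := by
    intro c g
    rw [aeval_algHom_apply]
  have hVP : ∀ i, aeval (V i) P = aeval U P := by
    intro i
    rw [hV]
    simp only
    rw [hscal, ← hPU, scal_exm, ← pow_mul, mul_comm, pow_mul, hwp.pow_eq_one, one_pow,
      Zl1_scal_one]
  obtain ⟨p, hp⟩ := Zl1_symm hb hP hVinj hVP e
  refine ⟨C ((b : F)⁻¹) * p, fun k => ?_⟩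
  rw [map_mul, aeval_C, coeff_C_mul, hp, Zl1_coeff_sum]
  have h1 : ∀ i : Fin b, (aeval (V i) e).coeff k =
      ((w ^ k : Fˣ) : F) ^ (i : ℕ) * (aeval U e).coeff k := by
    intro i
    rw [hV]
    simp only
    rw [hscal, scal_coeff]
    congr 1
    rw [← Units.val_pow_eq_pow_val, ← zpow_natCast, ← zpow_natCast, ← zpow_mul, ← zpow_mul,
      mul_comm]
  rw [Finset.sum_congr rfl fun i _ => h1 i, ← Finset.sum_mul,
    Fin.sum_univ_eq_sum_range (fun i => ((w ^ k : Fˣ) : F) ^ i) b]
  split_ifs with hk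
  · have h2 : (w ^ k : Fˣ) = 1 := (hwp.zpow_eq_one_iff_dvd k).2 hk
    rw [h2]
    simp only [Units.val_one, one_pow, Finset.sum_const, Finset.card_range, nsmul_eq_mul, mul_one]
    rw [← mul_assoc, inv_mul_cancel₀ (NeZero.ne (b : F)), one_mul]
  · have h2 : (w ^ k : Fˣ) ≠ 1 := fun h => hk ((hwp.zpow_eq_one_iff_dvd k).1 h)
    have h3 : ((w ^ k : Fˣ) : F) - 1 ≠ 0 := by
      intro h
      apply h2
      apply Units.val_injective
      rw [Units.val_one]
      exact sub_eq_zero.1 h
    have h4 : ((w ^ k : Fˣ) : F) ^ b = 1 := by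
      rw [← Units.val_pow_eq_pow_val, ← zpow_natCast, ← zpow_mul, mul_comm, zpow_mul,
        zpow_natCast, hwp.pow_eq_one, one_zpow, Units.val_one]
    have h5 := geom_sum_mul ((w ^ k : Fˣ) : F) b
    rw [h4, sub_self] at h5
    have h6 := (mul_eq_zero.1 h5).resolve_right h3
    rw [h6, zero_mul, mul_zero]

end Pool.Agent.MSC
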